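import Pool.Agent.W_7d29a1_SD.DefsSD
import Pool.Agent.W_7d29a1_NV.Ins79
import Pool.Agent.W_7d29a1_V.DefsV2

/-!
Theorem SDP: in very strong disorder, in almost every direction, the tube of radius `R √n` loses
all its mass at infinitely many lengths. Definitions and frozen statements of the leaves. Paper
proof: `/team-store/h51_SDP.md`.
-/

namespace Pool.Agent.W_7d29a1_SDP

open MeasureTheory ProbabilityTheory Filter Topology Pool.Agent.W_MP_7d29a1_pr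
  Pool.Agent.W_7d29a1_h46 Pool.Agent.W_7d29a1_h46u Pool.Agent.W_7d29a1_D2.B35
  Pool.Agent.W_7d29a1_Q29 Pool.Agent.W_7d29a1_NV Pool.Agent.W_7d29a1_P89
  Pool.Agent.W_7d29a1_SD

/-- `v` is a slope of the free energy at `h`, strictly inside the cone, and the free energy has a
second order lower bound at `h`. -/
structure LP {d : ℕ} (ρ : Measure ℝ) (β : ℝ) (h v : Vec d) : Prop where
  slo : ∀ k : Vec d, lam ρ β h + inner ℝ v k ≤ lam ρ β (h + k)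
  low : ∃ c : ℝ, 0 < c ∧ ∃ δ : ℝ, 0 < δ ∧ ∀ r : Vec d, ‖r‖ ≤ δ →
    c * ‖r‖ ^ 2 ≤ W_7d29a1_D2.gap (lam ρ β) h v r
  int : ∑ i, |v i| < 1

/-- At the length `n` the free energy is spread out at the scale `M` when some rows `> n / 8` are
resampled. -/
def ACn {d : ℕ} (ρ : Measure ℝ) (β : ℝ) (h : Vec d) (n : ℕ) (M η' : ℝ) : Prop :=
  ∃ (b : ℝ) (q : ℕ) (T : Fin q → ℕ), HB ρ b ∧ Function.Injective T ∧
    (∀ i, n / 8 < T i ∧ T i ≤ n) ∧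
    ((law d ρ).prod ((Measure.pi fun _ : Fin q => law d (rb ρ b)).prod
      (Measure.pi fun _ : Fin q => law d (rb ρ b)))).real
      {w | |X β h (mxJ b T w.1 w.2.1) n - X β h (mxJ b T w.1 w.2.2) n| ≤ M} ≤ η'

/-- The tube of radius `R √n` has mass at least `θ`. -/
def TubE {d : ℕ} (β : ℝ) (h v : Vec d) (R θ : ℝ) (n : ℕ) (η : Env d) : Prop :=
  θ ≤ PolT β h η (tube d n v (R * Real.sqrt n))

/-! ### Abstract leaves -/

/-- Leaf H: the upper hull of finitely many points. -/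
def Hull : Prop := ∀ (d : ℕ) (S : Finset (Vec d)) (a : Vec d → ℝ) (w : Vec d) (s : ℝ),
  (∀ g : Vec d, ∃ z ∈ S, inner ℝ g w ≤ inner ℝ g z) →
  (∀ g : Vec d, ∃ z ∈ S, s + inner ℝ g w ≤ a z + inner ℝ g z) →
    ∃ α : Vec d → ℝ, (∀ z ∈ S, 0 ≤ α z) ∧ ∑ z ∈ S, α z = 1 ∧ ∑ z ∈ S, α z • z = w ∧
      s ≤ ∑ z ∈ S, α z * a z

/-- Leaf A: anticoncentration of the free energy in a selection model with a small selection. -/
def AbsAC : Prop := ∀ B : ℝ, 1 ≤ B → ∃ C : ℝ, 0 < C ∧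
  ∀ (Ω S : Type) [MeasurableSpace Ω] [Fintype S] (k : ℕ) (P : Measure Ω) [IsProbabilityMeasure P]
    (Q : S → ℝ) (u : Fin k → S → Ω → ℝ), HT P Q u B → ∀ M c : ℝ, 1 ≤ M → 0 < c → 1 ≤ k →
    ((Measure.pi fun _ : Fin k => P).prod (Measure.pi fun _ : Fin k => P)).real
        {w | |Real.log (dT Q u w.1) - Real.log (dT Q u w.2)| ≤ M} ≤
      C * (M / Real.sqrt (c * k) + (k : ℝ) ^ 2 * Real.sqrt (∑ i, kaT P Q u i)) +
        2 * (Measure.pi fun _ : Fin k => P).real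
          {ω | ∑ i, ∑ s, prT Q u ω s * vaT P u i s < c * k}

/-! ### The polymer -/

section Leaves

variable (d : ℕ) (ρ : Measure ℝ) (β : ℝ)

/-- Leaf L: almost every direction. -/
def AeLP : Prop := ∀ᵐ v : Vec d, ∀ h : Vec d,
  (∀ k : Vec d, lam ρ β h + inner ℝ v k ≤ lam ρ β (h + k)) → LP ρ β h v

/-- Leaf P: the mean point to point free energy near the slope (from `Hull` and `ConcV`). -/
def P2P : Prop := ∀ h v : Vec d, LP ρ β h v → ∀ κ : ℝ, 0 < κ → ∃ r₁ : ℝ, 0 < r₁ ∧ r₁ ≤ 1 ∧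
  ∃ t₀ : ℕ, ∀ (t : ℕ) (z : Site d), t₀ ≤ t → W_7d29a1_V.Rch t z →
    ‖emb z - (t : ℝ) • v‖ ≤ r₁ * t → (lam ρ β h - κ * r₁) * t ≤ W_7d29a1_V.aM ρ β h t z

/-- Leaf K: a displacement which is typical and lucky (from `P2P` and `pair79`). -/
def LuckU : Prop := ∀ h v : Vec d, VSD ρ β h → LP ρ β h v → ∀ ε δ : ℝ, 0 < ε → 0 < δ →
  ∃ C' b₁ : ℝ, 0 < C' ∧ 1 ≤ b₁ ∧ ∀ b : ℝ, b₁ ≤ b → ∃ (m : ℕ) (z : Site d), 1 ≤ m ∧
    (m : ℝ) ≤ C' * b ∧ W_7d29a1_V.Rch m z ∧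
    ∫ η, max 0 (lam ρ β h * m - Real.log (PP β h η m z)) ∂(law d ρ) ≤ δ * b ∧
    Real.exp (-(ε * b)) ≤
      (law d ρ).real {ξ : Env d | Lk (⟨lam ρ β h, β, h, 1⟩ : Prm d) m z (2 * b) ξ}

/-- Leaf G: the gain of an insertion at a lucky displacement (`gain27` for every displacement). -/
def GainU : Prop := ∀ (h : Vec d) (ε C' : ℝ), 0 < ε → 0 < C' → ∃ b₁ : ℝ, 1 ≤ b₁ ∧ ∀ b : ℝ,
  b₁ ≤ b → ∀ (m : ℕ) (z : Site d), (m : ℝ) ≤ C' * b →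
    Real.exp (-(min (ε / 4) (1 / 8) * b)) ≤
      (law d ρ).real {ξ : Env d | Lk (⟨lam ρ β h, β, h, 1⟩ : Prm d) m z (2 * b) ξ} →
    ∀ n τ : ℕ, τ ≤ n → ∀ η : Env d, ¬ GoodN β h n τ b ε η →
      1 / 2 ≤ (law d ρ).real {ξ | X β h η n + (lam ρ β h * m + b) ≤
        X β h (insE τ m z η ξ) (n + m)}

open Classical in
/-- Leaf M: the laws of all the positions are concentrated on few sites, at most lengths (from
`LuckU` and `GainU`). -/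
def MulU : Prop := ∀ h v : Vec d, VSD ρ β h → LP ρ β h v → ∀ ε δ : ℝ, 0 < ε → 0 < δ →
  ∃ b₁ : ℝ, ∀ b₀ : ℝ, b₁ ≤ b₀ → ∃ N₀ : ℕ, ∀ N : ℕ, N₀ ≤ N →
    (((Finset.Ico N (2 * N)).filter fun n => ∃ τ : ℕ, τ ≤ n ∧
      ¬ (law d ρ).real {η | ¬ GoodN β h n τ b₀ ε η} ≤ δ).card : ℝ) ≤ δ * N

/-- Leaf V: the variance of the gain of a row is at least a multiple of the square of the mass of
any bounded site of this row. -/
def VarA (b : ℝ) : Prop := ∃ c : ℝ, 0 < c ∧ ∀ (h : Vec d) (n t a b' : ℕ), a < t → t ≤ b' →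
  b' ≤ n → ∀ (η : Env d) (z : Site d), |η (t, z)| ≤ b →
    c * Qt β h n t z η ^ 2 ≤
      ∑ x ∈ boxF d n, ∑ y ∈ boxF d n, pab β h n a b' x y η *
        ∫ ξ, (Real.log (uab ρ β b h t a b' x y η ξ) - psab ρ β b h t a b' x y η) ^ 2
          ∂(law d (rb ρ b))

open Classical in
/-- Leaf T: anticoncentration of the free energy, at most lengths (from `MulU`, `AbsAC`, `VarA`,
`RowsW`). -/
def ACt : Prop := ∀ h v : Vec d, VSD ρ β h → LP ρ β h v → ∀ M η' : ℝ, 0 < η' → ∃ N₀ : ℕ,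
  ∀ N : ℕ, N₀ ≤ N →
    (((Finset.Ico N (2 * N)).filter fun n => ¬ ACn ρ β h n M η').card : ℝ) ≤ η' * N

/-- Leaf Q: two disjoint tubes which have mass at least `θ` at the same time with probability at
least `α`. -/
def PairP : Prop := ∀ b : ℝ, HB ρ b → ∀ (h₁ h₂ v₁ v₂ : Vec d) (n p q : ℕ) (T : Fin q → ℕ)
  (R a C θ α : ℝ), Function.Injective T → (∀ i, p < T i) → 0 ≤ R → 0 ≤ a → 0 ≤ C → 0 < θ →
  θ ≤ 1 → 0 ≤ α → ‖v₂ - v₁‖ * Real.sqrt n ≤ a → ‖h₂ - h₁‖ * Real.sqrt n ≤ C →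
  2 * R * Real.sqrt n < p * ‖v₂ - v₁‖ →
  α ≤ (law d ρ).real {η | TubE β h₁ v₁ R θ n η ∧ TubE β h₂ v₂ R θ n η} →
    α ^ 3 / 32 ≤ ((law d ρ).prod ((Measure.pi fun _ : Fin q => law d (rb ρ b)).prod
      (Measure.pi fun _ : Fin q => law d (rb ρ b)))).real
      {w | |X β h₁ (mxJ b T w.1 w.2.1) n - X β h₁ (mxJ b T w.1 w.2.2) n| ≤
        C * a + 2 * C * R - 5 * Real.log θ}

/-- Leaf D: a velocity whose tube keeps mass is a slope of the free energy. -/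
def SubP : Prop := ∀ (h v : Vec d) (R θ α : ℝ) (n₀ : ℕ), 0 < θ → 0 < α →
  (∀ n : ℕ, n₀ ≤ n → α ≤ (law d ρ).real {η | TubE β h v R θ n η}) →
    ∀ k : Vec d, lam ρ β h + inner ℝ v k ≤ lam ρ β (h + k)

/-- The theorem (leaf S: from `ACt`, `PairP`, `SubP`, `AeLP`). -/
def MainSDP : Prop := ∀ᵐ v : Vec d, ∀ h : Vec d, VSD ρ β h → ∀ R ε : ℝ, 0 < ε →
  ∀ N : ℕ, ∃ n : ℕ, N ≤ n ∧ 1 - ε < Tb ρ β h v R n

end Leaves

end Pool.Agent.W_7d29a1_SDP
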