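import Pool.Agent.W_7d29a1_SDP.P2P1
import Pool.Agent.W_7d29a1_V.Conc42
import Pool.Agent.W_7d29a1_V.Rch48
import Pool.Agent.W_7d29a1_V.LipA74
import Pool.Agent.W_7d29a1_P79.End79

/-!
Leaf K: a displacement which is typical and lucky.
-/

namespace Pool.Agent.W_7d29a1_SDP

open MeasureTheory ProbabilityTheory Filter Topology Pool.Agent.W_MP_7d29a1_pr
  Pool.Agent.W_7d29a1_h46 Pool.Agent.W_7d29a1_h46u Pool.Agent.W_7d29a1_D2.B35
  Pool.Agent.W_7d29a1_Q29 Pool.Agent.W_7d29a1_NV Pool.Agent.W_7d29a1_P89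
  Pool.Agent.W_7d29a1_SD Pool.Agent.W_7d29a1_P78

variable {d : ℕ} {ρ : Measure ℝ} [IsProbabilityMeasure ρ]

/-- Two lucky segments in a row. -/
lemma concat21 (P : Prm d) (k l : ℕ) (y y' : Site d) (u u' : ℝ) :
    (law d ρ).real {η | Lk P k y u η} * (law d ρ).real {η | Lk P l y' u' η} ≤
      (law d ρ).real {η | Lk P (k + l) (y + y') (u + u') η} := by
  set A : Set (Env d) := {η | Lk P k y u η} with hA
  set B0 : Set (Env d) := {η | Lk P l y' u' η} with hB0
  set B : Set (Env d) := sh k y ⁻¹' B0 with hB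
  have hAm : MeasurableSet A := measurableSet_Lk78 P k y u
  have hB0m : MeasurableSet B0 := measurableSet_Lk78 P _ _ _
  have hBm : MeasurableSet B := hB0m.preimage (measurable_sh k y)
  have hsub : A ∩ B ⊆ {η | Lk P (k + l) (y + y') (u + u') η} := by
    rintro η ⟨h1, h2⟩
    change Real.exp _ ≤ _
    have h1' : Real.exp u ≤ W P η k y := h1
    have h2' : Real.exp u' ≤ W P (sh k y η) l y' := h2
    refine le_trans ?_ (W_chain78 P η k l y y')
    rw [Real.exp_add]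
    exact mul_le_mul h1' h2' (Real.exp_pos _).le (W_nonneg78 _ _ _ _)
  have hdA : DependsOn (A.indicator fun _ => (1 : ℝ)) {p : ℕ × Site d | p.1 ≤ k} := by
    intro η η' hη
    have h := dependsOn_W78 P k y fun p (hp : p ∈ {p : ℕ × Site d | 1 ≤ p.1 ∧ p.1 ≤ k}) =>
      hη p hp.2
    have h' : W P η k y = W P η' k y := h
    by_cases hm : η ∈ A
    · have hm' : η' ∈ A := by
        change Real.exp u ≤ _
        rw [← h']
        exact hm
      rw [Set.indicator_of_mem hm, Set.indicator_of_mem hm']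
    · have hm' : η' ∉ A := by
        intro hc
        exact hm (by change Real.exp u ≤ _; rw [h']; exact hc)
      rw [Set.indicator_of_notMem hm, Set.indicator_of_notMem hm']
  have hdB : DependsOn (B.indicator fun _ => (1 : ℝ)) {p : ℕ × Site d | p.1 ≤ k}ᶜ := by
    intro η η' hη
    have hh : ∀ p ∈ {p : ℕ × Site d | 1 ≤ p.1 ∧ p.1 ≤ l}, sh k y η p = sh k y η' p := by
      intro p hp
      refine hη (p.1 + k, p.2 + y) ?_
      have hp1 : 1 ≤ p.1 := hp.1
      change ¬ (p.1 + k ≤ k)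
      omega
    have h' : W P (sh k y η) l y' = W P (sh k y η') l y' := dependsOn_W78 P l y' hh
    by_cases hm : η ∈ B
    · have hm' : η' ∈ B := by
        change Real.exp _ ≤ _
        rw [← h']
        exact hm
      rw [Set.indicator_of_mem hm, Set.indicator_of_mem hm']
    · have hm' : η' ∉ B := by
        intro hc
        exact hm (by change Real.exp _ ≤ _; rw [h']; exact hc)
      rw [Set.indicator_of_notMem hm, Set.indicator_of_notMem hm']
  have hBr : (law d ρ).real B = (law d ρ).real B0 := by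
    unfold Measure.real
    rw [hB, (mp_sh k y).measure_preimage hB0m.nullMeasurableSet]
  rw [← hBr, ← real_indep78 _ hAm hBm hdA hdB]
  exact measureReal_mono hsub

/-- The Euclidean norm is at most the sum of the coordinates. -/
lemma norm_le_sum21 (x : Vec d) : ‖x‖ ≤ ∑ i, |x i| := by
  rw [EuclideanSpace.norm_eq]
  refine Real.sqrt_le_iff.2 ⟨Finset.sum_nonneg fun i _ => abs_nonneg _, ?_⟩
  have h1 : ∀ i : Fin d, ‖x i‖ ^ 2 = |x i| ^ 2 := fun i => by rw [Real.norm_eq_abs]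
  rw [Finset.sum_congr rfl fun i _ => h1 i]
  exact Finset.sum_sq_le_sq_sum_of_nonneg fun i _ => abs_nonneg _

/-- A reachable site next to `t v`. -/
lemma near21 (hd : 0 < d) (v : Vec d) (hv : ∑ i, |v i| < 1) : ∃ t₁ : ℕ, ∀ t : ℕ, t₁ ≤ t →
    ∃ z : Site d, W_7d29a1_V.Rch t z ∧ ‖emb z - (t : ℝ) • v‖ ≤ d + 1 := by
  obtain ⟨s, hs⟩ : ∃ s : ℝ, s = ∑ i, |v i| := ⟨_, rfl⟩
  rw [← hs] at hv
  obtain ⟨t₁, ht₁⟩ := exists_nat_ge (((d : ℝ) + 1) / (1 - s))
  refine ⟨t₁, fun t ht => ?_⟩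
  have hs1 : 0 < 1 - s := by linarith
  have htb : (d : ℝ) + 1 ≤ (1 - s) * t := by
    have h1 : ((d : ℝ) + 1) / (1 - s) ≤ t := ht₁.trans (by exact_mod_cast ht)
    rw [div_le_iff₀ hs1] at h1
    linarith
  obtain ⟨w, hw⟩ : ∃ w : Site d, w = fun i => ⌊(t : ℝ) * v i⌋ := ⟨_, rfl⟩
  have hw1 : ∀ i, |(w i : ℝ) - t * v i| ≤ 1 := by
    intro i
    rw [hw]
    have h1 := Int.floor_le ((t : ℝ) * v i)
    have h2 := Int.lt_floor_add_one ((t : ℝ) * v i)
    rw [abs_le]
    constructor <;> linarith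
  have hl1 : (W_7d29a1_V.l1 w : ℝ) ≤ s * t + d := by
    unfold W_7d29a1_V.l1
    push_cast
    have h1 : ∀ i : Fin d, ((w i).natAbs : ℝ) ≤ t * |v i| + 1 := by
      intro i
      have h2 : ((w i).natAbs : ℝ) = |(w i : ℝ)| := by
        rw [← Int.cast_abs, Int.abs_eq_natAbs]
        simp
      rw [h2]
      have h3 : |(w i : ℝ)| ≤ |(w i : ℝ) - t * v i| + |(t : ℝ) * v i| := by
        have := abs_add_le ((w i : ℝ) - t * v i) (t * v i)
        simpa using this
      have h4 : |(t : ℝ) * v i| = t * |v i| := by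
        rw [abs_mul, abs_of_nonneg (Nat.cast_nonneg t)]
      have := hw1 i
      linarith
    calc ∑ i, ((w i).natAbs : ℝ) ≤ ∑ i : Fin d, ((t : ℝ) * |v i| + 1) :=
          Finset.sum_le_sum fun i _ => h1 i
      _ = s * t + d := by
          rw [Finset.sum_add_distrib, ← Finset.mul_sum, ← hs]
          simp
          ring
  have hn0 : ‖emb w - (t : ℝ) • v‖ ≤ d := by
    refine (norm_le_sum21 _).trans ?_
    have h1 : ∀ i : Fin d, |(emb w - (t : ℝ) • v) i| ≤ 1 := by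
      intro i
      have h2 : (emb w - (t : ℝ) • v) i = (w i : ℝ) - t * v i := rfl
      rw [h2]
      exact hw1 i
    calc ∑ i, |(emb w - (t : ℝ) • v) i| ≤ ∑ _ : Fin d, (1 : ℝ) :=
          Finset.sum_le_sum fun i _ => h1 i
      _ = d := by simp
  by_cases hpar : W_7d29a1_V.l1 w % 2 = t % 2
  · refine ⟨w, W_7d29a1_V.LipA74.rch_of hd t w ?_ hpar, by linarith⟩
    have : (W_7d29a1_V.l1 w : ℝ) ≤ t := by linarith
    exact_mod_cast this
  · obtain ⟨j, hj⟩ : ∃ j : Fin d, j = ⟨0, hd⟩ := ⟨_, rfl⟩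
    obtain ⟨z, hz⟩ : ∃ z : Site d, z = w + vec (j, true) := ⟨_, rfl⟩
    have hzi : ∀ i, i ≠ j → z i = w i := by
      intro i hi
      rw [hz]
      simp [vec, Pi.single_eq_of_ne hi]
    have hzj : z j = w j + 1 := by
      rw [hz]
      simp [vec]
    have hsum : W_7d29a1_V.l1 z + (w j).natAbs = W_7d29a1_V.l1 w + (z j).natAbs := by
      unfold W_7d29a1_V.l1
      rw [← Finset.add_sum_erase Finset.univ (fun i => (z i).natAbs) (Finset.mem_univ j),
        ← Finset.add_sum_erase Finset.univ (fun i => (w i).natAbs) (Finset.mem_univ j)]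
      have h1 : ∑ i ∈ Finset.univ.erase j, (z i).natAbs =
          ∑ i ∈ Finset.univ.erase j, (w i).natAbs :=
        Finset.sum_congr rfl fun i hi => by rw [hzi i (Finset.ne_of_mem_erase hi)]
      rw [h1]
      ring
    have hzl : W_7d29a1_V.l1 z ≤ W_7d29a1_V.l1 w + 1 := by omega
    have hzp : W_7d29a1_V.l1 z % 2 = t % 2 := by omega
    refine ⟨z, W_7d29a1_V.LipA74.rch_of hd t z ?_ hzp, ?_⟩
    · have : ((W_7d29a1_V.l1 w + 1 : ℕ) : ℝ) ≤ t := by
        push_cast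
        linarith
      have h2 : W_7d29a1_V.l1 w + 1 ≤ t := by exact_mod_cast this
      omega
    · have h1 : emb z = emb w + emb (vec (j, true)) := by
        rw [hz]
        ext i
        simp [emb]
      have h2 : ‖emb (vec (j, true))‖ = 1 := by
        rw [norm_emb]
        exact nrm_vec (j, true)
      calc ‖emb z - (t : ℝ) • v‖ = ‖(emb w - (t : ℝ) • v) + emb (vec (j, true))‖ := by
            rw [h1]
            congr 1
            abel
        _ ≤ ‖emb w - (t : ℝ) • v‖ + ‖emb (vec (j, true))‖ := norm_add_le _ _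
        _ ≤ d + 1 := by linarith

/-- **Leaf K.** -/
theorem luckU21 (hd : 0 < d) (hρ : EM ρ) {β : ℝ} (hP : P2P1 d ρ β) : LuckU d ρ β := by
  intro h v hV hLP ε δ hε hδ
  obtain ⟨P, hPd⟩ : ∃ P : Prm d, P = ⟨lam ρ β h, β, h, 1⟩ := ⟨_, rfl⟩
  have hPP := Pool.Agent.W_7d29a1_P79.hP79 hd hρ hV
  rw [← hPd] at hPP
  obtain ⟨θ, hθd⟩ : ∃ θ : ℝ, θ = min (ε / 8) 1 := ⟨_, rfl⟩
  have hθ0 : 0 < θ := by rw [hθd]; exact lt_min (by positivity) one_pos
  have hθ1 : θ ≤ ε / 8 := by rw [hθd]; exact min_le_left _ _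
  have hθ2 : θ ≤ 1 := by rw [hθd]; exact min_le_right _ _
  obtain ⟨k, y, u, hk1, hu1, hp⟩ := Pool.Agent.W_7d29a1_P79.pair79 hd hρ P hPP hθ0 hθ2
  have hu0 : 0 < u := by linarith
  have hk0 : (1 : ℝ) ≤ k := by exact_mod_cast hk1
  obtain ⟨C0, hC0, hC⟩ := W_7d29a1_V.Conc42_mom hρ β 1 (d := d)
  obtain ⟨Cc, hCcd⟩ : ∃ Cc : ℝ, Cc = C0 + 1 := ⟨_, rfl⟩
  have hCc : 0 < Cc := by rw [hCcd]; linarith
  obtain ⟨Cy, hCy⟩ : ∃ Cy : ℝ, Cy = ‖emb y‖ + k * ‖v‖ := ⟨_, rfl⟩
  have hCy0 : 0 ≤ Cy := by rw [hCy]; positivity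
  obtain ⟨Λ, hΛ⟩ : ∃ Λ : ℝ, Λ = 4 * Cy + d + 1 := ⟨_, rfl⟩
  have hd0 : (0 : ℝ) ≤ d := Nat.cast_nonneg d
  have hΛ1 : 1 ≤ Λ := by rw [hΛ]; linarith
  obtain ⟨κ, hκd⟩ : ∃ κ : ℝ, κ = min (1 / (8 * Λ)) (δ / (4 * (4 * k + Λ + 1))) := ⟨_, rfl⟩
  have hκ0 : 0 < κ := by rw [hκd]; exact lt_min (by positivity) (by positivity)
  have hκ1 : κ * Λ ≤ 1 / 8 := by
    have h1 : κ ≤ 1 / (8 * Λ) := by rw [hκd]; exact min_le_left _ _
    rw [le_div_iff₀ (by positivity)] at h1
    linarith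
  have hκ2 : 2 * κ * (4 * k + Λ + 1) ≤ δ / 2 := by
    have h1 : κ ≤ δ / (4 * (4 * k + Λ + 1)) := by rw [hκd]; exact min_le_right _ _
    rw [le_div_iff₀ (by positivity)] at h1
    linarith
  obtain ⟨r₁, hr0, hr1, t₀, hP1⟩ := hP h v hLP κ hκ0
  obtain ⟨t₁, ht₁⟩ := near21 hd v hLP.int
  obtain ⟨K, hKd⟩ : ∃ K : ℝ, K = Λ / r₁ := ⟨_, rfl⟩
  have hK0 : 0 < K := by rw [hKd]; positivity
  have hrK : r₁ * K = Λ := by rw [hKd]; field_simp
  obtain ⟨E, hEd⟩ : ∃ E : ℝ, E = Cc ^ 2 / (κ * r₁) := ⟨_, rfl⟩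
  have hE0 : 0 < E := by rw [hEd]; positivity
  -- the square root is absorbed
  have hsqrt : ∀ x : ℝ, 0 ≤ x → 2 * Cc * Real.sqrt x ≤ κ * r₁ * x + E := by
    intro x hx
    have h1 : Real.sqrt x ^ 2 = x := Real.sq_sqrt hx
    have h2 : 0 < κ * r₁ := by positivity
    have h3 : E = (κ * r₁) * (Cc / (κ * r₁)) ^ 2 := by
      rw [hEd]
      field_simp
    have h4 : κ * r₁ * x + E - 2 * Cc * Real.sqrt x =
        (κ * r₁) * (Real.sqrt x - Cc / (κ * r₁)) ^ 2 := by
      rw [h3]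
      nth_rewrite 1 [← h1]
      field_simp
      ring
    have h5 : 0 ≤ (κ * r₁) * (Real.sqrt x - Cc / (κ * r₁)) ^ 2 := by positivity
    linarith
  obtain ⟨b₁, hb₁⟩ : ∃ b₁ : ℝ, b₁ = 1 + (t₀ + t₁) / K + 4 * (2 + E) + 2 * (θ * u + 1) / ε +
      2 * E / δ := ⟨_, rfl⟩
  refine ⟨4 * k + K + 1, b₁, by positivity, ?_, fun b hb => ?_⟩
  · rw [hb₁]
    have h1 : 0 ≤ ((t₀ : ℝ) + t₁) / K := by positivity
    have h2 : 0 ≤ 4 * (2 + E) := by positivity
    have h3 : 0 ≤ 2 * (θ * u + 1) / ε := by positivity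
    have h4 : 0 ≤ 2 * E / δ := by positivity
    linarith
  have g1 : 0 ≤ ((t₀ : ℝ) + t₁) / K := by positivity
  have g2 : 0 ≤ 4 * (2 + E) := by positivity
  have g3 : 0 ≤ 2 * (θ * u + 1) / ε := by positivity
  have g4 : 0 ≤ 2 * E / δ := by positivity
  rw [hb₁] at hb
  have hb1 : 1 ≤ b := by linarith
  have hb0 : 0 < b := by linarith
  have hbt : (t₀ : ℝ) + t₁ ≤ K * b := by
    have h1 : ((t₀ : ℝ) + t₁) / K ≤ b := by linarith
    rw [div_le_iff₀ hK0] at h1
    linarith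
  have hbE : 4 * (2 + E) ≤ b := by linarith
  have hbε : θ * u + 1 ≤ ε * b / 2 := by
    have h1 : 2 * (θ * u + 1) / ε ≤ b := by linarith
    rw [div_le_iff₀ hε] at h1
    linarith
  have hbδ : E ≤ δ * b / 2 := by
    have h1 : 2 * E / δ ≤ b := by linarith
    rw [div_le_iff₀ hδ] at h1
    linarith
  clear hb hb₁ g1 g2 g3 g4
  -- the compensating segment
  obtain ⟨mc, hmc⟩ : ∃ mc : ℕ, mc = ⌈K * b⌉₊ := ⟨_, rfl⟩
  have hmc1 : K * b ≤ mc := by rw [hmc]; exact Nat.le_ceil _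
  have hmc2 : (mc : ℝ) ≤ K * b + 1 := by
    rw [hmc]
    exact (Nat.ceil_lt_add_one (by positivity)).le
  have hmct : t₀ + t₁ ≤ mc := by
    have : ((t₀ + t₁ : ℕ) : ℝ) ≤ mc := by
      push_cast
      linarith
    exact_mod_cast this
  have hmcpos : 1 ≤ mc := by
    have h1 : 0 < K * b := by positivity
    have h2 : (0 : ℝ) < mc := by linarith
    exact_mod_cast h2
  obtain ⟨zc, hzc1, hzc2⟩ := ht₁ mc (by omega)
  have hr1mc : r₁ * mc ≤ Λ * b + 1 := by
    calc r₁ * mc ≤ r₁ * (K * b + 1) := mul_le_mul_of_nonneg_left hmc2 hr0.le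
      _ = (r₁ * K) * b + r₁ := by ring
      _ ≤ Λ * b + 1 := by rw [hrK]; linarith
  have hr1mc' : Λ * b ≤ r₁ * mc := by
    calc Λ * b = r₁ * (K * b) := by rw [← hrK]; ring
      _ ≤ r₁ * mc := mul_le_mul_of_nonneg_left hmc1 hr0.le
  have hLPmc : (lam ρ β h - κ * r₁) * mc ≤ W_7d29a1_V.aM ρ β h mc zc := by
    refine hP1 mc zc (by omega) hzc1 (hzc2.trans ?_)
    have h1 : (d : ℝ) + 1 ≤ Λ * 1 := by rw [hΛ]; linarith
    have h2 : Λ * 1 ≤ Λ * b := mul_le_mul_of_nonneg_left hb1 (by linarith)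
    linarith
  have hWlog : ∀ (n : ℕ) (z : Site d), W_7d29a1_V.Rch n z → ∀ η : Env d, ∀ L : ℝ,
      (n : ℝ) * lam ρ β h + L ≤ Real.log (PP β h η n z) → Lk P n z L η := by
    intro n z hz η L hL
    have h1 : 0 < PP β h η n z := W_7d29a1_V.R48.PP_pos hz
    change Real.exp L ≤ W P η n z
    unfold W
    rw [hPd]
    simp only
    rw [← Real.exp_log h1, ← Real.exp_add]
    refine Real.exp_le_exp.2 ?_
    linarith
  have hL1 : 1 / 2 ≤ (law d ρ).real {ξ : Env d | Lk P mc zc (-b) ξ} := by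
    obtain ⟨hCi, hCl⟩ := hC h mc zc hmcpos hzc1
    simp only [pow_one] at hCi hCl
    obtain ⟨B, hB⟩ : ∃ B : Set (Env d), B = {η : Env d | 2 * Cc * Real.sqrt mc ≤
      |Real.log (PP β h η mc zc) - W_7d29a1_V.aM ρ β h mc zc|} := ⟨_, rfl⟩
    have hsq : 0 < Real.sqrt mc := Real.sqrt_pos.2 (by exact_mod_cast hmcpos)
    have h1 : (law d ρ).real B ≤ 1 / 2 := by
      have h2 := mul_meas_ge_le_integral_of_nonneg (μ := law d ρ)
        (f := fun η => |Real.log (PP β h η mc zc) - W_7d29a1_V.aM ρ β h mc zc|)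
        (Eventually.of_forall fun η => abs_nonneg _) hCi (2 * Cc * Real.sqrt mc)
      rw [← hB] at h2
      have h3 : 2 * Cc * Real.sqrt mc * (law d ρ).real B ≤ Cc * Real.sqrt mc := by
        refine h2.trans (hCl.trans ?_)
        exact mul_le_mul_of_nonneg_right (by rw [hCcd]; linarith) hsq.le
      have h4 : 0 < Cc * Real.sqrt mc := by positivity
      have h5 : Cc * Real.sqrt mc * (2 * (law d ρ).real B) ≤ Cc * Real.sqrt mc * 1 := by
        linarith
      have h6 := le_of_mul_le_mul_left h5 h4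
      linarith
    have hBm : MeasurableSet B := by
      rw [hB]
      refine measurableSet_le measurable_const ?_
      exact ((Real.measurable_log.comp (measurable_ZT β h _)).sub_const _).norm
    have h7 : Bᶜ ⊆ {ξ : Env d | Lk P mc zc (-b) ξ} := by
      intro η hη
      rw [hB] at hη
      have h8 : |Real.log (PP β h η mc zc) - W_7d29a1_V.aM ρ β h mc zc| <
          2 * Cc * Real.sqrt mc := not_le.1 hη
      refine hWlog mc zc hzc1 η (-b) ?_
      have h9 := (abs_lt.1 h8).1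
      have h10 := hsqrt mc (Nat.cast_nonneg _)
      have h11 : κ * r₁ * mc ≤ κ * (Λ * b + 1) := by
        calc κ * r₁ * mc = κ * (r₁ * mc) := by ring
          _ ≤ κ * (Λ * b + 1) := mul_le_mul_of_nonneg_left hr1mc hκ0.le
      have h12 : κ * (Λ * b + 1) = κ * Λ * b + κ := by ring
      have h13 : κ * Λ * b ≤ 1 / 8 * b := mul_le_mul_of_nonneg_right hκ1 hb0.le
      have h14 : κ ≤ 1 / 8 := by
        calc κ = κ * 1 := (mul_one κ).symm
          _ ≤ κ * Λ := mul_le_mul_of_nonneg_left hΛ1 hκ0.le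
          _ ≤ 1 / 8 := hκ1
      linarith
    have h15 := measureReal_mono (μ := law d ρ) h7
    rw [probReal_compl_eq_one_sub hBm] at h15
    linarith
  -- the lucky segments
  obtain ⟨r, hr⟩ : ∃ r : ℕ, r = ⌈3 * b / u⌉₊ := ⟨_, rfl⟩
  have hru1 : 3 * b / u ≤ r := by rw [hr]; exact Nat.le_ceil _
  have hru2 : (r : ℝ) < 3 * b / u + 1 := by
    rw [hr]
    exact Nat.ceil_lt_add_one (by positivity)
  have hU1 : 3 * b ≤ r * u := by
    rw [div_le_iff₀ hu0] at hru1
    exact hru1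
  have hU2 : (r : ℝ) * u ≤ 3 * b + u := by
    have := mul_le_mul_of_nonneg_right hru2.le hu0.le
    rw [add_mul, div_mul_cancel₀ _ hu0.ne', one_mul] at this
    exact this
  have hr4 : (r : ℝ) ≤ 4 * b := by
    have h1 : 3 * b / u ≤ 3 * b := div_le_self (by positivity) hu1
    linarith
  obtain ⟨m, hm⟩ : ∃ m : ℕ, m = r * k + mc := ⟨_, rfl⟩
  obtain ⟨z, hz⟩ : ∃ z : Site d, z = r • y + zc := ⟨_, rfl⟩
  have hprob : Real.exp (-(ε * b)) ≤ (law d ρ).real {ξ : Env d | Lk P m z (2 * b) ξ} := by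
    have h1 : Real.exp (-(θ * u * r)) ≤
        (law d ρ).real {η : Env d | Lk P (r * k) (r • y) ((r : ℝ) * u) η} := by
      refine le_trans ?_ (concat78 P k y u r)
      refine le_trans (le_of_eq ?_) (pow_le_pow_left₀ (Real.exp_pos _).le hp r)
      rw [← Real.exp_nat_mul]
      congr 1
      ring
    have h2 : Real.exp (-(θ * u * r)) * (1 / 2) ≤
        (law d ρ).real {ξ : Env d | Lk P m z ((r : ℝ) * u + -b) ξ} := by
      rw [hm, hz]
      refine le_trans ?_ (concat21 P (r * k) mc (r • y) zc ((r : ℝ) * u) (-b))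
      exact mul_le_mul h1 hL1 (by norm_num) measureReal_nonneg
    have h3 : (law d ρ).real {ξ : Env d | Lk P m z ((r : ℝ) * u + -b) ξ} ≤
        (law d ρ).real {ξ : Env d | Lk P m z (2 * b) ξ} := by
      refine measureReal_mono fun ξ hξ => ?_
      have h4 : Real.exp ((r : ℝ) * u + -b) ≤ W P ξ m z := hξ
      exact (Real.exp_le_exp.2 (by linarith)).trans h4
    refine le_trans ?_ (h2.trans h3)
    have h5 : (1 / 2 : ℝ) = Real.exp (-Real.log 2) := by
      rw [Real.exp_neg, Real.exp_log (by norm_num)]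
      norm_num
    rw [h5, ← Real.exp_add]
    refine Real.exp_le_exp.2 ?_
    have h6 : Real.log 2 ≤ 1 := by
      have := Real.log_two_lt_d9
      linarith
    have h7 : θ * u * r ≤ θ * (3 * b + u) := by
      calc θ * u * r = θ * (r * u) := by ring
        _ ≤ θ * (3 * b + u) := mul_le_mul_of_nonneg_left hU2 hθ0.le
    have h8 : θ * (3 * b + u) = 3 * (θ * b) + θ * u := by ring
    have h9 : θ * b ≤ ε / 8 * b := mul_le_mul_of_nonneg_right hθ1 hb0.le
    have h10 : 0 < ε * b := by positivity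
    linarith
  have hRch : W_7d29a1_V.Rch m z := by
    by_contra hcon
    have h1 : {ξ : Env d | Lk P m z (2 * b) ξ} = ∅ := by
      refine Set.eq_empty_iff_forall_notMem.2 fun ξ hξ => ?_
      have h2 : Real.exp (2 * b) ≤ W P ξ m z := hξ
      unfold W at h2
      rw [hPd] at h2
      simp only at h2
      rw [W_7d29a1_V.R48.PP_eq_zero hcon, mul_zero] at h2
      exact absurd h2 (not_le.2 (Real.exp_pos _))
    rw [h1] at hprob
    simp only [measureReal_empty] at hprob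
    exact absurd hprob (not_le.2 (Real.exp_pos _))
  have hmR : (m : ℝ) = r * k + mc := by
    rw [hm]
    push_cast
    ring
  have hm1 : 1 ≤ m := by omega
  have hmC : (m : ℝ) ≤ (4 * k + K + 1) * b := by
    rw [hmR]
    have h1 : (r : ℝ) * k ≤ 4 * b * k := mul_le_mul_of_nonneg_right hr4 (by linarith)
    have h2 : (4 * (k : ℝ) + K + 1) * b = 4 * b * k + K * b + b := by ring
    linarith
  -- the displacement is typical
  have htyp : ‖emb z - (m : ℝ) • v‖ ≤ r₁ * m := by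
    have h1 : emb z - (m : ℝ) • v = (r : ℝ) • (emb y - (k : ℝ) • v) + (emb zc - (mc : ℝ) • v) := by
      rw [hz, hmR]
      ext i
      simp [emb]
      ring
    have h2 : ‖emb y - (k : ℝ) • v‖ ≤ Cy := by
      rw [hCy]
      refine (norm_sub_le _ _).trans ?_
      rw [norm_smul, Real.norm_eq_abs, abs_of_nonneg (Nat.cast_nonneg k)]
    have h3 : ‖(r : ℝ) • (emb y - (k : ℝ) • v)‖ ≤ 4 * b * Cy := by
      rw [norm_smul, Real.norm_eq_abs, abs_of_nonneg (Nat.cast_nonneg r)]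
      exact mul_le_mul hr4 h2 (norm_nonneg _) (by positivity)
    rw [h1]
    refine (norm_add_le _ _).trans ?_
    have h4 : 4 * b * Cy + (d + 1) ≤ Λ * b := by
      rw [hΛ]
      have : (d : ℝ) + 1 ≤ (d + 1) * b := le_mul_of_one_le_right (by positivity) hb1
      linarith
    have h5 : r₁ * mc ≤ r₁ * m := by
      refine mul_le_mul_of_nonneg_left ?_ hr0.le
      rw [hmR]
      have : 0 ≤ (r : ℝ) * k := by positivity
      linarith
    linarith
  have hLPm : (lam ρ β h - κ * r₁) * m ≤ W_7d29a1_V.aM ρ β h m z :=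
    hP1 m z (by omega) hRch htyp
  have hmean : ∫ η, max 0 (lam ρ β h * m - Real.log (PP β h η m z)) ∂(law d ρ) ≤ δ * b := by
    obtain ⟨hCi, hCl⟩ := hC h m z hm1 hRch
    simp only [pow_one] at hCi hCl
    have h0 : 0 ≤ κ * r₁ * m := by positivity
    have h1 : ∫ η, max 0 (lam ρ β h * m - Real.log (PP β h η m z)) ∂(law d ρ) ≤
        ∫ η, (κ * r₁ * m + |Real.log (PP β h η m z) - W_7d29a1_V.aM ρ β h m z|) ∂(law d ρ) := by
      refine integral_mono_of_nonneg (Eventually.of_forall fun η => le_max_left _ _)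
        ((integrable_const _).add hCi) (Eventually.of_forall fun η => ?_)
      refine max_le (add_nonneg h0 (abs_nonneg _)) ?_
      have h2 := neg_abs_le (Real.log (PP β h η m z) - W_7d29a1_V.aM ρ β h m z)
      have h3 : (lam ρ β h - κ * r₁) * m = lam ρ β h * m - κ * r₁ * m := by ring
      simp only
      linarith
    rw [integral_add (integrable_const _) hCi] at h1
    have h4 : ∫ _ : Env d, κ * r₁ * (m : ℝ) ∂(law d ρ) = κ * r₁ * m := by simp
    rw [h4] at h1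
    have h5 := hsqrt m (Nat.cast_nonneg _)
    have hsq0 : 0 ≤ Real.sqrt m := Real.sqrt_nonneg _
    have h6 : C0 * Real.sqrt m ≤ 2 * Cc * Real.sqrt m :=
      mul_le_mul_of_nonneg_right (by rw [hCcd]; linarith) hsq0
    have h7 : r₁ * m ≤ (4 * k + Λ + 1) * b := by
      have h8 : r₁ * ((r : ℝ) * k) ≤ 1 * (4 * b * k) :=
        mul_le_mul hr1 (mul_le_mul_of_nonneg_right hr4 (by linarith)) (by positivity) zero_le_one
      calc r₁ * m = r₁ * ((r : ℝ) * k) + r₁ * mc := by rw [hmR]; ring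
        _ ≤ 1 * (4 * b * k) + (Λ * b + 1) := add_le_add h8 hr1mc
        _ ≤ (4 * k + Λ + 1) * b := by
          have : (4 * (k : ℝ) + Λ + 1) * b = 4 * b * k + Λ * b + b := by ring
          linarith
    have h9 : 2 * (κ * r₁ * m) ≤ δ / 2 * b := by
      calc 2 * (κ * r₁ * m) = 2 * κ * (r₁ * m) := by ring
        _ ≤ 2 * κ * ((4 * k + Λ + 1) * b) := mul_le_mul_of_nonneg_left h7 (by positivity)
        _ = 2 * κ * (4 * k + Λ + 1) * b := by ring
        _ ≤ δ / 2 * b := mul_le_mul_of_nonneg_right hκ2 hb0.le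
    linarith
  rw [hPd] at hprob
  exact ⟨m, z, hm1, hmC, hRch, hmean, hprob⟩

end Pool.Agent.W_7d29a1_SDP
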