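import Pool.Agent.W_7d29a1_SDP.DefsP51
import Pool.Agent.W_7d29a1_D2.AeG6

/-!
Almost every velocity (helper96): leaf L of theorem SDP.
-/

namespace Pool.Agent.W_7d29a1_SDP

open MeasureTheory ProbabilityTheory Filter Topology Pool.Agent.W_MP_7d29a1_pr
  Pool.Agent.W_7d29a1_h46 Pool.Agent.W_7d29a1_h46u Pool.Agent.W_7d29a1_D2.B35
  Pool.Agent.W_7d29a1_Q29 Pool.Agent.W_7d29a1_NV Pool.Agent.W_7d29a1_P89
  Pool.Agent.W_7d29a1_SD

namespace L96

variable {d : ℕ}

lemma emb_zero : emb (0 : Site d) = 0 := by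
  ext j
  simp [emb]

lemma emb_sum {ι : Type*} (s : Finset ι) (f : ι → Site d) :
    emb (∑ i ∈ s, f i) = ∑ i ∈ s, emb (f i) := by
  classical
  induction s using Finset.induction_on with
  | empty => rw [Finset.sum_empty, Finset.sum_empty, emb_zero]
  | insert a s ha ih => rw [Finset.sum_insert ha, Finset.sum_insert ha, Walk_emb_add, ih]

/-- One step. -/
lemma inner_vec (u : Vec d) (hu : ∀ i, |u i| ≤ 1) (e : Step d) : inner ℝ u (emb (vec e)) ≤ 1 := by
  classical
  have h1 : inner ℝ u (emb (vec e)) = ∑ i, ((vec e i : ℤ) : ℝ) * u i := by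
    rw [PiLp.inner_apply]
    rfl
  rw [h1, Finset.sum_eq_single e.1]
  · have h2 := abs_le.1 (hu e.1)
    unfold vec
    rw [Pi.single_eq_same]
    split_ifs
    · push_cast
      linarith
    · push_cast
      linarith
  · intro i _ hi
    unfold vec
    rw [Pi.single_eq_of_ne hi]
    simp
  · intro h
    exact absurd (Finset.mem_univ _) h

lemma inner_pos {n : ℕ} (u : Vec d) (hu : ∀ i, |u i| ≤ 1) (s : Fin n → Step d) :
    inner ℝ u (emb (pos s n)) ≤ n := by
  unfold pos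
  rw [emb_sum, inner_sum]
  have h1 : ∀ j ∈ (Finset.univ : Finset (Fin n)),
      inner ℝ u (emb (if (j : ℕ) < n then vec (s j) else 0)) ≤ (1 : ℝ) := by
    intro j _
    rw [if_pos j.2]
    exact inner_vec u hu _
  refine (Finset.sum_le_sum h1).trans ?_
  simp

lemma X_tilt1 (hd : 0 < d) (β : ℝ) (h u : Vec d) (hu : ∀ i, |u i| ≤ 1) (η : Env d) (n : ℕ) :
    X β (h + u) η n ≤ X β h η n + n := by
  unfold X
  have h1 : Z β (h + u) η n ≤ Z β h η n * Real.exp n := by
    rw [Z_eq, Z_eq, Finset.sum_mul]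
    refine Finset.sum_le_sum fun s _ => ?_
    unfold wgt
    rw [← Real.exp_add, inner_add_left]
    apply Real.exp_le_exp.2
    have h2 := inner_pos u hu s
    linarith
  have h3 := Z_pos hd β h η n
  have h4 := Real.log_le_log (Z_pos hd β (h + u) η n) h1
  rwa [Real.log_mul h3.ne' (Real.exp_pos _).ne', Real.log_exp] at h4

lemma lam_tilt1 {ρ : Measure ℝ} [IsProbabilityMeasure ρ] (hd : 0 < d) (hρ : EM ρ) (β : ℝ)
    (h u : Vec d) (hu : ∀ i, |u i| ≤ 1) : lam ρ β (h + u) ≤ lam ρ β h + 1 := by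
  have h1 : ∀ n : ℕ, A ρ β (h + u) n ≤ A ρ β h n + n := by
    intro n
    unfold A
    have e1 := (concU hd hρ β (h + u) n).1
    have e2 := (concU hd hρ β h n).1
    have e3 : ∫ η, X β (h + u) η n ∂(law d ρ) ≤ ∫ η, (X β h η n + n) ∂(law d ρ) :=
      integral_mono e1 (e2.add (integrable_const _)) fun η => X_tilt1 hd β h u hu η n
    rw [integral_add e2 (integrable_const _), integral_const] at e3
    simpa using e3
  refine LamU_le ρ β (h + u) fun n => ?_
  have h2 := A_le_lam hd hρ β h (n + 1)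
  have h3 := h1 (n + 1)
  push_cast at h2 h3
  nlinarith

/-- A slope of the free energy is in the closed cone. -/
lemma slope_le {ρ : Measure ℝ} [IsProbabilityMeasure ρ] (hd : 0 < d) (hρ : EM ρ) (β : ℝ)
    (h v : Vec d) (hv : ∀ k : Vec d, lam ρ β h + inner ℝ v k ≤ lam ρ β (h + k)) :
    ∑ i, |v i| ≤ 1 := by
  classical
  obtain ⟨u, hu⟩ : ∃ u : Vec d, ∀ i, u i = if 0 ≤ v i then 1 else -1 :=
    ⟨WithLp.toLp 2 fun i => if 0 ≤ v i then 1 else -1, fun _ => rfl⟩
  have hu1 : ∀ i, |u i| ≤ 1 := by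
    intro i
    rw [hu i]
    split_ifs <;> simp
  have h1 := hv u
  have h2 := lam_tilt1 hd hρ β h u hu1
  have h3 : inner ℝ v u = ∑ i, |v i| := by
    rw [PiLp.inner_apply]
    refine Finset.sum_congr rfl fun i _ => ?_
    have h4 : inner ℝ (v i) (u i) = u i * v i := rfl
    rw [h4, hu i]
    split_ifs with h5
    · rw [one_mul, abs_of_nonneg h5]
    · rw [abs_of_neg (not_le.1 h5)]
      ring
  linarith

/-- The boundary of the cone is a null set. -/
lemma ae_ne : ∀ᵐ v : Vec d, ∑ i, |v i| ≠ 1 := by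
  have hconv : Convex ℝ {v : Vec d | ∑ i, |v i| ≤ 1} := by
    intro x hx y hy a b ha hb hab
    have hx' : ∑ i, |x i| ≤ 1 := hx
    have hy' : ∑ i, |y i| ≤ 1 := hy
    change ∑ i, |(a • x + b • y) i| ≤ 1
    have h1 : ∀ i ∈ (Finset.univ : Finset (Fin d)), |(a • x + b • y) i| ≤ a * |x i| + b * |y i| := by
      intro i _
      have h2 : (a • x + b • y) i = a * x i + b * y i := rfl
      rw [h2]
      refine (abs_add_le _ _).trans ?_
      rw [abs_mul, abs_mul, abs_of_nonneg ha, abs_of_nonneg hb]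
    refine (Finset.sum_le_sum h1).trans ?_
    rw [Finset.sum_add_distrib, ← Finset.mul_sum, ← Finset.mul_sum]
    nlinarith
  have h0 := hconv.addHaar_frontier (volume : Measure (Vec d))
  rw [ae_iff]
  refine measure_mono_null ?_ h0
  intro v hv
  have hv1 : ∑ i, |v i| = 1 := by
    by_contra hcon
    exact hv hcon
  rw [frontier, Set.mem_sdiff]
  refine ⟨subset_closure hv1.le, ?_⟩
  intro hint
  have hcont : Tendsto (fun t : ℝ => (1 + t) • v) (𝓝 0) (𝓝 v) := by
    have h1 : Continuous fun t : ℝ => (1 + t) • v := by fun_prop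
    have h2 := h1.tendsto 0
    simpa using h2
  have hev := hcont (mem_interior_iff_mem_nhds.1 hint)
  have hev2 : ∀ᶠ t : ℝ in 𝓝 0, ∑ i, |((1 + t) • v) i| ≤ 1 := hev
  rw [Metric.eventually_nhds_iff] at hev2
  obtain ⟨ε, hε, H⟩ := hev2
  have h1 := H (y := ε / 2) (by
    rw [Real.dist_eq, sub_zero, abs_of_pos (half_pos hε)]
    linarith)
  have h2 : ∑ i, |((1 + ε / 2) • v) i| = 1 + ε / 2 := by
    have h3 : ∀ i ∈ (Finset.univ : Finset (Fin d)), |((1 + ε / 2) • v) i| = (1 + ε / 2) * |v i| := by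
      intro i _
      have h4 : ((1 + ε / 2) • v) i = (1 + ε / 2) * v i := rfl
      rw [h4, abs_mul, abs_of_pos (by linarith)]
    rw [Finset.sum_congr rfl h3, ← Finset.mul_sum, hv1, mul_one]
  linarith

end L96

/-- **Leaf L.** Almost every direction. -/
theorem aeLP96 {d : ℕ} {ρ : Measure ℝ} [IsProbabilityMeasure ρ] (hd : 0 < d) (hρ : EM ρ)
    (β : ℝ) : AeLP d ρ β := by
  filter_upwards [W_7d29a1_D2.ae_loG_all (lam_convex hd hρ β), L96.ae_ne (d := d)] with v hv hv1 h hh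
  obtain ⟨c, hc, δ, hδ, H⟩ := hv h hh
  refine ⟨hh, ⟨c, hc, δ, hδ, fun r hr => ?_⟩, lt_of_le_of_ne (L96.slope_le hd hρ β h v hh) hv1⟩
  have h1 := H r hr
  rwa [W_7d29a1_D2.rpow_two_real] at h1

end Pool.Agent.W_7d29a1_SDP
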