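import Pool.Agent.W_7d29a1_SDP.Hull35
import Pool.Agent.W_7d29a1_SDP.AeLP96
import Pool.Agent.W_7d29a1_V.Rch48
import Pool.Agent.W_7d29a1_V.ConcV16

/-!
Theorem SDP, leaf P (helper67): the mean point to point free energy near a slope of the free
energy. The maximum of `aM + ⟨g, z⟩` over the reachable sites is the free energy at `h + g` up to
`o (m)`, uniformly in `‖g‖ ≤ 1`; with the second order lower bound the upper hull at `m w`
(`hull35`) is at least `m (lam - κ r₁ / 2)`; superadditivity over blocks of the fixed length `m`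
and a bounded remainder.
-/

set_option autoImplicit false

namespace Pool.Agent.W_7d29a1_SDP

open MeasureTheory ProbabilityTheory Filter Topology Pool.Agent.W_MP_7d29a1_pr
  Pool.Agent.W_7d29a1_h46 Pool.Agent.W_7d29a1_h46u Pool.Agent.W_7d29a1_D2.B35
  Pool.Agent.W_7d29a1_V Pool.Agent.W_7d29a1_V.R48 Pool.Agent.W_7d29a1_V.ConcV16

namespace P67

variable {d : ℕ} {ρ : Measure ℝ} [IsProbabilityMeasure ρ]

/-! ### The means -/

/-- The means are superadditive. -/
lemma aM_add (hρ : EM ρ) (β : ℝ) (h : Vec d) {s t : ℕ} {x y : Site d} (hx : Rch s x)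
    (hy : Rch t y) : aM ρ β h s x + aM ρ β h t y ≤ aM ρ β h (s + t) (x + y) := by
  have hxy : Rch (s + t) (x + y) := rch_add.2 ⟨x, hx, by rwa [add_sub_cancel_left]⟩
  have h1 := (expP hρ β h s hx).1
  have h2 := (expP hρ β h t hy).1
  have h3 := (expP hρ β h (s + t) hxy).1
  have hm : Measurable fun η : Env d => Real.log (PP β h η t y) :=
    Real.measurable_log.comp (PP_meas β h t y)
  have e1 : ∫ η, Real.log (PP β h (sh s x η) t y) ∂(law d ρ) = aM ρ β h t y :=
    integral_sh s x hm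
  have h2' : Integrable (fun η => Real.log (PP β h (sh s x η) t y)) (law d ρ) :=
    (mp_sh (ρ := ρ) s x).integrable_comp_of_integrable h2
  rw [← e1]
  unfold aM
  rw [← integral_add h1 h2']
  refine integral_mono (h1.add h2') h3 fun η => ?_
  have p1 : 0 < PP β h η s x := PP_pos hx
  have p2 : 0 < PP β h (sh s x η) t y := PP_pos hy
  change Real.log (PP β h η s x) + Real.log (PP β h (sh s x η) t y) ≤ _
  rw [← Real.log_mul p1.ne' p2.ne']
  exact Real.log_le_log (mul_pos p1 p2) (PP_chain β h η s t x y)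

lemma aM_le (hd : 0 < d) (hρ : EM ρ) (β : ℝ) (h : Vec d) {s : ℕ} {z : Site d} (hz : Rch s z) :
    aM ρ β h s z ≤ s * lam ρ β h := by
  refine le_trans ?_ (A_le_lam hd hρ β h s)
  unfold aM A
  refine integral_mono (expP hρ β h s hz).1 (concU hd hρ β h s).1 fun η => ?_
  exact Real.log_le_log (PP_pos hz) (PP_le_Z β h η s z)

lemma aM_mul (hρ : EM ρ) (β : ℝ) (h : Vec d) {m : ℕ} {x : Site d} (hx : Rch m x) (n : ℕ) :
    Rch (n * m) (n • x) ∧ (n : ℝ) * aM ρ β h m x ≤ aM ρ β h (n * m) (n • x) := by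
  induction n with
  | zero =>
    rw [zero_mul, zero_smul, Nat.cast_zero, zero_mul]
    refine ⟨rch_zero.2 rfl, ?_⟩
    unfold aM
    simp only [PP_zero, Real.log_one, integral_zero, le_refl]
  | succ n ih =>
    obtain ⟨h1, h2⟩ := ih
    have e1 : (n + 1) * m = n * m + m := by ring
    have e2 : (n + 1) • x = n • x + x := succ_nsmul x n
    rw [e1, e2]
    refine ⟨rch_add.2 ⟨n • x, h1, by rwa [add_sub_cancel_left]⟩, ?_⟩
    have h3 := aM_add hρ β h h1 hx
    push_cast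
    linarith

lemma aM_sum (hρ : EM ρ) (β : ℝ) (h : Vec d) {m : ℕ} (n : Site d → ℕ) (S : Finset (Site d))
    (hS : ∀ x ∈ S, Rch m x) : Rch ((∑ x ∈ S, n x) * m) (∑ x ∈ S, n x • x) ∧
      ∑ x ∈ S, (n x : ℝ) * aM ρ β h m x ≤
        aM ρ β h ((∑ x ∈ S, n x) * m) (∑ x ∈ S, n x • x) := by
  classical
  induction S using Finset.induction_on with
  | empty =>
    simp only [Finset.sum_empty, zero_mul]
    refine ⟨rch_zero.2 rfl, ?_⟩
    unfold aM
    simp only [PP_zero, Real.log_one, integral_zero, le_refl]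
  | insert a S ha ih =>
    obtain ⟨h1, h2⟩ := ih fun x hx => hS x (Finset.mem_insert_of_mem hx)
    obtain ⟨h3, h4⟩ := aM_mul hρ β h (hS a (Finset.mem_insert_self a S)) (n a)
    rw [Finset.sum_insert ha, Finset.sum_insert ha, Finset.sum_insert ha, add_mul]
    refine ⟨rch_add.2 ⟨n a • a, h3, by rwa [add_sub_cancel_left]⟩, ?_⟩
    have h5 := aM_add hρ β h h3 h1
    linarith

/-! ### The maximum over the end points -/

lemma pow_split (q : ℕ) {a x : ℝ} (ha : 0 < a) (hx : 0 ≤ x) : x ≤ a + x ^ (q + 1) / a ^ q := by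
  rcases le_total x a with h | h
  · have : 0 ≤ x ^ (q + 1) / a ^ q := by positivity
    linarith
  · have h1 : x ≤ x ^ (q + 1) / a ^ q := by
      rw [le_div_iff₀ (by positivity), pow_succ, mul_comm]
      exact mul_le_mul_of_nonneg_right (pow_le_pow_left₀ ha.le h q) hx
    linarith

/-- The mean free energy at `h + g` is at most the maximum over the end points. -/
lemma A_le_max (hd : 0 < d) (hρ : EM ρ) (β : ℝ) {ε : ℝ} (hε : 0 < ε) : ∀ᶠ m : ℕ in atTop,
    ∀ (h g : Vec d) (M : ℝ), (∀ z : Site d, Rch m z → aM ρ β h m z + inner ℝ g (emb z) ≤ M) →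
      A ρ β (h + g) m ≤ M + ε * m := by
  classical
  obtain ⟨C, hC, H⟩ := momP (d := d) (ρ := ρ) hρ β (2 * d + 2)
  obtain ⟨K, hK⟩ : ∃ K : ℝ, K = 3 ^ d * (C / (ε / 4) ^ (2 * d + 1)) := ⟨_, rfl⟩
  have hK0 : 0 ≤ K := by
    rw [hK]
    positivity
  have hlog : ∀ᶠ m : ℕ in atTop, (d : ℝ) * Real.log (2 * m + 1) ≤ ε / 4 * m := by
    have h1 : Tendsto (fun m : ℕ => 2 * (m : ℝ) + 1) atTop atTop :=
      tendsto_atTop_add_const_right _ _
        (tendsto_natCast_atTop_atTop.const_mul_atTop (by norm_num : (0 : ℝ) < 2))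
    have h2 := (Real.isLittleO_log_id_atTop.comp_tendsto h1).def
      (c := ε / (16 * ((d : ℝ) + 1))) (by positivity)
    filter_upwards [h2, eventually_ge_atTop 1] with m h3 hm
    have hm1 : (1 : ℝ) ≤ m := by exact_mod_cast hm
    simp only [Function.comp, id, Real.norm_eq_abs] at h3
    rw [abs_of_pos (by positivity : (0 : ℝ) < 2 * m + 1)] at h3
    have h4 := (le_abs_self _).trans h3
    have h5 : ε / (16 * ((d : ℝ) + 1)) * (2 * m + 1) ≤ ε / (16 * ((d : ℝ) + 1)) * (4 * m) :=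
      mul_le_mul_of_nonneg_left (by linarith) (by positivity)
    have h6 : (d : ℝ) * (ε / (16 * ((d : ℝ) + 1)) * (4 * m)) ≤ ε / 4 * m := by
      have e1 : (d : ℝ) * (ε / (16 * ((d : ℝ) + 1)) * (4 * m)) =
          (d : ℝ) / ((d : ℝ) + 1) * (ε / 4 * m) := by
        field_simp
        ring
      rw [e1]
      have e2 : (d : ℝ) / ((d : ℝ) + 1) ≤ 1 := by
        rw [div_le_one (by positivity)]
        linarith
      exact mul_le_of_le_one_left (by positivity) e2
    exact (mul_le_mul_of_nonneg_left (h4.trans h5) (Nat.cast_nonneg d)).trans h6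
  filter_upwards [hlog, eventually_ge_atTop 1, eventually_ge_atTop ⌈4 * K / ε⌉₊] with m h1 hm h2
    h g M hM
  have hm1 : (1 : ℝ) ≤ m := by exact_mod_cast hm
  have hm0 : (0 : ℝ) < m := by linarith
  have h2' : K ≤ ε / 4 * m := by
    have h3 : 4 * K / ε ≤ m := (Nat.le_ceil _).trans (by exact_mod_cast h2)
    rw [div_le_iff₀ hε] at h3
    linarith
  obtain ⟨a, ha⟩ : ∃ a : ℝ, a = ε / 4 * m := ⟨_, rfl⟩
  have ha0 : 0 < a := by
    rw [ha]
    positivity
  obtain ⟨S, hS⟩ : ∃ S : Finset (Site d), S = (boxF d m).filter fun z => Rch m z := ⟨_, rfl⟩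
  have hSr : ∀ z ∈ S, Rch m z := fun z hz => by
    rw [hS] at hz
    exact (Finset.mem_filter.1 hz).2
  have hSm : ∀ z, Rch m z → z ∈ S := fun z hz => by
    rw [hS]
    exact Finset.mem_filter.2 ⟨rch_mem hz, hz⟩
  have hSc : (S.card : ℝ) ≤ (2 * m + 1) ^ d := by
    have h3 := Finset.card_filter_le (boxF d m) fun z => Rch m z
    rw [card_boxF, ← hS] at h3
    exact_mod_cast h3
  obtain ⟨G, hG⟩ : ∃ G : Env d → ℝ, G = fun η => ∑ z ∈ S,
    |Real.log (PP β h η m z) - aM ρ β h m z| ^ (2 * d + 2) / a ^ (2 * d + 1) := ⟨_, rfl⟩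
  have hpt : ∀ η, X β (h + g) η m ≤ (d * Real.log (2 * m + 1) + M + a) + G η := by
    intro η
    have e1 : ∀ z ∈ boxF d m, PP β (h + g) η m z ≤ Real.exp (M + a + G η) := by
      intro z _
      by_cases hz : Rch m z
      · rw [PP_tilt]
        have p : 0 < PP β h η m z := PP_pos hz
        have e2 : PP β h η m z ≤ Real.exp (aM ρ β h m z + a + G η) := by
          have e3 := pow_split (2 * d + 1) ha0
            (abs_nonneg (Real.log (PP β h η m z) - aM ρ β h m z))
          have e4 : |Real.log (PP β h η m z) - aM ρ β h m z| ^ (2 * d + 1 + 1) /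
              a ^ (2 * d + 1) ≤ G η := by
            rw [hG]
            exact Finset.single_le_sum (f := fun z =>
              |Real.log (PP β h η m z) - aM ρ β h m z| ^ (2 * d + 2) / a ^ (2 * d + 1))
              (fun z _ => by positivity) (hSm z hz)
          have e5 := le_abs_self (Real.log (PP β h η m z) - aM ρ β h m z)
          have e6 : Real.log (PP β h η m z) ≤ aM ρ β h m z + a + G η := by linarith
          calc PP β h η m z = Real.exp (Real.log (PP β h η m z)) := (Real.exp_log p).symm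
            _ ≤ _ := Real.exp_le_exp.2 e6
        calc Real.exp (inner ℝ g (emb z)) * PP β h η m z ≤
            Real.exp (inner ℝ g (emb z)) * Real.exp (aM ρ β h m z + a + G η) :=
              mul_le_mul_of_nonneg_left e2 (Real.exp_pos _).le
          _ = Real.exp (inner ℝ g (emb z) + (aM ρ β h m z + a + G η)) := (Real.exp_add _ _).symm
          _ ≤ _ := Real.exp_le_exp.2 (by linarith [hM z hz])
      · rw [PP_eq_zero hz]
        exact (Real.exp_pos _).le
    have e6 : Z β (h + g) η m ≤ (2 * m + 1) ^ d * Real.exp (M + a + G η) := by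
      rw [Z_eq_sum]
      refine (Finset.sum_le_sum e1).trans ?_
      rw [Finset.sum_const, card_boxF, nsmul_eq_mul]
      push_cast
      exact le_rfl
    unfold X
    refine (Real.log_le_log (Z_pos hd β (h + g) η m) e6).trans ?_
    rw [Real.log_mul (by positivity) (Real.exp_pos _).ne', Real.log_exp, Real.log_pow]
    linarith
  have hi : ∀ z ∈ S, Integrable (fun η =>
      |Real.log (PP β h η m z) - aM ρ β h m z| ^ (2 * d + 2) / a ^ (2 * d + 1)) (law d ρ) :=
    fun z hz => ((H h m z hm (hSr z hz)).1).div_const _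
  have hGi : Integrable G (law d ρ) := by
    rw [hG]
    exact integrable_finsetSum _ hi
  have hGb : ∫ η, G η ∂(law d ρ) ≤ K := by
    rw [hG, integral_finsetSum _ hi]
    have e1 : ∀ z ∈ S, ∫ η, |Real.log (PP β h η m z) - aM ρ β h m z| ^ (2 * d + 2) /
        a ^ (2 * d + 1) ∂(law d ρ) ≤ C * Real.sqrt m ^ (2 * d + 2) / a ^ (2 * d + 1) := by
      intro z hz
      rw [integral_div]
      exact div_le_div_of_nonneg_right (H h m z hm (hSr z hz)).2 (by positivity)
    refine (Finset.sum_le_sum e1).trans ?_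
    rw [Finset.sum_const, nsmul_eq_mul]
    have e2 : Real.sqrt m ^ (2 * d + 2) = (m : ℝ) ^ (d + 1) := by
      rw [show 2 * d + 2 = 2 * (d + 1) by ring, pow_mul, Real.sq_sqrt hm0.le]
    have e3 : (2 * (m : ℝ) + 1) ^ d ≤ 3 ^ d * (m : ℝ) ^ d := by
      rw [← mul_pow]
      exact pow_le_pow_left₀ (by positivity) (by linarith) d
    have e4 : C * Real.sqrt m ^ (2 * d + 2) / a ^ (2 * d + 1) =
        C / (ε / 4) ^ (2 * d + 1) / (m : ℝ) ^ d := by
      rw [e2, ha, mul_pow, div_div, ← div_div (C * (m : ℝ) ^ (d + 1)),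
        div_eq_div_iff (by positivity) (by positivity)]
      field_simp
      ring
    rw [e4, hK]
    calc (S.card : ℝ) * (C / (ε / 4) ^ (2 * d + 1) / (m : ℝ) ^ d) ≤
        (3 ^ d * (m : ℝ) ^ d) * (C / (ε / 4) ^ (2 * d + 1) / (m : ℝ) ^ d) :=
          mul_le_mul_of_nonneg_right (hSc.trans e3) (by positivity)
      _ = _ := by
        field_simp
  have hA : A ρ β (h + g) m ≤ (d * Real.log (2 * m + 1) + M + a) + ∫ η, G η ∂(law d ρ) := by
    have e1 : ∫ η, X β (h + g) η m ∂(law d ρ) ≤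
        ∫ η, ((d * Real.log (2 * m + 1) + M + a) + G η) ∂(law d ρ) :=
      integral_mono (concU hd hρ β (h + g) m).1 ((integrable_const _).add hGi) hpt
    rw [integral_add (integrable_const _) hGi, integral_const] at e1
    simpa [A] using e1
  rw [ha] at hA
  linarith

lemma A_lip (hd : 0 < d) (hρ : EM ρ) (β : ℝ) (h u : Vec d) (m : ℕ) :
    A ρ β (h + u) m ≤ A ρ β h m + ‖u‖ * m := by
  have e1 : ∫ η, X β (h + u) η m ∂(law d ρ) ≤ ∫ η, (X β h η m + ‖u‖ * m) ∂(law d ρ) :=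
    integral_mono (concU hd hρ β (h + u) m).1
      ((concU hd hρ β h m).1.add (integrable_const _)) fun η => X_tilt hd β h u η m
  rw [integral_add (concU hd hρ β h m).1 (integrable_const _), integral_const] at e1
  simpa [A] using e1

lemma lam_lip (hd : 0 < d) (hρ : EM ρ) (β : ℝ) (h u : Vec d) :
    lam ρ β (h + u) ≤ lam ρ β h + ‖u‖ := by
  refine LamU_le ρ β (h + u) fun n => ?_
  have h2 := A_le_lam hd hρ β h (n + 1)
  have h3 := A_lip hd hρ β h u (n + 1)
  push_cast at h2 h3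
  linarith

/-- The convergence of the mean free energy is uniform in `‖g‖ ≤ 1`. -/
lemma A_ge (hd : 0 < d) (hρ : EM ρ) (β : ℝ) (h : Vec d) {ε : ℝ} (hε : 0 < ε) :
    ∀ᶠ m : ℕ in atTop, ∀ g : Vec d, ‖g‖ ≤ 1 → m * (lam ρ β (h + g) - ε) ≤ A ρ β (h + g) m := by
  have hK := isCompact_closedBall (0 : Vec d) 1
  obtain ⟨t, -, ht⟩ := hK.elim_nhds_subcover (fun x => Metric.ball x (ε / 3))
    (fun x _ => Metric.ball_mem_nhds x (by positivity))
  have h1 : ∀ x : Vec d, ∀ᶠ m : ℕ in atTop,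
      (m : ℝ) * (lam ρ β (h + x) - ε / 3) ≤ A ρ β (h + x) m := by
    intro x
    have h2 := (tendsto_A hd hρ β (h + x)).eventually
      (lt_mem_nhds (show lam ρ β (h + x) - ε / 3 < lam ρ β (h + x) by linarith))
    filter_upwards [h2, eventually_ge_atTop 1] with m h3 hm
    have hm0 : (0 : ℝ) < m := by exact_mod_cast hm
    rw [lt_div_iff₀ hm0] at h3
    linarith
  have h4 : ∀ᶠ m : ℕ in atTop, ∀ x ∈ t,
      (m : ℝ) * (lam ρ β (h + x) - ε / 3) ≤ A ρ β (h + x) m :=
    (Filter.eventually_all_finset t).2 fun x _ => h1 x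
  filter_upwards [h4] with m h5 g hg
  have h6 := ht (mem_closedBall_zero_iff.2 hg)
  simp only [Set.mem_iUnion] at h6
  obtain ⟨x, hx, hgx⟩ := h6
  have h7 : ‖g - x‖ < ε / 3 := by rwa [Metric.mem_ball, dist_eq_norm] at hgx
  have h8 := lam_lip hd hρ β (h + x) (g - x)
  rw [show h + x + (g - x) = h + g by abel] at h8
  have h9 := A_lip hd hρ β (h + g) (x - g) m
  rw [show h + g + (x - g) = h + x by abel, norm_sub_rev] at h9
  have h10 := h5 x hx
  have hm : (0 : ℝ) ≤ m := Nat.cast_nonneg m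
  have h11 : ‖g - x‖ * m ≤ ε / 3 * m := mul_le_mul_of_nonneg_right h7.le hm
  have h12 : (m : ℝ) * lam ρ β (h + g) ≤ m * (lam ρ β (h + x) + ε / 3) :=
    mul_le_mul_of_nonneg_left (by linarith) hm
  linarith

/-- The maximum over the end points is at least the free energy, up to `ε m`. -/
lemma maxP (hd : 0 < d) (hρ : EM ρ) (β : ℝ) (h : Vec d) {ε : ℝ} (hε : 0 < ε) :
    ∀ᶠ m : ℕ in atTop, ∀ g : Vec d, ‖g‖ ≤ 1 → ∃ z : Site d, Rch m z ∧
      m * (lam ρ β (h + g) - ε) ≤ aM ρ β h m z + inner ℝ g (emb z) := by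
  filter_upwards [A_le_max (d := d) hd hρ β (ε := ε / 4) (by positivity),
    A_ge hd hρ β h (ε := ε / 4) (by positivity), eventually_ge_atTop 1] with m h1 h2 hm g hg
  by_contra hcon
  push Not at hcon
  have h3 := h1 h g (m * (lam ρ β (h + g) - ε)) fun z hz => (hcon z hz).le
  have h4 := h2 g hg
  have hm0 : (0 : ℝ) < m := by exact_mod_cast hm
  have h5 : 0 < ε * m := mul_pos hε hm0
  linarith

/-! ### The weights -/

lemma emb_inj : Function.Injective (emb : Site d → Vec d) := by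
  intro x y hxy
  ext i
  have h1 : (emb x) i = (emb y) i := by rw [hxy]
  have h2 : ((x i : ℤ) : ℝ) = ((y i : ℤ) : ℝ) := h1
  exact_mod_cast h2

open Classical in
/-- The sites reachable in `m` steps. -/
noncomputable def Sm (d m : ℕ) : Finset (Site d) := (boxF d m).filter fun z => Rch m z

lemma mem_Sm {m : ℕ} {z : Site d} : z ∈ Sm d m ↔ Rch m z := by
  classical
  unfold Sm
  rw [Finset.mem_filter]
  exact ⟨fun h => h.2, fun h => ⟨rch_mem h, h⟩⟩

lemma inner_eq (g w : Vec d) : inner ℝ g w = ∑ i, w i * g i := by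
  rw [PiLp.inner_apply]
  rfl

lemma one_norm_le (v w : Vec d) : ∑ i, |w i| ≤ ∑ i, |v i| + d * ‖w - v‖ := by
  have h1 : ∀ i ∈ (Finset.univ : Finset (Fin d)), |w i| ≤ |v i| + ‖w - v‖ := by
    intro i _
    have h2 : |(w - v) i| ≤ ‖w - v‖ := by
      have := PiLp.norm_apply_le (p := 2) (w - v) i
      rwa [Real.norm_eq_abs] at this
    have h3 : (w - v) i = w i - v i := rfl
    rw [h3] at h2
    have h4 := abs_add_le (v i) (w i - v i)
    rw [add_sub_cancel] at h4
    linarith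
  refine (Finset.sum_le_sum h1).trans ?_
  rw [Finset.sum_add_distrib, Finset.sum_const, Finset.card_univ, Fintype.card_fin, nsmul_eq_mul]

/-- The support function of the reachable sites. -/
lemma supp (hd : 0 < d) {m : ℕ} {w : Vec d} (hw : ∑ i, |w i| ≤ 1) (g : Vec d) :
    ∃ z : Site d, Rch m z ∧ inner ℝ g ((m : ℝ) • w) ≤ inner ℝ g (emb z) := by
  classical
  obtain ⟨i, -, hi⟩ := Finset.exists_max_image Finset.univ (fun i => |g i|)
    ⟨(⟨0, hd⟩ : Fin d), Finset.mem_univ _⟩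
  refine ⟨Pi.single i (if 0 ≤ g i then (m : ℤ) else -(m : ℤ)), ?_, ?_⟩
  · rw [rch_iff hd, l1_single]
    have h1 : (if 0 ≤ g i then (m : ℤ) else -(m : ℤ)).natAbs = m := by
      split_ifs
      · exact Int.natAbs_natCast m
      · rw [Int.natAbs_neg]
        exact Int.natAbs_natCast m
    rw [h1]
    exact ⟨le_rfl, ⟨m, rfl⟩⟩
  · have hm : (0 : ℝ) ≤ m := Nat.cast_nonneg m
    have h1 : inner ℝ g (emb (Pi.single i (if 0 ≤ g i then (m : ℤ) else -(m : ℤ)) : Site d)) =
        m * |g i| := by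
      rw [inner_eq, Finset.sum_eq_single i]
      · have h2 : (emb (Pi.single i (if 0 ≤ g i then (m : ℤ) else -(m : ℤ)) : Site d)) i =
            (((if 0 ≤ g i then (m : ℤ) else -(m : ℤ)) : ℤ) : ℝ) := by
          change (((Pi.single i (if 0 ≤ g i then (m : ℤ) else -(m : ℤ)) : Site d) i : ℤ) : ℝ) = _
          rw [Pi.single_eq_same]
        rw [h2]
        split_ifs with h3
        · rw [abs_of_nonneg h3]
          push_cast
          ring
        · rw [abs_of_neg (not_le.1 h3)]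
          push_cast
          ring
      · intro j _ hj
        have h2 : (emb (Pi.single i (if 0 ≤ g i then (m : ℤ) else -(m : ℤ)) : Site d)) j = 0 := by
          change (((Pi.single i (if 0 ≤ g i then (m : ℤ) else -(m : ℤ)) : Site d) j : ℤ) : ℝ) = _
          rw [Pi.single_eq_of_ne hj, Int.cast_zero]
        rw [h2, zero_mul]
      · intro h2
        exact absurd (Finset.mem_univ _) h2
    rw [h1, inner_smul_right, inner_eq]
    refine mul_le_mul_of_nonneg_left ?_ hm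
    have h3 : ∀ j ∈ (Finset.univ : Finset (Fin d)), w j * g j ≤ |w j| * |g i| := by
      intro j hj
      have h4 := le_abs_self (w j * g j)
      rw [abs_mul] at h4
      exact h4.trans (mul_le_mul_of_nonneg_left (hi j hj) (abs_nonneg _))
    refine (Finset.sum_le_sum h3).trans ?_
    rw [← Finset.sum_mul]
    exact mul_le_of_le_one_left (abs_nonneg _) hw

/-- The point `m w` is a mixture of reachable sites with large means. -/
lemma weights (hd : 0 < d) (hρ : EM ρ) {β : ℝ} {h v : Vec d} (hLP : LP ρ β h v) {κ : ℝ}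
    (hκ : 0 < κ) : ∃ r₁ : ℝ, 0 < r₁ ∧ r₁ ≤ 1 ∧ (d : ℝ) * r₁ ≤ (1 - ∑ i, |v i|) / 2 ∧
      ∃ m : ℕ, 1 ≤ m ∧ ∀ w : Vec d, ‖w - v‖ ≤ r₁ → ∃ α : Site d → ℝ,
        (∀ z ∈ Sm d m, 0 ≤ α z) ∧ ∑ z ∈ Sm d m, α z = 1 ∧
        ∑ z ∈ Sm d m, α z • emb z = (m : ℝ) • w ∧
        (m : ℝ) * (lam ρ β h - κ * r₁ / 2) ≤ ∑ z ∈ Sm d m, α z * aM ρ β h m z := by
  classical
  obtain ⟨c, hc, δ, hδ, hlow⟩ := hLP.low
  have hint := hLP.int
  obtain ⟨γ, hγ⟩ : ∃ γ : ℝ, γ = (1 - ∑ i, |v i|) / 2 := ⟨_, rfl⟩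
  have hγ0 : 0 < γ := by
    rw [hγ]
    linarith
  rw [← hγ]
  obtain ⟨r₀, hr₀⟩ : ∃ r₀ : ℝ, r₀ = min (κ / 4) (min δ 1) := ⟨_, rfl⟩
  have hr0 : 0 < r₀ := by
    rw [hr₀]
    exact lt_min (by positivity) (lt_min hδ one_pos)
  have hrκ : r₀ ≤ κ / 4 := by
    rw [hr₀]
    exact min_le_left _ _
  have hrδ : r₀ ≤ δ := by
    rw [hr₀]
    exact (min_le_right _ _).trans (min_le_left _ _)
  have hr1 : r₀ ≤ 1 := by
    rw [hr₀]
    exact (min_le_right _ _).trans (min_le_right _ _)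
  obtain ⟨r₁, hr₁⟩ : ∃ r₁ : ℝ, r₁ = min 1 (min (c * r₀ / 2) (γ / (d + 1))) := ⟨_, rfl⟩
  have h10 : 0 < r₁ := by
    rw [hr₁]
    exact lt_min one_pos (lt_min (by positivity) (by positivity))
  have h11 : r₁ ≤ 1 := by
    rw [hr₁]
    exact min_le_left _ _
  have h12 : r₁ ≤ c * r₀ / 2 := by
    rw [hr₁]
    exact (min_le_right _ _).trans (min_le_left _ _)
  have h13 : (d : ℝ) * r₁ ≤ γ := by
    have e1 : r₁ ≤ γ / (d + 1) := by
      rw [hr₁]
      exact (min_le_right _ _).trans (min_le_right _ _)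
    rw [le_div_iff₀ (by positivity)] at e1
    linarith
  obtain ⟨ε, hε⟩ : ∃ ε : ℝ, ε = min (κ * r₁ / 4) (c * r₀ ^ 2 / 2) := ⟨_, rfl⟩
  have hε0 : 0 < ε := by
    rw [hε]
    exact lt_min (by positivity) (by positivity)
  have hε1 : ε ≤ κ * r₁ / 4 := by
    rw [hε]
    exact min_le_left _ _
  have hε2 : ε ≤ c * r₀ ^ 2 / 2 := by
    rw [hε]
    exact min_le_right _ _
  obtain ⟨m, hmx, hm⟩ := ((maxP hd hρ β h hε0).and (eventually_ge_atTop 1)).exists
  have hm0 : (0 : ℝ) ≤ m := Nat.cast_nonneg m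
  refine ⟨r₁, h10, h11, h13, m, hm, fun w hw => ?_⟩
  have hw1 : ∑ i, |w i| ≤ 1 := by
    have e1 := one_norm_le v w
    have e2 : (d : ℝ) * ‖w - v‖ ≤ d * r₁ := mul_le_mul_of_nonneg_left hw (Nat.cast_nonneg d)
    have e3 : ∑ i, |v i| = 1 - 2 * γ := by
      rw [hγ]
      ring
    linarith
  obtain ⟨F, hF⟩ : ∃ F : Vec d → ℝ, F = fun y => aM ρ β h m (fun i => ⌊y i⌋) := ⟨_, rfl⟩
  have hFe : ∀ z : Site d, F (emb z) = aM ρ β h m z := by
    intro z
    rw [hF]
    have e1 : (fun i => ⌊(emb z) i⌋) = z := by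
      funext i
      exact Int.floor_intCast (z i)
    change aM ρ β h m (fun i => ⌊(emb z) i⌋) = _
    rw [e1]
  have H1 : ∀ g : Vec d, ∃ y ∈ (Sm d m).image emb, inner ℝ g ((m : ℝ) • w) ≤ inner ℝ g y := by
    intro g
    obtain ⟨z, hz, h1⟩ := supp hd (m := m) hw1 g
    exact ⟨emb z, Finset.mem_image_of_mem _ (mem_Sm.2 hz), h1⟩
  have H2 : ∀ g : Vec d, ∃ y ∈ (Sm d m).image emb,
      (m : ℝ) * (lam ρ β h - κ * r₁ / 2) + inner ℝ g ((m : ℝ) • w) ≤ F y + inner ℝ g y := by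
    intro g
    have hgw : ∀ g' : Vec d, inner ℝ g' w ≤ inner ℝ v g' + ‖g'‖ * r₁ := by
      intro g'
      have e1 : inner ℝ g' w = inner ℝ v g' + inner ℝ g' (w - v) := by
        rw [inner_sub_right, real_inner_comm v g']
        ring
      rw [e1]
      have e2 := real_inner_le_norm g' (w - v)
      have e3 := mul_le_mul_of_nonneg_left hw (norm_nonneg g')
      linarith
    rcases le_or_gt ‖g‖ r₀ with hg | hg
    · obtain ⟨z, hz, h1⟩ := hmx g (hg.trans hr1)
      refine ⟨emb z, Finset.mem_image_of_mem _ (mem_Sm.2 hz), ?_⟩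
      rw [hFe, inner_smul_right]
      refine le_trans ?_ h1
      rw [← mul_add]
      refine mul_le_mul_of_nonneg_left ?_ hm0
      have e1 := hLP.slo g
      have e2 := hgw g
      have e3 : ‖g‖ * r₁ ≤ κ / 4 * r₁ := mul_le_mul_of_nonneg_right (hg.trans hrκ) h10.le
      linarith
    · have hg0 : 0 < ‖g‖ := hr0.trans hg
      obtain ⟨s, hs⟩ : ∃ s : ℝ, s = r₀ / ‖g‖ := ⟨_, rfl⟩
      have hs0 : 0 < s := by
        rw [hs]
        positivity
      have hs1 : s ≤ 1 := by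
        rw [hs, div_le_one hg0]
        exact hg.le
      have hsg : s * ‖g‖ = r₀ := by
        rw [hs]
        exact div_mul_cancel₀ _ hg0.ne'
      have hn : ‖s • g‖ = r₀ := by
        rw [norm_smul, Real.norm_eq_abs, abs_of_pos hs0, hsg]
      obtain ⟨z, hz, h1⟩ := hmx (s • g) (by rw [hn]; exact hr1)
      refine ⟨emb z, Finset.mem_image_of_mem _ (mem_Sm.2 hz), ?_⟩
      have e1 := hlow (s • g) (by rw [hn]; exact hrδ)
      unfold W_7d29a1_D2.gap at e1
      rw [hn] at e1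
      have e2 := aM_le hd hρ β h hz
      have e3 := hgw (s • g)
      rw [hn] at e3
      rw [real_inner_smul_left] at h1 e3
      have e4 : r₀ * r₁ ≤ c * r₀ ^ 2 / 2 := by
        have := mul_le_mul_of_nonneg_left h12 hr0.le
        nlinarith
      have e5 : (m : ℝ) * (lam ρ β h + s * inner ℝ g w) ≤ aM ρ β h m z + s * inner ℝ g (emb z) := by
        refine le_trans ?_ h1
        refine mul_le_mul_of_nonneg_left ?_ hm0
        linarith
      have e6 : (1 - s) * aM ρ β h m z ≤ (1 - s) * (m * lam ρ β h) :=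
        mul_le_mul_of_nonneg_left e2 (by linarith)
      have e7 : s * ((m : ℝ) * (lam ρ β h + inner ℝ g w)) ≤
          s * (aM ρ β h m z + inner ℝ g (emb z)) := by
        linarith
      have e8 := le_of_mul_le_mul_left e7 hs0
      rw [hFe, inner_smul_right]
      have e9 : 0 ≤ (m : ℝ) * (κ * r₁ / 2) := by positivity
      linarith
  obtain ⟨α, a1, a2, a3, a4⟩ := hull35 d ((Sm d m).image emb) F ((m : ℝ) • w)
    (m * (lam ρ β h - κ * r₁ / 2)) H1 H2
  have hinj : Set.InjOn (emb : Site d → Vec d) (Sm d m : Set (Site d)) := emb_inj.injOn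
  rw [Finset.sum_image hinj] at a2 a3 a4
  refine ⟨fun z => α (emb z), fun z hz => a1 _ (Finset.mem_image_of_mem _ hz), a2, a3, ?_⟩
  refine a4.trans (le_of_eq (Finset.sum_congr rfl fun z _ => ?_))
  rw [hFe]

lemma cast_l1 (z : Site d) : (l1 z : ℝ) = ∑ i, |(emb z) i| := by
  unfold l1
  rw [Nat.cast_sum]
  refine Finset.sum_congr rfl fun i _ => ?_
  change (((z i).natAbs : ℕ) : ℝ) = |((z i : ℤ) : ℝ)|
  rw [Nat.cast_natAbs, Int.cast_abs]

lemma emb_sum_smul (S : Finset (Site d)) (n : Site d → ℕ) :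
    emb (∑ x ∈ S, n x • x) = ∑ x ∈ S, (n x : ℝ) • emb x := by
  rw [L96.emb_sum]
  refine Finset.sum_congr rfl fun x _ => ?_
  ext i
  change (((n x • x) i : ℤ) : ℝ) = (n x : ℝ) * ((x i : ℤ) : ℝ)
  rw [Pi.smul_apply, nsmul_eq_mul]
  push_cast
  ring

end P67

open P67 in
/-- **Leaf P.** -/
theorem p2p67 {d : ℕ} {ρ : Measure ℝ} [IsProbabilityMeasure ρ] (hd : 0 < d) (hρ : EM ρ) (β : ℝ) :
    P2P d ρ β := by
  intro h v hLP κ hκ
  obtain ⟨r₁, h1, h2, h3, m, hm, hW⟩ := weights hd hρ hLP hκ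
  obtain ⟨C₀, hC₀⟩ := (concV (d := d) hd hρ β ‖h‖).1
  obtain ⟨C, hCd⟩ : ∃ C : ℝ, C = |C₀| := ⟨_, rfl⟩
  have hC0 : 0 ≤ C := by
    rw [hCd]
    exact abs_nonneg _
  have hC : ∀ (s : ℕ) (z : Site d), Rch s z → |aM ρ β h s z| ≤ C * s := by
    intro s z hz
    rw [hCd]
    exact (hC₀ h le_rfl s z hz).trans
      (mul_le_mul_of_nonneg_right (le_abs_self _) (Nat.cast_nonneg s))
  obtain ⟨γ, hγ⟩ : ∃ γ : ℝ, γ = (1 - ∑ i, |v i|) / 2 := ⟨_, rfl⟩
  have hγ0 : 0 < γ := by
    rw [hγ]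
    have := hLP.int
    linarith
  rw [← hγ] at h3
  obtain ⟨N, hN⟩ : ∃ N : ℕ, N = (Sm d m).card := ⟨_, rfl⟩
  obtain ⟨T, hT⟩ : ∃ T : ℕ, (N : ℝ) * m / γ ≤ T := exists_nat_ge _
  obtain ⟨lb, hlb⟩ : ∃ lb : ℝ, lb = lam ρ β h - κ * r₁ / 2 := ⟨_, rfl⟩
  obtain ⟨D, hD⟩ : ∃ D : ℝ, D = (T + m) * |lb| + N * (C * m) + C * (T + m + N * m) := ⟨_, rfl⟩
  obtain ⟨t₀, ht₀⟩ := exists_nat_ge (2 * D / (κ * r₁))
  refine ⟨r₁, h1, h2, max t₀ (T + 1), fun t z ht hz hzv => ?_⟩
  have ht1 : t₀ ≤ t := (le_max_left _ _).trans ht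
  have htT : T + 1 ≤ t := (le_max_right _ _).trans ht
  have htp : (0 : ℝ) < t := by
    have : 0 < t := by omega
    exact_mod_cast this
  have hmr : (1 : ℝ) ≤ m := by exact_mod_cast hm
  have hm0 : (0 : ℝ) ≤ m := by linarith
  -- the velocity
  obtain ⟨w, hw⟩ : ∃ w : Vec d, w = (t : ℝ)⁻¹ • emb z := ⟨_, rfl⟩
  have hwz : (t : ℝ) • w = emb z := by
    rw [hw, smul_smul, mul_inv_cancel₀ htp.ne', one_smul]
  have hwv : ‖w - v‖ ≤ r₁ := by
    have e1 : (t : ℝ) • (w - v) = emb z - (t : ℝ) • v := by rw [smul_sub, hwz]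
    have e2 : ‖(t : ℝ) • (w - v)‖ = t * ‖w - v‖ := by
      rw [norm_smul, Real.norm_eq_abs, abs_of_pos htp]
    rw [← e1, e2] at hzv
    have e3 : (t : ℝ) * ‖w - v‖ ≤ t * r₁ := by linarith
    exact le_of_mul_le_mul_left e3 htp
  have hw1 : ∑ i, |w i| ≤ 1 - γ := by
    have e1 := one_norm_le v w
    have e2 : (d : ℝ) * ‖w - v‖ ≤ d * r₁ := mul_le_mul_of_nonneg_left hwv (Nat.cast_nonneg d)
    have e3 : ∑ i, |v i| = 1 - 2 * γ := by
      rw [hγ]
      ring
    linarith
  obtain ⟨α, a1, a2, a3, a4⟩ := hW w hwv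
  rw [← hlb] at a4
  -- the numbers of blocks
  obtain ⟨M, hM⟩ : ∃ M : ℕ, M = (t - T) / m := ⟨_, rfl⟩
  have hM1 : M * m ≤ t - T := by
    rw [hM]
    exact Nat.div_mul_le_self _ _
  have hM2 : t - T < M * m + m := by
    rw [hM]
    have e1 := Nat.div_add_mod (t - T) m
    have e2 := Nat.mod_lt (t - T) (show 0 < m by omega)
    have e3 : m * ((t - T) / m) = (t - T) / m * m := mul_comm _ _
    omega
  have hM1r : (M : ℝ) * m ≤ t - T := by
    have e1 : M * m + T ≤ t := by omega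
    have e2 : (M : ℝ) * m + T ≤ t := by exact_mod_cast e1
    linarith
  have hM2r : (t : ℝ) - T ≤ M * m + m := by
    have e1 : t ≤ M * m + m + T := by omega
    have e2 : (t : ℝ) ≤ M * m + m + T := by exact_mod_cast e1
    linarith
  obtain ⟨n, hn⟩ : ∃ n : Site d → ℕ, n = fun x => ⌊α x * M⌋₊ := ⟨_, rfl⟩
  have hM0 : (0 : ℝ) ≤ M := Nat.cast_nonneg M
  have hn1 : ∀ x ∈ Sm d m, (n x : ℝ) ≤ α x * M := by
    intro x hx
    rw [hn]
    exact Nat.floor_le (mul_nonneg (a1 x hx) hM0)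
  have hn2 : ∀ x ∈ Sm d m, α x * M ≤ n x + 1 := by
    intro x _
    rw [hn]
    exact (Nat.lt_floor_add_one _).le
  obtain ⟨K, hK⟩ : ∃ K : ℕ, K = ∑ x ∈ Sm d m, n x := ⟨_, rfl⟩
  have hαM : ∑ x ∈ Sm d m, α x * M = M := by rw [← Finset.sum_mul, a2, one_mul]
  have hK1 : (K : ℝ) ≤ M := by
    rw [hK, Nat.cast_sum, ← hαM]
    exact Finset.sum_le_sum hn1
  have hK2 : (M : ℝ) ≤ K + N := by
    rw [hK, Nat.cast_sum, ← hαM, hN]
    refine (Finset.sum_le_sum hn2).trans ?_
    rw [Finset.sum_add_distrib, Finset.sum_const, nsmul_eq_mul, mul_one]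
  have hK1n : K ≤ M := by exact_mod_cast hK1
  have hKm : K * m ≤ t - T := (Nat.mul_le_mul_right m hK1n).trans hM1
  obtain ⟨t', ht'⟩ : ∃ t' : ℕ, t' = t - K * m := ⟨_, rfl⟩
  have htt : t = K * m + t' := by omega
  have httr : (t : ℝ) = K * m + t' := by exact_mod_cast htt
  have hKmr : (K : ℝ) * m ≤ M * m := mul_le_mul_of_nonneg_right hK1 hm0
  have hKmr2 : (M : ℝ) * m ≤ K * m + N * m := by
    have := mul_le_mul_of_nonneg_right hK2 hm0
    linarith
  -- the remainder
  obtain ⟨hs1, hs2⟩ := aM_sum hρ β h n (Sm d m) (fun x hx => mem_Sm.1 hx)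
  rw [← hK] at hs1 hs2
  obtain ⟨y, hy⟩ : ∃ y : Site d, y = ∑ x ∈ Sm d m, n x • x := ⟨_, rfl⟩
  rw [← hy] at hs1 hs2
  have hlz : (l1 (z - y) : ℝ) ≤ t' := by
    have e1 : ∀ i, (emb (z - y)) i = (t - M * m) * w i +
        ∑ x ∈ Sm d m, (α x * M - n x) * (emb x) i := by
      intro i
      have q1 : (emb (z - y)) i = (emb z) i - (emb y) i := by
        change (((z - y) i : ℤ) : ℝ) = ((z i : ℤ) : ℝ) - ((y i : ℤ) : ℝ)
        rw [Pi.sub_apply, Int.cast_sub]
      have q2 : (emb z) i = t * w i := by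
        rw [← hwz]
        rfl
      have q3 : (emb y) i = ∑ x ∈ Sm d m, (n x : ℝ) * (emb x) i := by
        rw [hy, emb_sum_smul, WithLp.ofLp_sum, Finset.sum_apply]
        rfl
      have q4 : (m : ℝ) * w i = ∑ x ∈ Sm d m, α x * (emb x) i := by
        have q5 : ((m : ℝ) • w) i = (∑ x ∈ Sm d m, α x • emb x) i := by rw [a3]
        rw [WithLp.ofLp_sum, Finset.sum_apply] at q5
        exact q5
      rw [q1, q2, q3]
      have q6 : ∑ x ∈ Sm d m, (α x * M - n x) * (emb x) i =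
          M * ∑ x ∈ Sm d m, α x * (emb x) i - ∑ x ∈ Sm d m, (n x : ℝ) * (emb x) i := by
        rw [Finset.mul_sum, ← Finset.sum_sub_distrib]
        refine Finset.sum_congr rfl fun x _ => ?_
        ring
      rw [q6, ← q4]
      ring
    have hu : 0 ≤ (t : ℝ) - M * m := by
      have : (0 : ℝ) ≤ T := Nat.cast_nonneg T
      linarith
    have e2 : ∀ i ∈ (Finset.univ : Finset (Fin d)), |(emb (z - y)) i| ≤
        (t - M * m) * |w i| + ∑ x ∈ Sm d m, |(emb x) i| := by
      intro i _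
      rw [e1 i]
      refine (abs_add_le _ _).trans (add_le_add ?_ ?_)
      · rw [abs_mul, abs_of_nonneg hu]
      · refine (Finset.abs_sum_le_sum_abs _ _).trans (Finset.sum_le_sum fun x hx => ?_)
        rw [abs_mul]
        refine mul_le_of_le_one_left (abs_nonneg _) ?_
        have q1 := hn1 x hx
        have q2 := hn2 x hx
        rw [abs_le]
        constructor <;> linarith
    rw [P67.cast_l1]
    refine (Finset.sum_le_sum e2).trans ?_
    rw [Finset.sum_add_distrib, ← Finset.mul_sum, Finset.sum_comm]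
    have e3 : ∑ x ∈ Sm d m, ∑ i, |(emb x) i| ≤ N * m := by
      have q1 : ∀ x ∈ Sm d m, ∑ i, |(emb x) i| ≤ (m : ℝ) := by
        intro x hx
        rw [← P67.cast_l1]
        exact_mod_cast (rch_l1 (mem_Sm.1 hx)).1
      refine (Finset.sum_le_sum q1).trans ?_
      rw [Finset.sum_const, nsmul_eq_mul, hN]
    have e4 : ((t : ℝ) - M * m) * ∑ i, |w i| ≤ (t - M * m) * (1 - γ) :=
      mul_le_mul_of_nonneg_left hw1 hu
    have e5 : (N : ℝ) * m ≤ γ * (t - M * m) := by
      rw [div_le_iff₀ hγ0] at hT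
      have q1 : (T : ℝ) * γ ≤ (t - M * m) * γ :=
        mul_le_mul_of_nonneg_right (by linarith) hγ0.le
      linarith
    linarith
  have hlz' : l1 (z - y) ≤ t' := by exact_mod_cast hlz
  have hr : Rch t' (z - y) := by
    rw [rch_iff hd]
    refine ⟨hlz', ?_⟩
    have e1 := (rch_l1 hz).2
    have e2 := (rch_l1 hs1).2
    have e3 := even_l1_sub z y
    rw [Nat.even_iff] at e1 e2 ⊢
    rw [Nat.even_iff, Nat.even_iff] at e3
    omega
  -- the conclusion
  have hfin := aM_add hρ β h hs1 hr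
  rw [← htt, add_sub_cancel] at hfin
  have b1 : -(C * t') ≤ aM ρ β h t' (z - y) := (abs_le.1 (hC t' _ hr)).1
  have b2 : M * ((m : ℝ) * lb) - N * (C * m) ≤ ∑ x ∈ Sm d m, (n x : ℝ) * aM ρ β h m x := by
    have q1 : ∀ x ∈ Sm d m, α x * M * aM ρ β h m x - C * m ≤ (n x : ℝ) * aM ρ β h m x := by
      intro x hx
      have q2 := hn1 x hx
      have q3 := hn2 x hx
      have q4 := hC m x (mem_Sm.1 hx)
      have q5 : (α x * M - n x) * aM ρ β h m x ≤ C * m := by
        have q6 := le_abs_self ((α x * M - n x) * aM ρ β h m x)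
        rw [abs_mul, abs_of_nonneg (by linarith : 0 ≤ α x * M - n x)] at q6
        refine q6.trans ((mul_le_of_le_one_left (abs_nonneg _) (by linarith)).trans q4)
      linarith
    have q7 := Finset.sum_le_sum q1
    rw [Finset.sum_sub_distrib, Finset.sum_const, nsmul_eq_mul, ← hN] at q7
    have q8 : ∑ x ∈ Sm d m, α x * M * aM ρ β h m x = M * ∑ x ∈ Sm d m, α x * aM ρ β h m x := by
      rw [Finset.mul_sum]
      refine Finset.sum_congr rfl fun x _ => ?_
      ring
    rw [q8] at q7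
    have q9 := mul_le_mul_of_nonneg_left a4 hM0
    linarith
  have b3 : t * lb - (T + m) * |lb| ≤ M * ((m : ℝ) * lb) := by
    have q1 : (t - M * m) * lb ≤ (t - M * m) * |lb| :=
      mul_le_mul_of_nonneg_left (le_abs_self _) (by
        have : (0 : ℝ) ≤ T := Nat.cast_nonneg T
        linarith)
    have q2 : (t - M * m) * |lb| ≤ (T + m) * |lb| :=
      mul_le_mul_of_nonneg_right (by linarith) (abs_nonneg _)
    linarith
  have b4 : C * t' ≤ C * (T + m + N * m) := mul_le_mul_of_nonneg_left (by linarith) hC0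
  have b5 : D ≤ κ * r₁ / 2 * t := by
    have q1 : 2 * D / (κ * r₁) ≤ t := ht₀.trans (by exact_mod_cast ht1)
    rw [div_le_iff₀ (by positivity)] at q1
    linarith
  have b6 : t * lb = lam ρ β h * t - κ * r₁ / 2 * t := by
    rw [hlb]
    ring
  have b7 : (lam ρ β h - κ * r₁) * t = lam ρ β h * t - κ * r₁ * t := by ring
  rw [b7]
  linarith

end Pool.Agent.W_7d29a1_SDP
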