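import Pool.Agent.W_7d29a1_SDP.DefsP51
import Pool.Agent.W_7d29a1_NV.MulT27

/-!
Leaf `GainU`: the insertion of helper27 (`gain27`) for every displacement which is lucky with
probability at least `exp (-(min (ε / 4) (1 / 8)) b)`.
-/

set_option autoImplicit false

namespace Pool.Agent.W_7d29a1_SDP

open MeasureTheory ProbabilityTheory Filter Topology Pool.Agent.W_MP_7d29a1_pr
  Pool.Agent.W_7d29a1_h46 Pool.Agent.W_7d29a1_h46u Pool.Agent.W_7d29a1_D2.B35
  Pool.Agent.W_7d29a1_Q29 Pool.Agent.W_7d29a1_P89 Pool.Agent.W_7d29a1_P78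
  Pool.Agent.W_7d29a1_NV Pool.Agent.W_7d29a1_SD

variable {d : ℕ} {ρ : Measure ℝ}

/-- Leaf `GainU`. -/
theorem gainU94 [IsProbabilityMeasure ρ] (hd : 0 < d) (β : ℝ) : GainU d ρ β := by
  classical
  intro h ε C' hε hC0
  have hLM : LMassP d ρ := lMassP79
  set P : Prm d := ⟨lam ρ β h, β, h, 1⟩ with hP
  set θ : ℝ := min (ε / 4) (1 / 8) with hθ
  have hθ0 : 0 < θ := lt_min (by positivity) (by norm_num)
  have hθ1 : θ ≤ ε / 4 := min_le_left _ _
  have hθ2 : θ ≤ 1 / 8 := min_le_right _ _
  set c : ℝ := min (ε / 2) (1 / 4) with hc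
  have hc0 : 0 < c := lt_min (by positivity) (by norm_num)
  have hc1 : c ≤ ε / 2 := min_le_left _ _
  have hc2 : c ≤ 1 / 4 := min_le_right _ _
  obtain ⟨b₁, hb11, hb₁⟩ := num79 hc0 d (B := 0) le_rfl C' hC0.le
  refine ⟨b₁, hb11, fun b hb m z0 hmC hplow n τ hτn η hη => ?_⟩
  have hbb1 : b₁ ≤ b := hb
  have hb1 : 1 ≤ b := hb11.trans hbb1
  have hb0 : 0 < b := by linarith
  set U : ℝ := 2 * b with hU
  set p : ℝ := (law d ρ).real {ξ : Env d | Lk P m z0 U ξ} with hpd
  have hplow : Real.exp (-(θ * b)) ≤ p := hplow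
  have hp0 : 0 < p := (Real.exp_pos _).trans_le hplow
  have hnum := hb₁ b hbb1 m hmC
  rw [Real.exp_zero, mul_one] at hnum
  have hf1 : c * b ≤ b / 4 := by
    have := mul_le_mul_of_nonneg_right hc2 hb0.le
    linarith
  have hf2 : c * b ≤ ε * b / 2 := by
    have := mul_le_mul_of_nonneg_right hc1 hb0.le
    linarith
  have hf3 : θ * b ≤ ε * b / 4 := by
    have := mul_le_mul_of_nonneg_right hθ1 hb0.le
    linarith
  have hf4 : θ * b ≤ b / 8 := by
    have := mul_le_mul_of_nonneg_right hθ2 hb0.le
    linarith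
  have hf5 : 0 < ε * b := mul_pos hε hb0
  have hpow1 : (1 : ℝ) ≤ (4 * (m : ℝ) + 1) ^ d := one_le_pow₀ (by
    have : (0 : ℝ) ≤ m := Nat.cast_nonneg m
    linarith)
  have hQ0 : ∀ x, 0 ≤ Qt β h n τ x η := fun x => S98.Qt_nonneg hd β h n τ x η
  have hfin : 1 / 2 ≤ (law d ρ).real {ξ | Real.exp (b - U) ≤ ∑ x ∈ boxF d n,
      if Lk P m z0 U (sh τ x ξ) then Qt β h n τ x η else 0} := by
    -- the conclusion from the lucky mass lemma
    have key : ∀ (A : Finset (Site d)) (q : Site d → ℝ) (M : ℝ), A ⊆ boxF d n →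
        (∀ x ∈ A, 0 ≤ q x) → (∀ x ∈ A, q x ≤ M) → 0 < ∑ x ∈ A, q x →
        8 * M * (4 * (m : ℝ) + 1) ^ d ≤ p * ∑ x ∈ A, q x →
        (∀ ξ : Env d, p * (∑ x ∈ A, q x) / 2 <
          (∑ x ∈ A, if Lk P m z0 U (sh τ x ξ) then q x else 0) →
          Real.exp (b - U) ≤ ∑ x ∈ A, if Lk P m z0 U (sh τ x ξ) then Qt β h n τ x η else 0) →
        1 / 2 ≤ (law d ρ).real {ξ | Real.exp (b - U) ≤ ∑ x ∈ boxF d n,
          if Lk P m z0 U (sh τ x ξ) then Qt β h n τ x η else 0} := by
      intro A q M hAs hq0 hqM hT hnum' hgain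
      have h1 := hLM P τ m z0 U A q M hq0 hqM hT hp0
      have hpT : 0 < p * ∑ x ∈ A, q x := mul_pos hp0 hT
      have h2 : 4 * M * (4 * (m : ℝ) + 1) ^ d / (p * ∑ x ∈ A, q x) ≤ 1 / 2 := by
        rw [div_le_iff₀ hpT]
        linarith
      have hmeas : MeasurableSet {ξ : Env d | (∑ x ∈ A,
          if Lk P m z0 U (sh τ x ξ) then q x else 0) ≤ p * (∑ x ∈ A, q x) / 2} := by
        refine measurableSet_le (Finset.measurable_fun_sum _ fun x _ => ?_) measurable_const
        exact Measurable.ite ((measurable_sh τ x) (measurableSet_Lk78 P m z0 U))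
          measurable_const measurable_const
      have h3 := probReal_compl_eq_one_sub (μ := law d ρ) hmeas
      have h4 : {ξ : Env d | (∑ x ∈ A, if Lk P m z0 U (sh τ x ξ) then q x else 0) ≤
          p * (∑ x ∈ A, q x) / 2}ᶜ ⊆ {ξ | Real.exp (b - U) ≤ ∑ x ∈ boxF d n,
          if Lk P m z0 U (sh τ x ξ) then Qt β h n τ x η else 0} := by
        intro ξ hξ
        have h5 : p * (∑ x ∈ A, q x) / 2 <
          (∑ x ∈ A, if Lk P m z0 U (sh τ x ξ) then q x else 0) := not_le.1 hξ
        refine (hgain ξ h5).trans ?_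
        refine Finset.sum_le_sum_of_subset_of_nonneg hAs fun x _ _ => ?_
        split_ifs
        · exact hQ0 x
        · exact le_rfl
      have h5 := measureReal_mono (μ := law d ρ) h4
      rw [h3] at h5
      linarith
    by_cases hi : (((boxF d n).filter fun x => Real.exp (-b) ≤ Qt β h n τ x η).card : ℝ) ≤
        Real.exp (ε * b)
    · -- the mass of the small atoms is large
      have hii : Real.exp (-(b / 4)) <
          ∑ x ∈ (boxF d n).filter fun x => Qt β h n τ x η < Real.exp (-b), Qt β h n τ x η := by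
        by_contra hcon
        exact hη ⟨hi, not_lt.1 hcon⟩
      set A : Finset (Site d) := (boxF d n).filter fun x => Qt β h n τ x η < Real.exp (-b) with hAd
      have hT : 0 < ∑ x ∈ A, Qt β h n τ x η := (Real.exp_pos _).trans hii
      have hpT : Real.exp (-(θ * b)) * Real.exp (-(b / 4)) ≤
          p * ∑ x ∈ A, Qt β h n τ x η :=
        mul_le_mul hplow hii.le (Real.exp_pos _).le hp0.le
      rw [← Real.exp_add] at hpT
      refine key A (fun x => Qt β h n τ x η) (Real.exp (-b)) (Finset.filter_subset _ _)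
        (fun x _ => hQ0 x) (fun x hx => (Finset.mem_filter.1 hx).2.le) hT ?_ ?_
      · refine le_trans ?_ hpT
        have h6 : 8 * (4 * (m : ℝ) + 1) ^ d ≤ Real.exp (c * b) := hnum
        have h7 : 8 * Real.exp (-b) * (4 * (m : ℝ) + 1) ^ d ≤
            Real.exp (c * b) * Real.exp (-b) := by
          have := mul_le_mul_of_nonneg_right h6 (Real.exp_pos (-b)).le
          linarith
        refine h7.trans ?_
        rw [← Real.exp_add, Real.exp_le_exp]
        linarith
      · intro ξ hξ
        refine le_trans ?_ hξ.le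
        refine le_trans ?_ (div_le_div_of_nonneg_right hpT two_pos.le)
        rw [le_div_iff₀ two_pos]
        have h6 : 8 ≤ Real.exp (c * b) := by
          refine le_trans ?_ hnum
          linarith
        have h7 : (2 : ℝ) ≤ Real.exp (c * b) := by linarith
        calc Real.exp (b - U) * 2 ≤ Real.exp (b - U) * Real.exp (c * b) :=
              mul_le_mul_of_nonneg_left h7 (Real.exp_pos _).le
          _ = Real.exp (b - U + c * b) := (Real.exp_add _ _).symm
          _ ≤ _ := by
            rw [Real.exp_le_exp]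
            linarith
    · -- there are many atoms
      rw [not_le] at hi
      set A : Finset (Site d) := (boxF d n).filter fun x => Real.exp (-b) ≤ Qt β h n τ x η with hAd
      have hsum : ∑ _x ∈ A, (1 : ℝ) = A.card := by simp
      have hcard : 0 < (A.card : ℝ) := (Real.exp_pos _).trans hi
      refine key A (fun _ => 1) 1 (Finset.filter_subset _ _) (fun _ _ => zero_le_one)
        (fun _ _ => le_rfl) (by rw [hsum]; exact hcard) ?_ ?_
      · rw [hsum]
        have hpT : Real.exp (-(θ * b)) * Real.exp (ε * b) ≤ p * A.card :=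
          mul_le_mul hplow hi.le (Real.exp_pos _).le hp0.le
        rw [← Real.exp_add] at hpT
        refine le_trans ?_ hpT
        have h6 : 8 * (4 * (m : ℝ) + 1) ^ d ≤ Real.exp (c * b) := hnum
        rw [mul_one]
        refine h6.trans ?_
        rw [Real.exp_le_exp]
        linarith
      · intro ξ hξ
        have h6 : 0 < ∑ x ∈ A, (if Lk P m z0 U (sh τ x ξ) then (1 : ℝ) else 0) := by
          refine lt_of_le_of_lt ?_ hξ
          rw [hsum]
          positivity
        obtain ⟨x, hxA, hx⟩ := Finset.exists_ne_zero_of_sum_ne_zero h6.ne'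
        have hl : Lk P m z0 U (sh τ x ξ) := by
          by_contra hcon
          exact hx (if_neg hcon)
        have h7 : Real.exp (b - U) ≤ Qt β h n τ x η := by
          refine le_trans ?_ (Finset.mem_filter.1 hxA).2
          rw [Real.exp_le_exp]
          linarith
        refine h7.trans ?_
        have h8 := Finset.single_le_sum (s := A) (a := x)
          (f := fun x => if Lk P m z0 U (sh τ x ξ) then Qt β h n τ x η else 0)
          (fun x _ => by
            split_ifs
            · exact hQ0 x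
            · exact le_rfl) hxA
        beta_reduce at h8
        rw [if_pos hl] at h8
        exact h8
  exact hfin.trans (measureReal_mono fun ξ hξ => MT27.gainP27 hd β h hτn z0 hξ)


end Pool.Agent.W_7d29a1_SDP
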