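import Pool.Agent.W_7d29a1_SDP.DefsP51
import Pool.Agent.W_7d29a1_NV.MulT27
import Pool.Agent.W_7d29a1_V.Conc42
import Pool.Agent.W_7d29a1_V.Rch48

/-!
Leaf `MulU`: the laws of all the positions are concentrated on few sites, at most lengths, with no
hypothesis on the fluctuations of the free energy (insertion of a displacement which is typical and
lucky).
-/

set_option autoImplicit false

namespace Pool.Agent.W_7d29a1_SDP

open MeasureTheory ProbabilityTheory Filter Topology Pool.Agent.W_MP_7d29a1_pr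
  Pool.Agent.W_7d29a1_h46 Pool.Agent.W_7d29a1_h46u Pool.Agent.W_7d29a1_D2.B35
  Pool.Agent.W_7d29a1_Q29 Pool.Agent.W_7d29a1_NV Pool.Agent.W_7d29a1_P89
  Pool.Agent.W_7d29a1_SD

variable {d : ℕ} {ρ : Measure ℝ} [IsProbabilityMeasure ρ]

/-- Jensen. -/
lemma jen89 {ι : Type*} {s : Finset ι} {q z : ι → ℝ} (hq : ∀ i ∈ s, 0 ≤ q i)
    (h1 : ∑ i ∈ s, q i = 1) (hz : ∀ i ∈ s, 0 < z i) :
    ∑ i ∈ s, q i * Real.log (z i) ≤ Real.log (∑ i ∈ s, q i * z i) := by
  have h := strictConcaveOn_log_Ioi.concaveOn.le_map_sum (t := s) (w := q) (p := z) hq h1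
    (fun i hi => hz i hi)
  simpa only [smul_eq_mul] using h

/-- The loss of an insertion at a displacement `z`. -/
noncomputable def los89 (β : ℝ) (h : Vec d) (lm : ℝ) (m : ℕ) (z : Site d) (ξ : Env d) : ℝ :=
  max 0 (lm * m - Real.log (PP β h ξ m z))

/-- The lower bound of the gain of an insertion. -/
theorem low89 (hd : 0 < d) (β : ℝ) (h : Vec d) (lm : ℝ) {n τ m : ℕ} (hτ : τ ≤ n) {z : Site d}
    (hz : W_7d29a1_V.Rch m z) (η ξ : Env d) :
    X β h η n + lm * m - ∑ x ∈ boxF d τ, Qt β h n τ x η * los89 β h lm m z (sh τ x ξ) ≤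
      X β h (insE τ m z η ξ) (n + m) := by
  have hQ0 : ∀ x ∈ boxF d τ, 0 ≤ Qt β h n τ x η := fun x _ => S98.Qt_nonneg hd β h n τ x η
  have hQ1 : ∑ x ∈ boxF d τ, Qt β h n τ x η = 1 := S98.Qt_sum hd β h hτ η
  have hP : ∀ ζ : Env d, 0 < PP β h ζ m z := fun ζ => W_7d29a1_V.R48.PP_pos hz
  have hpos : 0 < ∑ x ∈ boxF d τ, Qt β h n τ x η * PP β h (sh τ x ξ) m z := by
    have h2 : ∃ i ∈ boxF d τ, 0 < Qt β h n τ i η := by
      by_contra hc
      push Not at hc
      have h3 : ∑ i ∈ boxF d τ, Qt β h n τ i η ≤ 0 := Finset.sum_nonpos hc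
      linarith
    obtain ⟨i, hi, hi0⟩ := h2
    exact Finset.sum_pos' (fun i hi => mul_nonneg (hQ0 i hi) (hP _).le)
      ⟨i, hi, mul_pos hi0 (hP _)⟩
  have h1 := X_ins hd β h m hτ z η ξ hpos le_rfl
  refine le_trans ?_ h1
  have h2 := jen89 hQ0 hQ1 (z := fun x => PP β h (sh τ x ξ) m z) fun _ _ => hP _
  have h3 : lm * m - ∑ x ∈ boxF d τ, Qt β h n τ x η * los89 β h lm m z (sh τ x ξ) ≤
      ∑ x ∈ boxF d τ, Qt β h n τ x η * Real.log (PP β h (sh τ x ξ) m z) := by
    have e : lm * m = ∑ x ∈ boxF d τ, Qt β h n τ x η * (lm * m) := by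
      rw [← Finset.sum_mul, hQ1, one_mul]
    rw [e, ← Finset.sum_sub_distrib]
    refine Finset.sum_le_sum fun x hx => ?_
    rw [← mul_sub]
    refine mul_le_mul_of_nonneg_left ?_ (hQ0 x hx)
    have := le_max_right 0 (lm * m - Real.log (PP β h (sh τ x ξ) m z))
    unfold los89
    linarith
  linarith

/-- One insertion: a set of environments on which the insertion gains `b` with probability at least
one half is small. -/
theorem core89 (hd : 0 < d) (hρ : EM ρ) (β : ℝ) (h : Vec d) {n τ m : ℕ} (hτ : τ ≤ n)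
    {z : Site d} (hz : W_7d29a1_V.Rch m z) {b D₁ D₂ : ℝ} (hb : 0 < b)
    (hA : A ρ β h (n + m) - A ρ β h n ≤ lam ρ β h * m + D₁)
    (hR : ∫ η, los89 β h (lam ρ β h) m z η ∂(law d ρ) ≤ D₂) (Bad : Set (Env d))
    (hBad : ∀ η ∈ Bad, 1 / 2 ≤ (law d ρ).real {ξ | X β h η n + (lam ρ β h * m + b) ≤
      X β h (insE τ m z η ξ) (n + m)}) :
    (law d ρ).real Bad * b ≤ 2 * (D₁ + D₂) := by
  classical
  have hmp := mp_ins (d := d) (ρ := ρ) τ m z
  set μ : Measure (Env d × Env d) := (law d ρ).prod (law d ρ) with hμ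
  -- the losses
  have hLi : Integrable (fun η : Env d => Real.log (PP β h η m z)) (law d ρ) :=
    (W_7d29a1_V.Conc42_exp hρ β h m hz).1
  have hli : Integrable (los89 β h (lam ρ β h) m z) (law d ρ) := by
    have h1 : Integrable (fun η : Env d => max 0 (lam ρ β h * m - Real.log (PP β h η m z)))
        (law d ρ) := (integrable_const (0 : ℝ)).sup ((integrable_const _).sub hLi)
    exact h1
  set F : Site d → Env d × Env d → ℝ := fun x w =>
    Qt β h n τ x w.1 * los89 β h (lam ρ β h) m z (sh τ x w.2) with hF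
  have hQm : ∀ x, Integrable (Qt β h n τ x) (law d ρ) := by
    intro x
    refine Integrable.of_bound (S98.measurable_Qt β h n τ x).aestronglyMeasurable 1
      (Eventually.of_forall fun η => ?_)
    rw [Real.norm_eq_abs]
    exact S98.Qt_abs hd β h hτ x η
  have hsi : ∀ x, Integrable (fun ξ => los89 β h (lam ρ β h) m z (sh τ x ξ)) (law d ρ) :=
    fun x => (mp_sh (ρ := ρ) τ x).integrable_comp_of_integrable hli
  have hFi : ∀ x, Integrable (F x) μ := fun x => (hQm x).mul_prod (hsi x)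
  have hFI : ∀ x, ∫ w, F x w ∂μ =
      (∫ η, Qt β h n τ x η ∂(law d ρ)) * ∫ η, los89 β h (lam ρ β h) m z η ∂(law d ρ) := by
    intro x
    have h1 : ∫ ξ, los89 β h (lam ρ β h) m z (sh τ x ξ) ∂(law d ρ) =
        ∫ η, los89 β h (lam ρ β h) m z η ∂(law d ρ) :=
      LawU_integral (mp_sh (ρ := ρ) τ x) hli.aestronglyMeasurable
    rw [← h1]
    exact integral_prod_mul (μ := law d ρ) (ν := law d ρ) (fun η => Qt β h n τ x η)
      (fun ξ => los89 β h (lam ρ β h) m z (sh τ x ξ))
  have hSum : ∫ w, ∑ x ∈ boxF d τ, F x w ∂μ ≤ D₂ := by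
    rw [integral_finsetSum _ fun x _ => hFi x]
    simp only [hFI]
    rw [← Finset.sum_mul, ← integral_finsetSum _ fun x _ => hQm x]
    have h1 : ∀ η : Env d, ∑ x ∈ boxF d τ, Qt β h n τ x η = 1 := fun η => S98.Qt_sum hd β h hτ η
    simp only [h1]
    rw [integral_const]
    simpa using hR
  -- the gain
  have i1 : Integrable (fun w : Env d × Env d => X β h (insE τ m z w.1 w.2) (n + m)) μ :=
    hmp.integrable_comp_of_integrable (concU hd hρ β h (n + m)).1
  have i2 : Integrable (fun w : Env d × Env d => X β h w.1 n) μ :=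
    (concU hd hρ β h n).1.comp_fst (law d ρ)
  have j1 : ∫ w : Env d × Env d, X β h (insE τ m z w.1 w.2) (n + m) ∂μ = A ρ β h (n + m) :=
    LawU_integral hmp (F := fun g => X β h g (n + m)) (concU hd hρ β h (n + m)).1.aestronglyMeasurable
  have j2 : ∫ w : Env d × Env d, X β h w.1 n ∂μ = A ρ β h n :=
    LawU_integral (measurePreserving_fst (μ := law d ρ) (ν := law d ρ))
      (F := fun g => X β h g n) (concU hd hρ β h n).1.aestronglyMeasurable
  set G : Set (Env d × Env d) := {w | X β h w.1 n + (lam ρ β h * m + b) ≤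
    X β h (insE τ m z w.1 w.2) (n + m)} with hG
  have hGm : MeasurableSet G := measurableSet_le
    (((measurable_X β h n).comp measurable_fst).add_const _)
    ((measurable_X β h (n + m)).comp hmp.measurable)
  have hle : ∀ w, G.indicator (fun _ => b) w ≤
      (X β h (insE τ m z w.1 w.2) (n + m) - X β h w.1 n - lam ρ β h * m) +
        ∑ x ∈ boxF d τ, F x w := by
    intro w
    have hS0 : 0 ≤ ∑ x ∈ boxF d τ, F x w := Finset.sum_nonneg fun x _ =>
      mul_nonneg (S98.Qt_nonneg hd β h n τ x w.1) (le_max_left _ _)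
    by_cases hw : w ∈ G
    · rw [Set.indicator_of_mem hw]
      have h1 : X β h w.1 n + (lam ρ β h * m + b) ≤ X β h (insE τ m z w.1 w.2) (n + m) := hw
      linarith
    · rw [Set.indicator_of_notMem hw]
      have h1 := low89 hd β h (lam ρ β h) hτ hz w.1 w.2
      change _ - ∑ x ∈ boxF d τ, F x w ≤ _ at h1
      linarith
  have hS : Integrable (fun w => ∑ x ∈ boxF d τ, F x w) μ :=
    integrable_finsetSum _ fun x _ => hFi x
  have i3 : Integrable (fun w : Env d × Env d =>
      X β h (insE τ m z w.1 w.2) (n + m) - X β h w.1 n) μ := i1.sub i2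
  have i4 : Integrable (fun w : Env d × Env d =>
      X β h (insE τ m z w.1 w.2) (n + m) - X β h w.1 n - lam ρ β h * m) μ :=
    i3.sub (integrable_const (lam ρ β h * m))
  have hInt := integral_mono ((integrable_const (μ := μ) b).indicator hGm) (i4.add hS) hle
  rw [integral_indicator_const _ hGm, smul_eq_mul] at hInt
  simp only [Pi.add_apply] at hInt
  rw [integral_add i4 hS, integral_sub i3 (integrable_const (lam ρ β h * m)),
    integral_sub i1 i2, j1, j2, integral_const] at hInt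
  simp only [probReal_univ, smul_eq_mul, one_mul] at hInt
  have hfin := MT27.sec27 (ρ := ρ) hGm Bad fun η hη => hBad η hη
  have h5 : (law d ρ).real Bad * b ≤ 2 * μ.real G * b := mul_le_mul_of_nonneg_right hfin hb.le
  linarith

open Classical in
/-- Leaf `MulU`. -/
theorem mulU89 (hd : 0 < d) (hρ : EM ρ) (β : ℝ) (hL : LuckU d ρ β) (hG : GainU d ρ β) :
    MulU d ρ β := by
  intro h v hV hLP ε δ hε hδ
  set ε' : ℝ := min (ε / 4) (1 / 8) with hε'
  have hε0 : 0 < ε' := lt_min (by positivity) (by norm_num)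
  obtain ⟨C', b₁, hC0, hb11, hl⟩ := hL h v hV hLP ε' (δ / 4) hε0 (by positivity)
  obtain ⟨b₂, hb21, hg⟩ := hG h ε C' hε hC0
  obtain ⟨C, hCm⟩ := dmC89 (ρ := ρ) hd hρ β h (show (0 : ℝ) < δ * (δ / 4) / (4 * C') by positivity)
  refine ⟨max b₁ (max b₂ (4 * C / (δ * (δ / 4)))), fun b hb => ?_⟩
  have hbb1 : b₁ ≤ b := (le_max_left _ _).trans hb
  have hbb2 : b₂ ≤ b := (le_max_left _ _).trans ((le_max_right _ _).trans hb)
  have hbb3 : 4 * C / (δ * (δ / 4)) ≤ b := (le_max_right _ _).trans ((le_max_right _ _).trans hb)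
  have hb1 : 1 ≤ b := hb11.trans hbb1
  obtain ⟨m, z, hm1, hmC, hz, hR, hlk⟩ := hl b hbb1
  have hδδ : 0 < δ * (δ / 4) := by positivity
  have hD : m * lam ρ β h - A ρ β h m ≤ δ * (4 * (δ / 4 * b)) / 8 := by
    have h1 := hCm m
    have h2 : δ * (δ / 4) / (4 * C') * m ≤ δ * (δ / 4) * b / 4 := by
      have e : δ * (δ / 4) / (4 * C') * (C' * b) = δ * (δ / 4) * b / 4 := by
        field_simp
      rw [← e]
      exact mul_le_mul_of_nonneg_left hmC (by positivity)
    rw [div_le_iff₀ hδδ] at hbb3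
    linarith
  obtain ⟨N₀, hN₀⟩ := densm89 hd hρ β h (m := m) (b := 4 * (δ / 4 * b)) (δ := δ) (by positivity) hδ hD
  refine ⟨N₀, fun N hN => ?_⟩
  refine le_trans ?_ (hN₀ N hN)
  have hsub : ((Finset.Ico N (2 * N)).filter fun n => ∃ τ : ℕ, τ ≤ n ∧
      ¬ (law d ρ).real {η | ¬ GoodN β h n τ b ε η} ≤ δ) ⊆
      (Finset.Ico N (2 * N)).filter fun n =>
        ¬ (A ρ β h (n + m) - A ρ β h n ≤ lam ρ β h * m + 4 * (δ / 4 * b) / 4) := by
    intro n hn
    rw [Finset.mem_filter] at hn ⊢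
    refine ⟨hn.1, fun hA => ?_⟩
    obtain ⟨τ, hτ, hbad⟩ := hn.2
    refine hbad ?_
    have h1 := core89 hd hρ β h hτ hz (b := b) (D₁ := δ / 4 * b) (D₂ := δ / 4 * b) (by linarith)
      (by linarith) hR {η | ¬ GoodN β h n τ b ε η} fun η hη => hg b hbb2 m z hmC hlk n τ hτ η hη
    have h2 : (law d ρ).real {η | ¬ GoodN β h n τ b ε η} * b ≤ δ * b := by linarith
    exact le_of_mul_le_mul_right h2 (by linarith)
  convert (Nat.cast_le (α := ℝ)).2 (Finset.card_le_card hsub) using 2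

end Pool.Agent.W_7d29a1_SDP

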