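import Pool.Agent.W_7d29a1_SDP.DefsM51

/-!
Leaf COV of Theorem SDM: a set of volume at least `κ` in a ball has `k` points in a ball of radius
`K s` which are separated at the scale `b s` (pure geometry; `0 < d`).
-/

namespace Pool.Agent.W_7d29a1_SDP

open MeasureTheory Metric Pool.Agent.W_MP_7d29a1_pr Pool.Agent.W_7d29a1_h46
  Pool.Agent.W_7d29a1_h46u

/-- Greedy separated points: `Q` separated points of `A`, or a cover of `A` by fewer balls. -/
lemma greedy34 {X : Type*} [PseudoMetricSpace X] (A : Set X) (r : ℝ) (Q : ℕ) :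
    (∃ y : Fin Q → X, (∀ l, y l ∈ A) ∧ ∀ l m, l ≠ m → r ≤ dist (y l) (y m)) ∨
    ∃ Q' : ℕ, Q' < Q ∧ ∃ y : Fin Q' → X, (∀ l m, l ≠ m → r ≤ dist (y l) (y m)) ∧
      (∀ l, y l ∈ A) ∧ A ⊆ ⋃ l, ball (y l) r := by
  induction Q with
  | zero => exact Or.inl ⟨fun l => l.elim0, fun l => l.elim0, fun l => l.elim0⟩
  | succ Q ih =>
    rcases ih with ⟨y, hyA, hys⟩ | ⟨Q', hQ', h⟩
    · by_cases hc : A ⊆ ⋃ l, ball (y l) r
      · exact Or.inr ⟨Q, Nat.lt_succ_self Q, y, hys, hyA, hc⟩
      · obtain ⟨x, hxA, hx⟩ := Set.not_subset.mp hc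
        have hx' : ∀ l, r ≤ dist x (y l) := by
          intro l
          by_contra hl
          exact hx (Set.mem_iUnion.mpr ⟨l, not_le.mp hl⟩)
        refine Or.inl ⟨Fin.cons x y, ?_, ?_⟩
        · intro l
          refine Fin.cases ?_ (fun i => ?_) l
          · simpa using hxA
          · simpa using hyA i
        · intro l m
          refine Fin.cases ?_ (fun i => ?_) l <;> refine Fin.cases ?_ (fun j => ?_) m
          · intro h; exact absurd rfl h
          · intro _; simpa using hx' j
          · intro _; rw [dist_comm]; simpa using hx' i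
          · intro h
            simpa using hys i j (fun e => h (by rw [e]))
    · exact Or.inr ⟨Q', by omega, h⟩

/-- Packing bound. -/
lemma pack34 {d : ℕ} {L r : ℝ} (hL : 0 < L) (hr : 0 < r) {Q : ℕ} (y : Fin Q → Vec d)
    (hy : ∀ l, y l ∈ closedBall (0 : Vec d) L) (hs : ∀ l m, l ≠ m → r ≤ dist (y l) (y m)) :
    (Q : ℝ) ≤ (2 * (L + r) / r) ^ d := by
  set μ : Measure (Vec d) := volume with hμ
  have hfr : Module.finrank ℝ (Vec d) = d := by simp [Vec]
  have hpos : 0 < μ (ball (0 : Vec d) 1) := measure_ball_pos _ _ one_pos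
  have hfin : μ (ball (0 : Vec d) 1) < ⊤ := measure_ball_lt_top
  have hdisj : Pairwise (Function.onFun Disjoint fun l => ball (y l) (r / 2)) := by
    intro l m hlm
    apply ball_disjoint_ball
    have := hs l m hlm
    linarith
  have h1 : ∑ l : Fin Q, μ (ball (y l) (r / 2)) ≤ μ (ball (0 : Vec d) (L + r)) := by
    have h2 : μ (⋃ l, ball (y l) (r / 2)) = ∑ l : Fin Q, μ (ball (y l) (r / 2)) := by
      rw [measure_iUnion hdisj (fun l => measurableSet_ball), tsum_fintype]
    rw [← h2]
    apply measure_mono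
    intro z hz
    obtain ⟨l, hl⟩ := Set.mem_iUnion.mp hz
    have h3 := hy l
    rw [mem_closedBall] at h3
    rw [mem_ball] at hl ⊢
    have := dist_triangle z (y l) 0
    linarith
  have h4 : ∀ l : Fin Q, μ (ball (y l) (r / 2)) =
      ENNReal.ofReal ((r / 2) ^ d) * μ (ball (0 : Vec d) 1) := by
    intro l
    rw [Measure.addHaar_ball_of_pos μ (y l) (by positivity : 0 < r / 2), hfr]
  rw [Finset.sum_congr rfl fun l _ => h4 l, Finset.sum_const, Finset.card_univ, Fintype.card_fin,
    Measure.addHaar_ball_of_pos μ (0 : Vec d) (by positivity : 0 < L + r), hfr, nsmul_eq_mul,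
    ← mul_assoc] at h1
  have h5 := (ENNReal.mul_le_mul_iff_left hpos.ne' hfin.ne).mp h1
  rw [← ENNReal.ofReal_natCast, ← ENNReal.ofReal_mul (by positivity)] at h5
  have h6 := (ENNReal.ofReal_le_ofReal_iff (by positivity)).mp h5
  have h7 : (2 * (L + r) / r) ^ d = (L + r) ^ d / (r / 2) ^ d := by
    rw [← div_pow]
    congr 1
    field_simp
  rw [h7, le_div_iff₀ (by positivity)]
  exact h6

/-- The cell bound: no `k` separated points, small volume. -/
lemma cell34 {d : ℕ} {r : ℝ} (hr : 0 < r) (k : ℕ) (A : Set (Vec d))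
    (hA : ¬ ∃ y : Fin k → Vec d, (∀ l, y l ∈ A) ∧ ∀ l m, l ≠ m → r ≤ dist (y l) (y m)) :
    volume A ≤ ENNReal.ofReal (k * r ^ d) * volume (ball (0 : Vec d) 1) := by
  have hfr : Module.finrank ℝ (Vec d) = d := by simp [Vec]
  rcases greedy34 A r k with h | ⟨Q, hQ, y, -, -, hc⟩
  · exact absurd h hA
  · calc volume A ≤ volume (⋃ l, ball (y l) r) := measure_mono hc
      _ ≤ ∑ l : Fin Q, volume (ball (y l) r) := measure_iUnion_fintype_le _ _
      _ = ∑ l : Fin Q, ENNReal.ofReal (r ^ d) * volume (ball (0 : Vec d) 1) := by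
          refine Finset.sum_congr rfl fun l _ => ?_
          rw [Measure.addHaar_ball_of_pos volume (y l) hr, hfr]
      _ = (Q : ENNReal) * (ENNReal.ofReal (r ^ d) * volume (ball (0 : Vec d) 1)) := by
          rw [Finset.sum_const, Finset.card_univ, Fintype.card_fin, nsmul_eq_mul]
      _ ≤ (k : ENNReal) * (ENNReal.ofReal (r ^ d) * volume (ball (0 : Vec d) 1)) := by
          gcongr
      _ = ENNReal.ofReal (k * r ^ d) * volume (ball (0 : Vec d) 1) := by
          rw [ENNReal.ofReal_mul (by positivity), ENNReal.ofReal_natCast, mul_assoc]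

/-- Leaf COV. -/
theorem covE34 {d : ℕ} (hd : 0 < d) : CovE d := by
  intro L κ b k hL hκ hb
  set ω : ℝ := volume.real (ball (0 : Vec d) 1) with hω
  have hωfin : volume (ball (0 : Vec d) 1) ≠ ⊤ := measure_ball_lt_top.ne
  have hω0 : 0 ≤ ω := measureReal_nonneg
  have hωe : volume (ball (0 : Vec d) 1) = ENNReal.ofReal ω := by
    rw [hω, Measure.real, ENNReal.ofReal_toReal hωfin]
  -- the scale
  set x : ℝ := κ / (κ + (k + 1) * (ω + 1)) with hx
  have hden : 0 < κ + (k + 1) * (ω + 1) := by positivity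
  have hx0 : 0 < x := by positivity
  have hx1 : x ≤ 1 := by
    rw [hx, div_le_one hden]
    have : 0 ≤ ((k : ℝ) + 1) * (ω + 1) := by positivity
    linarith
  have hxk : x * (k * ω) < κ := by
    rw [hx, div_mul_eq_mul_div, div_lt_iff₀ hden]
    have h1 : (k : ℝ) * ω < κ + (k + 1) * (ω + 1) := by
      have hk0 : (0 : ℝ) ≤ k := Nat.cast_nonneg k
      nlinarith
    exact mul_lt_mul_of_pos_left h1 hκ
  set K : ℝ := 4 * b * (L + 1) / x with hK
  have hK0 : 0 < K := by positivity
  refine ⟨K, 1 / K, hK0, by positivity, ?_⟩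
  intro s hs hs0 B hB hvol
  have hKs : K * s ≤ 1 := by
    rw [le_div_iff₀ hK0] at hs0
    linarith
  set r : ℝ := K * s / 2 with hr
  have hr0 : 0 < r := by positivity
  have hbs : 0 < b * s := by positivity
  by_contra hno
  -- the number of the balls
  obtain ⟨Q₀, hQ₀⟩ := exists_nat_gt ((2 * (L + r) / r) ^ d)
  rcases greedy34 B r Q₀ with ⟨y, hyB, hys⟩ | ⟨Q, -, y, hys, hyB, hc⟩
  · exact absurd (pack34 hL hr0 y (fun l => hB (hyB l)) hys) (not_le.mpr hQ₀)
  · have hQ : (Q : ℝ) ≤ (2 * (L + r) / r) ^ d := pack34 hL hr0 y (fun l => hB (hyB l)) hys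
    have hcell : ∀ l : Fin Q, volume (B ∩ ball (y l) r) ≤
        ENNReal.ofReal (k * (b * s) ^ d) * volume (ball (0 : Vec d) 1) := by
      intro l
      apply cell34 hbs
      rintro ⟨z, hz, hzs⟩
      apply hno
      refine ⟨z, fun i => (hz i).1, fun i j => ?_, fun i j hij => ?_⟩
      · have h1 := (hz i).2
        have h2 := (hz j).2
        rw [mem_ball] at h1 h2
        rw [← dist_eq_norm]
        have h3 := dist_triangle_right (z i) (z j) (y l)
        have : K * s = r + r := by rw [hr]; ring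
        linarith
      · rw [← dist_eq_norm]
        exact hzs i j hij
    have hcov : B ⊆ ⋃ l, B ∩ ball (y l) r := by
      rw [← Set.inter_iUnion]
      exact Set.subset_inter subset_rfl hc
    have h1 : volume B ≤ (Q : ENNReal) *
        (ENNReal.ofReal (k * (b * s) ^ d) * volume (ball (0 : Vec d) 1)) := by
      calc volume B ≤ volume (⋃ l, B ∩ ball (y l) r) := measure_mono hcov
        _ ≤ ∑ l : Fin Q, volume (B ∩ ball (y l) r) := measure_iUnion_fintype_le _ _
        _ ≤ ∑ _l : Fin Q, ENNReal.ofReal (k * (b * s) ^ d) * volume (ball (0 : Vec d) 1) :=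
            Finset.sum_le_sum fun l _ => hcell l
        _ = _ := by rw [Finset.sum_const, Finset.card_univ, Fintype.card_fin, nsmul_eq_mul]
    have h2 : ENNReal.ofReal κ ≤ ENNReal.ofReal (Q * (k * (b * s) ^ d * ω)) := by
      refine hvol.trans (h1.trans (le_of_eq ?_))
      rw [hωe, ← ENNReal.ofReal_mul (by positivity), ← ENNReal.ofReal_natCast,
        ← ENNReal.ofReal_mul (by positivity)]
    have h3 : κ ≤ Q * (k * (b * s) ^ d * ω) :=
      (ENNReal.ofReal_le_ofReal_iff (by positivity)).mp h2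
    have h4 : (Q : ℝ) * (k * (b * s) ^ d * ω) ≤ x * (k * ω) := by
      have h5 : (Q : ℝ) * (b * s) ^ d ≤ x := by
        calc (Q : ℝ) * (b * s) ^ d ≤ (2 * (L + r) / r) ^ d * (b * s) ^ d := by gcongr
          _ = (2 * (L + r) / r * (b * s)) ^ d := (mul_pow _ _ _).symm
          _ ≤ x ^ d := by
              apply pow_le_pow_left₀ (by positivity)
              have h6 : 2 * (L + r) / r * (b * s) = 4 * b * (L + r) / K := by
                rw [hr]
                field_simp
                ring
              rw [h6, hK]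
              have h7 : 4 * b * (L + r) / (4 * b * (L + 1) / x) = (L + r) / (L + 1) * x := by
                field_simp
              rw [h7]
              have h8 : (L + r) / (L + 1) ≤ 1 := by
                rw [div_le_one (by linarith)]
                linarith
              nlinarith
          _ ≤ x := pow_le_of_le_one hx0.le hx1 hd.ne'
      calc (Q : ℝ) * (k * (b * s) ^ d * ω) = (Q * (b * s) ^ d) * (k * ω) := by ring
        _ ≤ x * (k * ω) := by gcongr
    linarith

end Pool.Agent.W_7d29a1_SDP
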