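import Pool.Agent.W_7d29a1_SDP.DefsM51
import Pool.Agent.W_7d29a1_SDP.AeLP96
import Pool.Agent.W_7d29a1_SDP.LuckU21
import Pool.Agent.W_7d29a1_R34.EgoG81

/-!
Theorem SDM, leaf MEAS: the set of the bad velocities is measurable.
-/

namespace Pool.Agent.W_7d29a1_SDP

open MeasureTheory ProbabilityTheory Filter Topology Pool.Agent.W_MP_7d29a1_pr
  Pool.Agent.W_7d29a1_h46 Pool.Agent.W_7d29a1_h46u Pool.Agent.W_7d29a1_D2.B35
  Pool.Agent.W_7d29a1_Q29 Pool.Agent.W_7d29a1_NV Pool.Agent.W_7d29a1_P89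
  Pool.Agent.W_7d29a1_SD

namespace Me50

variable {d : ℕ}

lemma cont_ZT {n : ℕ} (β : ℝ) (η : Env d) (E : Set (Fin n → Step d)) :
    Continuous fun h : Vec d => ZT β h η E := by
  classical
  unfold ZT
  refine continuous_finsetSum _ fun s _ => ?_
  by_cases hs : s ∈ E
  · simp only [if_pos hs]
    unfold wgt
    fun_prop
  · simp only [if_neg hs]
    exact continuous_const

lemma cont_PolT (hd : 0 < d) {n : ℕ} (β : ℝ) (η : Env d) (E : Set (Fin n → Step d)) :
    Continuous fun h : Vec d => PolT β h η E := by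
  unfold PolT
  exact (cont_ZT β η E).div (cont_ZT β η _) fun h => (ZT_univ_pos (n := n) hd β h η).ne'

variable {ρ : Measure ℝ} [IsProbabilityMeasure ρ]

lemma int_one (β : ℝ) (h : Vec d) {n : ℕ} (E : Set (Fin n → Step d)) :
    Integrable (fun η => 1 - PolT β h η E) (law d ρ) := by
  refine (integrable_const 1).sub (Integrable.of_bound
    (measurable_PolT β h E).aestronglyMeasurable 1 (Filter.Eventually.of_forall fun η => ?_))
  rw [Real.norm_eq_abs, abs_of_nonneg (PolT_nonneg β h η E)]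
  exact PolT_le_one β h η E

lemma cont_int (hd : 0 < d) {n : ℕ} (β : ℝ) (G : Set (Fin n → Step d)) :
    Continuous fun h : Vec d => ∫ η, (1 - PolT β h η G) ∂(law d ρ) := by
  have hb : ∀ (h : Vec d) (η : Env d), ‖1 - PolT β h η G‖ ≤ 1 := by
    intro h η
    have h1 := PolT_nonneg β h η G
    have h2 := PolT_le_one β h η G
    rw [Real.norm_eq_abs, abs_of_nonneg (by linarith)]
    linarith
  have hm : ∀ h : Vec d, AEStronglyMeasurable (fun η : Env d => 1 - PolT β h η G) (law d ρ) :=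
    fun h => (int_one β h G).aestronglyMeasurable
  have hc : ∀ η : Env d, Continuous fun h : Vec d => 1 - PolT β h η G :=
    fun η => continuous_const.sub (cont_PolT hd β η G)
  exact continuous_of_dominated (F := fun (h : Vec d) (η : Env d) => 1 - PolT β h η G)
    (bound := fun _ => (1 : ℝ)) hm (fun h => Filter.Eventually.of_forall fun η => hb h η)
    (integrable_const _) (Filter.Eventually.of_forall fun η => hc η)

/-- The mean mass outside a set of walks which is contained in the end ball. -/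
lemma Te_le (β R : ℝ) (h v : Vec d) (n : ℕ) (G : Set (Fin n → Step d))
    (hG : G ⊆ endB d n v (R * Real.sqrt n)) :
    Te ρ β h v R n ≤ ∫ η, (1 - PolT β h η G) ∂(law d ρ) := by
  unfold Te
  refine integral_mono (int_one β h _) (int_one β h G) fun η => ?_
  have h1 := PolT_mono β h η hG
  change 1 - PolT β h η (endB d n v (R * Real.sqrt n)) ≤ 1 - PolT β h η G
  linarith

lemma closed_end (R : ℝ) (n : ℕ) (G : Set (Fin n → Step d)) :
    IsClosed {p : Vec d × Vec d | G ⊆ endB d n p.2 (R * Real.sqrt n)} := by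
  have e : {p : Vec d × Vec d | G ⊆ endB d n p.2 (R * Real.sqrt n)} =
      ⋂ s : Fin n → Step d, ⋂ _ : s ∈ G,
        {p : Vec d × Vec d | ‖emb (pos s n) - (n : ℝ) • p.2‖ ≤ R * Real.sqrt n} := by
    ext p
    simp only [Set.mem_iInter]
    rfl
  rw [e]
  refine isClosed_iInter fun s => isClosed_iInter fun _ => isClosed_le ?_ continuous_const
  fun_prop

lemma closed_Te (hd : 0 < d) (β R c : ℝ) (n : ℕ) :
    IsClosed {p : Vec d × Vec d | Te ρ β p.1 p.2 R n ≤ c} := by
  have e : {p : Vec d × Vec d | Te ρ β p.1 p.2 R n ≤ c} =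
      ⋃ G : Set (Fin n → Step d), ({p : Vec d × Vec d | G ⊆ endB d n p.2 (R * Real.sqrt n)} ∩
        {p : Vec d × Vec d | ∫ η, (1 - PolT β p.1 η G) ∂(law d ρ) ≤ c}) := by
    ext p
    rw [Set.mem_iUnion]
    constructor
    · intro hp
      have hp' : Te ρ β p.1 p.2 R n ≤ c := hp
      unfold Te at hp'
      exact ⟨endB d n p.2 (R * Real.sqrt n), fun s hs => hs, hp'⟩
    · rintro ⟨G, hG, hp⟩
      have h1 := Te_le (ρ := ρ) β R p.1 p.2 n G hG
      have h2 : ∫ η, (1 - PolT β p.1 η G) ∂(law d ρ) ≤ c := hp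
      have h3 : Te ρ β p.1 p.2 R n ≤ c := h1.trans h2
      exact h3
  rw [e]
  have hfin : Finite (Set (Fin n → Step d)) := inferInstance
  refine isClosed_iUnion_of_finite fun G => IsClosed.inter (closed_end R n G) ?_
  exact isClosed_le ((cont_int hd β G).comp continuous_fst) continuous_const

lemma closed_slope (hd : 0 < d) (hρ : EM ρ) (β : ℝ) :
    IsClosed {p : Vec d × Vec d | ∀ k : Vec d, lam ρ β p.1 + inner ℝ p.2 k ≤ lam ρ β (p.1 + k)} := by
  have hc : Continuous (lam ρ β : Vec d → ℝ) :=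
    (lam_convex hd hρ β).locallyLipschitz.continuous
  have e : {p : Vec d × Vec d | ∀ k : Vec d, lam ρ β p.1 + inner ℝ p.2 k ≤ lam ρ β (p.1 + k)} =
      ⋂ k : Vec d, {p : Vec d × Vec d | lam ρ β p.1 + inner ℝ p.2 k ≤ lam ρ β (p.1 + k)} := by
    ext p
    simp only [Set.mem_iInter]
    rfl
  rw [e]
  refine isClosed_iInter fun k => isClosed_le ?_ ?_
  · exact (hc.comp continuous_fst).add (continuous_snd.inner continuous_const)
  · exact hc.comp (continuous_fst.add continuous_const)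

lemma closed_vsd (hd : 0 < d) (hρ : EM ρ) (β a : ℝ) :
    IsClosed {p : Vec d × Vec d | lam ρ β p.1 + a ≤
      Real.log (Phi p.1) + Real.log (∫ t, Real.exp (β * t) ∂ρ)} := by
  have hc : Continuous (lam ρ β : Vec d → ℝ) :=
    (lam_convex hd hρ β).locallyLipschitz.continuous
  obtain ⟨h1, h2⟩ := W_7d29a1_R34.contPhi81 (d := d) hd
  refine isClosed_le ((hc.comp continuous_fst).add continuous_const) ?_
  exact ((h2.log fun h => (h1 h).ne').comp continuous_fst).add continuous_const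

end Me50

/-- Leaf MEAS. -/
theorem measE50 {d : ℕ} {ρ : Measure ℝ} [IsProbabilityMeasure ρ] (hd : 0 < d) (hρ : EM ρ)
    (β : ℝ) : MeasE d ρ β := by
  classical
  intro R ε N
  obtain ⟨C, hC⟩ : ∃ C : ℕ → Finset ℕ → Set (Vec d × Vec d), C = fun (j : ℕ) (F : Finset ℕ) =>
      (Metric.closedBall (0 : Vec d) j ×ˢ Metric.closedBall (0 : Vec d) 1) ∩
      (({p : Vec d × Vec d | lam ρ β p.1 + 1 / ((j : ℝ) + 1) ≤
        Real.log (Phi p.1) + Real.log (∫ t, Real.exp (β * t) ∂ρ)} ∩
      {p : Vec d × Vec d | ∀ k : Vec d, lam ρ β p.1 + inner ℝ p.2 k ≤ lam ρ β (p.1 + k)}) ∩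
      ⋂ n ∈ F, {p : Vec d × Vec d | Te ρ β p.1 p.2 R n ≤ 1 - ε}) := ⟨_, rfl⟩
  have hcomp : ∀ j F, IsCompact (C j F) := by
    intro j F
    rw [hC]
    refine ((isCompact_closedBall 0 _).prod (isCompact_closedBall 0 1)).inter_right ?_
    refine ((Me50.closed_vsd hd hρ β _).inter (Me50.closed_slope hd hρ β)).inter ?_
    exact isClosed_iInter fun n => isClosed_iInter fun _ => Me50.closed_Te hd β R _ n
  have e : BadE (d := d) ρ β R ε N = ⋃ j : ℕ, ⋃ F : Finset ℕ,
      ⋃ _ : F ⊆ Finset.Ico N (2 * N) ∧ ε * N ≤ (F.card : ℝ), Prod.snd '' C j F := by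
    ext v
    simp only [Set.mem_iUnion]
    constructor
    · rintro ⟨h, hV, hs, hc⟩
      have hV' : lam ρ β h < Real.log (Phi h) + Real.log (∫ t, Real.exp (β * t) ∂ρ) := hV
      obtain ⟨j₁, hj₁⟩ := exists_nat_one_div_lt (sub_pos.2 hV')
      obtain ⟨j₂, hj₂⟩ := exists_nat_ge ‖h‖
      refine ⟨max j₁ j₂, (Finset.Ico N (2 * N)).filter fun n => Te ρ β h v R n ≤ 1 - ε,
        ⟨Finset.filter_subset _ _, ?_⟩, (h, v), ?_, rfl⟩
      · convert hc
      · rw [hC]
        refine ⟨⟨?_, ?_⟩, ⟨⟨?_, hs⟩, ?_⟩⟩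
        · rw [mem_closedBall_zero_iff]
          refine hj₂.trans ?_
          exact_mod_cast le_max_right j₁ j₂
        · rw [mem_closedBall_zero_iff]
          exact (norm_le_sum21 v).trans (L96.slope_le hd hρ β h v hs)
        · change lam ρ β h + 1 / (((max j₁ j₂ : ℕ) : ℝ) + 1) ≤ _
          have h1 : 1 / (((max j₁ j₂ : ℕ) : ℝ) + 1) ≤ 1 / ((j₁ : ℝ) + 1) := by
            refine one_div_le_one_div_of_le (by positivity) ?_
            have : (j₁ : ℝ) ≤ ((max j₁ j₂ : ℕ) : ℝ) := by exact_mod_cast le_max_left j₁ j₂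
            linarith
          simp only
          linarith
        · rw [Set.mem_iInter₂]
          intro n hn
          exact (Finset.mem_filter.1 hn).2
    · rintro ⟨j, F, ⟨hF, hFc⟩, ⟨h, v'⟩, hp, rfl⟩
      rw [hC] at hp
      obtain ⟨-, ⟨h1, h2⟩, h3⟩ := hp
      refine ⟨h, ?_, h2, ?_⟩
      · have h4 : lam ρ β h + 1 / ((j : ℝ) + 1) ≤
          Real.log (Phi h) + Real.log (∫ t, Real.exp (β * t) ∂ρ) := h1
        have h5 : (0 : ℝ) < 1 / ((j : ℝ) + 1) := by positivity
        change lam ρ β h < Real.log (Phi h) + Real.log (∫ t, Real.exp (β * t) ∂ρ)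
        linarith
      · refine hFc.trans ?_
        have h4 : F.card ≤ ((Finset.Ico N (2 * N)).filter fun n =>
            Te ρ β h v' R n ≤ 1 - ε).card := by
          refine Finset.card_le_card fun n hn => ?_
          rw [Set.mem_iInter₂] at h3
          exact Finset.mem_filter.2 ⟨hF hn, h3 n hn⟩
        have h5 : (F.card : ℝ) ≤ (((Finset.Ico N (2 * N)).filter fun n =>
            Te ρ β h v' R n ≤ 1 - ε).card : ℝ) := by
          exact_mod_cast h4
        convert h5
  rw [e]
  refine MeasurableSet.iUnion fun j => MeasurableSet.iUnion fun F => MeasurableSet.iUnion fun _ => ?_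
  exact ((hcomp j F).image continuous_snd).measurableSet

end Pool.Agent.W_7d29a1_SDP
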