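import Pool.Agent.W_7d29a1_SDP.DefsE51
import Pool.Agent.W_7d29a1_SD.TrSD80

/-!
Theorem SDE for an arbitrary i.i.d. environment.
-/

namespace Pool.Agent.W_7d29a1_SDP

open MeasureTheory ProbabilityTheory Filter Topology Pool.Agent.W_MP_7d29a1_pr
  Pool.Agent.W_7d29a1_h46 Pool.Agent.W_7d29a1_h46u Pool.Agent.W_7d29a1_D2.B35
  Pool.Agent.W_7d29a1_Q29 Pool.Agent.W_7d29a1_NV Pool.Agent.W_7d29a1_SD

variable {d : ℕ} {ρ : Measure ℝ} [IsProbabilityMeasure ρ] {β : ℝ}

/-- The complement of an end ball. -/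
lemma pol_end51 (hd : 0 < d) (β : ℝ) (h v : Vec d) (r : ℝ) (n : ℕ) (η : Env d) :
    PolT β h η {s : Fin n → Step d | r < ‖emb (pos s n) - (n : ℝ) • v‖} =
      1 - PolT β h η (endB d n v r) := by
  classical
  have hpos := ZT_univ_pos (n := n) hd β h η
  unfold PolT
  rw [eq_sub_iff_add_eq, ← add_div, div_eq_one_iff_eq hpos.ne']
  unfold ZT
  rw [← Finset.sum_add_distrib]
  refine Finset.sum_congr rfl fun s _ => ?_
  rw [if_pos (Set.mem_univ s)]
  by_cases hs : ‖emb (pos s n) - (n : ℝ) • v‖ ≤ r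
  · have h1 : s ∉ {s : Fin n → Step d | r < ‖emb (pos s n) - (n : ℝ) • v‖} := by
      intro (h' : r < ‖emb (pos s n) - (n : ℝ) • v‖)
      exact absurd hs (not_le.2 h')
    have h2 : s ∈ endB d n v r := hs
    rw [if_neg h1, if_pos h2, zero_add]
  · have h1 : s ∈ {s : Fin n → Step d | r < ‖emb (pos s n) - (n : ℝ) • v‖} := lt_of_not_ge hs
    have h2 : s ∉ endB d n v r := hs
    rw [if_pos h1, if_neg h2, add_zero]

variable {Ω : Type*} [MeasurableSpace Ω] {μ : Measure Ω} [IsProbabilityMeasure μ]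
  {ω : ℕ × Site d → Ω → ℝ}

theorem te_int51 (hd : 0 < d) (hω : IID μ ρ ω) (h v : Vec d) (R : ℝ) (n : ℕ) :
    ∫ x, PolT β h (fun p => ω p x) {s : Fin n → Step d |
      R * Real.sqrt n < ‖emb (pos s n) - (n : ℝ) • v‖} ∂μ = Te ρ β h v R n := by
  unfold Te
  have hm : Measurable fun η : Env d => 1 - PolT β h η (endB d n v (R * Real.sqrt n)) :=
    measurable_const.sub (measurable_PolT β h _)
  rw [← StrA_int hω hm]
  refine integral_congr_ae (Filter.Eventually.of_forall fun x => ?_)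
  exact pol_end51 hd β h v _ n _

open Classical in
/-- **Theorem SDE** for an arbitrary i.i.d. environment: in almost every direction the end point
leaves every ball of radius `R √n` around `n v`, at most lengths of infinitely many dyadic
blocks. -/
theorem trSDE51 (hd : 0 < d) (hω : IID μ ρ ω) (hM : MainSDE d ρ β) :
    ∀ᵐ v : Vec d, ∀ h : Vec d, VSD ρ β h → ∀ R ε : ℝ, 0 < ε → ∃ᶠ N : ℕ in atTop,
      (((Finset.Ico N (2 * N)).filter fun n => ∫ x, PolT β h (fun p => ω p x)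
        {s : Fin n → Step d | R * Real.sqrt n < ‖emb (pos s n) - (n : ℝ) • v‖} ∂μ ≤
          1 - ε).card : ℝ) ≤ ε * N := by
  filter_upwards [hM] with v hv h hV R ε hε
  rw [frequently_atTop]
  intro N₀
  obtain ⟨N, hN, hT⟩ := hv h hV R ε hε N₀
  refine ⟨N, hN, ?_⟩
  simp only [te_int51 hd hω h v R]
  convert hT

/-- The end point at infinitely many lengths. -/
theorem trSDEi51 (hd : 0 < d) (hω : IID μ ρ ω) (hM : MainSDE d ρ β) :
    ∀ᵐ v : Vec d, ∀ h : Vec d, VSD ρ β h → ∀ R ε : ℝ, 0 < ε → ∃ᶠ n : ℕ in atTop,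
      1 - ε < ∫ x, PolT β h (fun p => ω p x)
        {s : Fin n → Step d | R * Real.sqrt n < ‖emb (pos s n) - (n : ℝ) • v‖} ∂μ := by
  classical
  filter_upwards [hM] with v hv h hV R ε hε
  rw [frequently_atTop]
  intro N₀
  obtain ⟨ε₁, hε₁⟩ : ∃ ε₁ : ℝ, ε₁ = min ε (1 / 2) := ⟨_, rfl⟩
  have h0 : 0 < ε₁ := by rw [hε₁]; exact lt_min hε (by norm_num)
  have h1 : ε₁ ≤ ε := by rw [hε₁]; exact min_le_left _ _
  have h2 : ε₁ ≤ 1 / 2 := by rw [hε₁]; exact min_le_right _ _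
  obtain ⟨N, hN, hT⟩ := hv h hV R ε₁ h0 (max N₀ 1)
  by_contra hcon
  push Not at hcon
  have h3 : (Finset.Ico N (2 * N)).filter (fun n => Te ρ β h v R n ≤ 1 - ε₁) =
      Finset.Ico N (2 * N) := by
    refine Finset.filter_true_of_mem fun n hn => ?_
    have h4 := hcon n ((le_max_left _ _).trans (hN.trans (Finset.mem_Ico.1 hn).1))
    rw [te_int51 hd hω h v R] at h4
    linarith
  rw [h3, Nat.card_Ico] at hT
  have h5 : 2 * N - N = N := by omega
  rw [h5] at hT
  have h6 : (1 : ℝ) ≤ N := by exact_mod_cast (le_max_right _ _).trans hN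
  nlinarith

end Pool.Agent.W_7d29a1_SDP
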