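import Pool.Agent.W_7d29a1_SDP.DefsM51
import Pool.Agent.W_7d29a1_SDP.TrE51

/-!
Theorem SDM for an arbitrary i.i.d. environment.
-/

namespace Pool.Agent.W_7d29a1_SDP

open MeasureTheory ProbabilityTheory Filter Topology Pool.Agent.W_MP_7d29a1_pr
  Pool.Agent.W_7d29a1_h46 Pool.Agent.W_7d29a1_h46u Pool.Agent.W_7d29a1_D2.B35
  Pool.Agent.W_7d29a1_Q29 Pool.Agent.W_7d29a1_NV Pool.Agent.W_7d29a1_SD

variable {d : ℕ} {ρ : Measure ℝ} [IsProbabilityMeasure ρ] {β : ℝ} {Ω : Type*} [MeasurableSpace Ω]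
  {μ : Measure Ω} [IsProbabilityMeasure μ] {ω : ℕ × Site d → Ω → ℝ}

open Classical in
/-- **Theorem SDM** for an arbitrary i.i.d. environment: at all large scales `N`, for all
velocities but a set of small volume and for most lengths of `[N, 2 N)`, the end point is outside
the ball of radius `R √n` around `n v` with probability close to one. -/
theorem trSDM51 (hd : 0 < d) (hω : IID μ ρ ω) (hM : MainSDM d ρ β) {R ε : ℝ} (hε : 0 < ε) :
    Tendsto (fun N : ℕ => volume {v : Vec d | ∃ h : Vec d, VSD ρ β h ∧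
      (∀ k : Vec d, lam ρ β h + inner ℝ v k ≤ lam ρ β (h + k)) ∧
      ε * N ≤ (((Finset.Ico N (2 * N)).filter fun n => ∫ x, PolT β h (fun p => ω p x)
        {s : Fin n → Step d | R * Real.sqrt n < ‖emb (pos s n) - (n : ℝ) • v‖} ∂μ ≤
          1 - ε).card : ℝ)}) atTop (𝓝 0) := by
  have h1 := hM R ε hε
  unfold BadE at h1
  simp only [te_int51 hd hω]
  convert h1

/-- A block in which the law of the end point spreads out, in the form of the text: for all large
`N` the volume of the bad velocities is at most `ε`. -/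
theorem trSDMe51 (hd : 0 < d) (hω : IID μ ρ ω) (hM : MainSDM d ρ β) {R ε : ℝ} (hε : 0 < ε) :
    ∀ᶠ N : ℕ in atTop, volume {v : Vec d | ∃ h : Vec d, VSD ρ β h ∧
      (∀ k : Vec d, lam ρ β h + inner ℝ v k ≤ lam ρ β (h + k)) ∧
      ε * N ≤ (({n | n ∈ Finset.Ico N (2 * N) ∧ ∫ x, PolT β h (fun p => ω p x)
        {s : Fin n → Step d | R * Real.sqrt n < ‖emb (pos s n) - (n : ℝ) • v‖} ∂μ ≤
          1 - ε} : Set ℕ).ncard : ℝ)} ≤ ENNReal.ofReal ε := by
  classical
  have h1 := trSDM51 (R := R) hd hω hM hε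
  have h2 := h1.eventually (ge_mem_nhds (ENNReal.ofReal_pos.2 hε))
  have h3 : ∀ (h v : Vec d) (N : ℕ), (({n | n ∈ Finset.Ico N (2 * N) ∧ ∫ x, PolT β h
        (fun p => ω p x) {s : Fin n → Step d | R * Real.sqrt n <
          ‖emb (pos s n) - (n : ℝ) • v‖} ∂μ ≤ 1 - ε} : Set ℕ).ncard : ℝ) =
      (((Finset.Ico N (2 * N)).filter fun n => ∫ x, PolT β h
        (fun p => ω p x) {s : Fin n → Step d | R * Real.sqrt n <
          ‖emb (pos s n) - (n : ℝ) • v‖} ∂μ ≤ 1 - ε).card : ℝ) := by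
    intro h v N
    rw [← Set.ncard_coe_finset]
    congr 2
    ext n
    simp
  simp only [h3]
  exact h2

end Pool.Agent.W_7d29a1_SDP
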