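import Pool.Agent.W_7d29a1_SDP.FinE50
import Pool.Agent.W_7d29a1_SDP.CovE34
import Pool.Agent.W_7d29a1_SDP.MeasE50
import Pool.Agent.W_7d29a1_SDP.TrM51

/-!
Theorem SDM: in very strong disorder, at all large scales, for most velocities and most lengths, the
end point is not diffusive.
-/

namespace Pool.Agent.W_7d29a1_SDP

open MeasureTheory ProbabilityTheory Filter Topology Pool.Agent.W_MP_7d29a1_pr
  Pool.Agent.W_7d29a1_h46 Pool.Agent.W_7d29a1_h46u Pool.Agent.W_7d29a1_D2.B35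
  Pool.Agent.W_7d29a1_Q29 Pool.Agent.W_7d29a1_NV Pool.Agent.W_7d29a1_P89
  Pool.Agent.W_7d29a1_SD

variable {d : ℕ} {ρ : Measure ℝ} [IsProbabilityMeasure ρ] {β : ℝ}

/-- **Theorem SDM.** -/
theorem mainSDMF50 (hd : 0 < d) (hρ : EM ρ) (hnc : ∀ c : ℝ, ρ {c} ≠ 1) (hβ : 0 < β) :
    MainSDM d ρ β :=
  mainSDMp50 hd hρ hnc hβ (covE34 hd) (measE50 hd hρ β)

/-- **Theorem SDM** for an arbitrary i.i.d. environment. -/
theorem clauseSDM50 {Ω : Type*} [MeasurableSpace Ω] {μ : Measure Ω} [IsProbabilityMeasure μ]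
    {ω : ℕ × Site d → Ω → ℝ} (hd : 0 < d) (hω : IID μ ρ ω) (hρ : EM ρ)
    (hnc : ∀ c : ℝ, ρ {c} ≠ 1) (hβ : 0 < β) {R ε : ℝ} (hε : 0 < ε) :
    ∀ᶠ N : ℕ in atTop, volume {v : Vec d | ∃ h : Vec d, VSD ρ β h ∧
      (∀ k : Vec d, lam ρ β h + inner ℝ v k ≤ lam ρ β (h + k)) ∧
      ε * N ≤ (({n | n ∈ Finset.Ico N (2 * N) ∧ ∫ x, PolT β h (fun p => ω p x)
        {s : Fin n → Step d | R * Real.sqrt n < ‖emb (pos s n) - (n : ℝ) • v‖} ∂μ ≤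
          1 - ε} : Set ℕ).ncard : ℝ)} ≤ ENNReal.ofReal ε :=
  trSDMe51 hd hω (mainSDMF50 hd hρ hnc hβ) hε

end Pool.Agent.W_7d29a1_SDP
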