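import Pool.Agent.W_7d29a1_SDP.DefsP51
import Pool.Agent.W_7d29a1_NV.Site62

/-!
Theorem SDP, leaf V: the variance of the gain of a row, from one heavy site with a bounded value.
-/

namespace Pool.Agent.W_7d29a1_SDP

open MeasureTheory ProbabilityTheory Filter Topology Pool.Agent.W_MP_7d29a1_pr
  Pool.Agent.W_7d29a1_h46 Pool.Agent.W_7d29a1_h46u Pool.Agent.W_7d29a1_D2.B35
  Pool.Agent.W_7d29a1_Q29 Pool.Agent.W_7d29a1_NV

/-- Leaf V. -/
theorem varA50 {d : ℕ} {ρ : Measure ℝ} {β b : ℝ} [IsProbabilityMeasure ρ] (hd : 0 < d)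
    (hβ : β ≠ 0) (hb : HB ρ b) : VarA d ρ β b := by
  have hv := S62.v0_pos hb
  refine ⟨β ^ 2 * Real.exp (-(8 * |β| * b)) * S62.v0 ρ b / 4, by positivity, ?_⟩
  intro h n t a b' hat htb hbn η z hz
  set c := β ^ 2 * Real.exp (-(8 * |β| * b)) * S62.v0 ρ b / 4 with hc
  have hc0 : 0 < c := by rw [hc]; positivity
  set V : Site d → Site d → ℝ := fun x y =>
    ∫ ξ', (Real.log (uab ρ β b h t a b' x y η ξ') - psab ρ β b h t a b' x y η) ^ 2
      ∂(law d (rb ρ b)) with hV
  set R := ∑ x ∈ boxF d n, ∑ y ∈ boxF d n, pab β h n a b' x y η * V x y with hR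
  have h1 := S62.sum_pab_thr hd hat htb hbn β h η z
  have h2 := K20.sum_pab_one20 hd β h η (hat.le.trans htb) hbn
  set Q := Qt β h n t z η with hQ
  have h3 : ∀ x y : Site d, pab β h n a b' x y η * V x y ≥ c * (2 * Q * (pab β h n a b' x y η *
      (S62.thr β h a b' t x y z η / sg β h a b' x y η)) - Q ^ 2 * pab β h n a b' x y η) := by
    intro x y
    have h4 := S62.var_site (β := β) hb hat htb h x y z η hz
    have h5 := K20.pab_nonneg20 hd β h η n a b' x y
    have h6 := mul_le_mul_of_nonneg_left h4 h5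
    have h7 := mul_nonneg (mul_nonneg hc0.le h5)
      (sq_nonneg (S62.thr β h a b' t x y z η / sg β h a b' x y η - Q))
    rw [← hc] at h6
    have h8 : pab β h n a b' x y η * (c * (S62.thr β h a b' t x y z η / sg β h a b' x y η) ^ 2) ≤
        pab β h n a b' x y η * V x y := h6
    nlinarith
  have h9 : ∑ x ∈ boxF d n, ∑ y ∈ boxF d n, c * (2 * Q * (pab β h n a b' x y η *
      (S62.thr β h a b' t x y z η / sg β h a b' x y η)) - Q ^ 2 * pab β h n a b' x y η) ≤ R :=
    Finset.sum_le_sum fun x _ => Finset.sum_le_sum fun y _ => h3 x y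
  simp only [← Finset.mul_sum, Finset.sum_sub_distrib] at h9
  rw [h1, h2] at h9
  nlinarith

end Pool.Agent.W_7d29a1_SDP
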