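import Pool.Agent.W_7d29a1_SDP.DefsP51

/-!
Theorem SDE: in very strong disorder, in almost every direction, the END POINT leaves every ball of
radius `R √n` around `n v` with probability close to one, at most lengths of infinitely many
dyadic blocks. Definitions and frozen statements of the leaves (the rows which are resampled are
among the last `m` rows, so that only the end point matters).
-/

namespace Pool.Agent.W_7d29a1_SDP

open MeasureTheory ProbabilityTheory Filter Topology Pool.Agent.W_MP_7d29a1_pr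
  Pool.Agent.W_7d29a1_h46 Pool.Agent.W_7d29a1_h46u Pool.Agent.W_7d29a1_D2.B35
  Pool.Agent.W_7d29a1_Q29 Pool.Agent.W_7d29a1_NV Pool.Agent.W_7d29a1_P89
  Pool.Agent.W_7d29a1_SD

/-- The paths whose end point is at distance at most `r` from `n v`. -/
def endB (d n : ℕ) (v : Vec d) (r : ℝ) : Set (Fin n → Step d) :=
  {s | ‖emb (pos s n) - (n : ℝ) • v‖ ≤ r}

/-- The end ball of radius `R √n` has mass at least `θ`. -/
def EndE {d : ℕ} (β : ℝ) (h v : Vec d) (R θ : ℝ) (n : ℕ) (η : Env d) : Prop :=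
  θ ≤ PolT β h η (endB d n v (R * Real.sqrt n))

/-- The mean mass outside the end ball of radius `R √n`. -/
noncomputable def Te {d : ℕ} (ρ : Measure ℝ) (β : ℝ) (h v : Vec d) (R : ℝ) (n : ℕ) : ℝ :=
  ∫ η, (1 - PolT β h η (endB d n v (R * Real.sqrt n))) ∂(law d ρ)

/-- At the length `n` the free energy is spread out at the scale `M` when some of the last `m` rows
are resampled. -/
def ACe {d : ℕ} (ρ : Measure ℝ) (β : ℝ) (h : Vec d) (n m : ℕ) (M η' : ℝ) : Prop :=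
  ∃ (b : ℝ) (q : ℕ) (T : Fin q → ℕ), HB ρ b ∧ Function.Injective T ∧
    (∀ i, n < T i + m ∧ T i ≤ n) ∧
    ((law d ρ).prod ((Measure.pi fun _ : Fin q => law d (rb ρ b)).prod
      (Measure.pi fun _ : Fin q => law d (rb ρ b)))).real
      {w | |X β h (mxJ b T w.1 w.2.1) n - X β h (mxJ b T w.1 w.2.2) n| ≤ M} ≤ η'

section Leaves

variable (d : ℕ) (ρ : Measure ℝ) (β : ℝ)

open Classical in
/-- Leaf T: anticoncentration of the free energy, at most lengths, from the last rows. -/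
def ACu : Prop := ∀ h v : Vec d, VSD ρ β h → LP ρ β h v → ∀ M η' : ℝ, 0 < η' → ∃ m N₀ : ℕ,
  ∀ N : ℕ, N₀ ≤ N →
    (((Finset.Ico N (2 * N)).filter fun n => ¬ ACe ρ β h n m M η').card : ℝ) ≤ η' * N

/-- Leaf Q: two disjoint end balls which have mass at least `θ` at the same time with probability
at least `α`. -/
def PairE : Prop := ∀ b : ℝ, HB ρ b → ∀ (h₁ h₂ v₁ v₂ : Vec d) (n m q : ℕ) (T : Fin q → ℕ)
  (R a C θ α : ℝ), Function.Injective T → (∀ i, n < T i + m ∧ T i ≤ n) → 0 ≤ R → 0 ≤ a → 0 ≤ C →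
  0 < θ → θ ≤ 1 → 0 ≤ α → ‖v₂ - v₁‖ * Real.sqrt n ≤ a → ‖h₂ - h₁‖ * Real.sqrt n ≤ C →
  2 * R * Real.sqrt n + 2 * m < n * ‖v₂ - v₁‖ →
  α ≤ (law d ρ).real {η | EndE β h₁ v₁ R θ n η ∧ EndE β h₂ v₂ R θ n η} →
    α ^ 3 / 32 ≤ ((law d ρ).prod ((Measure.pi fun _ : Fin q => law d (rb ρ b)).prod
      (Measure.pi fun _ : Fin q => law d (rb ρ b)))).real
      {w | |X β h₁ (mxJ b T w.1 w.2.1) n - X β h₁ (mxJ b T w.1 w.2.2) n| ≤
        C * a + 2 * C * R - 5 * Real.log θ}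

/-- Leaf D: a velocity whose end ball keeps mass infinitely often is a slope of the free energy. -/
def SubE : Prop := ∀ (h v : Vec d) (R θ α : ℝ), 0 < θ → 0 < α →
  (∃ᶠ n : ℕ in atTop, α ≤ (law d ρ).real {η | EndE β h v R θ n η}) →
    ∀ k : Vec d, lam ρ β h + inner ℝ v k ≤ lam ρ β (h + k)

open Classical in
/-- The theorem (leaf S: from `ACu`, `PairE`, `SubE`, `AeLP`). -/
def MainSDE : Prop := ∀ᵐ v : Vec d, ∀ h : Vec d, VSD ρ β h → ∀ R ε : ℝ, 0 < ε →
  ∀ N₀ : ℕ, ∃ N : ℕ, N₀ ≤ N ∧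
    (((Finset.Ico N (2 * N)).filter fun n => Te ρ β h v R n ≤ 1 - ε).card : ℝ) ≤ ε * N

end Leaves

end Pool.Agent.W_7d29a1_SDP
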