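import Pool.Agent.W_7d29a1_SDP.ACt51
import Pool.Agent.W_7d29a1_SDP.DefsE51

/-!
Theorem SDE, leaf T: anticoncentration of the free energy at most lengths, from the last rows.
-/

namespace Pool.Agent.W_7d29a1_SDP

open MeasureTheory ProbabilityTheory Filter Topology Pool.Agent.W_MP_7d29a1_pr
  Pool.Agent.W_7d29a1_h46 Pool.Agent.W_7d29a1_h46u Pool.Agent.W_7d29a1_D2.B35
  Pool.Agent.W_7d29a1_Q29 Pool.Agent.W_7d29a1_NV

variable {d : ℕ} {ρ : Measure ℝ} [IsProbabilityMeasure ρ] {β : ℝ}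

/-- Leaf T. -/
theorem acU51 (hd : 0 < d) (hnc : ∀ c : ℝ, ρ {c} ≠ 1) (hβ : 0 < β) (hA : AbsAC)
    (hAt : Atom51 d ρ β) (hMul : MulU d ρ β) : ACu d ρ β := by
  classical
  intro h v hV hL M η' hη'
  obtain ⟨η₁, hη₁⟩ : ∃ η₁ : ℝ, η₁ = min η' 1 := ⟨_, rfl⟩
  have hη0 : 0 < η₁ := by rw [hη₁]; exact lt_min hη' one_pos
  have hηle : η₁ ≤ η' := by rw [hη₁]; exact min_le_left _ _
  obtain ⟨M₁, hM₁⟩ : ∃ M₁ : ℝ, M₁ = max M 1 := ⟨_, rfl⟩
  have hM1 : 1 ≤ M₁ := by rw [hM₁]; exact le_max_right _ _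
  have hMM : M ≤ M₁ := by rw [hM₁]; exact le_max_left _ _
  have hδ0 : 0 < η₁ / 16 := by positivity
  -- the first level
  obtain ⟨b₁, hb₁⟩ := hMul h v hV hL 1 (η₁ / 16) one_pos hδ0
  obtain ⟨bA, hbA⟩ : ∃ bA : ℝ, bA = max b₁ 4 := ⟨_, rfl⟩
  have hbA1 : b₁ ≤ bA := by rw [hbA]; exact le_max_left _ _
  have hbA4 : 4 ≤ bA := by rw [hbA]; exact le_max_right _ _
  obtain ⟨N₁, hN₁⟩ := hb₁ bA hbA1
  obtain ⟨CD, hCD0, hCD⟩ := hAt
  -- the bound of the values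
  obtain ⟨b, hb, hb2, hb3⟩ : ∃ b : ℝ, HB ρ b ∧ 2 * CD * Real.exp (1 * bA - b) ≤ η₁ / 16 ∧ 0 ≤ b := by
    have h1 : Tendsto (fun b : ℝ => 2 * CD * Real.exp (1 * bA - b)) atTop (𝓝 (2 * CD * 0)) := by
      refine Tendsto.const_mul _ (Real.tendsto_exp_atBot.comp ?_)
      exact tendsto_atBot_add_const_left _ _ tendsto_neg_atTop_atBot
    rw [mul_zero] at h1
    have h2 := h1.eventually (ge_mem_nhds hδ0)
    obtain ⟨b, h3, h4⟩ := (((eventually_HB21 hnc).and h2).and (eventually_ge_atTop 0)).exists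
    exact ⟨b, h3.1, h3.2, h4⟩
  obtain ⟨p, hp⟩ : ∃ p : ℝ, p = Real.exp (-(1 * bA)) / 2 := ⟨_, rfl⟩
  have hp0 : 0 < p := by rw [hp]; positivity
  obtain ⟨c, hc0, hc⟩ := varA50 hd hβ.ne' hb
  have hB : 1 ≤ Bc β b := M66.one_le_Bc hb β
  obtain ⟨C, hC0, hC⟩ := hA (Bc β b) hB
  -- the number of rows
  obtain ⟨q, hq1, hq2⟩ : ∃ q : ℕ, 1 ≤ q ∧
      C * (M₁ / Real.sqrt (c * p ^ 2 / 2 * q)) ≤ η₁ / 4 := by
    have h1 : Tendsto (fun q : ℕ => C * (M₁ / Real.sqrt (c * p ^ 2 / 2 * q))) atTop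
        (𝓝 (C * 0)) := by
      refine Tendsto.const_mul _ (Tendsto.const_div_atTop ?_ _)
      refine Real.tendsto_sqrt_atTop.comp ?_
      exact Tendsto.const_mul_atTop (by positivity) tendsto_natCast_atTop_atTop
    rw [mul_zero] at h1
    obtain ⟨q, h2, h3⟩ := ((h1.eventually (ge_mem_nhds (by positivity : (0 : ℝ) < η₁ / 4))).and
      (eventually_ge_atTop 1)).exists
    exact ⟨q, h3, h2⟩
  have hq0 : (1 : ℝ) ≤ q := by exact_mod_cast hq1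
  -- the selection
  obtain ⟨s, hs0, hs1, hs2⟩ : ∃ s : ℝ, 0 < s ∧ s ≤ 1 ∧
      C * ((q : ℝ) ^ 2 * Real.sqrt s) ≤ η₁ / 4 := by
    obtain ⟨e, he⟩ : ∃ e : ℝ, e = η₁ / (4 * (C * (q : ℝ) ^ 2)) := ⟨_, rfl⟩
    have he0 : 0 < e := by rw [he]; positivity
    refine ⟨min 1 (e ^ 2), lt_min one_pos (by positivity), min_le_left _ _, ?_⟩
    have h1 : Real.sqrt (min 1 (e ^ 2)) ≤ e := by
      calc Real.sqrt (min 1 (e ^ 2)) ≤ Real.sqrt (e ^ 2) :=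
            Real.sqrt_le_sqrt (min_le_right _ _)
        _ = e := Real.sqrt_sq he0.le
    calc C * ((q : ℝ) ^ 2 * Real.sqrt (min 1 (e ^ 2))) ≤ C * ((q : ℝ) ^ 2 * e) := by gcongr
      _ = η₁ / 4 := by
          rw [he]
          field_simp
  obtain ⟨ε₂, δ₂, b₂, hε₂, hδ₂, hR⟩ := rowsW92 hb3 (onePE66 hd hβ hb) (monT31 hd ρ hb) q s
    hq1 hs0 hs1
  obtain ⟨δ₃, hδ₃⟩ : ∃ δ₃ : ℝ, δ₃ = min δ₂ (η₁ / 16) := ⟨_, rfl⟩
  have hδ30 : 0 < δ₃ := by rw [hδ₃]; exact lt_min hδ₂ hδ0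
  have hδ32 : δ₃ ≤ δ₂ := by rw [hδ₃]; exact min_le_left _ _
  have hδ3η : δ₃ ≤ η₁ / 16 := by rw [hδ₃]; exact min_le_right _ _
  obtain ⟨b₄, hb₄⟩ := hMul h v hV hL ε₂ δ₃ hε₂ hδ30
  obtain ⟨N₂, hN₂⟩ := hb₄ (max b₄ b₂) (le_max_left _ _)
  obtain ⟨n₀, hn₀⟩ := hR (max b₄ b₂) (le_max_right _ _)
  refine ⟨n₀, max (max N₁ N₂) (2 * n₀), fun N hN => ?_⟩
  have hNa : N₁ ≤ N := le_trans (le_trans (le_max_left _ _) (le_max_left _ _)) hN
  have hNb : N₂ ≤ N := le_trans (le_trans (le_max_right _ _) (le_max_left _ _)) hN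
  have hNc : 2 * n₀ ≤ N := le_trans (le_max_right _ _) hN
  have k1 := hN₁ N hNa
  have k2 := hN₂ N hNb
  have hsub : ((Finset.Ico N (2 * N)).filter fun n => ¬ ACe ρ β h n n₀ M η') ⊆
      ((Finset.Ico N (2 * N)).filter fun n => ∃ τ : ℕ, τ ≤ n ∧
        ¬ (law d ρ).real {η | ¬ GoodN β h n τ bA 1 η} ≤ η₁ / 16) ∪
      ((Finset.Ico N (2 * N)).filter fun n => ∃ τ : ℕ, τ ≤ n ∧
        ¬ (law d ρ).real {η | ¬ GoodN β h n τ (max b₄ b₂) ε₂ η} ≤ δ₃) := by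
    intro n hn
    rw [Finset.mem_filter] at hn
    obtain ⟨hnI, hnA⟩ := hn
    by_contra hcon
    rw [Finset.mem_union, Finset.mem_filter, Finset.mem_filter] at hcon
    push Not at hcon
    have g1 := hcon.1 hnI
    have g2 := hcon.2 hnI
    rw [Finset.mem_Ico] at hnI
    refine hnA ?_
    obtain ⟨T, r, hO, hT1, -, -, -, hκ0, hκs⟩ := hn₀ h n (n - n₀) (by omega)
      (fun τ _ hτ => (g2 τ (by omega)).trans hδ32)
    have hTn : ∀ i, T i ≤ n := by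
      intro i
      have hr : StrictMono r := Fin.strictMono_iff_lt_succ.2 fun i =>
        (hO.1 i).1.trans_le (hO.1 i).2
      exact ((hO.1 i).2.trans (hr.monotone (Fin.le_last _))).trans hO.2
    refine ⟨b, q, T, hb, M66.ord_inj hO, fun i => ⟨by have := hT1 i; omega, hTn i⟩, ?_⟩
    have hat : ∀ i, ∃ A : Set (Env d), MeasurableSet A ∧
        (∀ η ∈ A, ∃ z, |η (T i, z)| ≤ b ∧ Real.exp (-(1 * bA)) / 2 ≤ Qt β h n (T i) z η) ∧
        (law d ρ).real Aᶜ ≤ η₁ / 16 + 2 * CD * Real.exp (1 * bA - b) := fun i =>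
      hCD h n (T i) bA 1 (η₁ / 16) b (by have := hT1 i; omega) (hTn i) hbA4 hb3 (g1 (T i) (hTn i))
    choose A hAm hAz hAp using hat
    have hAp2 : ∀ i, (law d ρ).real (A i)ᶜ ≤ η₁ / 8 := fun i => by
      have := hAp i
      linarith
    have key := acP51 hd hβ hb hC0 (fun Ω S _ _ k P _ Q u H => hC Ω S k P Q u H) hc0 hc h hO hq1
      hM1 hp0 A hAm (fun i η hη => by rw [hp]; exact hAz i η hη) hAp2
    have hmono : ((law d ρ).prod ((Measure.pi fun _ : Fin q => law d (rb ρ b)).prod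
        (Measure.pi fun _ : Fin q => law d (rb ρ b)))).real
        {w | |X β h (mxJ b T w.1 w.2.1) n - X β h (mxJ b T w.1 w.2.2) n| ≤ M} ≤
        ((law d ρ).prod ((Measure.pi fun _ : Fin q => law d (rb ρ b)).prod
        (Measure.pi fun _ : Fin q => law d (rb ρ b)))).real
        {w | |X β h (mxJ b T w.1 w.2.1) n - X β h (mxJ b T w.1 w.2.2) n| ≤ M₁} := by
      have := M66.prob_rb hb
      exact measureReal_mono fun w hw => le_trans hw hMM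
    have h5 : C * ((q : ℝ) ^ 2 * Real.sqrt (∑ i : Fin q,
        kap ρ β b h n (T i) (r i.castSucc) (r i.succ))) ≤ η₁ / 4 := by
      refine le_trans ?_ hs2
      have := Real.sqrt_le_sqrt hκs
      gcongr
    rw [mul_add] at key
    linarith
  have hcard := (Finset.card_le_card hsub).trans (Finset.card_union_le _ _)
  have hcard2 : (((Finset.Ico N (2 * N)).filter fun n => ¬ ACe ρ β h n n₀ M η').card : ℝ) ≤
      (((Finset.Ico N (2 * N)).filter fun n => ∃ τ : ℕ, τ ≤ n ∧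
        ¬ (law d ρ).real {η | ¬ GoodN β h n τ bA 1 η} ≤ η₁ / 16).card : ℝ) +
      (((Finset.Ico N (2 * N)).filter fun n => ∃ τ : ℕ, τ ≤ n ∧
        ¬ (law d ρ).real {η | ¬ GoodN β h n τ (max b₄ b₂) ε₂ η} ≤ δ₃).card : ℝ) := by
    exact_mod_cast hcard
  have hN0 : (0 : ℝ) ≤ N := Nat.cast_nonneg N
  have h6 : δ₃ * N ≤ η₁ / 16 * N := mul_le_mul_of_nonneg_right hδ3η hN0
  have h7 : η₁ * N ≤ η' * N := mul_le_mul_of_nonneg_right hηle hN0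
  have h8 : 0 ≤ η₁ * N := by positivity
  linarith

end Pool.Agent.W_7d29a1_SDP
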