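import Mathlib

/-!
Theorem SDP, leaf AbsAC, first part: a sum of independent symmetric bounded variables is not
concentrated on the scale of its standard deviation.
-/

namespace Pool.Agent.W_7d29a1_SDP.AC34

open MeasureTheory ProbabilityTheory Filter Topology

lemma ibd {Ω : Type*} [MeasurableSpace Ω] {μ : Measure Ω} [IsFiniteMeasure μ] {F : Ω → ℝ}
    (hm : Measurable F) {C : ℝ} (hC : ∀ x, |F x| ≤ C) : Integrable F μ :=
  (integrable_const C).mono' hm.aestronglyMeasurable (Filter.Eventually.of_forall fun x => by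
    rw [Real.norm_eq_abs]
    exact hC x)

/-- The mean of the cosine of a sum of independent variables without sine. -/
theorem cosum34 {Ω ι : Type*} [MeasurableSpace Ω] {μ : Measure Ω} [IsProbabilityMeasure μ]
    (f : ι → Ω → ℝ) (hm : ∀ i, Measurable (f i)) (hind : iIndepFun f μ) (c : ℝ)
    (h0 : ∀ i, ∫ x, Real.sin (c * f i x) ∂μ = 0) (s : Finset ι) :
    ∫ x, Real.cos (c * ∑ i ∈ s, f i x) ∂μ = ∏ i ∈ s, ∫ x, Real.cos (c * f i x) ∂μ := by
  classical
  induction s using Finset.induction_on with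
  | empty => simp
  | insert j s hj ih =>
    set H : Ω → ℝ := fun x => ∑ i ∈ s, f i x with hH
    have hHm : Measurable H := Finset.measurable_sum s fun i _ => hm i
    have hHi : IndepFun H (f j) μ := by
      have := hind.indepFun_finsetSum_of_notMem hm hj
      have e : (∑ i ∈ s, f i) = H := by
        funext x
        rw [Finset.sum_apply]
      rwa [e] at this
    have mc : Measurable fun y : ℝ => Real.cos (c * y) :=
      Real.measurable_cos.comp (measurable_const.mul measurable_id)
    have ms : Measurable fun y : ℝ => Real.sin (c * y) :=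
      Real.measurable_sin.comp (measurable_const.mul measurable_id)
    have h1 : ∫ x, Real.cos (c * H x) * Real.cos (c * f j x) ∂μ =
        (∫ x, Real.cos (c * H x) ∂μ) * ∫ x, Real.cos (c * f j x) ∂μ := by
      have h5 := hHi.comp (φ := fun y : ℝ => Real.cos (c * y))
        (ψ := fun y : ℝ => Real.cos (c * y)) mc mc
      exact h5.integral_fun_mul_eq_mul_integral (mc.comp hHm).aestronglyMeasurable
        (mc.comp (hm j)).aestronglyMeasurable
    have h2 : ∫ x, Real.sin (c * H x) * Real.sin (c * f j x) ∂μ =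
        (∫ x, Real.sin (c * H x) ∂μ) * ∫ x, Real.sin (c * f j x) ∂μ := by
      have h5 := hHi.comp (φ := fun y : ℝ => Real.sin (c * y))
        (ψ := fun y : ℝ => Real.sin (c * y)) ms ms
      exact h5.integral_fun_mul_eq_mul_integral (ms.comp hHm).aestronglyMeasurable
        (ms.comp (hm j)).aestronglyMeasurable
    have e : ∀ x, Real.cos (c * ∑ i ∈ insert j s, f i x) =
        Real.cos (c * H x) * Real.cos (c * f j x) - Real.sin (c * H x) * Real.sin (c * f j x) := by
      intro x
      rw [Finset.sum_insert hj, ← Real.cos_add]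
      congr 1
      show c * (f j x + H x) = c * H x + c * f j x
      ring
    have i1 : Integrable (fun x => Real.cos (c * H x) * Real.cos (c * f j x)) μ :=
      ibd ((mc.comp hHm).mul (mc.comp (hm j))) (C := 1) fun x => by
        rw [abs_mul]
        exact mul_le_one₀ (Real.abs_cos_le_one _) (abs_nonneg _) (Real.abs_cos_le_one _)
    have i2 : Integrable (fun x => Real.sin (c * H x) * Real.sin (c * f j x)) μ :=
      ibd ((ms.comp hHm).mul (ms.comp (hm j))) (C := 1) fun x => by
        rw [abs_mul]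
        exact mul_le_one₀ (Real.abs_sin_le_one _) (abs_nonneg _) (Real.abs_sin_le_one _)
    simp only [e]
    rw [integral_sub i1 i2, h1, h2, h0 j, mul_zero, sub_zero, ih, Finset.prod_insert hj, mul_comm]

/-- The window. -/
noncomputable def fj (y : ℝ) : ℝ := ∫ t in (0 : ℝ)..1, (1 - t) * Real.cos (t * y)

lemma fj_eq {y : ℝ} (hy : y ≠ 0) : fj y = (1 - Real.cos y) / y ^ 2 := by
  unfold fj
  have hd : ∀ t ∈ Set.uIcc (0 : ℝ) 1, HasDerivAt
      (fun t : ℝ => (1 - t) * Real.sin (t * y) / y - Real.cos (t * y) / y ^ 2)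
      ((1 - t) * Real.cos (t * y)) t := by
    intro t _
    have h1 : HasDerivAt (fun t : ℝ => t * y) y t := by
      simpa using (hasDerivAt_id t).mul_const y
    have h2 : HasDerivAt (fun t : ℝ => Real.sin (t * y)) (Real.cos (t * y) * y) t := h1.sin
    have h3 : HasDerivAt (fun t : ℝ => Real.cos (t * y)) (-Real.sin (t * y) * y) t := h1.cos
    have h4 : HasDerivAt (fun t : ℝ => 1 - t) (-1) t := by
      simpa using (hasDerivAt_id t).const_sub 1
    have h5 := ((h4.mul h2).div_const y).sub (h3.div_const (y ^ 2))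
    refine h5.congr_deriv ?_
    field_simp
    ring
  have hi : IntervalIntegrable (fun t : ℝ => (1 - t) * Real.cos (t * y)) volume 0 1 := by
    apply Continuous.intervalIntegrable
    fun_prop
  rw [intervalIntegral.integral_eq_sub_of_hasDerivAt hd hi]
  simp
  field_simp
  ring

lemma fj_zero : fj 0 = 1 / 2 := by
  unfold fj
  simp only [mul_zero, Real.cos_zero, mul_one]
  rw [intervalIntegral.integral_sub (by simp) (by simp)]
  simp
  norm_num

lemma fj_nn (y : ℝ) : 0 ≤ fj y := by
  by_cases hy : y = 0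
  · rw [hy, fj_zero]
    norm_num
  · rw [fj_eq hy]
    exact div_nonneg (by linarith [Real.cos_le_one y]) (sq_nonneg _)

lemma pi_sq : Real.pi ^ 2 ≤ 10 := by
  have h1 := Real.pi_lt_d2
  have h2 := Real.pi_pos
  nlinarith

lemma two_pi : (1 : ℝ) / 5 ≤ 2 / Real.pi ^ 2 := by
  have h1 := pi_sq
  have h2 : 0 < Real.pi ^ 2 := by positivity
  rw [div_le_div_iff₀ (by norm_num) h2]
  linarith

lemma cos_up {x : ℝ} (hx : |x| ≤ 1) : Real.cos x ≤ 1 - x ^ 2 / 5 := by
  have h1 : |x| ≤ Real.pi := hx.trans (by linarith [Real.pi_gt_three])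
  have h2 := Real.cos_le_one_sub_mul_cos_sq h1
  have h3 := two_pi
  nlinarith [sq_nonneg x]

lemma fj_lb {y : ℝ} (hy : |y| ≤ 1) : 1 / 5 ≤ fj y := by
  by_cases h0 : y = 0
  · rw [h0, fj_zero]
    norm_num
  · rw [fj_eq h0]
    have h1 := cos_up hy
    have h2 : 0 < y ^ 2 := by positivity
    rw [le_div_iff₀ h2]
    linarith

lemma gauss34 {b : ℝ} (hb : 0 < b) :
    ∫ t in Set.Ioc (0 : ℝ) 1, Real.exp (-b * t ^ 2) ≤ Real.sqrt (Real.pi / b) / 2 := by
  rw [← integral_gaussian_Ioi]
  refine setIntegral_mono_set ?_ ?_ ?_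
  · exact (integrable_exp_neg_mul_sq hb).integrableOn
  · exact Filter.Eventually.of_forall fun x => (Real.exp_pos _).le
  · exact (Set.Ioc_subset_Ioi_self).eventuallyLE

/-- The mass of a window, from the mean of the cosine. -/
theorem fej34 {X : Type*} [MeasurableSpace X] {ν : Measure X} [IsProbabilityMeasure ν]
    {H : X → ℝ} (hHm : Measurable H) {M b : ℝ} (hM : 0 < M) (hb0 : 0 < b)
    (hcos : ∀ t : ℝ, 0 ≤ t → t ≤ 1 → ∫ z, Real.cos (t * (H z / M)) ∂ν ≤ Real.exp (-b * t ^ 2)) :
    ν.real {z | |H z| ≤ M} ≤ 5 * (Real.sqrt (Real.pi / b) / 2) := by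
  have hset : MeasurableSet {z | |H z| ≤ M} := measurableSet_le hHm.abs measurable_const
  have hG : Measurable fun w : X × ℝ => (1 - w.2) * Real.cos (w.2 * (H w.1 / M)) :=
    (measurable_const.sub measurable_snd).mul (Real.measurable_cos.comp
      (measurable_snd.mul ((hHm.comp measurable_fst).div_const M)))
  set lm : Measure ℝ := volume.restrict (Set.Ioc (0 : ℝ) 1) with hlm
  have hfj : ∀ y : ℝ, fj y = ∫ t, (1 - t) * Real.cos (t * y) ∂lm := by
    intro y
    unfold fj
    rw [intervalIntegral.integral_of_le zero_le_one]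
  have hGi : Integrable (fun w : X × ℝ => (1 - w.2) * Real.cos (w.2 * (H w.1 / M)))
      (ν.prod lm) := by
    refine (integrable_const (1 : ℝ)).mono' hG.aestronglyMeasurable ?_
    have h1 : ∀ᵐ t ∂lm, t ∈ Set.Ioc (0 : ℝ) 1 := ae_restrict_mem measurableSet_Ioc
    have h2 : ∀ᵐ w ∂(ν.prod lm), w.2 ∈ Set.Ioc (0 : ℝ) 1 :=
      (Measure.quasiMeasurePreserving_snd (μ := ν) (ν := lm)).ae h1
    filter_upwards [h2] with w hw
    rw [Real.norm_eq_abs, abs_mul]
    refine mul_le_one₀ ?_ (abs_nonneg _) (Real.abs_cos_le_one _)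
    rw [abs_of_nonneg (by linarith [hw.2])]
    linarith [hw.1]
  have h1 : ν.real {z | |H z| ≤ M} ≤ 5 * ∫ z, fj (H z / M) ∂ν := by
    have h2 : ν.real {z | |H z| ≤ M} =
        ∫ z, {z | |H z| ≤ M}.indicator (fun _ => (1 : ℝ)) z ∂ν := by
      rw [integral_indicator_const _ hset]
      simp
    rw [h2, ← integral_const_mul]
    have h3 : Integrable (fun z => fj (H z / M)) ν := by
      have e : (fun z => fj (H z / M)) =
          fun z => ∫ t, (1 - t) * Real.cos (t * (H z / M)) ∂lm := funext fun z => hfj (H z / M)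
      rw [e]
      exact hGi.integral_prod_left
    have hpt : ∀ z, {z | |H z| ≤ M}.indicator (fun _ => (1 : ℝ)) z ≤ 5 * fj (H z / M) := by
      intro z
      by_cases hz : |H z| ≤ M
      · rw [Set.indicator_of_mem (show z ∈ {z | |H z| ≤ M} from hz)]
        have h4 : |H z / M| ≤ 1 := by
          rw [abs_div, abs_of_pos hM, div_le_one hM]
          exact hz
        have h5 := fj_lb h4
        linarith only [h5]
      · rw [Set.indicator_of_notMem (show z ∉ {z | |H z| ≤ M} from hz)]
        have h5 := fj_nn (H z / M)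
        linarith only [h5]
    exact integral_mono ((integrable_const (1 : ℝ)).indicator hset) (h3.const_mul 5) hpt
  have h2 : ∫ z, fj (H z / M) ∂ν ≤ Real.sqrt (Real.pi / b) / 2 := by
    have e1 : ∫ z, fj (H z / M) ∂ν =
        ∫ t, ∫ z, (1 - t) * Real.cos (t * (H z / M)) ∂ν ∂lm := by
      have e2 : (fun z => fj (H z / M)) =
          fun z => ∫ t, (1 - t) * Real.cos (t * (H z / M)) ∂lm := funext fun z => hfj (H z / M)
      rw [e2]
      exact integral_integral_swap hGi
    rw [e1]
    refine le_trans ?_ (gauss34 hb0)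
    have i1 : Integrable (fun t => ∫ z, (1 - t) * Real.cos (t * (H z / M)) ∂ν) lm :=
      hGi.integral_prod_right
    have i2 : Integrable (fun t : ℝ => Real.exp (-b * t ^ 2)) lm :=
      (integrable_exp_neg_mul_sq hb0).integrableOn
    rw [hlm]
    refine setIntegral_mono_on i1 i2 measurableSet_Ioc fun t ht => ?_
    rw [integral_const_mul]
    have h3 := hcos t ht.1.le ht.2
    have h4 : 0 ≤ Real.exp (-b * t ^ 2) := (Real.exp_pos _).le
    have h5 : 0 ≤ 1 - t := by linarith [ht.2]
    calc (1 - t) * ∫ z, Real.cos (t * (H z / M)) ∂ν ≤ (1 - t) * Real.exp (-b * t ^ 2) :=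
          mul_le_mul_of_nonneg_left h3 h5
      _ ≤ 1 * Real.exp (-b * t ^ 2) := mul_le_mul_of_nonneg_right (by linarith [ht.1]) h4
      _ = _ := one_mul _
  linarith

/-- **The concentration function of a sum.** -/
theorem conc34 {X : Type*} [MeasurableSpace X] {P : Measure X} [IsProbabilityMeasure P] {k : ℕ}
    (Y : Fin k → X → ℝ) (hm : ∀ i, Measurable (Y i)) {M V : ℝ} (hM : 0 < M)
    (hK : ∀ i x, |Y i x| ≤ M) (hodd : ∀ i (t : ℝ), ∫ x, Real.sin (t * Y i x) ∂P = 0)
    (hV : 0 < V) (hVl : V ≤ ∑ i, ∫ x, Y i x ^ 2 ∂P) :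
    (Measure.pi fun _ : Fin k => P).real {z | |∑ i, Y i (z i)| ≤ M} ≤ 10 * (M / Real.sqrt V) := by
  classical
  set ν : Measure (Fin k → X) := Measure.pi fun _ : Fin k => P with hν
  set f : Fin k → (Fin k → X) → ℝ := fun i z => Y i (z i) with hf
  have hfm : ∀ i, Measurable (f i) := fun i => (hm i).comp (measurable_pi_apply i)
  have hind : iIndepFun f ν := iIndepFun_pi fun i => (hm i).aemeasurable
  have hev : ∀ i (G : X → ℝ), Measurable G → ∫ z, G (z i) ∂ν = ∫ x, G x ∂P := by
    intro i G hG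
    have h1 := measurePreserving_eval (fun _ : Fin k => P) i
    rw [← h1.map_eq, integral_map h1.measurable.aemeasurable hG.aestronglyMeasurable]
  set H : (Fin k → X) → ℝ := fun z => ∑ i, Y i (z i) with hH
  have hHm : Measurable H := Finset.measurable_sum _ fun i _ => hfm i
  obtain ⟨b, hb⟩ : ∃ b, b = V / (5 * M ^ 2) := ⟨_, rfl⟩
  have hb0 : 0 < b := by
    rw [hb]
    positivity
  -- the mean of the cosine
  have hcos : ∀ t : ℝ, 0 ≤ t → t ≤ 1 → ∫ z, Real.cos (t * (H z / M)) ∂ν ≤
      Real.exp (-b * t ^ 2) := by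
    intro t ht0 ht1
    have e1 : ∀ z, t * (H z / M) = t / M * ∑ i, f i z := fun z => by
      simp only [hH, hf]
      field_simp
    simp only [e1]
    rw [cosum34 f hfm hind (t / M) (fun i => by
      rw [hev i (fun x => Real.sin (t / M * Y i x))
        (Real.measurable_sin.comp (measurable_const.mul (hm i)))]
      exact hodd i _)]
    have hs : ∀ i x, |t / M * Y i x| ≤ 1 := by
      intro i x
      rw [abs_mul, abs_div, abs_of_nonneg ht0, abs_of_pos hM]
      calc t / M * |Y i x| ≤ 1 / M * M := mul_le_mul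
            (div_le_div_of_nonneg_right ht1 hM.le) (hK i x) (abs_nonneg _) (by positivity)
        _ = 1 := by field_simp
    have hci : ∀ i, Integrable (fun x => Real.cos (t / M * Y i x)) P := fun i =>
      ibd (Real.measurable_cos.comp (measurable_const.mul (hm i))) fun x => Real.abs_cos_le_one _
    have hy2 : ∀ i, Integrable (fun x => Y i x ^ 2) P := fun i =>
      ibd ((hm i).pow_const 2) (C := M ^ 2) fun x => by
        rw [abs_pow]
        exact pow_le_pow_left₀ (abs_nonneg _) (hK i x) 2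
    have hone : ∀ i, ∫ z, Real.cos (t / M * f i z) ∂ν ≤
        Real.exp (-((t / M) ^ 2 / 5 * ∫ x, Y i x ^ 2 ∂P)) := by
      intro i
      have h1 : ∫ z, Real.cos (t / M * f i z) ∂ν = ∫ x, Real.cos (t / M * Y i x) ∂P :=
        hev i (fun x => Real.cos (t / M * Y i x))
          (Real.measurable_cos.comp (measurable_const.mul (hm i)))
      rw [h1]
      have h2 : ∫ x, Real.cos (t / M * Y i x) ∂P ≤
          ∫ x, (1 - (t / M) ^ 2 / 5 * Y i x ^ 2) ∂P :=
        integral_mono (hci i) ((integrable_const _).sub ((hy2 i).const_mul _)) fun x => by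
          have := cos_up (hs i x)
          show Real.cos (t / M * Y i x) ≤ 1 - (t / M) ^ 2 / 5 * Y i x ^ 2
          calc _ ≤ 1 - (t / M * Y i x) ^ 2 / 5 := this
            _ = _ := by ring
      rw [integral_sub (integrable_const _) ((hy2 i).const_mul _), integral_const_mul] at h2
      simp only [integral_const, probReal_univ, smul_eq_mul, one_mul] at h2
      have h3 := Real.add_one_le_exp (-((t / M) ^ 2 / 5 * ∫ x, Y i x ^ 2 ∂P))
      linarith
    have hnn : ∀ i, 0 ≤ ∫ z, Real.cos (t / M * f i z) ∂ν := fun i =>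
      integral_nonneg fun z => Real.cos_nonneg_of_mem_Icc (by
        have h1 := abs_le.1 (hs i (z i))
        have h2 := Real.pi_gt_three
        exact ⟨by linarith [h1.1], by linarith [h1.2]⟩)
    calc ∏ i, ∫ z, Real.cos (t / M * f i z) ∂ν
        ≤ ∏ i, Real.exp (-((t / M) ^ 2 / 5 * ∫ x, Y i x ^ 2 ∂P)) :=
          Finset.prod_le_prod (fun i _ => hnn i) fun i _ => hone i
      _ = Real.exp (-((t / M) ^ 2 / 5 * ∑ i, ∫ x, Y i x ^ 2 ∂P)) := by
          rw [← Real.exp_sum, Finset.sum_neg_distrib, ← Finset.mul_sum]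
      _ ≤ Real.exp (-b * t ^ 2) := by
          apply Real.exp_le_exp.2
          have h1 : (t / M) ^ 2 / 5 * V ≤ (t / M) ^ 2 / 5 * ∑ i, ∫ x, Y i x ^ 2 ∂P :=
            mul_le_mul_of_nonneg_left hVl (by positivity)
          have h2 : b * t ^ 2 = (t / M) ^ 2 / 5 * V := by
            rw [hb]
            field_simp
          linarith
  have h1 := fej34 (ν := ν) hHm hM hb0 hcos
  have h3 : Real.sqrt (Real.pi / b) ≤ 4 * (M / Real.sqrt V) := by
    have h4 : 0 ≤ 4 * (M / Real.sqrt V) := by positivity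
    rw [← Real.sqrt_sq h4]
    apply Real.sqrt_le_sqrt
    have h5 : (4 * (M / Real.sqrt V)) ^ 2 = 16 * M ^ 2 / V := by
      rw [mul_pow, div_pow, Real.sq_sqrt hV.le]
      ring
    rw [h5, hb]
    have h6 : Real.pi / (V / (5 * M ^ 2)) = 5 * Real.pi * M ^ 2 / V := by
      field_simp
    rw [h6]
    apply div_le_div_of_nonneg_right _ hV.le
    have h7 := Real.pi_lt_d2
    have h8 : 0 < M ^ 2 := by positivity
    nlinarith
  calc ν.real {z | |∑ i, Y i (z i)| ≤ M} ≤ 5 * (Real.sqrt (Real.pi / b) / 2) := h1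
    _ ≤ 5 * (4 * (M / Real.sqrt V) / 2) := by linarith
    _ = _ := by ring

end Pool.Agent.W_7d29a1_SDP.AC34
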