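import Pool.Agent.W_7d29a1_SDP.DefsP51
import Pool.Agent.W_7d29a1_SDP.Conc34
import Pool.Agent.W_7d29a1_NV.LOf66
import Pool.Agent.W_7d29a1_NV.Pin85

/-!
Theorem SDP, leaf AbsAC: anticoncentration of the free energy in a selection model with a small
selection.
-/

namespace Pool.Agent.W_7d29a1_SDP.AC34

open MeasureTheory ProbabilityTheory Filter Topology Pool.Agent.W_7d29a1_NV
  Pool.Agent.W_7d29a1_NV.LO66

section Fin

variable {S : Type} [Fintype S]

lemma sq34 {p : S → ℝ} (hp : ∑ s, p s = 1) (f : S → ℝ) (c : ℝ) :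
    ∑ s, p s * (f s - c) ^ 2 = ∑ s, p s * f s ^ 2 - 2 * c * ∑ s, p s * f s + c ^ 2 := by
  have e : ∀ s, p s * (f s - c) ^ 2 = p s * f s ^ 2 - 2 * c * (p s * f s) + c ^ 2 * p s :=
    fun s => by ring
  simp only [e]
  rw [Finset.sum_add_distrib, Finset.sum_sub_distrib, ← Finset.mul_sum, ← Finset.mul_sum, hp,
    mul_one]

lemma vmin34 {p : S → ℝ} (hp : ∑ s, p s = 1) (f : S → ℝ) (c : ℝ) :
    ∑ s, p s * (f s - ∑ s', p s' * f s') ^ 2 ≤ ∑ s, p s * (f s - c) ^ 2 := by
  rw [sq34 hp, sq34 hp]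
  nlinarith [sq_nonneg (∑ s', p s' * f s' - c)]

lemma tvm34 {p q f : S → ℝ} {K : ℝ} (hf : ∀ s, |f s| ≤ K) :
    |∑ s, p s * f s - ∑ s, q s * f s| ≤ K * ∑ s, |p s - q s| := by
  rw [← Finset.sum_sub_distrib, Finset.mul_sum]
  refine (Finset.abs_sum_le_sum_abs _ _).trans (Finset.sum_le_sum fun s _ => ?_)
  rw [← sub_mul, abs_mul, mul_comm K]
  exact mul_le_mul_of_nonneg_left (hf s) (abs_nonneg _)

lemma exp34 {y K : ℝ} (hy : |y| ≤ K) : |y| ≤ Real.exp K * |Real.exp y - 1| := by
  have hK : 0 ≤ K := (abs_nonneg _).trans hy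
  rcases le_total 0 y with h | h
  · have h1 := Real.add_one_le_exp y
    have h2 : 1 ≤ Real.exp K := Real.one_le_exp hK
    rw [abs_of_nonneg h, abs_of_nonneg (by linarith)]
    nlinarith
  · have h1 := Real.add_one_le_exp (-y)
    have h2 : Real.exp y ≤ 1 := Real.exp_le_one_iff.2 h
    rw [abs_of_nonpos h, abs_of_nonpos (by linarith)]
    have h3 : Real.exp (-y) * (1 - Real.exp y) = Real.exp (-y) - 1 := by
      rw [mul_sub, ← Real.exp_add]
      simp
    have h4 : Real.exp (-y) ≤ Real.exp K := by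
      apply Real.exp_le_exp.2
      rw [abs_of_nonpos h] at hy
      exact hy
    have h5 : Real.exp (-y) * (1 - Real.exp y) ≤ Real.exp K * (1 - Real.exp y) :=
      mul_le_mul_of_nonneg_right h4 (by linarith)
    linarith

end Fin

section Mod

variable {Ω S : Type} [MeasurableSpace Ω] [Fintype S] {k : ℕ} {P : Measure Ω}
  {Q : S → ℝ} {u : Fin k → S → Ω → ℝ} {B : ℝ}

/-- The exchange, pointwise. -/
lemma step34 (h : HT P Q u B) (ω ω' : Fin k → Ω) {D : S → ℝ}
    (hD : ∀ s, gs6 u ω' s - gs6 u ω s = D s) :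
    ∑ s, prT Q u ω s * D s ≤ Real.log (dT Q u ω') - Real.log (dT Q u ω) ∧
    Real.log (dT Q u ω') - Real.log (dT Q u ω) ≤ ∑ s, prT Q u ω' s * D s := by
  have h1 := kl_nonneg77 (pp6 h ω ω')
  have h2 := kl_nonneg77 (pp6 h ω' ω)
  rw [kl6 h] at h1 h2
  have e1 : ∑ s, prT Q u ω s * (gs6 u ω s - gs6 u ω' s) = -∑ s, prT Q u ω s * D s := by
    rw [← Finset.sum_neg_distrib]
    exact Finset.sum_congr rfl fun s _ => by rw [← hD s]; ring
  have e2 : ∑ s, prT Q u ω' s * (gs6 u ω' s - gs6 u ω s) = ∑ s, prT Q u ω' s * D s :=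
    Finset.sum_congr rfl fun s _ => by rw [hD s]
  rw [e1] at h1
  rw [e2] at h2
  exact ⟨by linarith, by linarith⟩

lemma stepg34 (h : HT P Q u B) (ω ω' : Fin k → Ω) {D : S → ℝ}
    (hD : ∀ s, gs6 u ω' s - gs6 u ω s = D s) {K : ℝ} (hK : ∀ s, |D s| ≤ K) (hK0 : 0 ≤ K)
    (g : S → ℝ) :
    |Real.log (dT Q u ω') - Real.log (dT Q u ω) - ∑ s, g s * D s| ≤
      K * (∑ s, |prT Q u ω s - g s|) + K * ∑ s, |prT Q u ω' s - g s| := by
  obtain ⟨h1, h2⟩ := step34 h ω ω' hD
  have h3 := abs_le.1 (tvm34 (p := prT Q u ω) (q := g) hK)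
  have h4 := abs_le.1 (tvm34 (p := prT Q u ω') (q := g) hK)
  have h5 : 0 ≤ K * ∑ s, |prT Q u ω s - g s| :=
    mul_nonneg hK0 (Finset.sum_nonneg fun s _ => abs_nonneg _)
  have h6 : 0 ≤ K * ∑ s, |prT Q u ω' s - g s| :=
    mul_nonneg hK0 (Finset.sum_nonneg fun s _ => abs_nonneg _)
  exact abs_le.2 ⟨by linarith [h3.1], by linarith [h4.2]⟩

omit [MeasurableSpace Ω] [Fintype S] in
lemma gsu34 (ω : Fin k → Ω) (i : Fin k) (x : Ω) (s : S) :
    gs6 u (Function.update ω i x) s - gs6 u ω s =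
      Real.log (u i s x) - Real.log (u i s (ω i)) := by
  classical
  unfold gs6
  rw [← Finset.sum_sub_distrib, Finset.sum_eq_single i]
  · rw [Function.update_self]
  · intro j _ hj
    rw [Function.update_of_ne hj, sub_self]
  · intro hi
    exact absurd (Finset.mem_univ i) hi

lemma du34 (h : HT P Q u B) (i : Fin k) (s : S) (x y : Ω) :
    |Real.log (u i s x) - Real.log (u i s y)| ≤ 2 * B := by
  have h1 := abs_le.1 (ht_log6 h i s x)
  have h2 := abs_le.1 (ht_log6 h i s y)
  exact abs_le.2 ⟨by linarith [h1.1, h2.2], by linarith [h1.2, h2.1]⟩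

/-- The new law of the class. -/
lemma pru34 (h : HT P Q u B) (ω ω' : Fin k → Ω) (s : S) :
    prT Q u ω' s = prT Q u ω s * Real.exp (gs6 u ω' s - gs6 u ω s -
      (Real.log (dT Q u ω') - Real.log (dT Q u ω))) := by
  have h1 := dT_pos6 h ω
  have h2 := dT_pos6 h ω'
  unfold prT
  rw [wT_eq6 h, wT_eq6 h, Real.exp_sub, Real.exp_sub, Real.exp_sub, Real.exp_log h1,
    Real.exp_log h2]
  have h3 := (Real.exp_pos (gs6 u ω s)).ne'
  field_simp

/-- The variance of the exchanged gain under the law of the class. -/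
lemma vard34 (h : HT P Q u B) (hB : 0 ≤ B) (i : Fin k) (ω : Fin k → Ω) (x : Ω) :
    ∑ s, prT Q u ω s * ((Real.log (u i s x) - Real.log (u i s (ω i))) -
      ∑ s', prT Q u ω s' * (Real.log (u i s' x) - Real.log (u i s' (ω i)))) ^ 2 ≤
      4 * B * Real.exp (4 * B) *
        ∑ s, |prT Q u ω s - prT Q u (Function.update ω i x) s| := by
  obtain ⟨D, hD⟩ : ∃ D : S → ℝ, D = fun s => Real.log (u i s x) - Real.log (u i s (ω i)) :=
    ⟨_, rfl⟩
  obtain ⟨l, hl⟩ : ∃ l : ℝ, l = Real.log (dT Q u (Function.update ω i x)) -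
    Real.log (dT Q u ω) := ⟨_, rfl⟩
  have hDs : ∀ s, |D s| ≤ 2 * B := fun s => by
    rw [hD]
    exact du34 h i s _ _
  obtain ⟨h1, h2⟩ := step34 h ω (Function.update ω i x) (D := D) (fun s => by
    rw [hD]
    exact gsu34 ω i x s)
  have h3 := abs_le.1 (prm6 h ω hDs)
  have h4 := abs_le.1 (prm6 h (Function.update ω i x) hDs)
  rw [← hl] at h1 h2
  have h5 : ∀ s, |D s - l| ≤ 4 * B := fun s => by
    have h6 := abs_le.1 (hDs s)
    exact abs_le.2 ⟨by linarith [h6.1, h4.2], by linarith [h6.2, h3.1]⟩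
  have e : ∑ s, prT Q u ω s * ((Real.log (u i s x) - Real.log (u i s (ω i))) -
      ∑ s', prT Q u ω s' * (Real.log (u i s' x) - Real.log (u i s' (ω i)))) ^ 2 =
      ∑ s, prT Q u ω s * (D s - ∑ s', prT Q u ω s' * D s') ^ 2 := by
    rw [hD]
  rw [e]
  refine (vmin34 (prT_sum6 h ω) D l).trans ?_
  rw [Finset.mul_sum]
  refine Finset.sum_le_sum fun s _ => ?_
  have h6 := pru34 h ω (Function.update ω i x) s
  rw [gsu34, ← hl] at h6
  have h7 : prT Q u ω s - prT Q u (Function.update ω i x) s =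
      -(prT Q u ω s * (Real.exp (D s - l) - 1)) := by
    rw [h6, hD]
    ring
  rw [h7, abs_neg, abs_mul, abs_of_nonneg (prT_nn6 h ω s)]
  have h8 : (D s - l) ^ 2 ≤ 4 * B * |D s - l| := by
    rw [← sq_abs, sq]
    exact mul_le_mul_of_nonneg_right (h5 s) (abs_nonneg _)
  have h9 := exp34 (h5 s)
  have h10 : 4 * B * |D s - l| ≤ 4 * B * (Real.exp (4 * B) * |Real.exp (D s - l) - 1|) :=
    mul_le_mul_of_nonneg_left h9 (by positivity)
  calc prT Q u ω s * (D s - l) ^ 2 ≤
      prT Q u ω s * (4 * B * (Real.exp (4 * B) * |Real.exp (D s - l) - 1|)) :=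
        mul_le_mul_of_nonneg_left (h8.trans h10) (prT_nn6 h ω s)
    _ = _ := by ring

variable [IsProbabilityMeasure P]

/-- Total variation under resampling of one row. -/
lemma tT_le34 (h : HT P Q u B) (i : Fin k) : tT P Q u i ≤ 2 * Real.sqrt (kaT P Q u i) := by
  have hkl : ∀ w : (Fin k → Ω) × Ω, kl Finset.univ (prT Q u w.1)
      (prT Q u (Function.update w.1 i w.2)) = P85.KS Q u i w := by
    intro w
    unfold kl P85.KS
    refine Finset.sum_congr rfl fun s _ => ?_
    by_cases hs : Q s = 0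
    · rw [prT_z6 h _ hs, zero_mul, zero_mul]
    · have h1 : prT Q u w.1 s ≠ 0 := fun h0 => hs (prT_z6' h _ h0)
      have h2 : prT Q u (Function.update w.1 i w.2) s ≠ 0 := fun h0 => hs (prT_z6' h _ h0)
      rw [Real.log_div h1 h2]
  have h0 : ∀ w, 0 ≤ P85.KS Q u i w := fun w => by
    rw [← hkl w]
    exact kl_nonneg77 (pp6 h _ _)
  rw [tT_prod h i, kaT_eq h i]
  have h1 := sqrt6 ((Measure.pi fun _ : Fin k => P).prod P) (P85.meas_KS h i) h0
    (P85.KS_le h i)
  have hsi : Integrable (fun w => Real.sqrt (P85.KS Q u i w))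
      ((Measure.pi fun _ : Fin k => P).prod P) :=
    ib66 (Real.continuous_sqrt.measurable.comp (P85.meas_KS h i))
      (C := Real.sqrt (2 * B + 2 * (B * k))) fun w => by
      rw [abs_of_nonneg (Real.sqrt_nonneg _)]
      exact Real.sqrt_le_sqrt (P85.KS_le h i w)
  calc ∫ w : (Fin k → Ω) × Ω, (∑ s, |prT Q u w.1 s - prT Q u (Function.update w.1 i w.2) s|)
      ∂((Measure.pi fun _ : Fin k => P).prod P)
      ≤ ∫ w, 2 * Real.sqrt (P85.KS Q u i w) ∂((Measure.pi fun _ : Fin k => P).prod P) :=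
        integral_mono (pd_int h i) (hsi.const_mul 2) fun w => by
          have := tv77 (pp6 h w.1 (Function.update w.1 i w.2))
          rw [hkl w] at this
          exact this
    _ = 2 * ∫ w, Real.sqrt (P85.KS Q u i w) ∂((Measure.pi fun _ : Fin k => P).prod P) :=
        integral_const_mul _ _
    _ ≤ _ := by linarith

/-- The centred gain. -/
noncomputable def cT (P : Measure Ω) (u : Fin k → S → Ω → ℝ) (i : Fin k) (s : S) (x : Ω) : ℝ :=
  Real.log (u i s x) - psT P u i s

omit [IsProbabilityMeasure P] in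
lemma cT_meas (h : HT P Q u B) (i : Fin k) (s : S) : Measurable (cT P u i s) := gc_meas6 h i s

lemma cT_bd (h : HT P Q u B) (i : Fin k) (s : S) (x : Ω) : |cT P u i s x| ≤ 2 * B :=
  gc_bd6 h i s x

lemma cT_int (h : HT P Q u B) (i : Fin k) (s : S) : ∫ x, cT P u i s x ∂P = 0 := gc_int6 h i s

/-- The variance of a fresh gain under the law of the class, in mean. -/
lemma varx34 (h : HT P Q u B) (hB : 0 ≤ B) (i : Fin k) (ω : Fin k → Ω) :
    ∫ x, ∑ s, prT Q u ω s * (cT P u i s x - ∑ s', prT Q u ω s' * cT P u i s' x) ^ 2 ∂P ≤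
      4 * B * Real.exp (4 * B) *
        ∫ x, ∑ s, |prT Q u ω s - prT Q u (Function.update ω i x) s| ∂P := by
  obtain ⟨p, hp⟩ : ∃ p : S → ℝ, p = prT Q u ω := ⟨_, rfl⟩
  have hp0 : ∀ s, 0 ≤ p s := fun s => by
    rw [hp]
    exact prT_nn6 h ω s
  have hp1 : ∑ s, p s = 1 := by
    rw [hp]
    exact prT_sum6 h ω
  obtain ⟨m, hm⟩ : ∃ m : Ω → ℝ, m = fun x => ∑ s, p s * cT P u i s x := ⟨_, rfl⟩
  have hmm : Measurable m := by
    rw [hm]
    exact Finset.measurable_sum _ fun s _ => (cT_meas h i s).const_mul _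
  have hmb : ∀ x, |m x| ≤ 2 * B := fun x => by
    rw [hm, hp]
    exact prm6 h ω fun s => cT_bd h i s x
  have hci : ∀ s, Integrable (cT P u i s) P := fun s => ib66 (cT_meas h i s) (cT_bd h i s)
  have hmi : Integrable m P := ib66 hmm hmb
  have hm0 : ∫ x, m x ∂P = 0 := by
    rw [hm, integral_finsetSum _ fun s _ => (hci s).const_mul _]
    refine Finset.sum_eq_zero fun s _ => ?_
    rw [integral_const_mul, cT_int h i s, mul_zero]
  -- the cross term
  obtain ⟨b, hb⟩ : ∃ b : S → ℝ, b = fun s => cT P u i s (ω i) - m (ω i) := ⟨_, rfl⟩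
  have hsb : ∀ s, Integrable (fun x => p s * ((cT P u i s x - m x) * b s)) P := fun s =>
    (((hci s).sub hmi).mul_const (b s)).const_mul (p s)
  have hcr : ∫ x, ∑ s, p s * ((cT P u i s x - m x) * b s) ∂P = 0 := by
    rw [integral_finsetSum _ fun s _ => hsb s]
    refine Finset.sum_eq_zero fun s _ => ?_
    rw [integral_const_mul, integral_mul_const, integral_sub (hci s) hmi, cT_int h i s, hm0]
    simp
  have hcri : Integrable (fun x => ∑ s, p s * ((cT P u i s x - m x) * b s)) P :=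
    integrable_finsetSum _ fun s _ => hsb s
  have hL : Integrable (fun x => ∑ s, p s * (cT P u i s x - m x) ^ 2) P := by
    refine ib66 (Finset.measurable_sum _ fun s _ =>
      (((cT_meas h i s).sub hmm).pow_const 2).const_mul _) (C := (4 * B) ^ 2) fun x => ?_
    rw [hp]
    refine prm6 h ω fun s => ?_
    rw [abs_pow]
    refine pow_le_pow_left₀ (abs_nonneg _) ?_ 2
    refine (abs_sub _ _).trans ?_
    linarith [cT_bd h i s x, hmb x]
  have hR : Integrable (fun x => ∑ s, |prT Q u ω s - prT Q u (Function.update ω i x) s|) P := by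
    have hup : Measurable fun x => Function.update ω i x := measurable_update ω
    exact ib66 (Finset.measurable_sum _ fun s _ =>
      (measurable_const.sub ((prT_meas6 h s).comp hup)).abs)
      (C := Fintype.card S) fun x => sum_abs_bd fun s => d1 h _ _ s
  have hpt : ∀ x, ∑ s, p s * (cT P u i s x - m x) ^ 2 ≤
      4 * B * Real.exp (4 * B) *
        (∑ s, |prT Q u ω s - prT Q u (Function.update ω i x) s|) +
      2 * ∑ s, p s * ((cT P u i s x - m x) * b s) := by
    intro x
    have h1 := vard34 h hB i ω x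
    have e1 : ∀ s, (Real.log (u i s x) - Real.log (u i s (ω i))) -
        ∑ s', prT Q u ω s' * (Real.log (u i s' x) - Real.log (u i s' (ω i))) =
        (cT P u i s x - m x) - b s := by
      intro s
      have e2 : ∑ s', prT Q u ω s' * (Real.log (u i s' x) - Real.log (u i s' (ω i))) =
          m x - m (ω i) := by
        rw [hm, hp]
        simp only
        rw [← Finset.sum_sub_distrib]
        refine Finset.sum_congr rfl fun s' _ => ?_
        unfold cT
        ring
      rw [e2, hb]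
      simp only [cT]
      ring
    simp only [e1] at h1
    rw [← hp] at h1 ⊢
    refine le_trans ?_ (add_le_add h1 le_rfl)
    rw [Finset.mul_sum, ← Finset.sum_add_distrib]
    refine Finset.sum_le_sum fun s _ => ?_
    have h2 : 0 ≤ p s * b s ^ 2 := mul_nonneg (hp0 s) (sq_nonneg _)
    calc p s * (cT P u i s x - m x) ^ 2 ≤ p s * (cT P u i s x - m x) ^ 2 + p s * b s ^ 2 := by
          linarith
      _ = _ := by ring
  have h1 := integral_mono hL ((hR.const_mul (4 * B * Real.exp (4 * B))).add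
    (hcri.const_mul 2)) hpt
  rw [integral_add' (hR.const_mul _) (hcri.const_mul 2), integral_const_mul, integral_const_mul,
    hcr, mul_zero, add_zero] at h1
  have e3 : ∫ x, ∑ s, prT Q u ω s * (cT P u i s x - ∑ s', prT Q u ω s' * cT P u i s' x) ^ 2 ∂P =
      ∫ x, ∑ s, p s * (cT P u i s x - m x) ^ 2 ∂P := by
    rw [hm, hp]
  rw [e3]
  exact h1

/-- The distance of the law of the class from its mean. -/
noncomputable def T1 (P : Measure Ω) (Q : S → ℝ) (u : Fin k → S → Ω → ℝ) : ℝ :=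
  ∫ ω, ∑ s, |prT Q u ω s - gb P Q u s| ∂(Measure.pi fun _ : Fin k => P)

lemma pr_int34 (h : HT P Q u B) (s : S) :
    Integrable (fun ω => prT Q u ω s) (Measure.pi fun _ : Fin k => P) :=
  ib66 (prT_meas6 h s) (C := 1) fun ω => by
    rw [abs_of_nonneg (prT_nn6 h ω s)]
    exact prT_le6 h ω s

omit [IsProbabilityMeasure P] in
lemma gb_nn34 (h : HT P Q u B) (s : S) : 0 ≤ gb P Q u s :=
  integral_nonneg fun ω => prT_nn6 h ω s

lemma gb_sum34 (h : HT P Q u B) : ∑ s, gb P Q u s = 1 := by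
  unfold gb
  rw [← integral_finsetSum _ fun s _ => pr_int34 h s,
    integral_congr_ae (Eventually.of_forall fun ω => prT_sum6 h ω)]
  simp

lemma gb_le34 (h : HT P Q u B) (s : S) : gb P Q u s ≤ 1 := by
  rw [← gb_sum34 h]
  exact Finset.single_le_sum (fun t _ => gb_nn34 h t) (Finset.mem_univ s)

lemma gbm34 (h : HT P Q u B) {f : S → ℝ} {C : ℝ} (hf : ∀ s, |f s| ≤ C) :
    |∑ s, gb P Q u s * f s| ≤ C := by
  refine (Finset.abs_sum_le_sum_abs _ _).trans ?_
  have h1 : ∀ s ∈ Finset.univ, |gb P Q u s * f s| ≤ gb P Q u s * C := fun s _ => by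
    rw [abs_mul, abs_of_nonneg (gb_nn34 h s)]
    exact mul_le_mul_of_nonneg_left (hf s) (gb_nn34 h s)
  refine (Finset.sum_le_sum h1).trans ?_
  rw [← Finset.sum_mul, gb_sum34 h, one_mul]

omit [IsProbabilityMeasure P] in
lemma d_meas34 (h : HT P Q u B) : Measurable fun ω : Fin k → Ω =>
    ∑ s, |prT Q u ω s - gb P Q u s| :=
  Finset.measurable_sum _ fun s _ => ((prT_meas6 h s).sub measurable_const).abs

lemma d_bd34 (h : HT P Q u B) (ω : Fin k → Ω) :
    |(∑ s, |prT Q u ω s - gb P Q u s|)| ≤ Fintype.card S :=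
  sum_abs_bd fun s => by
    have h1 := prT_le6 h ω s
    have h2 := prT_nn6 h ω s
    have h3 := gb_nn34 (P := P) h s
    have h4 := gb_le34 (P := P) h s
    exact abs_le.2 ⟨by linarith, by linarith⟩

lemma d_int34 (h : HT P Q u B) : Integrable (fun ω : Fin k → Ω =>
    ∑ s, |prT Q u ω s - gb P Q u s|) (Measure.pi fun _ : Fin k => P) :=
  ib66 (d_meas34 h) (d_bd34 h)

/-- The mean variance of the gain. -/
lemma var34 (h : HT P Q u B) (hB : 0 ≤ B) (i : Fin k) :
    ∑ s, gb P Q u s * vaT P u i s ≤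
      ∫ x, (∑ s, gb P Q u s * cT P u i s x) ^ 2 ∂P + 4 * B * Real.exp (4 * B) * tT P Q u i +
        16 * B ^ 2 * T1 P Q u := by
  obtain ⟨G, hG⟩ : ∃ G : Ω → ℝ, G = fun x => ∑ s, gb P Q u s * cT P u i s x := ⟨_, rfl⟩
  have hGm : Measurable G := by
    rw [hG]
    exact Finset.measurable_sum _ fun s _ => (cT_meas h i s).const_mul _
  have hGb : ∀ x, |G x| ≤ 2 * B := fun x => by
    rw [hG]
    exact gbm34 h fun s => cT_bd h i s x
  have hG2 : Integrable (fun x => G x ^ 2) P := ib66 (hGm.pow_const 2) (C := (2 * B) ^ 2)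
    fun x => by
      rw [abs_pow]
      exact pow_le_pow_left₀ (abs_nonneg _) (hGb x) 2
  have hc2 : ∀ s, Integrable (fun x => cT P u i s x ^ 2) P := fun s =>
    ib66 ((cT_meas h i s).pow_const 2) (C := (2 * B) ^ 2) fun x => by
      rw [abs_pow]
      exact pow_le_pow_left₀ (abs_nonneg _) (cT_bd h i s x) 2
  have hω : ∀ ω : Fin k → Ω, ∑ s, gb P Q u s * vaT P u i s ≤ ∫ x, G x ^ 2 ∂P +
      4 * B * Real.exp (4 * B) *
        (∫ x, ∑ s, |prT Q u ω s - prT Q u (Function.update ω i x) s| ∂P) +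
      16 * B ^ 2 * ∑ s, |prT Q u ω s - gb P Q u s| := by
    intro ω
    obtain ⟨m, hm⟩ : ∃ m : Ω → ℝ, m = fun x => ∑ s, prT Q u ω s * cT P u i s x := ⟨_, rfl⟩
    have hmm : Measurable m := by
      rw [hm]
      exact Finset.measurable_sum _ fun s _ => (cT_meas h i s).const_mul _
    have hmb : ∀ x, |m x| ≤ 2 * B := fun x => by
      rw [hm]
      exact prm6 h ω fun s => cT_bd h i s x
    have hcm : ∀ s x, |(cT P u i s x - m x) ^ 2| ≤ 16 * B ^ 2 := fun s x => by
      rw [abs_pow]
      have h1 : |cT P u i s x - m x| ≤ 4 * B := (abs_sub _ _).trans (by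
        linarith [cT_bd h i s x, hmb x])
      calc |cT P u i s x - m x| ^ 2 ≤ (4 * B) ^ 2 := pow_le_pow_left₀ (abs_nonneg _) h1 2
        _ = _ := by ring
    have hL : Integrable (fun x => ∑ s, prT Q u ω s * (cT P u i s x - m x) ^ 2) P :=
      ib66 (Finset.measurable_sum _ fun s _ =>
        (((cT_meas h i s).sub hmm).pow_const 2).const_mul _) (C := 16 * B ^ 2) fun x =>
        prm6 h ω fun s => hcm s x
    have hpt : ∀ x, ∑ s, gb P Q u s * cT P u i s x ^ 2 ≤ G x ^ 2 +
        ((∑ s, prT Q u ω s * (cT P u i s x - m x) ^ 2) +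
          16 * B ^ 2 * ∑ s, |prT Q u ω s - gb P Q u s|) := by
      intro x
      have h1 := sq34 (gb_sum34 (P := P) h) (fun s => cT P u i s x) (G x)
      have h2 := vmin34 (gb_sum34 (P := P) h) (fun s => cT P u i s x) (m x)
      have h3 := tvm34 (p := prT Q u ω) (q := gb P Q u) (fun s => hcm s x)
      have h4 := (abs_le.1 h3).1
      have h5 : ∑ s, gb P Q u s * cT P u i s x = G x := by rw [hG]
      rw [h5] at h1 h2
      linarith
    have e1 : ∑ s, gb P Q u s * vaT P u i s = ∫ x, ∑ s, gb P Q u s * cT P u i s x ^ 2 ∂P := by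
      rw [integral_finsetSum _ fun s _ => (hc2 s).const_mul _]
      exact Finset.sum_congr rfl fun s _ => (integral_const_mul _ _).symm
    have h1 := integral_mono (integrable_finsetSum _ fun s _ => (hc2 s).const_mul _)
      (hG2.add (hL.add (integrable_const _))) hpt
    rw [integral_add' hG2 (hL.add (integrable_const _)), integral_add' hL (integrable_const _)]
      at h1
    simp only [integral_const, probReal_univ, smul_eq_mul, one_mul] at h1
    have h2 := varx34 h hB i ω
    have e2 : ∫ x, ∑ s, prT Q u ω s * (cT P u i s x - m x) ^ 2 ∂P =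
        ∫ x, ∑ s, prT Q u ω s * (cT P u i s x - ∑ s', prT Q u ω s' * cT P u i s' x) ^ 2 ∂P := by
      rw [hm]
    rw [← e2] at h2
    rw [e1]
    linarith
  have hp : Integrable (fun ω : Fin k → Ω =>
      ∫ x, ∑ s, |prT Q u ω s - prT Q u (Function.update ω i x) s| ∂P)
      (Measure.pi fun _ : Fin k => P) := (pd_int h i).integral_prod_left
  have hR1 : Integrable (fun ω : Fin k → Ω => ∫ x, G x ^ 2 ∂P + 4 * B * Real.exp (4 * B) *
      (∫ x, ∑ s, |prT Q u ω s - prT Q u (Function.update ω i x) s| ∂P))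
      (Measure.pi fun _ : Fin k => P) := (integrable_const _).add (hp.const_mul _)
  have h1 := integral_mono (μ := Measure.pi fun _ : Fin k => P) (integrable_const _)
    (hR1.add ((d_int34 (P := P) h).const_mul (16 * B ^ 2))) hω
  rw [integral_add' hR1 ((d_int34 (P := P) h).const_mul (16 * B ^ 2)),
    integral_add (integrable_const _) (hp.const_mul _), integral_const_mul,
    integral_const_mul] at h1
  simp only [integral_const, probReal_univ, smul_eq_mul, one_mul] at h1
  rw [hG] at h1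
  exact h1

/-- The exchanged gain. -/
noncomputable def yT (P : Measure Ω) (Q : S → ℝ) (u : Fin k → S → Ω → ℝ) (i : Fin k)
    (w : Ω × Ω) : ℝ := ∑ s, gb P Q u s * (Real.log (u i s w.2) - Real.log (u i s w.1))

omit [IsProbabilityMeasure P] in
lemma yT_meas (h : HT P Q u B) (i : Fin k) : Measurable (yT P Q u i) :=
  Finset.measurable_sum _ fun s _ => (((Real.measurable_log.comp (h.um i s)).comp
    measurable_snd).sub ((Real.measurable_log.comp (h.um i s)).comp measurable_fst)).const_mul _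

lemma yT_bd (h : HT P Q u B) (i : Fin k) (w : Ω × Ω) : |yT P Q u i w| ≤ 2 * B :=
  gbm34 h fun s => du34 h i s _ _

omit [IsProbabilityMeasure P] in
lemma yT_swap (i : Fin k) (w : Ω × Ω) : yT P Q u i w.swap = -yT P Q u i w := by
  unfold yT
  rw [← Finset.sum_neg_distrib]
  refine Finset.sum_congr rfl fun s _ => ?_
  simp only [Prod.fst_swap, Prod.snd_swap]
  ring

lemma yT_odd (i : Fin k) (t : ℝ) :
    ∫ w, Real.sin (t * yT P Q u i w) ∂(P.prod P) = 0 := by
  have h1 := integral_prod_swap (μ := P) (ν := P) (fun w => Real.sin (t * yT P Q u i w))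
  have h2 : (fun w : Ω × Ω => Real.sin (t * yT P Q u i w.swap)) =
      fun w => -Real.sin (t * yT P Q u i w) := by
    funext w
    rw [yT_swap, mul_neg, Real.sin_neg]
  rw [h2, integral_neg] at h1
  linarith

lemma yT_sq (h : HT P Q u B) (i : Fin k) :
    ∫ x, (∑ s, gb P Q u s * cT P u i s x) ^ 2 ∂P ≤ ∫ w, yT P Q u i w ^ 2 ∂(P.prod P) := by
  obtain ⟨G, hG⟩ : ∃ G : Ω → ℝ, G = fun x => ∑ s, gb P Q u s * cT P u i s x := ⟨_, rfl⟩
  have hGm : Measurable G := by
    rw [hG]
    exact Finset.measurable_sum _ fun s _ => (cT_meas h i s).const_mul _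
  have hGb : ∀ x, |G x| ≤ 2 * B := fun x => by
    rw [hG]
    exact gbm34 h fun s => cT_bd h i s x
  have hGi : Integrable G P := ib66 hGm hGb
  have hG2 : Integrable (fun x => G x ^ 2) P := ib66 (hGm.pow_const 2) (C := (2 * B) ^ 2)
    fun x => by
      rw [abs_pow]
      exact pow_le_pow_left₀ (abs_nonneg _) (hGb x) 2
  have hG0 : ∫ x, G x ∂P = 0 := by
    rw [hG, integral_finsetSum _ fun s _ => (ib66 (cT_meas h i s) (cT_bd h i s)).const_mul _]
    refine Finset.sum_eq_zero fun s _ => ?_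
    rw [integral_const_mul, cT_int h i s, mul_zero]
  have hy : ∀ w : Ω × Ω, yT P Q u i w = G w.2 - G w.1 := by
    intro w
    rw [hG]
    unfold yT cT
    simp only
    rw [← Finset.sum_sub_distrib]
    exact Finset.sum_congr rfl fun s _ => by ring
  have hyi : Integrable (fun w => yT P Q u i w ^ 2) (P.prod P) :=
    ib66 ((yT_meas h i).pow_const 2) (C := (2 * B) ^ 2) fun x => by
      rw [abs_pow]
      exact pow_le_pow_left₀ (abs_nonneg _) (yT_bd h i x) 2
  rw [integral_prod _ hyi]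
  have e1 : ∀ x, ∫ y, yT P Q u i (x, y) ^ 2 ∂P = ∫ y, G y ^ 2 ∂P + G x ^ 2 := by
    intro x
    have e2 : ∀ y, yT P Q u i (x, y) ^ 2 = (G y ^ 2 - 2 * G x * G y) + G x ^ 2 := by
      intro y
      rw [hy]
      ring
    have i1 : Integrable (fun y => G y ^ 2 - 2 * G x * G y) P := hG2.sub (hGi.const_mul _)
    simp only [e2]
    rw [integral_add i1 (integrable_const _), integral_sub hG2 (hGi.const_mul _),
      integral_const_mul, hG0]
    simp
  simp only [e1]
  rw [integral_add (integrable_const _) hG2]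
  simp only [integral_const, probReal_univ, smul_eq_mul, one_mul]
  have e3 : ∫ x, (∑ s, gb P Q u s * cT P u i s x) ^ 2 ∂P = ∫ x, G x ^ 2 ∂P := by rw [hG]
  rw [e3]
  have : 0 ≤ ∫ x, G x ^ 2 ∂P := integral_nonneg fun x => sq_nonneg _
  linarith

omit [MeasurableSpace Ω] [Fintype S] in
lemma gsm34 {J : Finset (Fin k)} {j : Fin k} (hj : j ∉ J) (z : Fin k → Ω × Ω) (s : S) :
    gs6 u (mixF (insert j J) z) s - gs6 u (mixF J z) s =
      Real.log (u j s (z j).2) - Real.log (u j s (z j).1) := by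
  classical
  unfold gs6
  rw [← Finset.sum_sub_distrib, Finset.sum_eq_single j]
  · simp [mixF, hj]
  · intro i _ hi
    simp [mixF, hi]
  · intro hi
    exact absurd (Finset.mem_univ j) hi

/-- The remainder. -/
noncomputable def aT (P : Measure Ω) (Q : S → ℝ) (u : Fin k → S → Ω → ℝ) (J : Finset (Fin k))
    (z : Fin k → Ω × Ω) : ℝ :=
  Real.log (dT Q u (mixF J z)) - Real.log (dT Q u (mixF ∅ z)) - ∑ i ∈ J, yT P Q u i (z i)

lemma aT_meas (h : HT P Q u B) (J : Finset (Fin k)) : Measurable (aT P Q u J) :=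
  (((Real.measurable_log.comp (dT_meas6 h)).comp (mp_mixF (P := P) J).measurable).sub
    ((Real.measurable_log.comp (dT_meas6 h)).comp (mp_mixF (P := P) ∅).measurable)).sub
    (Finset.measurable_sum _ fun i _ => (yT_meas h i).comp (measurable_pi_apply i))

lemma aT_bd (h : HT P Q u B) (hB : 0 ≤ B) (J : Finset (Fin k)) (z : Fin k → Ω × Ω) :
    |aT P Q u J z| ≤ 2 * (k * B) + k * (2 * B) := by
  unfold aT
  refine (abs_sub _ _).trans (add_le_add (ldd6 h _ _) ?_)
  refine (Finset.abs_sum_le_sum_abs _ _).trans ?_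
  have h1 : ∑ i ∈ J, |yT P Q u i (z i)| ≤ J.card * (2 * B) := by
    rw [← nsmul_eq_mul]
    exact Finset.sum_le_card_nsmul _ _ _ fun i _ => yT_bd h i _
  refine h1.trans (mul_le_mul_of_nonneg_right ?_ (by positivity))
  have h2 := Finset.card_le_univ J
  rw [Fintype.card_fin] at h2
  exact_mod_cast h2

lemma aT_int (h : HT P Q u B) (hB : 0 ≤ B) (J : Finset (Fin k)) :
    Integrable (aT P Q u J) (Measure.pi fun _ : Fin k => P.prod P) :=
  ib66 (aT_meas h J) (aT_bd h hB J)

/-- The free energy against the sum of the exchanged gains. -/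
lemma hyb34 (h : HT P Q u B) (hB : 0 ≤ B) (J : Finset (Fin k)) :
    ∫ z, |aT P Q u J z| ∂(Measure.pi fun _ : Fin k => P.prod P) ≤
      J.card * (4 * B * T1 P Q u) := by
  classical
  induction J using Finset.induction_on with
  | empty => simp [aT]
  | insert j J hj ih =>
    set ν : Measure (Fin k → Ω × Ω) := Measure.pi fun _ : Fin k => P.prod P with hν
    have hdJ : ∀ J' : Finset (Fin k), Integrable (fun z : Fin k → Ω × Ω =>
        ∑ s, |prT Q u (mixF J' z) s - gb P Q u s|) ν := fun J' =>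
      (mp_mixF (P := P) J').integrable_comp_of_integrable (d_int34 h)
    have hdE : ∀ J' : Finset (Fin k), ∫ z, ∑ s, |prT Q u (mixF J' z) s - gb P Q u s| ∂ν =
        T1 P Q u := by
      intro J'
      have hmp := mp_mixF (P := P) J'
      have h2 := integral_map (μ := ν) (φ := mixF J') hmp.measurable.aemeasurable
        (f := fun ω : Fin k → Ω => ∑ s, |prT Q u ω s - gb P Q u s|)
        (d_meas34 h).aestronglyMeasurable
      rw [hmp.map_eq] at h2
      exact h2.symm
    have hpt : ∀ z, |aT P Q u (insert j J) z| ≤ |aT P Q u J z| +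
        (2 * B * (∑ s, |prT Q u (mixF J z) s - gb P Q u s|) +
          2 * B * ∑ s, |prT Q u (mixF (insert j J) z) s - gb P Q u s|) := by
      intro z
      have h1 := stepg34 h (mixF J z) (mixF (insert j J) z)
        (D := fun s => Real.log (u j s (z j).2) - Real.log (u j s (z j).1))
        (fun s => gsm34 hj z s) (fun s => du34 h j s _ _) (by positivity) (gb P Q u)
      have e : aT P Q u (insert j J) z = aT P Q u J z +
          (Real.log (dT Q u (mixF (insert j J) z)) - Real.log (dT Q u (mixF J z)) -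
            ∑ s, gb P Q u s * (Real.log (u j s (z j).2) - Real.log (u j s (z j).1))) := by
        unfold aT
        rw [Finset.sum_insert hj]
        unfold yT
        ring
      rw [e]
      exact (abs_add_le _ _).trans (add_le_add le_rfl h1)
    have i1 := (aT_int h hB (insert j J)).abs
    have i2 := (aT_int h hB J).abs
    have i3 : Integrable (fun z => 2 * B * (∑ s, |prT Q u (mixF J z) s - gb P Q u s|) +
        2 * B * ∑ s, |prT Q u (mixF (insert j J) z) s - gb P Q u s|) ν :=
      ((hdJ J).const_mul (2 * B)).add ((hdJ (insert j J)).const_mul (2 * B))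
    have h1 := integral_mono i1 (i2.add i3) hpt
    rw [integral_add' i2 i3, integral_add ((hdJ J).const_mul (2 * B))
      ((hdJ (insert j J)).const_mul (2 * B)), integral_const_mul, integral_const_mul,
      hdE J, hdE (insert j J)] at h1
    rw [Finset.card_insert_of_notMem hj]
    push_cast
    linarith

/-- The free energy of two copies of the rows, against the exchanged gains. -/
lemma two34 (h : HT P Q u B) (hB : 1 ≤ B) {M : ℝ} (hM : 1 ≤ M) :
    ((Measure.pi fun _ : Fin k => P).prod (Measure.pi fun _ : Fin k => P)).real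
        {w | |Real.log (dT Q u w.1) - Real.log (dT Q u w.2)| ≤ M} ≤
      (Measure.pi fun _ : Fin k => P.prod P).real {z | |∑ i, yT P Q u i (z i)| ≤ 2 * B * M} +
        k * (4 * B * T1 P Q u) := by
  classical
  have hB0 : 0 ≤ B := by linarith
  set μ : Measure (Fin k → Ω) := Measure.pi fun _ : Fin k => P with hμ
  set ν : Measure (Fin k → Ω × Ω) := Measure.pi fun _ : Fin k => P.prod P with hν
  have hset : MeasurableSet {w : (Fin k → Ω) × (Fin k → Ω) |
      |Real.log (dT Q u w.1) - Real.log (dT Q u w.2)| ≤ M} :=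
    measurableSet_le (((Real.measurable_log.comp (dT_meas6 h)).comp measurable_fst).sub
      ((Real.measurable_log.comp (dT_meas6 h)).comp measurable_snd)).abs measurable_const
  have hmp := measurePreserving_arrowProdEquivProdArrow Ω Ω (Fin k) (fun _ => P) (fun _ => P)
  have h1 : (μ.prod μ).real {w | |Real.log (dT Q u w.1) - Real.log (dT Q u w.2)| ≤ M} =
      ν.real {z | |Real.log (dT Q u (mixF ∅ z)) -
        Real.log (dT Q u (mixF Finset.univ z))| ≤ M} := by
    unfold Measure.real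
    rw [← hmp.measure_preimage hset.nullMeasurableSet]
    congr 2
    ext z
    have h4 : mixF ∅ z = fun c => (z c).1 := by
      funext c
      simp [mixF]
    have h5 : mixF Finset.univ z = fun c => (z c).2 := by
      funext c
      simp [mixF]
    simp only [Set.mem_preimage, Set.mem_ofPred_eq, h4, h5]
    rfl
  rw [h1]
  have hsub : {z : Fin k → Ω × Ω | |Real.log (dT Q u (mixF ∅ z)) -
      Real.log (dT Q u (mixF Finset.univ z))| ≤ M} ⊆
      {z | |∑ i, yT P Q u i (z i)| ≤ 2 * B * M} ∪ {z | M ≤ |aT P Q u Finset.univ z|} := by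
    intro z hz
    simp only [Set.mem_ofPred_eq, Set.mem_union] at hz ⊢
    by_contra hcon
    push Not at hcon
    have h2 : ∑ i, yT P Q u i (z i) = -(Real.log (dT Q u (mixF ∅ z)) -
        Real.log (dT Q u (mixF Finset.univ z))) - aT P Q u Finset.univ z := by
      unfold aT
      ring
    have h3 : |∑ i, yT P Q u i (z i)| ≤ M + |aT P Q u Finset.univ z| := by
      rw [h2]
      refine (abs_sub _ _).trans (add_le_add ?_ le_rfl)
      rw [abs_neg]
      exact hz
    have h4 : M * 1 ≤ M * B := mul_le_mul_of_nonneg_left hB (by linarith)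
    nlinarith [hcon.1, hcon.2]
  have hmk : M * ν.real {z | M ≤ |aT P Q u Finset.univ z|} ≤
      ∫ z, |aT P Q u Finset.univ z| ∂ν :=
    mul_meas_ge_le_integral_of_nonneg (Eventually.of_forall fun z => abs_nonneg _)
      (aT_int h hB0 Finset.univ).abs M
  have hhy := hyb34 h hB0 (Finset.univ : Finset (Fin k))
  rw [Finset.card_univ, Fintype.card_fin] at hhy
  have h5 : ν.real {z | M ≤ |aT P Q u Finset.univ z|} ≤ k * (4 * B * T1 P Q u) := by
    have h6 : 0 ≤ ν.real {z | M ≤ |aT P Q u Finset.univ z|} := measureReal_nonneg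
    nlinarith
  calc _ ≤ ν.real ({z | |∑ i, yT P Q u i (z i)| ≤ 2 * B * M} ∪
        {z | M ≤ |aT P Q u Finset.univ z|}) := measureReal_mono hsub
    _ ≤ _ := (measureReal_union_le _ _).trans (add_le_add le_rfl h5)

end Mod

/-- **Leaf AbsAC.** -/
theorem absAC : AbsAC := by
  intro B hB
  have hB0 : 0 ≤ B := by linarith
  obtain ⟨C3, hC3⟩ : ∃ C3, C3 = 4 * B * Real.exp (4 * B) + 16 * B ^ 2 := ⟨_, rfl⟩
  have hC30 : 0 < C3 := by
    rw [hC3]
    have := Real.exp_pos (4 * B)
    positivity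
  refine ⟨2 + 8 * C3 + 40 * B, by positivity, ?_⟩
  intro Ω S _ _ k P _ Q u h M c hM hc hk
  set μ : Measure (Fin k → Ω) := Measure.pi fun _ : Fin k => P with hμ
  have hk1 : (1 : ℝ) ≤ k := by exact_mod_cast hk
  have hck : 0 < c * k := by positivity
  obtain ⟨κ, hκ⟩ : ∃ κ, κ = ∑ i, kaT P Q u i := ⟨_, rfl⟩
  obtain ⟨A, hA⟩ : ∃ A : Set (Fin k → Ω), A =
    {ω | ∑ i, ∑ s, prT Q u ω s * vaT P u i s < c * k} := ⟨_, rfl⟩
  obtain ⟨m, hm⟩ : ∃ m, m = M / Real.sqrt (c * k) := ⟨_, rfl⟩
  obtain ⟨E, hE⟩ : ∃ E, E = (k : ℝ) ^ 2 * Real.sqrt κ := ⟨_, rfl⟩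
  rw [← hκ, ← hA, ← hm, ← hE]
  have hm0 : 0 ≤ m := by
    rw [hm]
    positivity
  have hE0 : 0 ≤ E := by
    rw [hE]
    positivity
  have ha0 : 0 ≤ μ.real A := measureReal_nonneg
  have hP1 : (μ.prod μ).real {w : (Fin k → Ω) × (Fin k → Ω) |
      |Real.log (dT Q u w.1) - Real.log (dT Q u w.2)| ≤ M} ≤ 1 := measureReal_le_one
  have hC1 : 1 ≤ 2 + 8 * C3 + 40 * B := by linarith
  -- the total variation
  obtain ⟨T, hT⟩ : ∃ T, T = ∑ i, tT P Q u i := ⟨_, rfl⟩
  have hka : ∀ i, kaT P Q u i ≤ κ := fun i => by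
    rw [hκ]
    exact Finset.single_le_sum (f := fun i => kaT P Q u i) (fun j _ => ka_nn85 h j)
      (Finset.mem_univ i)
  have hT1 : T ≤ 2 * k * Real.sqrt κ := by
    rw [hT]
    have h1 : ∀ i ∈ Finset.univ, tT P Q u i ≤ 2 * Real.sqrt κ := fun i _ =>
      (tT_le34 h i).trans (mul_le_mul_of_nonneg_left (Real.sqrt_le_sqrt (hka i)) (by norm_num))
    have h2 := Finset.sum_le_card_nsmul _ _ _ h1
    rw [Finset.card_univ, Fintype.card_fin, nsmul_eq_mul] at h2
    linarith
  have hkT : k * T ≤ 2 * E := by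
    have h1 := mul_le_mul_of_nonneg_left hT1 (by linarith : (0 : ℝ) ≤ k)
    calc (k : ℝ) * T ≤ k * (2 * k * Real.sqrt κ) := h1
      _ = 2 * E := by
        rw [hE]
        ring
  have hT10 : 0 ≤ T1 P Q u := integral_nonneg fun ω => Finset.sum_nonneg fun s _ => abs_nonneg _
  have hT1T : T1 P Q u ≤ T := by
    rw [hT]
    exact mean_law h
  have hT0 : 0 ≤ T := hT10.trans hT1T
  -- the trivial cases
  by_cases ha : 1 / 2 ≤ μ.real A
  · have h1 : 0 ≤ (2 + 8 * C3 + 40 * B) * (m + E) := by positivity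
    linarith
  push Not at ha
  by_cases hc1 : c * k ≤ 1
  · have h1 : 1 ≤ m := by
      rw [hm, le_div_iff₀ (Real.sqrt_pos.2 hck), one_mul]
      have : Real.sqrt (c * k) ≤ 1 := Real.sqrt_le_one.2 hc1
      linarith
    have h2 : 1 * 1 ≤ (2 + 8 * C3 + 40 * B) * (m + E) :=
      mul_le_mul hC1 (by linarith) (by norm_num) (by linarith)
    linarith
  push Not at hc1
  by_cases hE1 : c * k / 4 < C3 * (k * T)
  · have h1 : 1 / 4 < C3 * (2 * E) := by
      have h3 := mul_le_mul_of_nonneg_left hkT hC30.le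
      linarith
    have h2 : 8 * C3 * E ≤ (2 + 8 * C3 + 40 * B) * (m + E) := by
      have h3 : 8 * C3 * E ≤ (2 + 8 * C3 + 40 * B) * E :=
        mul_le_mul_of_nonneg_right (by linarith) hE0
      have h4 : (2 + 8 * C3 + 40 * B) * E ≤ (2 + 8 * C3 + 40 * B) * (m + E) :=
        mul_le_mul_of_nonneg_left (by linarith) (by linarith)
      linarith
    linarith
  push Not at hE1
  -- the variance
  have hAm : MeasurableSet A := by
    rw [hA]
    exact measurableSet_lt (Finset.measurable_sum _ fun i _ => Finset.measurable_sum _ fun s _ =>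
      (prT_meas6 h s).mul_const _) measurable_const
  have hva0 : ∀ i s, 0 ≤ vaT P u i s := fun i s => integral_nonneg fun x => sq_nonneg _
  have hvar : c * k / 2 ≤ ∑ i, ∑ s, gb P Q u s * vaT P u i s := by
    have e1 : ∑ i, ∑ s, gb P Q u s * vaT P u i s =
        ∫ ω, ∑ i, ∑ s, prT Q u ω s * vaT P u i s ∂μ := by
      rw [integral_finsetSum _ fun i _ => integrable_finsetSum _ fun s _ =>
        (pr_int34 h s).mul_const _]
      refine Finset.sum_congr rfl fun i _ => ?_
      rw [integral_finsetSum _ fun s _ => (pr_int34 h s).mul_const _]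
      exact Finset.sum_congr rfl fun s _ => (integral_mul_const _ _).symm
    have hint : Integrable (fun ω => ∑ i, ∑ s, prT Q u ω s * vaT P u i s) μ :=
      integrable_finsetSum _ fun i _ => integrable_finsetSum _ fun s _ =>
        (pr_int34 h s).mul_const _
    have hpt : ∀ ω, Aᶜ.indicator (fun _ => c * k) ω ≤
        ∑ i, ∑ s, prT Q u ω s * vaT P u i s := by
      intro ω
      by_cases hω : ω ∈ A
      · rw [Set.indicator_of_notMem (by simpa using hω)]
        exact Finset.sum_nonneg fun i _ => Finset.sum_nonneg fun s _ =>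
          mul_nonneg (prT_nn6 h ω s) (hva0 i s)
      · rw [Set.indicator_of_mem (by simpa using hω)]
        rw [hA] at hω
        simpa using hω
    have h1 := integral_mono ((integrable_const (c * k)).indicator hAm.compl) hint hpt
    rw [integral_indicator_const _ hAm.compl, smul_eq_mul, probReal_compl_eq_one_sub hAm] at h1
    rw [e1]
    nlinarith
  have hV : c * k / 4 ≤ ∑ i, ∫ w, yT P Q u i w ^ 2 ∂(P.prod P) := by
    have h1 : ∀ i ∈ Finset.univ, ∑ s, gb P Q u s * vaT P u i s ≤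
        ∫ w, yT P Q u i w ^ 2 ∂(P.prod P) + (4 * B * Real.exp (4 * B) * tT P Q u i +
          16 * B ^ 2 * T) := fun i _ => by
      have h2 := var34 h hB0 i
      have h3 := yT_sq h i
      have h4 := mul_le_mul_of_nonneg_left hT1T (by positivity : 0 ≤ 16 * B ^ 2)
      linarith
    have h2 := Finset.sum_le_sum h1
    rw [Finset.sum_add_distrib, Finset.sum_add_distrib, ← Finset.mul_sum, ← hT,
      Finset.sum_const, Finset.card_univ, Fintype.card_fin, nsmul_eq_mul] at h2
    have h3 : 4 * B * Real.exp (4 * B) * T + k * (16 * B ^ 2 * T) ≤ C3 * (k * T) := by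
      rw [hC3]
      have h4 : 0 ≤ 4 * B * Real.exp (4 * B) := by
        have := Real.exp_pos (4 * B)
        positivity
      have h5 : 1 * T ≤ k * T := mul_le_mul_of_nonneg_right hk1 hT0
      have h6 := mul_le_mul_of_nonneg_left h5 h4
      linarith
    linarith
  have hM2 : 2 * B ≤ 2 * B * M := by nlinarith
  have h1 := conc34 (P := P.prod P) (Y := fun i => yT P Q u i) (fun i => yT_meas h i)
    (M := 2 * B * M) (V := c * k / 4) (by positivity)
    (fun i w => (yT_bd h i w).trans hM2) (fun i t => yT_odd i t) (by positivity) hV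
  have h2 := two34 h hB hM
  have h3 : 10 * (2 * B * M / Real.sqrt (c * k / 4)) = 40 * B * m := by
    have h4 : Real.sqrt (c * k / 4) = Real.sqrt (c * k) / 2 := by
      rw [Real.sqrt_div hck.le, show (4 : ℝ) = 2 ^ 2 by norm_num,
        Real.sqrt_sq (by norm_num : (0 : ℝ) ≤ 2)]
    have h5 : 0 < Real.sqrt (c * k) := Real.sqrt_pos.2 hck
    rw [h4, hm]
    field_simp
    ring
  rw [h3] at h1
  have h4 : k * (4 * B * T1 P Q u) ≤ 8 * B * E := by
    have h5 : (k : ℝ) * T1 P Q u ≤ k * T := mul_le_mul_of_nonneg_left hT1T (by linarith)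
    have h6 := mul_le_mul_of_nonneg_left (h5.trans hkT) (by positivity : 0 ≤ 4 * B)
    linarith
  have h5 : 0 ≤ (2 + 8 * C3) * m := by positivity
  have h7 : 8 * B * E ≤ (2 + 8 * C3 + 40 * B) * E :=
    mul_le_mul_of_nonneg_right (by linarith) hE0
  have h8 : (2 + 8 * C3 + 40 * B) * (m + E) = 40 * B * m + (2 + 8 * C3) * m +
      (2 + 8 * C3 + 40 * B) * E := by ring
  linarith

end Pool.Agent.W_7d29a1_SDP.AC34

namespace Pool.Agent.W_7d29a1_SDP

/-- **Leaf AbsAC.** -/
theorem absAC34 : AbsAC := AC34.absAC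

end Pool.Agent.W_7d29a1_SDP
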