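import Pool.Agent.W_7d29a1_NV.Two6a

/-!
Anticoncentration of a symmetrized sum of independent bounded terms (Fejer).
-/

set_option autoImplicit false

namespace Pool.Agent.W_7d29a1_SDP

open MeasureTheory Set Filter Topology Pool.Agent.W_7d29a1_NV

section Fej

/-- The Fejer kernel. -/
noncomputable def fk6 (x : ℝ) : ℝ := ∫ t in (0 : ℝ)..1, (1 - t) * Real.cos (t * x)

lemma fk6_nn (x : ℝ) : 0 ≤ fk6 x := by
  by_cases hx : x = 0
  · subst hx
    unfold fk6
    refine intervalIntegral.integral_nonneg (by norm_num) fun t ht => ?_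
    simp
    exact ht.2
  · have h1 : ∀ t ∈ Set.uIcc (0 : ℝ) 1, HasDerivAt
        (fun t : ℝ => (1 - t) * Real.sin (t * x) / x - Real.cos (t * x) / x ^ 2)
        ((1 - t) * Real.cos (t * x)) t := by
      intro t _
      have e1 : HasDerivAt (fun t : ℝ => t * x) x t := by
        simpa using (hasDerivAt_id t).mul_const x
      have e2 : HasDerivAt (fun t : ℝ => Real.sin (t * x)) (Real.cos (t * x) * x) t := e1.sin
      have e3 : HasDerivAt (fun t : ℝ => Real.cos (t * x)) (-Real.sin (t * x) * x) t := e1.cos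
      have e4 : HasDerivAt (fun t : ℝ => 1 - t) (-1) t := by
        simpa using (hasDerivAt_id t).const_sub 1
      have e5 := ((e4.mul e2).div_const x).sub (e3.div_const (x ^ 2))
      refine HasDerivAt.congr_deriv e5 ?_
      have e6 : x ^ 2 ≠ 0 := pow_ne_zero 2 hx
      have e7 : (-1 * Real.sin (t * x) + (1 - t) * (Real.cos (t * x) * x)) / x -
          -Real.sin (t * x) * x / x ^ 2 = (1 - t) * Real.cos (t * x) := by
        field_simp
        ring
      exact e7
    have h2 := intervalIntegral.integral_eq_sub_of_hasDerivAt h1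
      ((by fun_prop : Continuous fun t : ℝ => (1 - t) * Real.cos (t * x)).intervalIntegrable 0 1)
    unfold fk6
    rw [h2]
    simp only [sub_self, zero_mul, zero_div, one_mul, sub_zero, Real.sin_zero, mul_zero,
      Real.cos_zero, zero_sub]
    have h3 := Real.cos_le_one x
    have h4 : 0 < x ^ 2 := by positivity
    have h5 : -(Real.cos x / x ^ 2) - -(1 / x ^ 2) = (1 - Real.cos x) / x ^ 2 := by
      ring
    rw [h5]
    exact div_nonneg (by linarith) h4.le

lemma fk6_one {x : ℝ} (hx : |x| ≤ 1) : 1 ≤ 4 * fk6 x := by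
  have h1 : ∫ t in (0 : ℝ)..1, (1 - t) * (1 / 2) ≤ fk6 x := by
    unfold fk6
    refine intervalIntegral.integral_mono_on (by norm_num)
      ((by fun_prop : Continuous fun t : ℝ => (1 - t) * (1 / 2)).intervalIntegrable 0 1)
      ((by fun_prop : Continuous fun t : ℝ => (1 - t) * Real.cos (t * x)).intervalIntegrable 0 1)
      fun t ht => ?_
    refine mul_le_mul_of_nonneg_left ?_ (by linarith [ht.2])
    have h2 := Real.one_sub_sq_div_two_le_cos (x := t * x)
    have h3 : (t * x) ^ 2 ≤ 1 := by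
      rw [← sq_abs, abs_mul, abs_of_nonneg ht.1]
      have h4 : t * |x| ≤ 1 := mul_le_one₀ ht.2 (abs_nonneg _) hx
      have h5 : 0 ≤ t * |x| := mul_nonneg ht.1 (abs_nonneg _)
      nlinarith
    linarith
  have h2 : ∫ t in (0 : ℝ)..1, (1 - t) * (1 / 2) = 1 / 4 := by
    rw [intervalIntegral.integral_mul_const,
      intervalIntegral.integral_sub (by simp) (by simp)]
    simp
    norm_num
  linarith

variable {Ω : Type} [MeasurableSpace Ω] (P : Measure Ω) [IsProbabilityMeasure P]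

/-- The sum of the differences. -/
noncomputable def sd6 {k : ℕ} (g : Fin k → Ω → ℝ) (z : Fin k → Ω × Ω) : ℝ :=
  ∑ i, (g i (z i).1 - g i (z i).2)

lemma df_meas6 {g : Ω → ℝ} (hg : Measurable g) : Measurable fun z : Ω × Ω => g z.1 - g z.2 :=
  (hg.comp measurable_fst).sub (hg.comp measurable_snd)

omit [MeasurableSpace Ω] in
lemma df_bd6 {g : Ω → ℝ} {B : ℝ} (hb : ∀ x, |g x| ≤ B) (z : Ω × Ω) : |g z.1 - g z.2| ≤ 2 * B := by
  have h1 := abs_le.1 (hb z.1)
  have h2 := abs_le.1 (hb z.2)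
  exact abs_le.2 ⟨by linarith [h1.1, h2.2], by linarith [h1.2, h2.1]⟩

lemma sin_df6 {g : Ω → ℝ} (t : ℝ) :
    ∫ z : Ω × Ω, Real.sin (t * (g z.1 - g z.2)) ∂(P.prod P) = 0 := by
  have h1 := integral_prod_swap (μ := P) (ν := P)
    (fun z : Ω × Ω => Real.sin (t * (g z.1 - g z.2)))
  have h2 : ∀ z : Ω × Ω, Real.sin (t * (g z.swap.1 - g z.swap.2)) =
      -Real.sin (t * (g z.1 - g z.2)) := by
    intro z
    rw [← Real.sin_neg]
    congr 1
    simp
    ring
  rw [integral_congr_ae (Eventually.of_forall h2), integral_neg] at h1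
  linarith

lemma var_df6 {g : Ω → ℝ} (hg : Measurable g) {B : ℝ} (hb : ∀ x, |g x| ≤ B) :
    ∫ z : Ω × Ω, (g z.1 - g z.2) ^ 2 ∂(P.prod P) = 2 * ∫ x, (g x - ∫ y, g y ∂P) ^ 2 ∂P := by
  have hi : Integrable g P := bint6 P hg hb
  set m : ℝ := ∫ y, g y ∂P with hm
  have hc : Measurable fun x => g x - m := hg.sub_const _
  have hcb : ∀ x, |g x - m| ≤ B + |m| := fun x => (abs_sub _ _).trans (by linarith [hb x])
  have hi1 : Integrable (fun x => g x - m) P := bint6 P hc hcb
  have hi2 : Integrable (fun x => (g x - m) ^ 2) P :=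
    bint6 P (hc.pow_const 2) (C := (B + |m|) ^ 2) fun x => by
      rw [abs_pow]
      exact pow_le_pow_left₀ (abs_nonneg _) (hcb x) 2
  have h0 : ∫ x, (g x - m) ∂P = 0 := by
    rw [integral_sub hi (integrable_const _)]
    simp [hm]
  have e1 : ∀ z : Ω × Ω, (g z.1 - g z.2) ^ 2 =
      ((g z.1 - m) ^ 2 + (g z.2 - m) ^ 2) - 2 * ((g z.1 - m) * (g z.2 - m)) := fun z => by ring
  have j1 : Integrable (fun z : Ω × Ω => (g z.1 - m) ^ 2) (P.prod P) := hi2.comp_fst P
  have j2 : Integrable (fun z : Ω × Ω => (g z.2 - m) ^ 2) (P.prod P) := hi2.comp_snd P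
  have j3 : Integrable (fun z : Ω × Ω => (g z.1 - m) * (g z.2 - m)) (P.prod P) :=
    hi1.mul_prod hi1
  have j4 : Integrable (fun z : Ω × Ω => (g z.1 - m) ^ 2 + (g z.2 - m) ^ 2) (P.prod P) :=
    j1.add j2
  rw [integral_congr_ae (Eventually.of_forall e1), integral_sub j4 (j3.const_mul _),
    integral_add j1 j2, integral_const_mul,
    integral_prod_mul (μ := P) (ν := P) (fun x => g x - m) (fun x => g x - m), h0,
    integral_prod _ j1, integral_prod _ j2]
  simp
  ring

/-- The characteristic function of a symmetric bounded difference. -/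
lemma cos_df6 {g : Ω → ℝ} (hg : Measurable g) {B : ℝ} (hb : ∀ x, |g x| ≤ B) {t : ℝ}
    (ht : |t| * (2 * B) ≤ 1) :
    0 ≤ ∫ z : Ω × Ω, Real.cos (t * (g z.1 - g z.2)) ∂(P.prod P) ∧
    ∫ z : Ω × Ω, Real.cos (t * (g z.1 - g z.2)) ∂(P.prod P) ≤
      Real.exp (-(4 / Real.pi ^ 2 * t ^ 2 * ∫ x, (g x - ∫ y, g y ∂P) ^ 2 ∂P)) := by
  have hpi : 1 ≤ Real.pi := by linarith [Real.pi_gt_three]
  have hy : ∀ z : Ω × Ω, |t * (g z.1 - g z.2)| ≤ 1 := fun z => by
    rw [abs_mul]
    exact (mul_le_mul_of_nonneg_left (df_bd6 hb z) (abs_nonneg _)).trans ht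
  have hcm : Measurable fun z : Ω × Ω => Real.cos (t * (g z.1 - g z.2)) :=
    Real.measurable_cos.comp ((df_meas6 hg).const_mul t)
  have hci : Integrable (fun z : Ω × Ω => Real.cos (t * (g z.1 - g z.2))) (P.prod P) :=
    bint6 _ hcm (C := 1) fun z => Real.abs_cos_le_one _
  constructor
  · refine integral_nonneg fun z => ?_
    have h2 := Real.one_sub_sq_div_two_le_cos (x := t * (g z.1 - g z.2))
    have h3 : (t * (g z.1 - g z.2)) ^ 2 ≤ 1 := by
      rw [← sq_abs]
      have := hy z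
      have := abs_nonneg (t * (g z.1 - g z.2))
      nlinarith
    show 0 ≤ Real.cos (t * (g z.1 - g z.2))
    linarith
  · have hqi : Integrable (fun z : Ω × Ω => (g z.1 - g z.2) ^ 2) (P.prod P) :=
      bint6 _ ((df_meas6 hg).pow_const 2) (C := (2 * B) ^ 2) fun z => by
        rw [abs_pow]
        exact pow_le_pow_left₀ (abs_nonneg _) (df_bd6 hb z) 2
    have h1 : ∫ z : Ω × Ω, Real.cos (t * (g z.1 - g z.2)) ∂(P.prod P) ≤
        ∫ z : Ω × Ω, (1 - 2 / Real.pi ^ 2 * t ^ 2 * (g z.1 - g z.2) ^ 2) ∂(P.prod P) := by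
      refine integral_mono hci ((integrable_const _).sub (hqi.const_mul _)) fun z => ?_
      have h2 := Real.cos_le_one_sub_mul_cos_sq ((hy z).trans hpi)
      rw [mul_pow, ← mul_assoc] at h2
      exact h2
    have h2 : ∫ z : Ω × Ω, (1 - 2 / Real.pi ^ 2 * t ^ 2 * (g z.1 - g z.2) ^ 2) ∂(P.prod P) =
        1 - 4 / Real.pi ^ 2 * t ^ 2 * ∫ x, (g x - ∫ y, g y ∂P) ^ 2 ∂P := by
      rw [integral_sub (integrable_const _) (hqi.const_mul _), integral_const_mul,
        var_df6 P hg hb]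
      simp
      ring
    rw [h2] at h1
    refine h1.trans ?_
    have h3 := Real.add_one_le_exp
      (-(4 / Real.pi ^ 2 * t ^ 2 * ∫ x, (g x - ∫ y, g y ∂P) ^ 2 ∂P))
    linarith

lemma sd_meas6 {k : ℕ} {g : Fin k → Ω → ℝ} (hg : ∀ i, Measurable (g i)) :
    Measurable fun z : Fin k → Ω × Ω => sd6 g z :=
  sum6_meas (Ω := Ω × Ω) (g := fun i z => g i z.1 - g i z.2) fun i => df_meas6 (hg i)

/-- The characteristic function of the sum. -/
lemma chf6 {B t : ℝ} (ht : |t| * (2 * B) ≤ 1) : ∀ {k : ℕ} {g : Fin k → Ω → ℝ}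
    (_ : ∀ i, Measurable (g i)) (_ : ∀ i x, |g i x| ≤ B),
    0 ≤ ∫ z, Real.cos (t * sd6 g z) ∂(Measure.pi fun _ : Fin k => P.prod P) ∧
    ∫ z, Real.cos (t * sd6 g z) ∂(Measure.pi fun _ : Fin k => P.prod P) ≤
      Real.exp (-(4 / Real.pi ^ 2 * t ^ 2 * ∑ i, ∫ x, (g i x - ∫ y, g i y ∂P) ^ 2 ∂P)) := by
  intro k
  induction k with
  | zero =>
    intro g _ _
    simp [sd6]
  | succ k ih =>
    intro g hg hb
    obtain ⟨i1, i2⟩ := ih (g := fun i => g i.succ) (fun i => hg _) (fun i => hb _)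
    obtain ⟨c1, c2⟩ := cos_df6 P (hg 0) (hb 0) ht
    set ν : Measure (Fin k → Ω × Ω) := Measure.pi fun _ : Fin k => P.prod P with hν
    have hS : Measurable fun y : Fin k → Ω × Ω => sd6 (fun i => g i.succ) y :=
      sd_meas6 fun i => hg _
    have hcons : ∀ (x : Ω × Ω) (y : Fin k → Ω × Ω),
        sd6 g (Fin.cons x y : Fin (k + 1) → Ω × Ω) =
          (g 0 x.1 - g 0 x.2) + sd6 (fun i => g i.succ) y := by
      intro x y
      unfold sd6
      rw [Fin.sum_univ_succ]
      simp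
    have hc : Integrable (fun y : Fin k → Ω × Ω =>
        Real.cos (t * sd6 (fun i => g i.succ) y)) ν :=
      bint6 ν (Real.measurable_cos.comp (hS.const_mul t)) (C := 1) fun y =>
        Real.abs_cos_le_one _
    have hs : Integrable (fun y : Fin k → Ω × Ω =>
        Real.sin (t * sd6 (fun i => g i.succ) y)) ν :=
      bint6 ν (Real.measurable_sin.comp (hS.const_mul t)) (C := 1) fun y =>
        Real.abs_sin_le_one _
    have hc0 : Integrable (fun x : Ω × Ω => Real.cos (t * (g 0 x.1 - g 0 x.2))) (P.prod P) :=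
      bint6 _ (Real.measurable_cos.comp ((df_meas6 (hg 0)).const_mul t)) (C := 1) fun y =>
        Real.abs_cos_le_one _
    have hs0 : Integrable (fun x : Ω × Ω => Real.sin (t * (g 0 x.1 - g 0 x.2))) (P.prod P) :=
      bint6 _ (Real.measurable_sin.comp ((df_meas6 (hg 0)).const_mul t)) (C := 1) fun y =>
        Real.abs_sin_le_one _
    have e1 : ∫ z, Real.cos (t * sd6 g z) ∂(Measure.pi fun _ : Fin (k + 1) => P.prod P) =
        (∫ x : Ω × Ω, Real.cos (t * (g 0 x.1 - g 0 x.2)) ∂(P.prod P)) *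
          ∫ y, Real.cos (t * sd6 (fun i => g i.succ) y) ∂ν := by
      have e0 := pis6 (P.prod P) (f := fun z => Real.cos (t * sd6 g z))
        (Real.measurable_cos.comp ((sd_meas6 hg).const_mul t)) (C := 1)
        fun y => Real.abs_cos_le_one _
      rw [e0]
      have e2 : ∀ x : Ω × Ω, ∫ y, Real.cos (t * sd6 g (Fin.cons x y : Fin (k + 1) → Ω × Ω)) ∂ν =
          Real.cos (t * (g 0 x.1 - g 0 x.2)) *
            (∫ y, Real.cos (t * sd6 (fun i => g i.succ) y) ∂ν) -
          Real.sin (t * (g 0 x.1 - g 0 x.2)) *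
            (∫ y, Real.sin (t * sd6 (fun i => g i.succ) y) ∂ν) := by
        intro x
        rw [← integral_const_mul, ← integral_const_mul,
          ← integral_sub (hc.const_mul _) (hs.const_mul _)]
        refine integral_congr_ae (Eventually.of_forall fun y => ?_)
        show Real.cos (t * sd6 g (Fin.cons x y : Fin (k + 1) → Ω × Ω)) = _
        rw [hcons, mul_add, Real.cos_add]
      rw [integral_congr_ae (Eventually.of_forall e2),
        integral_sub (hc0.mul_const _) (hs0.mul_const _), integral_mul_const,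
        integral_mul_const, sin_df6 P t]
      ring
    rw [e1]
    refine ⟨mul_nonneg c1 i1, ?_⟩
    rw [Fin.sum_univ_succ, mul_add, neg_add, Real.exp_add]
    exact mul_le_mul c2 i2 i1 (Real.exp_pos _).le

/-- The small ball bound for the sum. -/
lemma fejz6 {k : ℕ} {g : Fin k → Ω → ℝ} {B M : ℝ} (hg : ∀ i, Measurable (g i))
    (hb : ∀ i x, |g i x| ≤ B) (hM : 2 * B ≤ M) (hM0 : 0 < M) :
    (Measure.pi fun _ : Fin k => P.prod P).real {z | |sd6 g z| ≤ M} *
      Real.sqrt (∑ i, ∫ x, (g i x - ∫ y, g i y ∂P) ^ 2 ∂P) ≤ 12 * M := by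
  set ν : Measure (Fin k → Ω × Ω) := Measure.pi fun _ : Fin k => P.prod P with hν
  set V : ℝ := ∑ i, ∫ x, (g i x - ∫ y, g i y ∂P) ^ 2 ∂P with hV
  have hV0 : 0 ≤ V := Finset.sum_nonneg fun i _ => integral_nonneg fun x => sq_nonneg _
  rcases hV0.eq_or_lt with hV1 | hV1
  · rw [← hV1, Real.sqrt_zero, mul_zero]
    positivity
  have hS := sd_meas6 hg
  have hf : Measurable fun w : (Fin k → Ω × Ω) × ℝ => (1 - w.2) * Real.cos (w.2 * (sd6 g w.1 / M)) :=
    (measurable_const.sub measurable_snd).mul (Real.measurable_cos.comp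
      (measurable_snd.mul ((hS.comp measurable_fst).div_const M)))
  obtain ⟨lm, hlm⟩ : ∃ lm : Measure ℝ, lm = volume.restrict (Set.Ioc (0 : ℝ) 1) := ⟨_, rfl⟩
  haveI : IsFiniteMeasure lm := by
    rw [hlm]
    infer_instance
  have hae : ∀ᵐ t ∂lm, t ∈ Set.Ioc (0 : ℝ) 1 := by
    rw [hlm]
    exact ae_restrict_mem measurableSet_Ioc
  have hfi : Integrable (fun w : (Fin k → Ω × Ω) × ℝ =>
      (1 - w.2) * Real.cos (w.2 * (sd6 g w.1 / M))) (ν.prod lm) := by
    refine Integrable.of_bound hf.aestronglyMeasurable 1 ?_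
    have h1 : ∀ᵐ w ∂(ν.prod lm), w.2 ∈ Set.Ioc (0 : ℝ) 1 :=
      Measure.quasiMeasurePreserving_snd.ae hae
    filter_upwards [h1] with w hw
    rw [Real.norm_eq_abs, abs_mul, abs_of_nonneg (by linarith [hw.2])]
    exact mul_le_one₀ (by linarith [hw.1]) (abs_nonneg _) (Real.abs_cos_le_one _)
  have hA : MeasurableSet {z | |sd6 g z| ≤ M} := measurableSet_le hS.abs measurable_const
  have hfk : ∀ z, fk6 (sd6 g z / M) = ∫ t, (1 - t) * Real.cos (t * (sd6 g z / M)) ∂lm := by
    intro z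
    unfold fk6
    rw [intervalIntegral.integral_of_le (by norm_num), hlm]
  have h1 : ν.real {z | |sd6 g z| ≤ M} ≤ ∫ z, 4 * fk6 (sd6 g z / M) ∂ν := by
    rw [← integral_indicator_one hA]
    have hi2 : Integrable (fun z => 4 * fk6 (sd6 g z / M)) ν := by
      have h3 : Integrable (fun z => ∫ t, (1 - t) * Real.cos (t * (sd6 g z / M)) ∂lm) ν :=
        hfi.integral_prod_left
      simp only [hfk]
      exact h3.const_mul 4
    refine integral_mono ((integrable_const (1 : ℝ)).indicator hA) hi2 fun z => ?_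
    by_cases hz : z ∈ {z | |sd6 g z| ≤ M}
    · rw [Set.indicator_of_mem hz]
      refine fk6_one ?_
      rw [abs_div, abs_of_pos hM0]
      exact (div_le_one hM0).2 hz
    · rw [Set.indicator_of_notMem hz]
      exact mul_nonneg (by norm_num) (fk6_nn _)
  have h2 : ∫ z, 4 * fk6 (sd6 g z / M) ∂ν =
      4 * ∫ t, ∫ z, (1 - t) * Real.cos (t * (sd6 g z / M)) ∂ν ∂lm := by
    rw [integral_const_mul]
    congr 1
    simp only [hfk]
    exact integral_integral_swap hfi
  set κ : ℝ := 4 / Real.pi ^ 2 * V / M ^ 2 with hκ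
  have hpi := Real.pi_pos
  have hκ0 : 0 < κ := by positivity
  have h3 : ∀ t ∈ Set.Ioc (0 : ℝ) 1, ∫ z, (1 - t) * Real.cos (t * (sd6 g z / M)) ∂ν ≤
      Real.exp (-κ * t ^ 2) := by
    intro t ht
    rw [integral_const_mul]
    have e1 : ∀ z : Fin k → Ω × Ω, Real.cos (t * (sd6 g z / M)) =
        Real.cos (t / M * sd6 g z) := by
      intro z
      congr 1
      ring
    rw [integral_congr_ae (Eventually.of_forall e1)]
    have hB0 : 2 * B ≤ M := hM
    have ht1 : |t / M| * (2 * B) ≤ 1 := by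
      rw [abs_of_nonneg (div_nonneg ht.1.le hM0.le), div_mul_eq_mul_div, div_le_one hM0]
      rcases le_total 0 B with hB | hB
      · nlinarith [ht.2]
      · nlinarith [ht.1]
    obtain ⟨i1, i2⟩ := chf6 P ht1 hg hb
    have e2 : -(4 / Real.pi ^ 2 * (t / M) ^ 2 * V) = -κ * t ^ 2 := by
      rw [hκ]
      field_simp
    rw [← hV, e2] at i2
    calc (1 - t) * ∫ z, Real.cos (t / M * sd6 g z) ∂ν
        ≤ 1 * ∫ z, Real.cos (t / M * sd6 g z) ∂ν :=
          mul_le_mul_of_nonneg_right (by linarith [ht.1]) i1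
      _ = ∫ z, Real.cos (t / M * sd6 g z) ∂ν := one_mul _
      _ ≤ _ := i2
  have h4 : ∫ t, ∫ z, (1 - t) * Real.cos (t * (sd6 g z / M)) ∂ν ∂lm ≤
      Real.sqrt (Real.pi / κ) / 2 := by
    rw [← integral_gaussian_Ioi]
    have h5 : ∫ t, ∫ z, (1 - t) * Real.cos (t * (sd6 g z / M)) ∂ν ∂lm ≤
        ∫ t, Real.exp (-κ * t ^ 2) ∂lm := by
      refine integral_mono_ae hfi.integral_prod_right ?_ ?_
      · rw [hlm]
        exact ((integrable_exp_neg_mul_sq hκ0).integrableOn)
      · filter_upwards [hae] with t ht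
        exact h3 t ht
    refine h5.trans ?_
    rw [hlm]
    refine setIntegral_mono_set (integrable_exp_neg_mul_sq hκ0).integrableOn
      (Eventually.of_forall fun t => (Real.exp_pos _).le) ?_
    exact (Set.Ioc_subset_Ioi_self).eventuallyLE
  have h5 : Real.sqrt (Real.pi / κ) = Real.sqrt Real.pi * (Real.pi * M) / (2 * Real.sqrt V) := by
    have e1 : Real.pi / κ = Real.pi * (Real.pi * M) ^ 2 / (4 * V) := by
      rw [hκ]
      field_simp
    rw [e1, Real.sqrt_div (by positivity), Real.sqrt_mul (by positivity),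
      Real.sqrt_sq (by positivity), Real.sqrt_mul (by norm_num),
      show (4 : ℝ) = 2 ^ 2 by norm_num, Real.sqrt_sq (by norm_num)]
  have hsV : 0 < Real.sqrt V := Real.sqrt_pos.2 hV1
  have h6 : ν.real {z | |sd6 g z| ≤ M} ≤ Real.sqrt Real.pi * (Real.pi * M) / Real.sqrt V := by
    rw [h2] at h1
    rw [h5] at h4
    have : 4 * (Real.sqrt Real.pi * (Real.pi * M) / (2 * Real.sqrt V) / 2) =
        Real.sqrt Real.pi * (Real.pi * M) / Real.sqrt V := by
      field_simp
      ring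
    linarith
  have h7 : Real.sqrt Real.pi ≤ 2 := by
    rw [show (2 : ℝ) = Real.sqrt (2 ^ 2) by rw [Real.sqrt_sq (by norm_num)]]
    exact Real.sqrt_le_sqrt (by linarith [Real.pi_le_four])
  calc ν.real {z | |sd6 g z| ≤ M} * Real.sqrt V ≤
        Real.sqrt Real.pi * (Real.pi * M) / Real.sqrt V * Real.sqrt V :=
          mul_le_mul_of_nonneg_right h6 hsV.le
    _ = Real.sqrt Real.pi * (Real.pi * M) := by field_simp
    _ ≤ 2 * (4 * M) := by
          refine mul_le_mul h7 ?_ (by positivity) (by norm_num)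
          exact mul_le_mul_of_nonneg_right Real.pi_le_four hM0.le
    _ ≤ 12 * M := by linarith

/-- **The small ball bound for the difference of two independent copies.** -/
theorem fej6 {k : ℕ} {g : Fin k → Ω → ℝ} {B M : ℝ} (hg : ∀ i, Measurable (g i))
    (hb : ∀ i x, |g i x| ≤ B) (hM : 2 * B ≤ M) (hM0 : 0 < M) :
    ((Measure.pi fun _ : Fin k => P).prod (Measure.pi fun _ : Fin k => P)).real
      {w | |∑ i, g i (w.1 i) - ∑ i, g i (w.2 i)| ≤ M} *
      Real.sqrt (∑ i, ∫ x, (g i x - ∫ y, g i y ∂P) ^ 2 ∂P) ≤ 12 * M := by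
  have h1 := fejz6 P hg hb hM hM0
  have h2 := measurePreserving_arrowProdEquivProdArrow Ω Ω (Fin k) (fun _ => P) (fun _ => P)
  have h3 : (Measure.pi fun _ : Fin k => P.prod P).real {z | |sd6 g z| ≤ M} =
      ((Measure.pi fun _ : Fin k => P).prod (Measure.pi fun _ : Fin k => P)).real
      {w | |∑ i, g i (w.1 i) - ∑ i, g i (w.2 i)| ≤ M} := by
    have hA : MeasurableSet {w : (Fin k → Ω) × (Fin k → Ω) |
        |∑ i, g i (w.1 i) - ∑ i, g i (w.2 i)| ≤ M} :=
      measurableSet_le (((sum6_meas hg).comp measurable_fst).sub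
        ((sum6_meas hg).comp measurable_snd)).abs measurable_const
    have h4 := h2.measure_preimage hA.nullMeasurableSet
    unfold Measure.real
    rw [← h4]
    congr 2
    ext z
    simp [sd6, MeasurableEquiv.arrowProdEquivProdArrow, Equiv.arrowProdEquivProdArrow,
      Finset.sum_sub_distrib]
  rw [← h3]
  exact h1

end Fej

end Pool.Agent.W_7d29a1_SDP
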