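import Pool.Agent.W_7d29a1_SDP.DefsP51
import Pool.Agent.W_7d29a1_SDP.Fej6
import Pool.Agent.W_7d29a1_NV.Two6

/-!
Anticoncentration of the total weight of a selection model whose selection is small.
-/

set_option autoImplicit false

namespace Pool.Agent.W_7d29a1_SDP

open MeasureTheory Set Filter Topology Pool.Agent.W_7d29a1_NV

section Rat

variable {Ω S : Type} [MeasurableSpace Ω] [Fintype S] {k : ℕ} {P : Measure Ω}
  {Q : S → ℝ} {u : Fin k → S → Ω → ℝ} {B : ℝ}

lemma rat6 (h : HT P Q u B) (ω ω' : Fin k → Ω) {M : ℝ}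
    (hA : |Real.log (dT Q u ω) - Real.log (dT Q u ω')| ≤ M) (s : S) :
    prT Q u ω s ≤ 2 * |prT Q u ω s - prT Q u ω' s| +
      prT Q u ω s * (if |gs6 u ω s - gs6 u ω' s| ≤ M + Real.log 2 then (1 : ℝ) else 0) := by
  have hp0 := prT_nn6 h ω s
  have hpJ := prT_nn6 h ω' s
  have hnn : 0 ≤ prT Q u ω s * (if |gs6 u ω s - gs6 u ω' s| ≤ M + Real.log 2
      then (1 : ℝ) else 0) := by
    split_ifs
    · linarith
    · simp
  by_cases hs : Q s = 0
  · rw [prT_z6 h _ hs, prT_z6 h _ hs]
    simp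
  have hp0' : 0 < prT Q u ω s := lt_of_le_of_ne hp0 fun h1 => hs (prT_z6' h _ h1.symm)
  have hpJ' : 0 < prT Q u ω' s := lt_of_le_of_ne hpJ fun h1 => hs (prT_z6' h _ h1.symm)
  by_cases h1 : prT Q u ω' s < prT Q u ω s / 2
  · have h2 := le_abs_self (prT Q u ω s - prT Q u ω' s)
    linarith
  by_cases h4 : 2 * prT Q u ω s < prT Q u ω' s
  · have h2 := neg_abs_le (prT Q u ω s - prT Q u ω' s)
    linarith
  push Not at h1 h4
  have h5 := prT_log6 h ω' ω hs
  have h6 : |Real.log (prT Q u ω' s / prT Q u ω s)| ≤ Real.log 2 := by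
    rw [abs_le]
    constructor
    · rw [← Real.log_inv]
      refine Real.log_le_log (by norm_num) ?_
      rw [le_div_iff₀ hp0']
      linarith
    · refine Real.log_le_log (by positivity) ?_
      rw [div_le_iff₀ hp0']
      exact h4
  have h7 : |gs6 u ω s - gs6 u ω' s| ≤ M + Real.log 2 := by
    have h8 : gs6 u ω s - gs6 u ω' s = (Real.log (dT Q u ω) - Real.log (dT Q u ω')) -
        Real.log (prT Q u ω' s / prT Q u ω s) := by
      rw [h5]
      ring
    rw [h8]
    exact (abs_sub _ _).trans (add_le_add hA h6)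
  rw [if_pos h7]
  have := abs_nonneg (prT Q u ω s - prT Q u ω' s)
  linarith

/-- The pointwise inequality. -/
lemma pt6 (h : HT P Q u B) {V g : S → ℝ} {L M : ℝ} (hV0 : ∀ s, 0 ≤ V s) (hVL : ∀ s, V s ≤ L)
    (ω ω' : Fin k → Ω) (hA : |Real.log (dT Q u ω) - Real.log (dT Q u ω')| ≤ M) :
    ∑ s, g s * V s ≤ (∑ s, g s * V s *
        (if |gs6 u ω s - gs6 u ω' s| ≤ M + Real.log 2 then (1 : ℝ) else 0)) +
      2 * L * ((∑ s, |prT Q u ω s - prT Q u ω' s|) + ∑ s, |g s - prT Q u ω s|) := by
  have h1 : ∀ s, g s * V s ≤ g s * V s *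
        (if |gs6 u ω s - gs6 u ω' s| ≤ M + Real.log 2 then (1 : ℝ) else 0) +
      2 * L * (|prT Q u ω s - prT Q u ω' s| + |g s - prT Q u ω s|) := by
    intro s
    have h2 := rat6 h ω ω' hA s
    have h3 := hV0 s
    have h4 := hVL s
    have h5 := abs_nonneg (prT Q u ω s - prT Q u ω' s)
    have h6 := abs_nonneg (g s - prT Q u ω s)
    have h7 := le_abs_self (g s - prT Q u ω s)
    have h8 := neg_abs_le (g s - prT Q u ω s)
    set D1 := |prT Q u ω s - prT Q u ω' s|
    set D2 := |g s - prT Q u ω s|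
    have hL : 0 ≤ L := h3.trans h4
    by_cases hc : |gs6 u ω s - gs6 u ω' s| ≤ M + Real.log 2
    · rw [if_pos hc, mul_one]
      have : 0 ≤ 2 * L * (D1 + D2) := by positivity
      linarith
    · rw [if_neg hc] at h2 ⊢
      have h9 : g s * V s ≤ (2 * D1 + D2) * V s := mul_le_mul_of_nonneg_right (by linarith) h3
      have h10 : (2 * D1 + D2) * V s ≤ (2 * D1 + D2) * L :=
        mul_le_mul_of_nonneg_left h4 (by linarith)
      nlinarith [mul_nonneg hL h6]
  refine (Finset.sum_le_sum fun s _ => h1 s).trans (le_of_eq ?_)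
  rw [Finset.sum_add_distrib, ← Finset.mul_sum, Finset.sum_add_distrib]

end Rat

open Classical in
/-- **Leaf A.** -/
theorem absAC6 : AbsAC := by
  intro B hB1
  refine ⟨240 * B ^ 2, by positivity, ?_⟩
  intro Ω S _ _ k P _ Q u h M c hM hc hk
  have hB : 0 < B := by linarith
  have hk1 : (1 : ℝ) ≤ k := by exact_mod_cast hk
  set μ : Measure (Fin k → Ω) := Measure.pi fun _ : Fin k => P with hμ
  set K : ℝ := ∑ i, kaT P Q u i with hK
  set g : S → ℝ := fun s => ∫ ω, prT Q u ω s ∂μ with hg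
  set V : S → ℝ := fun s => ∑ i, vaT P u i s with hV
  set E : Set ((Fin k → Ω) × (Fin k → Ω)) :=
    {w | |Real.log (dT Q u w.1) - Real.log (dT Q u w.2)| ≤ M} with hE
  set A : Set (Fin k → Ω) := {ω | ∑ i, ∑ s, prT Q u ω s * vaT P u i s < c * k} with hA
  have hpi : ∀ s, Integrable (fun ω => prT Q u ω s) μ := fun s =>
    bint6 μ (prT_meas6 h s) (C := 1) fun ω => by
      rw [abs_of_nonneg (prT_nn6 h ω s)]
      exact prT_le6 h ω s
  have hg0 : ∀ s, 0 ≤ g s := fun s => integral_nonneg fun ω => prT_nn6 h ω s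
  have hg1 : ∑ s, g s = 1 := by
    rw [hg]
    show ∑ s, ∫ ω, prT Q u ω s ∂μ = 1
    rw [← integral_finsetSum _ fun s _ => hpi s,
      integral_congr_ae (Filter.Eventually.of_forall fun ω => prT_sum6 h ω)]
    simp
  have hva0 : ∀ i s, 0 ≤ vaT P u i s := fun i s => integral_nonneg fun x => sq_nonneg _
  have hV0 : ∀ s, 0 ≤ V s := fun s => Finset.sum_nonneg fun i _ => hva0 i s
  have hVL : ∀ s, V s ≤ k * B ^ 2 := fun s => by
    refine (Finset.sum_le_sum fun i _ => va_le6 h i s).trans ?_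
    simp
  have hP1 : (μ.prod μ).real E ≤ 1 := measureReal_le_one
  have hP0 : 0 ≤ (μ.prod μ).real E := measureReal_nonneg
  have hA0 : 0 ≤ μ.real A := measureReal_nonneg
  have hK0 : 0 ≤ K := by
    rw [hK, ← sel_all6 h hB.le]
    exact integral_nonneg fun ω => integral_nonneg fun ω' => kl_nonneg77 (pp6 h ω ω')
  have hsK := Real.sqrt_nonneg K
  have hck : 0 < c * k := by positivity
  have hsck : 0 < Real.sqrt (c * k) := Real.sqrt_pos.2 hck
  have hR1 : 0 ≤ M / Real.sqrt (c * k) := by positivity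
  have hR2 : 0 ≤ (k : ℝ) ^ 2 * Real.sqrt K := by positivity
  have hB2 : 1 ≤ B ^ 2 := by nlinarith
  -- small `c k`
  by_cases hck1 : c * k < 1
  · have h1 : 1 ≤ M / Real.sqrt (c * k) := by
      rw [le_div_iff₀ hsck, one_mul]
      have : Real.sqrt (c * k) ≤ 1 := by
        rw [Real.sqrt_le_one]
        exact hck1.le
      linarith
    nlinarith
  push Not at hck1
  -- the mean variance
  set W : ℝ := ∑ s, g s * V s with hW
  have hW0 : 0 ≤ W := Finset.sum_nonneg fun s _ => mul_nonneg (hg0 s) (hV0 s)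
  have hWi : ∫ ω, ∑ i, ∑ s, prT Q u ω s * vaT P u i s ∂μ = W := by
    have e1 : ∀ ω, ∑ i, ∑ s, prT Q u ω s * vaT P u i s = ∑ s, prT Q u ω s * V s := by
      intro ω
      rw [Finset.sum_comm]
      exact Finset.sum_congr rfl fun s _ => (Finset.mul_sum _ _ _).symm
    rw [integral_congr_ae (Eventually.of_forall e1),
      integral_finsetSum _ fun s _ => (hpi s).mul_const _]
    exact Finset.sum_congr rfl fun s _ => integral_mul_const _ _
  by_cases hWc : W < c * k / 2
  · -- Markov
    have hmi : Integrable (fun ω => ∑ i, ∑ s, prT Q u ω s * vaT P u i s) μ :=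
      integrable_finsetSum _ fun i _ => integrable_finsetSum _ fun s _ => (hpi s).mul_const _
    have h1 := mul_meas_ge_le_integral_of_nonneg (μ := μ)
      (f := fun ω => ∑ i, ∑ s, prT Q u ω s * vaT P u i s)
      (Eventually.of_forall fun ω => Finset.sum_nonneg fun i _ => Finset.sum_nonneg fun s _ =>
        mul_nonneg (prT_nn6 h ω s) (hva0 i s)) hmi (c * k)
    rw [hWi] at h1
    have hAm : MeasurableSet A := measurableSet_lt (Finset.measurable_sum _ fun i _ =>
      Finset.measurable_sum _ fun s _ => (prT_meas6 h s).mul_const _) measurable_const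
    have h2 : {ω | c * k ≤ ∑ i, ∑ s, prT Q u ω s * vaT P u i s} = Aᶜ := by
      ext ω
      simp [hA]
    rw [h2, probReal_compl_eq_one_sub hAm] at h1
    have h3 : 1 - μ.real A < 1 / 2 := by
      by_contra h4
      push Not at h4
      nlinarith
    have h4 : 0 ≤ 240 * B ^ 2 * (M / Real.sqrt (c * k) + (k : ℝ) ^ 2 * Real.sqrt K) := by
      positivity
    linarith
  push Not at hWc
  have hWp : 0 < W := lt_of_lt_of_le (by positivity) hWc
  -- total variation
  have iD : ∀ s, Integrable (fun p : (Fin k → Ω) × (Fin k → Ω) =>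
      |prT Q u p.1 s - prT Q u p.2 s|) (μ.prod μ) := fun s =>
    bint6 _ ((((prT_meas6 h s).comp measurable_fst).sub
      ((prT_meas6 h s).comp measurable_snd)).abs) (C := 1) fun p => by
      rw [abs_abs]
      have h1 := prT_le6 h p.1 s
      have h2 := prT_nn6 h p.1 s
      have h3 := prT_le6 h p.2 s
      have h4 := prT_nn6 h p.2 s
      exact abs_le.2 ⟨by linarith, by linarith⟩
  have iR : Integrable (fun p : (Fin k → Ω) × (Fin k → Ω) =>
      Real.sqrt (kl Finset.univ (prT Q u p.1) (prT Q u p.2))) (μ.prod μ) :=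
    bint6 _ (Real.continuous_sqrt.measurable.comp (kl_meas6 h)) (C := Real.sqrt (4 * (k * B)))
      fun p => by
        rw [abs_of_nonneg (Real.sqrt_nonneg _)]
        exact Real.sqrt_le_sqrt ((le_abs_self _).trans (kl_bd6 h p.1 p.2))
  have hsq : ∫ p : (Fin k → Ω) × (Fin k → Ω),
      Real.sqrt (kl Finset.univ (prT Q u p.1) (prT Q u p.2)) ∂(μ.prod μ) ≤ Real.sqrt K := by
    have iK : Integrable (fun p : (Fin k → Ω) × (Fin k → Ω) =>
        kl Finset.univ (prT Q u p.1) (prT Q u p.2)) (μ.prod μ) :=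
      bint6 _ (kl_meas6 h) fun p => kl_bd6 h p.1 p.2
    have hKK : ∫ p : (Fin k → Ω) × (Fin k → Ω), kl Finset.univ (prT Q u p.1) (prT Q u p.2)
        ∂(μ.prod μ) = K := by
      rw [integral_prod _ iK]
      exact sel_all6 h hB.le
    rw [← hKK]
    exact sqrt6 (μ.prod μ) (kl_meas6 h) (fun p => kl_nonneg77 (pp6 h p.1 p.2))
      fun p => (le_abs_self _).trans (kl_bd6 h p.1 p.2)
  have hT1 : ∫ p : (Fin k → Ω) × (Fin k → Ω), ∑ s, |prT Q u p.1 s - prT Q u p.2 s|
      ∂(μ.prod μ) ≤ 2 * Real.sqrt K := by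
    have h3 : ∫ p : (Fin k → Ω) × (Fin k → Ω), ∑ s, |prT Q u p.1 s - prT Q u p.2 s|
        ∂(μ.prod μ) ≤ ∫ p : (Fin k → Ω) × (Fin k → Ω),
          2 * Real.sqrt (kl Finset.univ (prT Q u p.1) (prT Q u p.2)) ∂(μ.prod μ) :=
      integral_mono (integrable_finsetSum _ fun s _ => iD s) (iR.const_mul _)
        fun p => tv77 (pp6 h p.1 p.2)
    refine h3.trans ?_
    rw [integral_const_mul]
    linarith
  have mG : ∀ s, Measurable fun ω => |g s - prT Q u ω s| := fun s =>
    (measurable_const.sub (prT_meas6 h s)).abs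
  have iG : ∀ s, Integrable (fun ω => |g s - prT Q u ω s|) μ := fun s =>
    bint6 μ (mG s) (C := 1) fun ω => by
      rw [abs_abs]
      have h1 : g s ≤ 1 := by
        rw [← hg1]
        exact Finset.single_le_sum (fun t _ => hg0 t) (Finset.mem_univ s)
      have h2 := prT_le6 h ω s
      have h3 := prT_nn6 h ω s
      have h4 := hg0 s
      exact abs_le.2 ⟨by linarith, by linarith⟩
  have hT2 : ∫ ω, ∑ s, |g s - prT Q u ω s| ∂μ ≤ 2 * Real.sqrt K := by
    have h1 : ∀ s ω, |g s - prT Q u ω s| ≤ ∫ ω', |prT Q u ω s - prT Q u ω' s| ∂μ := by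
      intro s ω
      have e1 : g s - prT Q u ω s = - ∫ ω', (prT Q u ω s - prT Q u ω' s) ∂μ := by
        rw [integral_sub (integrable_const _) (hpi s)]
        simp [hg]
      rw [e1, abs_neg]
      exact abs_integral_le_integral_abs
    have h2 : ∀ s, ∫ ω, |g s - prT Q u ω s| ∂μ ≤
        ∫ p : (Fin k → Ω) × (Fin k → Ω), |prT Q u p.1 s - prT Q u p.2 s| ∂(μ.prod μ) := by
      intro s
      rw [integral_prod _ (iD s)]
      exact integral_mono (iG s) (iD s).integral_prod_left fun ω => h1 s ω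
    rw [integral_finsetSum _ fun s _ => iG s]
    refine (Finset.sum_le_sum fun s _ => h2 s).trans ?_
    rw [← integral_finsetSum _ fun s _ => iD s]
    exact hT1
  -- one class
  set M1 : ℝ := M + Real.log 2 + 2 * B with hM1
  have hlog : Real.log 2 < 0.7 := by
    have := Real.log_two_lt_d9
    linarith
  have hlog0 : 0 ≤ Real.log 2 := Real.log_nonneg (by norm_num)
  have hM10 : 0 < M1 := by positivity
  have hfe : ∀ s, (μ.prod μ).real {w | |gs6 u w.1 s - gs6 u w.2 s| ≤ M + Real.log 2} *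
      Real.sqrt (V s) ≤ 12 * M1 := by
    intro s
    have h1 := fej6 P (g := fun i x => Real.log (u i s x)) (B := B) (M := M1)
      (fun i => Real.measurable_log.comp (h.um i s)) (fun i x => ht_log6 h i s x)
      (by linarith) hM10
    have h2 : (μ.prod μ).real {w | |gs6 u w.1 s - gs6 u w.2 s| ≤ M + Real.log 2} ≤
        (μ.prod μ).real {w | |gs6 u w.1 s - gs6 u w.2 s| ≤ M1} :=
      measureReal_mono fun w hw => (show _ ≤ M + Real.log 2 from hw).trans (by linarith)
    exact (mul_le_mul_of_nonneg_right h2 (Real.sqrt_nonneg _)).trans h1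
  have hEs : ∀ s, MeasurableSet {w : (Fin k → Ω) × (Fin k → Ω) |
      |gs6 u w.1 s - gs6 u w.2 s| ≤ M + Real.log 2} := fun s =>
    measurableSet_le (((gs6_meas h s).comp measurable_fst).sub
      ((gs6_meas h s).comp measurable_snd)).abs measurable_const
  have hEm : MeasurableSet E := measurableSet_le
    (((Real.measurable_log.comp (dT_meas6 h)).comp measurable_fst).sub
      ((Real.measurable_log.comp (dT_meas6 h)).comp measurable_snd)).abs measurable_const
  have iI : ∀ s, Integrable (fun w : (Fin k → Ω) × (Fin k → Ω) => g s * V s *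
      (if |gs6 u w.1 s - gs6 u w.2 s| ≤ M + Real.log 2 then (1 : ℝ) else 0)) (μ.prod μ) := by
    intro s
    refine Integrable.const_mul ?_ _
    exact (integrable_const (1 : ℝ)).indicator (hEs s)
  have iT : Integrable (fun w : (Fin k → Ω) × (Fin k → Ω) => 2 * (k * B ^ 2) *
      ((∑ s, |prT Q u w.1 s - prT Q u w.2 s|) + ∑ s, |g s - prT Q u w.1 s|)) (μ.prod μ) := by
    refine Integrable.const_mul ?_ _
    exact (integrable_finsetSum _ fun s _ => iD s).add
      ((integrable_finsetSum _ fun s _ => iG s).comp_fst μ)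
  have hmain : W * (μ.prod μ).real E ≤ (∑ s, g s * V s *
      (μ.prod μ).real {w | |gs6 u w.1 s - gs6 u w.2 s| ≤ M + Real.log 2}) +
      2 * (k * B ^ 2) * (4 * Real.sqrt K) := by
    have h1 : ∫ w, E.indicator (fun _ => W) w ∂(μ.prod μ) ≤
        ∫ w : (Fin k → Ω) × (Fin k → Ω), ((∑ s, g s * V s *
          (if |gs6 u w.1 s - gs6 u w.2 s| ≤ M + Real.log 2 then (1 : ℝ) else 0)) +
          2 * (k * B ^ 2) * ((∑ s, |prT Q u w.1 s - prT Q u w.2 s|) +
            ∑ s, |g s - prT Q u w.1 s|)) ∂(μ.prod μ) := by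
      refine integral_mono ((integrable_const W).indicator hEm)
        ((integrable_finsetSum _ fun s _ => iI s).add iT) fun w => ?_
      by_cases hw : w ∈ E
      · rw [Set.indicator_of_mem hw]
        exact pt6 h hV0 hVL w.1 w.2 hw
      · rw [Set.indicator_of_notMem hw]
        refine add_nonneg (Finset.sum_nonneg fun s _ => ?_) (by positivity)
        refine mul_nonneg (mul_nonneg (hg0 s) (hV0 s)) ?_
        split_ifs <;> norm_num
    rw [integral_indicator_const _ hEm,
      integral_add (integrable_finsetSum _ fun s _ => iI s) iT,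
      integral_finsetSum _ fun s _ => iI s, integral_const_mul,
      integral_add (integrable_finsetSum _ fun s _ => iD s)
        ((integrable_finsetSum _ fun s _ => iG s).comp_fst μ)] at h1
    have e1 : ∀ s, ∫ w : (Fin k → Ω) × (Fin k → Ω), g s * V s *
        (if |gs6 u w.1 s - gs6 u w.2 s| ≤ M + Real.log 2 then (1 : ℝ) else 0) ∂(μ.prod μ) =
        g s * V s * (μ.prod μ).real {w | |gs6 u w.1 s - gs6 u w.2 s| ≤ M + Real.log 2} := by
      intro s
      rw [integral_const_mul]
      congr 1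
      rw [← integral_indicator_one (hEs s)]
      rfl
    have e2 : ∫ w : (Fin k → Ω) × (Fin k → Ω), (∑ s, |g s - prT Q u w.1 s|) ∂(μ.prod μ) =
        ∫ ω, ∑ s, |g s - prT Q u ω s| ∂μ := by
      rw [integral_prod _ ((integrable_finsetSum _ fun s _ => iG s).comp_fst μ)]
      simp
    rw [Finset.sum_congr rfl fun s _ => e1 s, e2, smul_eq_mul] at h1
    have h2 : 2 * (k * B ^ 2) * ((∫ p : (Fin k → Ω) × (Fin k → Ω),
        ∑ s, |prT Q u p.1 s - prT Q u p.2 s| ∂(μ.prod μ)) +
        ∫ ω, ∑ s, |g s - prT Q u ω s| ∂μ) ≤ 2 * (k * B ^ 2) * (4 * Real.sqrt K) :=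
      mul_le_mul_of_nonneg_left (by linarith) (by positivity)
    linarith
  -- Jensen
  have hsW : 0 < Real.sqrt W := Real.sqrt_pos.2 hWp
  have hsW2 : Real.sqrt W ^ 2 = W := Real.sq_sqrt hW0
  have hJ : ∑ s, g s * Real.sqrt (V s) ≤ Real.sqrt W := by
    have h1 : ∀ s, g s * Real.sqrt (V s) ≤ g s * V s / (2 * Real.sqrt W) +
        g s * (Real.sqrt W / 2) := by
      intro s
      have h2 : Real.sqrt (V s) ≤ V s / (2 * Real.sqrt W) + Real.sqrt W / 2 := by
        have h3 : V s = Real.sqrt (V s) ^ 2 := (Real.sq_sqrt (hV0 s)).symm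
        have h4 : V s / (2 * Real.sqrt W) + Real.sqrt W / 2 - Real.sqrt (V s) =
            (Real.sqrt (V s) - Real.sqrt W) ^ 2 / (2 * Real.sqrt W) := by
          rw [sub_sq, ← h3]
          field_simp
          ring
        have h5 : 0 ≤ (Real.sqrt (V s) - Real.sqrt W) ^ 2 / (2 * Real.sqrt W) := by positivity
        linarith
      have h6 := mul_le_mul_of_nonneg_left h2 (hg0 s)
      rw [mul_add, ← mul_div_assoc] at h6
      exact h6
    refine (Finset.sum_le_sum fun s _ => h1 s).trans ?_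
    rw [Finset.sum_add_distrib, ← Finset.sum_div, ← Finset.sum_mul, hg1, ← hW]
    have : W / (2 * Real.sqrt W) = Real.sqrt W / 2 := by
      rw [div_eq_div_iff (by positivity) (by norm_num)]
      nlinarith
    rw [this]
    linarith
  have hcl : ∑ s, g s * V s *
      (μ.prod μ).real {w | |gs6 u w.1 s - gs6 u w.2 s| ≤ M + Real.log 2} ≤
      12 * M1 * Real.sqrt W := by
    calc ∑ s, g s * V s *
        (μ.prod μ).real {w | |gs6 u w.1 s - gs6 u w.2 s| ≤ M + Real.log 2}
        ≤ ∑ s, g s * Real.sqrt (V s) * (12 * M1) := by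
          refine Finset.sum_le_sum fun s _ => ?_
          have h1 := mul_le_mul_of_nonneg_left (hfe s)
            (mul_nonneg (hg0 s) (Real.sqrt_nonneg (V s)))
          have h2 : Real.sqrt (V s) * Real.sqrt (V s) = V s := Real.mul_self_sqrt (hV0 s)
          calc g s * V s * (μ.prod μ).real {w | |gs6 u w.1 s - gs6 u w.2 s| ≤ M + Real.log 2}
              = g s * Real.sqrt (V s) * ((μ.prod μ).real {w |
                |gs6 u w.1 s - gs6 u w.2 s| ≤ M + Real.log 2} * Real.sqrt (V s)) := by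
                have h3 : g s * V s * (μ.prod μ).real {w |
                    |gs6 u w.1 s - gs6 u w.2 s| ≤ M + Real.log 2} =
                    g s * (Real.sqrt (V s) * Real.sqrt (V s)) * (μ.prod μ).real {w |
                    |gs6 u w.1 s - gs6 u w.2 s| ≤ M + Real.log 2} := by rw [h2]
                rw [h3]
                ring
            _ ≤ _ := h1
      _ = 12 * M1 * ∑ s, g s * Real.sqrt (V s) := by
          rw [← Finset.sum_mul, mul_comm]
      _ ≤ _ := mul_le_mul_of_nonneg_left hJ (by positivity)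
  -- numbers
  have hM1' : M1 ≤ 5 * B * M := by
    have h1 : 0 ≤ (B - 1) * (M - 1) := mul_nonneg (by linarith) (by linarith)
    nlinarith
  have h1 : W * (μ.prod μ).real E ≤ 60 * B * M * Real.sqrt W + 8 * k * B ^ 2 * Real.sqrt K := by
    have h2 : 12 * M1 * Real.sqrt W ≤ 60 * B * M * Real.sqrt W :=
      mul_le_mul_of_nonneg_right (by linarith) hsW.le
    have h3 : 2 * (k * B ^ 2) * (4 * Real.sqrt K) = 8 * k * B ^ 2 * Real.sqrt K := by ring
    linarith
  have h2 : (μ.prod μ).real E ≤ 60 * B * M / Real.sqrt W + 8 * k * B ^ 2 * Real.sqrt K / W := by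
    have h3 : 60 * B * M / Real.sqrt W = 60 * B * M * Real.sqrt W / W := by
      rw [div_eq_div_iff hsW.ne' hWp.ne']
      nlinarith
    rw [h3, ← add_div, le_div_iff₀ hWp, mul_comm]
    exact h1
  have h3 : 60 * B * M / Real.sqrt W ≤ 120 * B * (M / Real.sqrt (c * k)) := by
    have h4 : Real.sqrt (c * k) ≤ 2 * Real.sqrt W := by
      rw [show (2 : ℝ) * Real.sqrt W = Real.sqrt (4 * W) by
        rw [Real.sqrt_mul (by norm_num), show (4 : ℝ) = 2 ^ 2 by norm_num,
          Real.sqrt_sq (by norm_num)]]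
      exact Real.sqrt_le_sqrt (by linarith)
    rw [mul_div_assoc', div_le_div_iff₀ hsW hsck]
    nlinarith [mul_nonneg (mul_nonneg hB.le (by linarith : (0 : ℝ) ≤ M)) (sub_nonneg.2 h4)]
  have h5 : 8 * k * B ^ 2 * Real.sqrt K / W ≤ 16 * B ^ 2 * (k ^ 2 * Real.sqrt K) := by
    have h6 : 1 ≤ 2 * W * k := by nlinarith
    rw [div_le_iff₀ hWp]
    have h7 : 0 ≤ 8 * k * B ^ 2 * Real.sqrt K := by positivity
    nlinarith
  have h8 : 120 * B * (M / Real.sqrt (c * k)) ≤ 240 * B ^ 2 * (M / Real.sqrt (c * k)) :=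
    mul_le_mul_of_nonneg_right (by nlinarith) hR1
  have h9 : 16 * B ^ 2 * (k ^ 2 * Real.sqrt K) ≤ 240 * B ^ 2 * (k ^ 2 * Real.sqrt K) :=
    mul_le_mul_of_nonneg_right (by nlinarith) hR2
  rw [mul_add]
  linarith

end Pool.Agent.W_7d29a1_SDP
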