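import Pool.Agent.W_7d29a1_SDP.DefsP51
import Pool.Agent.W_7d29a1_NV.CoreE66
import Pool.Agent.W_7d29a1_NV.Kap20

/-!
Theorem SDP, leaf T, part 2: anticoncentration of the free energy, from rows with a small selection
and atoms with bounded values.
-/

namespace Pool.Agent.W_7d29a1_SDP

open MeasureTheory ProbabilityTheory Filter Topology Pool.Agent.W_MP_7d29a1_pr
  Pool.Agent.W_7d29a1_h46 Pool.Agent.W_7d29a1_h46u Pool.Agent.W_7d29a1_D2.B35
  Pool.Agent.W_7d29a1_Q29 Pool.Agent.W_7d29a1_NV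

/-- The conclusion of `AbsAC` with the constant `C`. -/
def AcB51 (B C : ℝ) : Prop :=
  ∀ (Ω S : Type) [MeasurableSpace Ω] [Fintype S] (k : ℕ) (P : Measure Ω) [IsProbabilityMeasure P]
    (Q : S → ℝ) (u : Fin k → S → Ω → ℝ), HT P Q u B → ∀ M c : ℝ, 1 ≤ M → 0 < c → 1 ≤ k →
    ((Measure.pi fun _ : Fin k => P).prod (Measure.pi fun _ : Fin k => P)).real
        {w | |Real.log (dT Q u w.1) - Real.log (dT Q u w.2)| ≤ M} ≤
      C * (M / Real.sqrt (c * k) + (k : ℝ) ^ 2 * Real.sqrt (∑ i, kaT P Q u i)) +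
        2 * (Measure.pi fun _ : Fin k => P).real
          {ω | ∑ i, ∑ s, prT Q u ω s * vaT P u i s < c * k}

/-- The conclusion of `VarA` with the constant `c`. -/
def VaB51 (d : ℕ) (ρ : Measure ℝ) (β b c : ℝ) : Prop :=
  ∀ (h : Vec d) (n t a b' : ℕ), a < t → t ≤ b' → b' ≤ n → ∀ (η : Env d) (z : Site d),
    |η (t, z)| ≤ b → c * Qt β h n t z η ^ 2 ≤
      ∑ x ∈ boxF d n, ∑ y ∈ boxF d n, pab β h n a b' x y η *
        ∫ ξ, (Real.log (uab ρ β b h t a b' x y η ξ) - psab ρ β b h t a b' x y η) ^ 2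
          ∂(law d (rb ρ b))

/-- Fubini for sets. -/
lemma prod_real51 {α γ : Type*} [MeasurableSpace α] [MeasurableSpace γ] (μ : Measure α)
    (ν : Measure γ) [IsProbabilityMeasure μ] [IsProbabilityMeasure ν] {s : Set (α × γ)}
    (hs : MeasurableSet s) :
    (μ.prod ν).real s = ∫ x, ν.real (Prod.mk x ⁻¹' s) ∂μ ∧
      Integrable (fun x => ν.real (Prod.mk x ⁻¹' s)) μ := by
  have h1 : Integrable (s.indicator (1 : α × γ → ℝ)) (μ.prod ν) :=
    (integrable_const (1 : ℝ)).indicator hs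
  have h2 : ∀ x, ∫ y, s.indicator (1 : α × γ → ℝ) (x, y) ∂ν = ν.real (Prod.mk x ⁻¹' s) := by
    intro x
    have h3 : (fun y => s.indicator (1 : α × γ → ℝ) (x, y)) =
        (Prod.mk x ⁻¹' s).indicator (1 : γ → ℝ) := by
      funext y
      by_cases h4 : (x, y) ∈ s
      · rw [Set.indicator_of_mem h4, Set.indicator_of_mem (by exact h4)]
        rfl
      · rw [Set.indicator_of_notMem h4, Set.indicator_of_notMem (by exact h4)]
    rw [h3, integral_indicator_one (measurable_prodMk_left hs)]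
  constructor
  · rw [← integral_indicator_one hs, integral_prod _ h1]
    exact integral_congr_ae (Eventually.of_forall h2)
  · have h5 := h1.integral_prod_left
    exact h5.congr (Eventually.of_forall h2)

variable {d : ℕ} {ρ : Measure ℝ} {β b : ℝ}

/-- The mean variance of the row `i` is an average over the pairs of separators. -/
lemma sumva51 (hE : EqT d ρ β b) (hb : 0 ≤ b) (h : Vec d) {n k : ℕ} {T : Fin k → ℕ}
    {r : Fin (k + 1) → ℕ} (hO : Ord n T r) (i : Fin k) (η : Env d) (ξ : Fin k → Env d) :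
    ∑ s, prT (Qsp ρ β b h n T r η) (usp ρ β b h n T r η) ξ s *
        vaT (law d (rb ρ b)) (usp ρ β b h n T r η) i s =
      ∑ x ∈ boxF d n, ∑ y ∈ boxF d n,
        pab β h n (r i.castSucc) (r i.succ) x y (mxJ b T η ξ) *
          ∫ ζ, (Real.log (uab ρ β b h (T i) (r i.castSucc) (r i.succ) x y (mxJ b T η ξ) ζ) -
            psab ρ β b h (T i) (r i.castSucc) (r i.succ) x y (mxJ b T η ξ)) ^ 2
              ∂(law d (rb ρ b)) := by
  simp only [K20.uab_loc20 hO hb, K20.psab_loc20 hO hb]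
  have h1 := marg77 β h (mxJ b T η ξ) r (fun j => (hO.1 j).1.le.trans (hO.1 j).2) hO.2
    i.castSucc i.succ (Fin.castSucc_lt_succ (i := i)).le (fun x y =>
      ∫ ζ, (Real.log (uab ρ β b h (T i) (r i.castSucc) (r i.succ) x y η ζ) -
        psab ρ β b h (T i) (r i.castSucc) (r i.succ) x y η) ^ 2 ∂(law d (rb ρ b)))
  rw [← h1]
  refine Finset.sum_congr rfl fun s _ => ?_
  rw [((hE h n k T r hO η).2 ξ).1 s]
  rfl

variable [IsProbabilityMeasure ρ]

/-- Anticoncentration of the free energy. -/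
theorem acP51 (hd : 0 < d) (hβ : 0 < β) (hb : HB ρ b) {C : ℝ} (hC : 0 < C)
    (hAC : AcB51 (Bc β b) C) {c : ℝ} (hc : 0 < c) (hV : VaB51 d ρ β b c) (h : Vec d) {n q : ℕ}
    {T : Fin q → ℕ} {r : Fin (q + 1) → ℕ} (hO : Ord n T r) (hq : 1 ≤ q) {M p δ : ℝ} (hM : 1 ≤ M)
    (hp : 0 < p) (A : Fin q → Set (Env d)) (hAm : ∀ i, MeasurableSet (A i))
    (hA : ∀ i, ∀ η ∈ A i, ∃ z, |η (T i, z)| ≤ b ∧ p ≤ Qt β h n (T i) z η)
    (hAp : ∀ i, (law d ρ).real (A i)ᶜ ≤ δ) :
    ((law d ρ).prod ((Measure.pi fun _ : Fin q => law d (rb ρ b)).prod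
      (Measure.pi fun _ : Fin q => law d (rb ρ b)))).real
      {w | |X β h (mxJ b T w.1 w.2.1) n - X β h (mxJ b T w.1 w.2.2) n| ≤ M} ≤
      C * (M / Real.sqrt (c * p ^ 2 / 2 * q) + (q : ℝ) ^ 2 *
        Real.sqrt (∑ i : Fin q, kap ρ β b h n (T i) (r i.castSucc) (r i.succ))) + 4 * δ := by
  classical
  have := M66.prob_rb hb
  have hE := Eq41.eqT41 hd hβ hb
  have hK := kapTm77 hd hb hE
  have hW : MixT d ρ b := mix96 hb
  have hT := M66.ord_inj hO
  have hB : 1 ≤ Bc β b := M66.one_le_Bc hb β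
  have hq0 : (1 : ℝ) ≤ q := by exact_mod_cast hq
  set P : Measure (Env d) := law d (rb ρ b) with hP
  set Pk : Measure (Fin q → Env d) := Measure.pi fun _ => P with hPk
  set c' : ℝ := c * p ^ 2 / 2 with hc'
  have hc'0 : 0 < c' := by positivity
  -- the bad set
  set W : Set (Env d) := {ζ | (q : ℝ) / 2 ≤ ∑ i, (A i)ᶜ.indicator (1 : Env d → ℝ) ζ} with hWd
  have hind : ∀ i, Measurable ((A i)ᶜ.indicator (1 : Env d → ℝ)) := fun i =>
    measurable_one.indicator (hAm i).compl
  have hSm : Measurable fun ζ : Env d => ∑ i, (A i)ᶜ.indicator (1 : Env d → ℝ) ζ :=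
    Finset.measurable_sum _ fun i _ => hind i
  have hWm : MeasurableSet W := measurableSet_le measurable_const hSm
  have hWp : (law d ρ).real W ≤ 2 * δ := by
    have i1 : ∀ i, Integrable ((A i)ᶜ.indicator (1 : Env d → ℝ)) (law d ρ) := fun i =>
      (integrable_const (1 : ℝ)).indicator (hAm i).compl
    have h1 := mul_meas_ge_le_integral_of_nonneg (μ := law d ρ)
      (f := fun ζ : Env d => ∑ i, (A i)ᶜ.indicator (1 : Env d → ℝ) ζ)
      (Eventually.of_forall fun ζ => Finset.sum_nonneg fun i _ =>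
        Set.indicator_nonneg (fun _ _ => zero_le_one) _)
      (integrable_finsetSum _ fun i _ => i1 i) ((q : ℝ) / 2)
    rw [integral_finsetSum _ fun i _ => i1 i] at h1
    have h2 : ∑ i, ∫ ζ, (A i)ᶜ.indicator (1 : Env d → ℝ) ζ ∂(law d ρ) ≤ ∑ _i : Fin q, δ := by
      refine Finset.sum_le_sum fun i _ => ?_
      rw [integral_indicator_one (hAm i).compl]
      exact hAp i
    rw [Finset.sum_const, Finset.card_univ, Fintype.card_fin, nsmul_eq_mul] at h2
    have h3 : (q : ℝ) / 2 * (law d ρ).real W ≤ q * δ := h1.trans h2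
    nlinarith
  -- the event
  set E : Set (Env d × ((Fin q → Env d) × (Fin q → Env d))) :=
    {w | |X β h (mxJ b T w.1 w.2.1) n - X β h (mxJ b T w.1 w.2.2) n| ≤ M} with hEd
  have hXm1 : Measurable fun w : Env d × ((Fin q → Env d) × (Fin q → Env d)) =>
      X β h (mxJ b T w.1 w.2.1) n :=
    (measurable_X β h n).comp (M66.mxJ_meas b T measurable_fst
      (measurable_fst.comp measurable_snd))
  have hXm2 : Measurable fun w : Env d × ((Fin q → Env d) × (Fin q → Env d)) =>
      X β h (mxJ b T w.1 w.2.2) n :=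
    (measurable_X β h n).comp (M66.mxJ_meas b T measurable_fst
      (measurable_snd.comp measurable_snd))
  have hEm : MeasurableSet E :=
    measurableSet_le (continuous_abs.measurable.comp (hXm1.sub hXm2)) measurable_const
  -- the bad set of the model
  set D : Set (Env d × (Fin q → Env d)) := {w | mxJ b T w.1 w.2 ∈ W} with hDd
  have hDm : MeasurableSet D := (M66.mxJ_meas b T measurable_fst measurable_snd) hWm
  have hDp : ((law d ρ).prod Pk).real D ≤ 2 * δ := by
    have h1 := (hW q T hT).measureReal_preimage hWm.nullMeasurableSet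
    rw [← h1] at hWp
    exact hWp
  obtain ⟨e1, j1⟩ := prod_real51 (law d ρ) (Pk.prod Pk) hEm
  obtain ⟨e2, j2⟩ := prod_real51 (law d ρ) Pk hDm
  -- the selection
  set κ : Env d → ℝ := fun η => ∑ i, kaT P (Qsp ρ β b h n T r η) (usp ρ β b h n T r η) i with hκ
  have κ0 : ∀ η, 0 ≤ κ η := fun η => Finset.sum_nonneg fun i _ =>
    M66.kaT_nonneg oneT hB (hE h n q T r hO η).1 i
  have κm : Measurable κ := Finset.measurable_sum _ fun i _ => M66.kaT_meas hb β h n T r i
  have κb : ∀ η, κ η ≤ 2 * Bc β b * q := by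
    intro η
    calc κ η ≤ ∑ _i : Fin q, 2 * Bc β b := Finset.sum_le_sum fun i _ =>
          (le_abs_self _).trans (M66.kaT_bd (hE h n q T r hO η).1 i)
      _ = 2 * Bc β b * q := by
          rw [Finset.sum_const, Finset.card_univ, Fintype.card_fin, nsmul_eq_mul]
          ring
  have ik : ∀ i, Integrable (fun η => kaT P (Qsp ρ β b h n T r η) (usp ρ β b h n T r η) i)
      (law d ρ) := fun i =>
    Integrable.mono' (integrable_const (2 * Bc β b))
      (M66.kaT_meas hb β h n T r i).aestronglyMeasurable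
      (Eventually.of_forall fun η => M66.kaT_bd (hE h n q T r hO η).1 i)
  have iκ : Integrable κ (law d ρ) := integrable_finsetSum _ fun i _ => ik i
  have is : Integrable (fun η => Real.sqrt (κ η)) (law d ρ) := by
    refine Integrable.mono' (integrable_const (Real.sqrt (2 * Bc β b * q)))
      κm.sqrt.aestronglyMeasurable (Eventually.of_forall fun η => ?_)
    rw [Real.norm_eq_abs, abs_of_nonneg (Real.sqrt_nonneg _)]
    exact Real.sqrt_le_sqrt (κb η)
  have eκ : ∫ η, κ η ∂(law d ρ) =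
      ∑ i : Fin q, kap ρ β b h n (T i) (r i.castSucc) (r i.succ) := by
    rw [hκ, integral_finsetSum _ fun i _ => ik i]
    exact Finset.sum_congr rfl fun i _ => (hK h n q T r hO i).1
  have hs : ∫ η, Real.sqrt (κ η) ∂(law d ρ) ≤
      Real.sqrt (∑ i : Fin q, kap ρ β b h n (T i) (r i.castSucc) (r i.succ)) := by
    refine Real.le_sqrt_of_sq_le ?_
    have e4 : ∀ η, Real.sqrt (κ η) ^ 2 = κ η := fun η => Real.sq_sqrt (κ0 η)
    have i4 : Integrable (fun η => Real.sqrt (κ η) ^ 2) (law d ρ) := by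
      simp only [e4]
      exact iκ
    refine (M66.sq_int is i4).trans (le_of_eq ?_)
    simp only [e4]
    exact eκ
  -- the pointwise bound
  have hpt : ∀ η : Env d, (Pk.prod Pk).real (Prod.mk η ⁻¹' E) ≤
      (C * (M / Real.sqrt (c' * q)) + C * (q : ℝ) ^ 2 * Real.sqrt (κ η)) +
        2 * Pk.real (Prod.mk η ⁻¹' D) := by
    intro η
    obtain ⟨H, h1⟩ := hE h n q T r hO η
    have h2 := hAC (Env d) (Sp d n q) q P _ _ H M c' hM hc'0 hq
    have h3 : {w : (Fin q → Env d) × (Fin q → Env d) |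
        |Real.log (dT (Qsp ρ β b h n T r η) (usp ρ β b h n T r η) w.1) -
          Real.log (dT (Qsp ρ β b h n T r η) (usp ρ β b h n T r η) w.2)| ≤ M} =
        Prod.mk η ⁻¹' E := by
      ext w
      simp only [hEd, Set.mem_ofPred_eq, Set.mem_preimage]
      rw [(h1 w.1).2, (h1 w.2).2]
      have e5 : X β h (mxJ b T η w.1) n - X β h (mxJ b T η fun _ _ => c0 ρ β b) n -
          (X β h (mxJ b T η w.2) n - X β h (mxJ b T η fun _ _ => c0 ρ β b) n) =
          X β h (mxJ b T η w.1) n - X β h (mxJ b T η w.2) n := by ring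
      rw [e5]
    have h4 : {ω : Fin q → Env d | ∑ i, ∑ s, prT (Qsp ρ β b h n T r η)
        (usp ρ β b h n T r η) ω s * vaT P (usp ρ β b h n T r η) i s < c' * q} ⊆
        Prod.mk η ⁻¹' D := by
      intro ω hω
      rw [Set.mem_ofPred_eq] at hω
      show mxJ b T η ω ∈ W
      set ζ := mxJ b T η ω with hζ
      have h5 : ∀ i, c * p ^ 2 * (1 - (A i)ᶜ.indicator (1 : Env d → ℝ) ζ) ≤
          ∑ s, prT (Qsp ρ β b h n T r η) (usp ρ β b h n T r η) ω s *
            vaT P (usp ρ β b h n T r η) i s := by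
        intro i
        by_cases hi : ζ ∈ A i
        · rw [Set.indicator_of_notMem (show ζ ∉ (A i)ᶜ from fun h' => h' hi), sub_zero, mul_one,
            sumva51 hE hb.b0.le h hO i η ω]
          obtain ⟨z, hz1, hz2⟩ := hA i ζ hi
          have hO2 : r i.succ ≤ n := by
            have hr : StrictMono r := Fin.strictMono_iff_lt_succ.2 fun i =>
              (hO.1 i).1.trans_le (hO.1 i).2
            exact (hr.monotone (Fin.le_last _)).trans hO.2
          refine le_trans ?_ (hV h n (T i) (r i.castSucc) (r i.succ) (hO.1 i).1 (hO.1 i).2 hO2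
            ζ z hz1)
          exact mul_le_mul_of_nonneg_left (pow_le_pow_left₀ hp.le hz2 2) hc.le
        · rw [Set.indicator_of_mem (show ζ ∈ (A i)ᶜ from hi)]
          simp only [Pi.one_apply, sub_self, mul_zero]
          exact Finset.sum_nonneg fun s _ =>
            mul_nonneg (M66.prT_nonneg H ω s) (M66.vaT_bd H i s).1
      have h6 := (Finset.sum_le_sum fun i (_ : i ∈ Finset.univ) => h5 i).trans_lt hω
      rw [← Finset.mul_sum, Finset.sum_sub_distrib, Finset.sum_const, Finset.card_univ,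
        Fintype.card_fin, nsmul_eq_mul, mul_one] at h6
      have h7 : c * p ^ 2 * ((q : ℝ) - ∑ i, (A i)ᶜ.indicator (1 : Env d → ℝ) ζ) <
          c * p ^ 2 * (q / 2) := by
        refine h6.trans_le (le_of_eq ?_)
        rw [hc']
        ring
      have h8 := lt_of_mul_lt_mul_left h7 (by positivity)
      show (q : ℝ) / 2 ≤ ∑ i, (A i)ᶜ.indicator (1 : Env d → ℝ) ζ
      linarith
    rw [h3] at h2
    have h9 : Pk.real {ω : Fin q → Env d | ∑ i, ∑ s, prT (Qsp ρ β b h n T r η)
        (usp ρ β b h n T r η) ω s * vaT P (usp ρ β b h n T r η) i s < c' * q} ≤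
        Pk.real (Prod.mk η ⁻¹' D) := measureReal_mono h4
    have h10 : C * (M / Real.sqrt (c' * q) + (q : ℝ) ^ 2 * Real.sqrt (κ η)) =
        C * (M / Real.sqrt (c' * q)) + C * (q : ℝ) ^ 2 * Real.sqrt (κ η) := by ring
    rw [← h10]
    exact h2.trans (add_le_add le_rfl (mul_le_mul_of_nonneg_left h9 (by norm_num)))
  rw [e1]
  have i5 : Integrable (fun η => C * (M / Real.sqrt (c' * q)) +
      C * (q : ℝ) ^ 2 * Real.sqrt (κ η)) (law d ρ) :=
    (integrable_const _).add (is.const_mul _)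
  have h12 : ∫ η, (Pk.prod Pk).real (Prod.mk η ⁻¹' E) ∂(law d ρ) ≤
      ∫ η, ((C * (M / Real.sqrt (c' * q)) + C * (q : ℝ) ^ 2 * Real.sqrt (κ η)) +
        2 * Pk.real (Prod.mk η ⁻¹' D)) ∂(law d ρ) :=
    integral_mono j1 (i5.add (j2.const_mul 2)) hpt
  refine h12.trans ?_
  have h13 : ∫ η, (C * (M / Real.sqrt (c' * q)) + C * (q : ℝ) ^ 2 * Real.sqrt (κ η)) ∂(law d ρ) =
      C * (M / Real.sqrt (c' * q)) + C * (q : ℝ) ^ 2 * ∫ η, Real.sqrt (κ η) ∂(law d ρ) := by
    rw [integral_add (integrable_const _) (is.const_mul _), integral_const, integral_const_mul,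
      probReal_univ, one_smul]
  have h14 : ∫ η, 2 * Pk.real (Prod.mk η ⁻¹' D) ∂(law d ρ) =
      2 * ((law d ρ).prod Pk).real D := by rw [integral_const_mul, ← e2]
  rw [integral_add i5 (j2.const_mul 2), h13, h14]
  have h11 := mul_le_mul_of_nonneg_left hs (show (0 : ℝ) ≤ C * (q : ℝ) ^ 2 by positivity)
  calc _ ≤ C * (M / Real.sqrt (c' * q)) + C * (q : ℝ) ^ 2 * Real.sqrt (∑ i : Fin q,
        kap ρ β b h n (T i) (r i.castSucc) (r i.succ)) + 2 * (2 * δ) := by linarith
    _ = _ := by ring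

end Pool.Agent.W_7d29a1_SDP
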