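import Pool.Agent.W_7d29a1_SDP.DefsP51
import Pool.Agent.W_7d29a1_S90.DlT63

/-!
An atom with a bounded value: on a good environment the row `τ` has a site of mass at least
`e ^ (-ε b₀) / 2`, and large values are not used.
-/

set_option autoImplicit false

namespace Pool.Agent.W_7d29a1_SDP

open MeasureTheory ProbabilityTheory Filter Topology Pool.Agent.W_MP_7d29a1_pr
  Pool.Agent.W_7d29a1_h46 Pool.Agent.W_7d29a1_h46u Pool.Agent.W_7d29a1_D2.B35
  Pool.Agent.W_7d29a1_Q29 Pool.Agent.W_7d29a1_NV Pool.Agent.W_7d29a1_P89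
  Pool.Agent.W_7d29a1_SD Pool.Agent.W_7d29a1_S90

variable {d : ℕ} {ρ : Measure ℝ}

/-- Some site of the row `τ` has mass at least `p` and a value bounded by `b`. -/
def Atm (β : ℝ) (h : Vec d) (n τ : ℕ) (b p : ℝ) : Set (Env d) :=
  {η | ∃ z ∈ boxF d n, |η (τ, z)| ≤ b ∧ p ≤ Qt β h n τ z η}

lemma meas_atm89 (β : ℝ) (h : Vec d) (n τ : ℕ) (b p : ℝ) : MeasurableSet (Atm β h n τ b p) := by
  have e : Atm β h n τ b p = ⋃ z ∈ boxF d n,
      ({η : Env d | |η (τ, z)| ≤ b} ∩ {η : Env d | p ≤ Qt β h n τ z η}) := by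
    ext η
    simp only [Atm, Set.mem_ofPred_eq, Set.mem_iUnion, Set.mem_inter_iff, exists_prop]
  rw [e]
  refine (boxF d n).measurableSet_biUnion fun z _ => MeasurableSet.inter ?_ ?_
  · exact measurableSet_le (measurable_pi_apply (τ, z)).abs measurable_const
  · exact measurableSet_le measurable_const (measurable_Qt39 β h n τ z)

open Classical in
/-- The mass of the sites with large values. -/
noncomputable def lar89 (β : ℝ) (h : Vec d) (n τ : ℕ) (b : ℝ) (η : Env d) : ℝ :=
  ∑ y ∈ boxF d n, Qt β h n τ y η * (if b < |η (τ, y)| then (1 : ℝ) else 0)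

lemma meas_lar89 (β : ℝ) (h : Vec d) (n τ : ℕ) (b : ℝ) :
    Measurable (lar89 β h n τ b : Env d → ℝ) := by
  classical
  refine Finset.measurable_fun_sum _ fun y _ => (measurable_Qt39 β h n τ y).mul ?_
  exact Measurable.ite (measurableSet_lt measurable_const (measurable_pi_apply (τ, y)).abs)
    measurable_const measurable_const

lemma lar_nonneg89 (β : ℝ) (h : Vec d) (n τ : ℕ) (b : ℝ) (η : Env d) :
    0 ≤ lar89 β h n τ b η :=
  Finset.sum_nonneg fun y _ => mul_nonneg (Qt_nonneg39 β h n τ y η) (by split_ifs <;> norm_num)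

theorem atom89 [IsProbabilityMeasure ρ] (hd : 0 < d) (hρ : EM ρ) {β : ℝ} (hβ : 0 < β) :
    ∃ C : ℝ, 0 ≤ C ∧ ∀ (h : Vec d) (n τ : ℕ) (b₀ ε δ b : ℝ), 1 ≤ τ → τ ≤ n → 4 ≤ b₀ → 0 ≤ b →
      (law d ρ).real {η | ¬ GoodN β h n τ b₀ ε η} ≤ δ →
      (law d ρ).real (Atm β h n τ b (Real.exp (-(ε * b₀)) / 2))ᶜ ≤
        δ + 2 * C * Real.exp (ε * b₀ - b) := by
  classical
  obtain ⟨C, hC0, hC⟩ := dlT63 (d := d) (ρ := ρ) hd hρ hβ 1 zero_le_one
  refine ⟨C, hC0, fun h n τ b₀ ε δ b hτ1 hτn hb₀ hb hG => ?_⟩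
  set p : ℝ := Real.exp (-(ε * b₀)) / 2 with hp
  have hp0 : 0 < p := by positivity
  have hDl : ∫ η, lar89 β h n τ b η ∂(law d ρ) ≤ C * Real.exp (-b) := by
    have h1 := hC h n τ b hτ1 hτn hb
    rw [one_mul] at h1
    refine le_trans (le_of_eq ?_) h1
    unfold Dl
    refine integral_congr_ae (Eventually.of_forall fun η => ?_)
    have h2 := pe_pos86 β h η hτn fun y => if b < |η (τ, y)| then (1 : ℝ) else 0
    exact h2.symm
  have hli : Integrable (lar89 β h n τ b) (law d ρ) := by
    refine Integrable.of_bound (meas_lar89 β h n τ b).aestronglyMeasurable 1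
      (Eventually.of_forall fun η => ?_)
    rw [Real.norm_eq_abs, abs_of_nonneg (lar_nonneg89 β h n τ b η)]
    refine le_trans (Finset.sum_le_sum fun y _ => ?_) (Qt_sum_box39 hd β h hτn hτn η).le
    have h1 := Qt_nonneg39 β h n τ y η
    split_ifs
    · rw [mul_one]
    · rw [mul_zero]
      exact h1
  have hsub : (Atm β h n τ b p)ᶜ ⊆ {η | ¬ GoodN β h n τ b₀ ε η} ∪
      {η | p ≤ lar89 β h n τ b η} := by
    intro η hη
    by_cases hg : GoodN β h n τ b₀ ε η
    · right
      have h1 : ∃ z ∈ boxF d n, p ≤ Qt β h n τ z η := by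
        by_contra hno
        push Not at hno
        obtain ⟨g1, g2⟩ := hg
        have h2 := Qt_sum_box39 hd β h hτn hτn η
        rw [← Finset.sum_filter_add_sum_filter_not (boxF d n)
          (fun x => Real.exp (-b₀) ≤ Qt β h n τ x η)] at h2
        have h3 : ∑ x ∈ (boxF d n).filter (fun x => Real.exp (-b₀) ≤ Qt β h n τ x η),
            Qt β h n τ x η ≤ 1 / 2 := by
          have h4 : ∑ x ∈ (boxF d n).filter (fun x => Real.exp (-b₀) ≤ Qt β h n τ x η),
              Qt β h n τ x η ≤
              ∑ _x ∈ (boxF d n).filter (fun x => Real.exp (-b₀) ≤ Qt β h n τ x η), p :=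
            Finset.sum_le_sum fun x hx => (hno x (Finset.mem_filter.1 hx).1).le
          rw [Finset.sum_const, nsmul_eq_mul] at h4
          refine h4.trans ?_
          have h5 := mul_le_mul_of_nonneg_right g1 hp0.le
          refine h5.trans (le_of_eq ?_)
          rw [hp, mul_div_assoc', ← Real.exp_add, add_neg_cancel, Real.exp_zero]
        have h6 : ∑ x ∈ (boxF d n).filter (fun x => ¬ Real.exp (-b₀) ≤ Qt β h n τ x η),
            Qt β h n τ x η ≤ Real.exp (-(b₀ / 4)) := by
          simp only [not_le]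
          exact g2
        have h7 : Real.exp (-(b₀ / 4)) ≤ Real.exp (-1) := by
          rw [Real.exp_le_exp]
          linarith
        have h8 : Real.exp (-1) < 1 / 2 := by
          have h9 := Real.exp_one_gt_d9
          rw [Real.exp_neg, inv_lt_comm₀ (Real.exp_pos _) (by norm_num)]
          norm_num
          linarith
        linarith
      obtain ⟨z, hz, hpz⟩ := h1
      have h2 : b < |η (τ, z)| := by
        by_contra hno
        exact hη ⟨z, hz, not_lt.1 hno, hpz⟩
      show p ≤ lar89 β h n τ b η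
      have h3 := Finset.single_le_sum (s := boxF d n)
        (f := fun y => Qt β h n τ y η * (if b < |η (τ, y)| then (1 : ℝ) else 0))
        (fun y _ => mul_nonneg (Qt_nonneg39 β h n τ y η) (by split_ifs <;> norm_num)) hz
      beta_reduce at h3
      rw [if_pos h2, mul_one] at h3
      exact hpz.trans h3
    · left
      exact hg
  have hmk := mul_meas_ge_le_integral_of_nonneg (μ := law d ρ)
    (Eventually.of_forall fun η => lar_nonneg89 β h n τ b η) hli p
  have h1 : (law d ρ).real {η | p ≤ lar89 β h n τ b η} ≤ 2 * C * Real.exp (ε * b₀ - b) := by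
    have h2 : (law d ρ).real {η | p ≤ lar89 β h n τ b η} ≤ C * Real.exp (-b) / p := by
      rw [le_div_iff₀ hp0]
      linarith
    refine h2.trans (le_of_eq ?_)
    rw [hp, Real.exp_sub, Real.exp_neg, Real.exp_neg]
    field_simp
  have h2 := (measureReal_mono (μ := law d ρ) hsub).trans (measureReal_union_le _ _)
  linarith

end Pool.Agent.W_7d29a1_SDP
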