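import Pool.Agent.W_7d29a1_SDP.DefsP51
import Pool.Agent.W_7d29a1_SD.MainS70
import Pool.Agent.W_7d29a1_NV.MeasN66

/-!
Theorem SDP from its leaves: the selection of the velocities.
-/

namespace Pool.Agent.W_7d29a1_SDP

open MeasureTheory ProbabilityTheory Filter Topology Pool.Agent.W_MP_7d29a1_pr
  Pool.Agent.W_7d29a1_h46 Pool.Agent.W_7d29a1_h46u Pool.Agent.W_7d29a1_D2.B35
  Pool.Agent.W_7d29a1_Q29 Pool.Agent.W_7d29a1_NV Pool.Agent.W_7d29a1_P89
  Pool.Agent.W_7d29a1_SD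

namespace M50

/-- Many events of probability at least `α`: two of them happen together with probability at least
`α ^ 2 / 2`. -/
lemma pair_ev {Ω : Type*} [MeasurableSpace Ω] (P : Measure Ω) [IsProbabilityMeasure P] {k : ℕ}
    (G : Fin k → Set Ω) (hG : ∀ i, MeasurableSet (G i)) {α : ℝ} (hα : 0 < α)
    (hk : 4 ≤ (k : ℝ) * α ^ 2) (hP : ∀ i, α ≤ P.real (G i)) :
    ∃ i j : Fin k, i ≠ j ∧ α ^ 2 / 2 ≤ P.real (G i ∩ G j) := by
  classical
  by_contra hcon
  push Not at hcon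
  have hk0 : 0 < k := by
    rcases Nat.eq_zero_or_pos k with h | h
    · rw [h] at hk
      norm_num at hk
    · exact h
  have hα1 : α ≤ 1 := (hP ⟨0, hk0⟩).trans measureReal_le_one
  obtain ⟨I, hI⟩ : ∃ I : Fin k → Ω → ℝ, I = fun i => (G i).indicator fun _ => (1 : ℝ) := ⟨_, rfl⟩
  have hII : ∀ i j ω, I i ω * I j ω = (G i ∩ G j).indicator (fun _ => (1 : ℝ)) ω := by
    intro i j ω
    rw [hI]
    simp only [Set.indicator_apply, Set.mem_inter_iff]
    by_cases h1 : ω ∈ G i <;> by_cases h2 : ω ∈ G j <;> simp [h1, h2]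
  have hint1 : ∀ i, Integrable (I i) P := fun i => by
    rw [hI]
    exact (integrable_const (1 : ℝ)).indicator (hG i)
  have hint : ∀ i j, Integrable (fun ω => I i ω * I j ω) P := fun i j => by
    simp only [hII]
    exact (integrable_const (1 : ℝ)).indicator ((hG i).inter (hG j))
  have hI1 : ∀ i, ∫ ω, I i ω ∂P = P.real (G i) := fun i => by
    rw [hI]
    simp only
    rw [integral_indicator_const _ (hG i), smul_eq_mul, mul_one]
  have hI2 : ∀ i j, ∫ ω, I i ω * I j ω ∂P = P.real (G i ∩ G j) := fun i j => by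
    simp only [hII]
    rw [integral_indicator_const _ ((hG i).inter (hG j)), smul_eq_mul, mul_one]
  obtain ⟨S, hS⟩ : ∃ S, S = ∑ i, P.real (G i) := ⟨_, rfl⟩
  have h1 : 0 ≤ ∫ ω, (∑ i, I i ω - S) ^ 2 ∂P := integral_nonneg fun _ => sq_nonneg _
  have h2 : ∫ ω, (∑ i, I i ω - S) ^ 2 ∂P = ∑ i, ∑ j, P.real (G i ∩ G j) - S ^ 2 := by
    have e : ∀ ω, (∑ i, I i ω - S) ^ 2 =
        (∑ i, ∑ j, I i ω * I j ω - 2 * S * ∑ i, I i ω) + S ^ 2 := by
      intro ω
      rw [← Finset.sum_mul_sum]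
      ring
    simp only [e]
    have i1 : Integrable (fun ω => ∑ i, ∑ j, I i ω * I j ω) P :=
      integrable_finsetSum _ fun i _ => integrable_finsetSum _ fun j _ => hint i j
    have i2 : Integrable (fun ω => 2 * S * ∑ i, I i ω) P :=
      (integrable_finsetSum _ fun i _ => hint1 i).const_mul _
    have i3 : Integrable (fun ω => ∑ i, ∑ j, I i ω * I j ω - 2 * S * ∑ i, I i ω) P := i1.sub i2
    rw [integral_add i3 (integrable_const _), integral_sub i1 i2, integral_const_mul,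
      integral_finsetSum _ fun i _ => integrable_finsetSum _ fun j _ => hint i j,
      integral_finsetSum _ fun i _ => hint1 i]
    have e1 : ∀ i, ∫ ω, ∑ j, I i ω * I j ω ∂P = ∑ j, P.real (G i ∩ G j) := fun i => by
      rw [integral_finsetSum _ fun j _ => hint i j]
      exact Finset.sum_congr rfl fun j _ => hI2 i j
    simp only [e1, hI1, ← hS, integral_const, probReal_univ, smul_eq_mul, one_mul]
    ring
  have h3 : ∑ i, ∑ j, P.real (G i ∩ G j) ≤ S + (k : ℝ) * (k * (α ^ 2 / 2)) := by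
    have h4 : ∀ i j, P.real (G i ∩ G j) ≤ (if i = j then P.real (G i) else 0) + α ^ 2 / 2 := by
      intro i j
      by_cases h : i = j
      · rw [if_pos h, ← h, Set.inter_self]
        have : 0 ≤ α ^ 2 / 2 := by positivity
        linarith
      · rw [if_neg h, zero_add]
        exact (hcon i j h).le
    calc ∑ i, ∑ j, P.real (G i ∩ G j)
        ≤ ∑ i, ∑ j, ((if i = j then P.real (G i) else 0) + α ^ 2 / 2) :=
          Finset.sum_le_sum fun i _ => Finset.sum_le_sum fun j _ => h4 i j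
      _ = S + (k : ℝ) * (k * (α ^ 2 / 2)) := by
          simp only [Finset.sum_add_distrib, Finset.sum_ite_eq, Finset.mem_univ, if_true,
            Finset.sum_const, Finset.card_univ, Fintype.card_fin, nsmul_eq_mul, ← hS]
  have h5 : (k : ℝ) * α ≤ S := by
    rw [hS]
    calc (k : ℝ) * α = ∑ _i : Fin k, α := by
          rw [Finset.sum_const, Finset.card_univ, Fintype.card_fin, nsmul_eq_mul]
      _ ≤ _ := Finset.sum_le_sum fun i _ => hP i
  have h6 : (4 : ℝ) ≤ k * α := by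
    have h7 : (0 : ℝ) ≤ k * α := by positivity
    nlinarith
  rw [h2] at h1
  nlinarith [mul_nonneg (sub_nonneg.2 h5) (by linarith : (0 : ℝ) ≤ S + k * α - 1)]

open Classical in
/-- A length in `[N, 2 N)` which is good for all of finitely many tilts. -/
lemma good_len {k N : ℕ} (hN : 0 < N) {η : ℝ} (hη : (k : ℝ) * η < 1) (B : Fin k → ℕ → Prop)
    (hB : ∀ i, (((Finset.Ico N (2 * N)).filter fun n => B i n).card : ℝ) ≤ η * N) :
    ∃ n, N ≤ n ∧ n < 2 * N ∧ ∀ i, ¬ B i n := by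
  by_contra hcon
  push Not at hcon
  have h1 : Finset.Ico N (2 * N) ⊆
      Finset.univ.biUnion fun i : Fin k => (Finset.Ico N (2 * N)).filter fun n => B i n := by
    intro n hn
    have hn' := Finset.mem_Ico.1 hn
    obtain ⟨i, hi⟩ := hcon n hn'.1 hn'.2
    exact Finset.mem_biUnion.2 ⟨i, Finset.mem_univ _, Finset.mem_filter.2 ⟨hn, hi⟩⟩
  have h2 := (Finset.card_le_card h1).trans Finset.card_biUnion_le
  rw [Nat.card_Ico] at h2
  have h3 : ((2 * N - N : ℕ) : ℝ) ≤ ∑ i : Fin k,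
      (((Finset.Ico N (2 * N)).filter fun n => B i n).card : ℝ) := by
    exact_mod_cast h2
  have h4 : 2 * N - N = N := by omega
  rw [h4] at h3
  have h5 : (N : ℝ) ≤ k * (η * N) := by
    refine h3.trans ((Finset.sum_le_sum fun i _ => hB i).trans ?_)
    rw [Finset.sum_const, Finset.card_univ, Fintype.card_fin, nsmul_eq_mul]
  have h6 : (0 : ℝ) < N := by exact_mod_cast hN
  nlinarith

/-- From the mean to an event. -/
lemma mean_ev {Ω : Type*} [MeasurableSpace Ω] (P : Measure Ω) [IsProbabilityMeasure P] {f : Ω → ℝ}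
    (hf : Measurable f) (h0 : ∀ x, 0 ≤ f x) (h1 : ∀ x, f x ≤ 1) {ε θ : ℝ} (hθ : 0 < θ)
    (hθε : 2 * θ ≤ ε) (h : ∫ x, (1 - f x) ∂P ≤ 1 - ε) : θ ≤ P.real {x | θ ≤ f x} := by
  have hm : MeasurableSet {x | θ ≤ f x} := measurableSet_le measurable_const hf
  have hfi : Integrable f P := Integrable.of_bound hf.aestronglyMeasurable 1
    (Filter.Eventually.of_forall fun x => by
      rw [Real.norm_eq_abs, abs_of_nonneg (h0 x)]
      exact h1 x)
  have e : ∫ x, (1 - f x) ∂P = 1 - ∫ x, f x ∂P := by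
    rw [integral_sub (integrable_const _) hfi, integral_const, probReal_univ, one_smul]
  rw [e] at h
  have h2 : ∫ x, f x ∂P ≤ ∫ x, (θ + ({x | θ ≤ f x}).indicator (fun _ => (1 : ℝ)) x) ∂P := by
    refine integral_mono hfi ((integrable_const _).add ((integrable_const _).indicator hm))
      fun x => ?_
    by_cases hx : θ ≤ f x
    · rw [Set.indicator_of_mem (show x ∈ {x | θ ≤ f x} from hx)]
      have := h1 x
      linarith
    · rw [Set.indicator_of_notMem (show x ∉ {x | θ ≤ f x} from hx)]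
      push Not at hx
      linarith
  rw [integral_add (integrable_const _) ((integrable_const _).indicator hm), integral_const,
    probReal_univ, one_smul, integral_indicator_const _ hm, smul_eq_mul, mul_one] at h2
  linarith

end M50

variable {d : ℕ} {ρ : Measure ℝ}

/-- **Theorem SDP from its leaves.** -/
theorem mainSDP50 [IsProbabilityMeasure ρ] (hd : 0 < d) (hρ : EM ρ) (β : ℝ) (hL : AeLP d ρ β)
    (hA : ACt d ρ β) (hP : PairP d ρ β) (hS : SubP d ρ β) : MainSDP d ρ β := by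
  classical
  obtain ⟨Q, hQ⟩ : ∃ Q : ℕ → ℕ → ℕ → ℕ → ℕ → ℕ → Vec d → Vec d → Prop,
      Q = fun (j R n₀ M i N₁ : ℕ) (h v : Vec d) => VSD ρ β h ∧ LP ρ β h v ∧
        (∀ n : ℕ, n₀ ≤ n → 1 / ((j : ℝ) + 1) ≤
          (law d ρ).real {η | TubE β h v (R : ℝ) (1 / ((j : ℝ) + 1)) n η}) ∧
        (∀ N : ℕ, N₁ ≤ N → (((Finset.Ico N (2 * N)).filter fun n =>
          ¬ ACn ρ β h n (M : ℝ) (1 / ((i : ℝ) + 1))).card : ℝ) ≤ 1 / ((i : ℝ) + 1) * N) := ⟨_, rfl⟩
  have hann : ∀ᵐ v : Vec d, ∀ j R n₀ M i N₁ : ℕ, v ∈ {v | ∃ h, Q j R n₀ M i N₁ h v} →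
      Sel70.Ann {v | ∃ h, Q j R n₀ M i N₁ h v} v :=
    ae_all_iff.2 fun j => ae_all_iff.2 fun R => ae_all_iff.2 fun n₀ => ae_all_iff.2 fun M =>
      ae_all_iff.2 fun i => ae_all_iff.2 fun N₁ => Sel70.ae_ann hd _
  filter_upwards [hann, hL, Sel70.ae_lip (lam_convex hd hρ β)] with v hv1 hv2 hv3 h hV R ε hε N
  by_contra hcon
  push Not at hcon
  -- the event at one tilt
  obtain ⟨j, hj⟩ := exists_nat_one_div_lt (half_pos hε)
  obtain ⟨R', hR'⟩ := exists_nat_ge R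
  obtain ⟨θ, hθd⟩ : ∃ θ : ℝ, θ = 1 / ((j : ℝ) + 1) := ⟨_, rfl⟩
  have hθ : 0 < θ := by rw [hθd]; positivity
  have hθ1 : θ ≤ 1 := by
    rw [hθd, div_le_one (by positivity)]
    have : (0 : ℝ) ≤ j := Nat.cast_nonneg j
    linarith
  have htub : ∀ n : ℕ, N ≤ n → θ ≤ (law d ρ).real {η | TubE β h v (R' : ℝ) θ n η} := by
    intro n hn
    refine M50.mean_ev (law d ρ) (measurable_PolT β h _) (fun η => PolT_nonneg β h η _)
      (fun η => PolT_le_one β h η _) hθ (ε := ε) (by rw [hθd]; linarith) ?_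
    exact (Tb_anti β h v n hR').trans (hcon n hn)
  have hslo := hS h v (R' : ℝ) θ θ N hθ hθ htub
  have hLP := hv2 h hslo
  obtain ⟨C, δ, hC, hδ, hLip⟩ := hv3 h hslo
  -- the number of tilts
  obtain ⟨k, hk⟩ := exists_nat_ge (4 / θ ^ 2)
  have hk4 : 4 ≤ (k : ℝ) * θ ^ 2 := by rwa [div_le_iff₀ (by positivity)] at hk
  obtain ⟨b, hb⟩ : ∃ b : ℝ, b = 100 * ((R' : ℝ) + 1) := ⟨_, rfl⟩
  have hb0 : 0 < b := by rw [hb]; positivity
  obtain ⟨K, hK⟩ : ∃ K : ℝ, K = b * 4 ^ k := ⟨_, rfl⟩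
  have hK0 : 0 < K := by rw [hK]; positivity
  obtain ⟨M, hM⟩ := exists_nat_ge ((4 * C * K) * (4 * K) + 2 * (4 * C * K) * R' - 5 * Real.log θ)
  obtain ⟨i, hi⟩ := exists_nat_one_div_lt
    (show (0 : ℝ) < min (1 / ((k : ℝ) + 1)) ((θ ^ 2 / 2) ^ 3 / 32) by positivity)
  obtain ⟨N₁, hN₁⟩ := hA h v hV hLP (M : ℝ) (1 / ((i : ℝ) + 1)) (by positivity)
  have hmem : v ∈ {v | ∃ h, Q j R' N M i N₁ h v} := by
    refine ⟨h, ?_⟩
    rw [hQ]
    refine ⟨hV, hLP, ?_, hN₁⟩
    rw [← hθd]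
    exact htub
  obtain ⟨r₀, hr₀, hAnn⟩ := hv1 j R' N M i N₁ hmem
  have hmin : 0 < min r₀ δ := lt_min hr₀ hδ
  obtain ⟨N₂, hN₂⟩ := exists_nat_ge ((K / min r₀ δ) ^ 2)
  obtain ⟨N', hN'⟩ : ∃ N', N' = max (max N N₁) (max N₂ 1000) := ⟨_, rfl⟩
  have hNN : N ≤ N' := by rw [hN']; exact (le_max_left _ _).trans (le_max_left _ _)
  have hNN1 : N₁ ≤ N' := by rw [hN']; exact (le_max_right _ _).trans (le_max_left _ _)
  have hNN2 : N₂ ≤ N' := by rw [hN']; exact (le_max_left _ _).trans (le_max_right _ _)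
  have hN1000 : 1000 ≤ N' := by rw [hN']; exact (le_max_right _ _).trans (le_max_right _ _)
  have hNr : (1000 : ℝ) ≤ N' := by exact_mod_cast hN1000
  have hs0 : 0 < Real.sqrt N' := Real.sqrt_pos.2 (by linarith)
  have hKr : K / Real.sqrt N' ≤ min r₀ δ := by
    rw [div_le_iff₀ hs0, ← div_le_iff₀' hmin]
    apply Real.le_sqrt_of_sq_le
    refine hN₂.trans ?_
    exact_mod_cast hNN2
  have h4k : ∀ l : Fin k, (4 : ℝ) ^ (l : ℕ) ≤ 4 ^ k := fun l =>
    pow_le_pow_right₀ (by norm_num) l.2.le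
  have hrl : ∀ l : Fin k, b * 4 ^ (l : ℕ) / Real.sqrt N' ≤ K / Real.sqrt N' := fun l => by
    refine div_le_div_of_nonneg_right ?_ hs0.le
    rw [hK]
    exact mul_le_mul_of_nonneg_left (h4k l) hb0.le
  have hch : ∀ l : Fin k, ∃ y : Vec d, ∃ g : Vec d, Q j R' N M i N₁ g y ∧
      b * 4 ^ (l : ℕ) / Real.sqrt N' / 2 ≤ ‖y - v‖ ∧ ‖y - v‖ ≤ b * 4 ^ (l : ℕ) / Real.sqrt N' := by
    intro l
    obtain ⟨y, ⟨g, hg⟩, hy1, hy2⟩ := hAnn (b * 4 ^ (l : ℕ) / Real.sqrt N') (by positivity)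
      ((hrl l).trans (hKr.trans (min_le_left _ _)))
    exact ⟨y, g, hg, hy1, hy2⟩
  choose y g hg hy1 hy2 using hch
  rw [hQ] at hg
  -- the tilts are close
  have hgl : ∀ l, ‖g l - h‖ ≤ C * (K / Real.sqrt N') := by
    intro l
    have h1 := hLip (g l) (y l) (hg l).2.1.slo
      ((hy2 l).trans ((hrl l).trans (hKr.trans (min_le_right _ _))))
    refine h1.trans (mul_le_mul_of_nonneg_left ((hy2 l).trans (hrl l)) hC.le)
  -- the velocities are separated
  have hsep' : ∀ l m : Fin k, l < m → b / Real.sqrt N' ≤ ‖y m - y l‖ := by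
    intro l m hlm
    have h1 : ‖y m - v‖ ≤ ‖y m - y l‖ + ‖y l - v‖ := by
      calc ‖y m - v‖ = ‖(y m - y l) + (y l - v)‖ := by congr 1; abel
        _ ≤ _ := norm_add_le _ _
    have h2 := hy1 m
    have h3 := hy2 l
    have h4 : (4 : ℝ) ^ ((l : ℕ) + 1) ≤ 4 ^ (m : ℕ) := pow_le_pow_right₀ (by norm_num) hlm
    have h5 : (1 : ℝ) ≤ 4 ^ (l : ℕ) := one_le_pow₀ (by norm_num)
    rw [pow_succ] at h4
    have h6 : b / Real.sqrt N' ≤ b * 4 ^ (m : ℕ) / Real.sqrt N' / 2 -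
        b * 4 ^ (l : ℕ) / Real.sqrt N' := by
      have e : b * 4 ^ (m : ℕ) / Real.sqrt N' / 2 - b * 4 ^ (l : ℕ) / Real.sqrt N' =
          b * (4 ^ (m : ℕ) / 2 - 4 ^ (l : ℕ)) / Real.sqrt N' := by
        field_simp
      rw [e]
      refine div_le_div_of_nonneg_right ?_ hs0.le
      nlinarith
    linarith
  have hsep : ∀ l m : Fin k, l ≠ m → b / Real.sqrt N' ≤ ‖y m - y l‖ := by
    intro l m hlm
    rcases lt_or_gt_of_ne hlm with h1 | h1
    · exact hsep' l m h1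
    · rw [norm_sub_rev]
      exact hsep' m l h1
  have hyy : ∀ l m : Fin k, ‖y m - y l‖ ≤ 2 * (K / Real.sqrt N') := by
    intro l m
    have h1 : ‖y m - y l‖ ≤ ‖y m - v‖ + ‖y l - v‖ := by
      calc ‖y m - y l‖ = ‖(y m - v) - (y l - v)‖ := by congr 1; abel
        _ ≤ _ := norm_sub_le _ _
    have h2 := (hy2 m).trans (hrl m)
    have h3 := (hy2 l).trans (hrl l)
    linarith
  have hgg : ∀ l m : Fin k, ‖g m - g l‖ ≤ 2 * (C * (K / Real.sqrt N')) := by
    intro l m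
    have h1 : ‖g m - g l‖ ≤ ‖g m - h‖ + ‖g l - h‖ := by
      calc ‖g m - g l‖ = ‖(g m - h) - (g l - h)‖ := by congr 1; abel
        _ ≤ _ := norm_sub_le _ _
    have h2 := hgl m
    have h3 := hgl l
    linarith
  -- the length
  have hki : (k : ℝ) * (1 / ((i : ℝ) + 1)) < 1 := by
    have h1 : 1 / ((i : ℝ) + 1) < 1 / ((k : ℝ) + 1) := hi.trans_le (min_le_left _ _)
    have h2 : (0 : ℝ) ≤ k := Nat.cast_nonneg k
    have h3 : (k : ℝ) * (1 / ((k : ℝ) + 1)) < 1 := by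
      rw [mul_one_div, div_lt_one (by positivity)]
      linarith
    exact (mul_le_mul_of_nonneg_left h1.le h2).trans_lt h3
  obtain ⟨n, hn1, hn2, hn3⟩ := M50.good_len (k := k) (N := N') (by omega) hki
    (fun l n => ¬ ACn ρ β (g l) n (M : ℝ) (1 / ((i : ℝ) + 1)))
    (fun l => by
      have h7 := (hg l).2.2.2 N' hNN1
      convert h7)
  obtain ⟨l, m, hlm, hGG⟩ := M50.pair_ev (law d ρ)
    (fun l => {η | TubE β (g l) (y l) (R' : ℝ) θ n η})
    (fun l => measurableSet_le measurable_const (measurable_PolT β (g l) _)) hθ hk4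
    (fun l => by
      have := (hg l).2.2.1 n (hNN.trans hn1)
      rw [← hθd] at this
      exact this)
  obtain ⟨b', q, T, hHB, hinj, hT, hprob⟩ := not_not.1 (hn3 l)
  have hnr : (N' : ℝ) ≤ n := by exact_mod_cast hn1
  have hnr2 : (n : ℝ) ≤ 4 * N' := by
    have : (n : ℝ) < 2 * N' := by exact_mod_cast hn2
    linarith
  have hsn : Real.sqrt n ≤ 2 * Real.sqrt N' := by
    rw [Real.sqrt_le_left (by positivity), mul_pow, Real.sq_sqrt (by linarith)]
    linarith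
  have hsn' : Real.sqrt N' ≤ Real.sqrt n := Real.sqrt_le_sqrt hnr
  have hsn0 : 0 < Real.sqrt n := hs0.trans_le hsn'
  have hscale : ∀ x : ℝ, 0 ≤ x → x / Real.sqrt N' * Real.sqrt n ≤ 2 * x := by
    intro x hx
    rw [div_mul_eq_mul_div, div_le_iff₀ hs0]
    nlinarith
  have hmain := hP b' hHB (g l) (g m) (y l) (y m) n (n / 8) q T (R' : ℝ) (4 * K) (4 * C * K) θ
    (θ ^ 2 / 2) hinj (fun i => (hT i).1) (Nat.cast_nonneg _) (by positivity) (by positivity) hθ hθ1
    (by positivity)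
    (by
      calc ‖y m - y l‖ * Real.sqrt n ≤ 2 * (K / Real.sqrt N') * Real.sqrt n :=
            mul_le_mul_of_nonneg_right (hyy l m) hsn0.le
        _ = 2 * (K / Real.sqrt N' * Real.sqrt n) := by ring
        _ ≤ 2 * (2 * K) := by
            have := hscale K hK0.le
            linarith
        _ = 4 * K := by ring)
    (by
      calc ‖g m - g l‖ * Real.sqrt n ≤ 2 * (C * (K / Real.sqrt N')) * Real.sqrt n :=
            mul_le_mul_of_nonneg_right (hgg l m) hsn0.le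
        _ = 2 * C * (K / Real.sqrt N' * Real.sqrt n) := by ring
        _ ≤ 2 * C * (2 * K) := mul_le_mul_of_nonneg_left (hscale K hK0.le) (by positivity)
        _ = 4 * C * K := by ring)
    (by
      have h4 : (n : ℝ) / 8 - 1 ≤ ((n / 8 : ℕ) : ℝ) := by
        have h5 : n < 8 * (n / 8) + 8 := by omega
        have h6 : (n : ℝ) < 8 * ((n / 8 : ℕ) : ℝ) + 8 := by exact_mod_cast h5
        linarith
      have h5 : b / Real.sqrt n ≤ ‖y m - y l‖ :=
        (div_le_div_of_nonneg_left hb0.le hs0 hsn').trans (hsep l m hlm)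
      have h6 : ((n : ℝ) / 8 - 1) * (b / Real.sqrt n) ≤ ((n / 8 : ℕ) : ℝ) * ‖y m - y l‖ :=
        mul_le_mul h4 h5 (by positivity) (Nat.cast_nonneg _)
      refine lt_of_lt_of_le ?_ h6
      rw [← mul_div_assoc, lt_div_iff₀ hsn0]
      have e2 : 2 * (R' : ℝ) * Real.sqrt n * Real.sqrt n = 2 * R' * n := by
        rw [mul_assoc (2 * (R' : ℝ)), Real.mul_self_sqrt (by linarith)]
      rw [e2, hb]
      have hR0 : (0 : ℝ) ≤ R' := Nat.cast_nonneg R'
      nlinarith [mul_nonneg hR0 (by linarith : (0 : ℝ) ≤ (n : ℝ) - 1000)])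
    hGG
  have := M66.prob_rb hHB
  have h1 : ((law d ρ).prod ((Measure.pi fun _ : Fin q => law d (rb ρ b')).prod
      (Measure.pi fun _ : Fin q => law d (rb ρ b')))).real
      {w | |X β (g l) (mxJ b' T w.1 w.2.1) n - X β (g l) (mxJ b' T w.1 w.2.2) n| ≤
        (4 * C * K) * (4 * K) + 2 * (4 * C * K) * R' - 5 * Real.log θ} ≤
      ((law d ρ).prod ((Measure.pi fun _ : Fin q => law d (rb ρ b')).prod
      (Measure.pi fun _ : Fin q => law d (rb ρ b')))).real
      {w | |X β (g l) (mxJ b' T w.1 w.2.1) n - X β (g l) (mxJ b' T w.1 w.2.2) n| ≤ (M : ℝ)} :=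
    measureReal_mono fun w hw => le_trans hw hM
  have h2 : 1 / ((i : ℝ) + 1) < (θ ^ 2 / 2) ^ 3 / 32 := hi.trans_le (min_le_right _ _)
  linarith

end Pool.Agent.W_7d29a1_SDP
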