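import Pool.Agent.W_7d29a1_SDP.DefsE51
import Pool.Agent.W_7d29a1_SDP.MainS50

/-!
Theorem SDE from its leaves: the selection of the velocities.
-/

namespace Pool.Agent.W_7d29a1_SDP

open MeasureTheory ProbabilityTheory Filter Topology Pool.Agent.W_MP_7d29a1_pr
  Pool.Agent.W_7d29a1_h46 Pool.Agent.W_7d29a1_h46u Pool.Agent.W_7d29a1_D2.B35
  Pool.Agent.W_7d29a1_Q29 Pool.Agent.W_7d29a1_NV Pool.Agent.W_7d29a1_P89
  Pool.Agent.W_7d29a1_SD

namespace M50

/-- `pair_ev` for the events of a finite set of indices. -/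
lemma pair_evF {Ω : Type*} [MeasurableSpace Ω] (P : Measure Ω) [IsProbabilityMeasure P] {k : ℕ}
    (G : Fin k → Set Ω) (hG : ∀ i, MeasurableSet (G i)) (L : Finset (Fin k)) {α : ℝ} (hα : 0 < α)
    (hk : 4 ≤ (L.card : ℝ) * α ^ 2) (hP : ∀ i ∈ L, α ≤ P.real (G i)) :
    ∃ i j : Fin k, i ≠ j ∧ α ^ 2 / 2 ≤ P.real (G i ∩ G j) := by
  obtain ⟨i, j, hij, h⟩ := pair_ev P (k := L.card) (fun i => G (L.equivFin.symm i)) (fun i => hG _) hα
    hk (fun i => hP _ (L.equivFin.symm i).2)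
  refine ⟨_, _, fun h1 => hij ?_, h⟩
  exact L.equivFin.symm.injective (Subtype.ext h1)

open Classical in
/-- A length in `[N, 2 N)` which is bad for no tilt and good for many tilts. -/
lemma good_len2 {k N : ℕ} (hN : 0 < N) (hk : 0 < k) {η θ : ℝ} (hη : 2 * ((k : ℝ) * η) < θ)
    (A B : Fin k → ℕ → Prop)
    (hA : ∀ i, θ * N ≤ (((Finset.Ico N (2 * N)).filter fun n => A i n).card : ℝ))
    (hB : ∀ i, (((Finset.Ico N (2 * N)).filter fun n => B i n).card : ℝ) ≤ η * N) :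
    ∃ n, N ≤ n ∧ n < 2 * N ∧ (∀ i, ¬ B i n) ∧
      (k : ℝ) * θ / 2 ≤ ((Finset.univ.filter fun i => A i n).card : ℝ) := by
  by_contra hcon
  push Not at hcon
  obtain ⟨I, hI⟩ : ∃ I, I = Finset.Ico N (2 * N) := ⟨_, rfl⟩
  rw [← hI] at hA hB
  have hN0 : (0 : ℝ) < N := by exact_mod_cast hN
  have hk0 : (0 : ℝ) < k := by exact_mod_cast hk
  have hIc : (I.card : ℝ) = N := by
    rw [hI, Nat.card_Ico]
    have : 2 * N - N = N := by omega
    rw [this]
  have h1 : (k : ℝ) * (θ * N) ≤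
      ∑ i : Fin k, ∑ n ∈ I, (if A i n then (1 : ℝ) else 0) := by
    calc (k : ℝ) * (θ * N) = ∑ _i : Fin k, θ * N := by
          rw [Finset.sum_const, Finset.card_univ, Fintype.card_fin, nsmul_eq_mul]
      _ ≤ _ := Finset.sum_le_sum fun i _ => by
          rw [Finset.sum_boole]
          exact hA i
  have h2 : ∀ n ∈ I, ∑ i : Fin k, (if A i n then (1 : ℝ) else 0) ≤
      (k : ℝ) * θ / 2 + k * ∑ i : Fin k, (if B i n then (1 : ℝ) else 0) := by
    intro n hn
    rw [hI] at hn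
    have hn' := Finset.mem_Ico.1 hn
    rw [Finset.sum_boole]
    by_cases hb : ∀ i, ¬ B i n
    · have h3 := hcon n hn'.1 hn'.2 hb
      have h4 : 0 ≤ (k : ℝ) * ∑ i : Fin k, (if B i n then (1 : ℝ) else 0) :=
        mul_nonneg hk0.le (Finset.sum_nonneg fun i _ => by split_ifs <;> norm_num)
      linarith
    · push Not at hb
      obtain ⟨i, hi⟩ := hb
      have h3 : (1 : ℝ) ≤ ∑ i : Fin k, (if B i n then (1 : ℝ) else 0) := by
        calc (1 : ℝ) = if B i n then (1 : ℝ) else 0 := by rw [if_pos hi]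
          _ ≤ _ := Finset.single_le_sum (f := fun i => if B i n then (1 : ℝ) else 0)
              (fun i _ => by split_ifs <;> norm_num) (Finset.mem_univ i)
      have h4 : (((Finset.univ : Finset (Fin k)).filter fun i => A i n).card : ℝ) ≤ k := by
        have h5 := Finset.card_filter_le (Finset.univ : Finset (Fin k)) fun i => A i n
        rw [Finset.card_univ, Fintype.card_fin] at h5
        exact_mod_cast h5
      have h5 : (0 : ℝ) ≤ (k : ℝ) * θ / 2 := by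
        have h6 : (0 : ℝ) ≤ η * N := (Nat.cast_nonneg _).trans (hB i)
        have h7 : 0 ≤ η := by
          by_contra h8
          push Not at h8
          nlinarith
        have : 0 < θ := lt_of_le_of_lt (by positivity) hη
        positivity
      nlinarith
  have h3 : ∑ n ∈ I, ∑ i : Fin k, (if B i n then (1 : ℝ) else 0) ≤ (k : ℝ) * (η * N) := by
    rw [Finset.sum_comm]
    calc ∑ i : Fin k, ∑ n ∈ I, (if B i n then (1 : ℝ) else 0) ≤ ∑ _i : Fin k, η * N :=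
          Finset.sum_le_sum fun i _ => by
            rw [Finset.sum_boole]
            exact hB i
      _ = _ := by rw [Finset.sum_const, Finset.card_univ, Fintype.card_fin, nsmul_eq_mul]
  have h4 : ∑ i : Fin k, ∑ n ∈ I, (if A i n then (1 : ℝ) else 0) ≤
      (N : ℝ) * ((k : ℝ) * θ / 2) + k * ((k : ℝ) * (η * N)) := by
    rw [Finset.sum_comm]
    calc ∑ n ∈ I, ∑ i : Fin k, (if A i n then (1 : ℝ) else 0)
        ≤ ∑ n ∈ I, ((k : ℝ) * θ / 2 + k * ∑ i : Fin k, (if B i n then (1 : ℝ) else 0)) :=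
          Finset.sum_le_sum h2
      _ = (N : ℝ) * ((k : ℝ) * θ / 2) +
          k * ∑ n ∈ I, ∑ i : Fin k, (if B i n then (1 : ℝ) else 0) := by
          rw [Finset.sum_add_distrib, Finset.sum_const, nsmul_eq_mul, hIc, Finset.mul_sum]
      _ ≤ _ := by
          have := mul_le_mul_of_nonneg_left h3 hk0.le
          linarith
  have h5 := h1.trans h4
  have h6 : (k : ℝ) * N * (2 * (k * η)) < k * N * θ := mul_lt_mul_of_pos_left hη (by positivity)
  nlinarith

end M50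

variable {d : ℕ} {ρ : Measure ℝ}

lemma endB_mono50 {n : ℕ} (v : Vec d) {r r' : ℝ} (h : r ≤ r') : endB d n v r ⊆ endB d n v r' :=
  fun _ hs => le_trans hs h

/-- **Theorem SDE from its leaves.** -/
theorem mainSDE50 [IsProbabilityMeasure ρ] (hd : 0 < d) (hρ : EM ρ) (β : ℝ) (hL : AeLP d ρ β)
    (hA : ACu d ρ β) (hP : PairE d ρ β) (hS : SubE d ρ β) : MainSDE d ρ β := by
  classical
  obtain ⟨Q, hQ⟩ : ∃ Q : ℕ → ℕ → ℕ → ℕ → ℕ → ℕ → ℕ → Vec d → Vec d → Prop,
      Q = fun (j R n₀ M i w N₁ : ℕ) (h v : Vec d) => VSD ρ β h ∧ LP ρ β h v ∧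
        (∀ N : ℕ, n₀ ≤ N → 1 / ((j : ℝ) + 1) * N ≤ (((Finset.Ico N (2 * N)).filter fun n =>
          1 / ((j : ℝ) + 1) ≤
            (law d ρ).real {η | EndE β h v (R : ℝ) (1 / ((j : ℝ) + 1)) n η}).card : ℝ)) ∧
        (∀ N : ℕ, N₁ ≤ N → (((Finset.Ico N (2 * N)).filter fun n =>
          ¬ ACe ρ β h n w (M : ℝ) (1 / ((i : ℝ) + 1))).card : ℝ) ≤ 1 / ((i : ℝ) + 1) * N) := ⟨_, rfl⟩
  have hann : ∀ᵐ v : Vec d, ∀ j R n₀ M i w N₁ : ℕ, v ∈ {v | ∃ h, Q j R n₀ M i w N₁ h v} →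
      Sel70.Ann {v | ∃ h, Q j R n₀ M i w N₁ h v} v :=
    ae_all_iff.2 fun j => ae_all_iff.2 fun R => ae_all_iff.2 fun n₀ => ae_all_iff.2 fun M =>
      ae_all_iff.2 fun i => ae_all_iff.2 fun w => ae_all_iff.2 fun N₁ => Sel70.ae_ann hd _
  filter_upwards [hann, hL, Sel70.ae_lip (lam_convex hd hρ β)] with v hv1 hv2 hv3 h hV R ε hε N₀
  by_contra hcon
  push Not at hcon
  -- the event at one tilt
  obtain ⟨j, hj⟩ := exists_nat_one_div_lt (half_pos hε)
  obtain ⟨R', hR'⟩ := exists_nat_ge R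
  obtain ⟨θ, hθd⟩ : ∃ θ : ℝ, θ = 1 / ((j : ℝ) + 1) := ⟨_, rfl⟩
  have hθ : 0 < θ := by rw [hθd]; positivity
  have hθ1 : θ ≤ 1 := by
    rw [hθd, div_le_one (by positivity)]
    have : (0 : ℝ) ≤ j := Nat.cast_nonneg j
    linarith
  have htub : ∀ n : ℕ, Te ρ β h v R n ≤ 1 - ε →
      θ ≤ (law d ρ).real {η | EndE β h v (R' : ℝ) θ n η} := by
    intro n hn
    have h1 := M50.mean_ev (law d ρ)
      (measurable_PolT β h (endB d n v (R * Real.sqrt n))) (fun η => PolT_nonneg β h η _)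
      (fun η => PolT_le_one β h η _) hθ (ε := ε) (by rw [hθd]; linarith) hn
    refine h1.trans (measureReal_mono fun η hη => ?_)
    exact le_trans hη (PolT_mono β h η
      (endB_mono50 v (mul_le_mul_of_nonneg_right hR' (Real.sqrt_nonneg _))))
  have hcnt : ∀ N : ℕ, N₀ ≤ N → θ * N ≤ (((Finset.Ico N (2 * N)).filter fun n =>
      θ ≤ (law d ρ).real {η | EndE β h v (R' : ℝ) θ n η}).card : ℝ) := by
    intro N hN
    have h1 := (hcon N hN).le
    have h2 : θ * N ≤ ε * N := by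
      refine mul_le_mul_of_nonneg_right ?_ (Nat.cast_nonneg N)
      rw [hθd]
      linarith
    refine h2.trans (h1.trans ?_)
    have h3 : ((Finset.Ico N (2 * N)).filter fun n => Te ρ β h v R n ≤ 1 - ε).card ≤
        ((Finset.Ico N (2 * N)).filter fun n =>
          θ ≤ (law d ρ).real {η | EndE β h v (R' : ℝ) θ n η}).card :=
      Finset.card_le_card fun n hn => by
        rw [Finset.mem_filter] at hn ⊢
        exact ⟨hn.1, htub n hn.2⟩
    have h4 : (((Finset.Ico N (2 * N)).filter fun n => Te ρ β h v R n ≤ 1 - ε).card : ℝ) ≤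
        (((Finset.Ico N (2 * N)).filter fun n =>
          θ ≤ (law d ρ).real {η | EndE β h v (R' : ℝ) θ n η}).card : ℝ) := by
      exact_mod_cast h3
    convert h4
  have hfreq : ∃ᶠ n : ℕ in atTop, θ ≤ (law d ρ).real {η | EndE β h v (R' : ℝ) θ n η} := by
    rw [frequently_atTop]
    intro a
    have h1 := hcnt (max a (max N₀ 1)) ((le_max_left _ _).trans (le_max_right _ _))
    have h2 : (1 : ℕ) ≤ max a (max N₀ 1) := (le_max_right _ _).trans (le_max_right _ _)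
    have h3 : (0 : ℝ) < ((max a (max N₀ 1) : ℕ) : ℝ) := by
      exact_mod_cast h2
    have h4 : (0 : ℝ) < θ * ((max a (max N₀ 1) : ℕ) : ℝ) := mul_pos hθ h3
    have h5 := h4.trans_le h1
    have h6 : 0 < ((Finset.Ico (max a (max N₀ 1)) (2 * (max a (max N₀ 1)))).filter fun n =>
        θ ≤ (law d ρ).real {η | EndE β h v (R' : ℝ) θ n η}).card := by
      exact_mod_cast h5
    obtain ⟨n, hn⟩ := Finset.card_pos.1 h6
    rw [Finset.mem_filter, Finset.mem_Ico] at hn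
    exact ⟨n, (le_max_left _ _).trans hn.1.1, hn.2⟩
  have hslo := hS h v (R' : ℝ) θ θ hθ hθ hfreq
  have hLP := hv2 h hslo
  obtain ⟨C, δ, hC, hδ, hLip⟩ := hv3 h hslo
  -- the number of tilts
  obtain ⟨k, hk⟩ := exists_nat_ge (8 / θ ^ 3)
  have hk8 : 8 ≤ (k : ℝ) * θ ^ 3 := by rwa [div_le_iff₀ (by positivity)] at hk
  have hk0 : 0 < k := by
    rcases Nat.eq_zero_or_pos k with h0 | h0
    · rw [h0] at hk8
      norm_num at hk8
    · exact h0
  have hkr : (0 : ℝ) < k := by exact_mod_cast hk0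
  obtain ⟨b, hb⟩ : ∃ b : ℝ, b = 100 * ((R' : ℝ) + 1) := ⟨_, rfl⟩
  have hb0 : 0 < b := by rw [hb]; positivity
  obtain ⟨K, hK⟩ : ∃ K : ℝ, K = b * 4 ^ k := ⟨_, rfl⟩
  have hK0 : 0 < K := by rw [hK]; positivity
  obtain ⟨M, hM⟩ := exists_nat_ge ((4 * C * K) * (4 * K) + 2 * (4 * C * K) * R' - 5 * Real.log θ)
  obtain ⟨i, hi⟩ := exists_nat_one_div_lt
    (show (0 : ℝ) < min (θ / (2 * k)) ((θ ^ 2 / 2) ^ 3 / 32) by positivity)
  obtain ⟨w, N₁, hN₁⟩ := hA h v hV hLP (M : ℝ) (1 / ((i : ℝ) + 1)) (by positivity)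
  have hmem : v ∈ {v | ∃ h, Q j R' N₀ M i w N₁ h v} := by
    refine ⟨h, ?_⟩
    rw [hQ]
    refine ⟨hV, hLP, ?_, hN₁⟩
    rw [← hθd]
    exact hcnt
  obtain ⟨r₀, hr₀, hAnn⟩ := hv1 j R' N₀ M i w N₁ hmem
  have hmin : 0 < min r₀ δ := lt_min hr₀ hδ
  obtain ⟨N₂, hN₂⟩ := exists_nat_ge ((K / min r₀ δ) ^ 2)
  obtain ⟨N', hN'⟩ : ∃ N', N' = max (max N₀ N₁) (max N₂ (max 1000 (w ^ 2))) := ⟨_, rfl⟩
  have hNN : N₀ ≤ N' := by rw [hN']; exact (le_max_left _ _).trans (le_max_left _ _)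
  have hNN1 : N₁ ≤ N' := by rw [hN']; exact (le_max_right _ _).trans (le_max_left _ _)
  have hNN2 : N₂ ≤ N' := by rw [hN']; exact (le_max_left _ _).trans (le_max_right _ _)
  have hN1000 : 1000 ≤ N' := by
    rw [hN']
    exact ((le_max_left _ _).trans (le_max_right _ _)).trans (le_max_right _ _)
  have hNw : w ^ 2 ≤ N' := by
    rw [hN']
    exact ((le_max_right _ _).trans (le_max_right _ _)).trans (le_max_right _ _)
  have hNr : (1000 : ℝ) ≤ N' := by exact_mod_cast hN1000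
  have hs0 : 0 < Real.sqrt N' := Real.sqrt_pos.2 (by linarith)
  have hKr : K / Real.sqrt N' ≤ min r₀ δ := by
    rw [div_le_iff₀ hs0, ← div_le_iff₀' hmin]
    apply Real.le_sqrt_of_sq_le
    refine hN₂.trans ?_
    exact_mod_cast hNN2
  have h4k : ∀ l : Fin k, (4 : ℝ) ^ (l : ℕ) ≤ 4 ^ k := fun l =>
    pow_le_pow_right₀ (by norm_num) l.2.le
  have hrl : ∀ l : Fin k, b * 4 ^ (l : ℕ) / Real.sqrt N' ≤ K / Real.sqrt N' := fun l => by
    refine div_le_div_of_nonneg_right ?_ hs0.le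
    rw [hK]
    exact mul_le_mul_of_nonneg_left (h4k l) hb0.le
  have hch : ∀ l : Fin k, ∃ y : Vec d, ∃ g : Vec d, Q j R' N₀ M i w N₁ g y ∧
      b * 4 ^ (l : ℕ) / Real.sqrt N' / 2 ≤ ‖y - v‖ ∧ ‖y - v‖ ≤ b * 4 ^ (l : ℕ) / Real.sqrt N' := by
    intro l
    obtain ⟨y, ⟨g, hg⟩, hy1, hy2⟩ := hAnn (b * 4 ^ (l : ℕ) / Real.sqrt N') (by positivity)
      ((hrl l).trans (hKr.trans (min_le_left _ _)))
    exact ⟨y, g, hg, hy1, hy2⟩
  choose y g hg hy1 hy2 using hch
  rw [hQ] at hg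
  -- the tilts are close
  have hgl : ∀ l, ‖g l - h‖ ≤ C * (K / Real.sqrt N') := by
    intro l
    have h1 := hLip (g l) (y l) (hg l).2.1.slo
      ((hy2 l).trans ((hrl l).trans (hKr.trans (min_le_right _ _))))
    refine h1.trans (mul_le_mul_of_nonneg_left ((hy2 l).trans (hrl l)) hC.le)
  -- the velocities are separated
  have hsep' : ∀ l m : Fin k, l < m → b / Real.sqrt N' ≤ ‖y m - y l‖ := by
    intro l m hlm
    have h1 : ‖y m - v‖ ≤ ‖y m - y l‖ + ‖y l - v‖ := by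
      calc ‖y m - v‖ = ‖(y m - y l) + (y l - v)‖ := by congr 1; abel
        _ ≤ _ := norm_add_le _ _
    have h2 := hy1 m
    have h3 := hy2 l
    have h4 : (4 : ℝ) ^ ((l : ℕ) + 1) ≤ 4 ^ (m : ℕ) := pow_le_pow_right₀ (by norm_num) hlm
    have h5 : (1 : ℝ) ≤ 4 ^ (l : ℕ) := one_le_pow₀ (by norm_num)
    rw [pow_succ] at h4
    have h6 : b / Real.sqrt N' ≤ b * 4 ^ (m : ℕ) / Real.sqrt N' / 2 -
        b * 4 ^ (l : ℕ) / Real.sqrt N' := by
      have e : b * 4 ^ (m : ℕ) / Real.sqrt N' / 2 - b * 4 ^ (l : ℕ) / Real.sqrt N' =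
          b * (4 ^ (m : ℕ) / 2 - 4 ^ (l : ℕ)) / Real.sqrt N' := by
        field_simp
      rw [e]
      refine div_le_div_of_nonneg_right ?_ hs0.le
      nlinarith
    linarith
  have hsep : ∀ l m : Fin k, l ≠ m → b / Real.sqrt N' ≤ ‖y m - y l‖ := by
    intro l m hlm
    rcases lt_or_gt_of_ne hlm with h1 | h1
    · exact hsep' l m h1
    · rw [norm_sub_rev]
      exact hsep' m l h1
  have hyy : ∀ l m : Fin k, ‖y m - y l‖ ≤ 2 * (K / Real.sqrt N') := by
    intro l m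
    have h1 : ‖y m - y l‖ ≤ ‖y m - v‖ + ‖y l - v‖ := by
      calc ‖y m - y l‖ = ‖(y m - v) - (y l - v)‖ := by congr 1; abel
        _ ≤ _ := norm_sub_le _ _
    have h2 := (hy2 m).trans (hrl m)
    have h3 := (hy2 l).trans (hrl l)
    linarith
  have hgg : ∀ l m : Fin k, ‖g m - g l‖ ≤ 2 * (C * (K / Real.sqrt N')) := by
    intro l m
    have h1 : ‖g m - g l‖ ≤ ‖g m - h‖ + ‖g l - h‖ := by
      calc ‖g m - g l‖ = ‖(g m - h) - (g l - h)‖ := by congr 1; abel
        _ ≤ _ := norm_sub_le _ _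
    have h2 := hgl m
    have h3 := hgl l
    linarith
  -- the length
  have hki : 2 * ((k : ℝ) * (1 / ((i : ℝ) + 1))) < θ := by
    have h1 : 1 / ((i : ℝ) + 1) < θ / (2 * k) := hi.trans_le (min_le_left _ _)
    have h2 : (2 * (k : ℝ)) * (1 / ((i : ℝ) + 1)) < (2 * k) * (θ / (2 * k)) :=
      mul_lt_mul_of_pos_left h1 (by positivity)
    have h3 : (2 * (k : ℝ)) * (θ / (2 * k)) = θ := mul_div_cancel₀ _ (by positivity)
    linarith
  obtain ⟨n, hn1, hn2, hn3, hn4⟩ := M50.good_len2 (k := k) (N := N') (by omega) hk0 hki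
    (fun l n => θ ≤ (law d ρ).real {η | EndE β (g l) (y l) (R' : ℝ) θ n η})
    (fun l n => ¬ ACe ρ β (g l) n w (M : ℝ) (1 / ((i : ℝ) + 1)))
    (fun l => by
      have h7 := (hg l).2.2.1 N' hNN
      rw [← hθd] at h7
      convert h7)
    (fun l => by
      have h7 := (hg l).2.2.2 N' hNN1
      convert h7)
  obtain ⟨l, m, hlm, hGG⟩ := M50.pair_evF (law d ρ)
    (fun l => {η | EndE β (g l) (y l) (R' : ℝ) θ n η})
    (fun l => measurableSet_le measurable_const (measurable_PolT β (g l) _))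
    (Finset.univ.filter fun l => θ ≤ (law d ρ).real {η | EndE β (g l) (y l) (R' : ℝ) θ n η}) hθ
    (by
      have h7 : (k : ℝ) * θ / 2 * θ ^ 2 ≤ ((Finset.univ.filter fun l =>
          θ ≤ (law d ρ).real {η | EndE β (g l) (y l) (R' : ℝ) θ n η}).card : ℝ) * θ ^ 2 :=
        mul_le_mul_of_nonneg_right hn4 (by positivity)
      have h8 : (k : ℝ) * θ / 2 * θ ^ 2 = k * θ ^ 3 / 2 := by ring
      rw [h8] at h7
      linarith)
    (fun l hl => (Finset.mem_filter.1 hl).2)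
  obtain ⟨b', q, T, hHB, hinj, hT, hprob⟩ := not_not.1 (hn3 l)
  have hnr : (N' : ℝ) ≤ n := by exact_mod_cast hn1
  have hnr2 : (n : ℝ) ≤ 4 * N' := by
    have : (n : ℝ) < 2 * N' := by exact_mod_cast hn2
    linarith
  have hsn : Real.sqrt n ≤ 2 * Real.sqrt N' := by
    rw [Real.sqrt_le_left (by positivity), mul_pow, Real.sq_sqrt (by linarith)]
    linarith
  have hsn' : Real.sqrt N' ≤ Real.sqrt n := Real.sqrt_le_sqrt hnr
  have hsn0 : 0 < Real.sqrt n := hs0.trans_le hsn'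
  have hscale : ∀ x : ℝ, 0 ≤ x → x / Real.sqrt N' * Real.sqrt n ≤ 2 * x := by
    intro x hx
    rw [div_mul_eq_mul_div, div_le_iff₀ hs0]
    nlinarith
  have hmain := hP b' hHB (g l) (g m) (y l) (y m) n w q T (R' : ℝ) (4 * K) (4 * C * K) θ
    (θ ^ 2 / 2) hinj hT (Nat.cast_nonneg _) (by positivity) (by positivity) hθ hθ1
    (by positivity)
    (by
      calc ‖y m - y l‖ * Real.sqrt n ≤ 2 * (K / Real.sqrt N') * Real.sqrt n :=
            mul_le_mul_of_nonneg_right (hyy l m) hsn0.le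
        _ = 2 * (K / Real.sqrt N' * Real.sqrt n) := by ring
        _ ≤ 2 * (2 * K) := by
            have := hscale K hK0.le
            linarith
        _ = 4 * K := by ring)
    (by
      calc ‖g m - g l‖ * Real.sqrt n ≤ 2 * (C * (K / Real.sqrt N')) * Real.sqrt n :=
            mul_le_mul_of_nonneg_right (hgg l m) hsn0.le
        _ = 2 * C * (K / Real.sqrt N' * Real.sqrt n) := by ring
        _ ≤ 2 * C * (2 * K) := mul_le_mul_of_nonneg_left (hscale K hK0.le) (by positivity)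
        _ = 4 * C * K := by ring)
    (by
      have h5 : b / Real.sqrt n ≤ ‖y m - y l‖ :=
        (div_le_div_of_nonneg_left hb0.le hs0 hsn').trans (hsep l m hlm)
      have h6 : (n : ℝ) * (b / Real.sqrt n) ≤ (n : ℝ) * ‖y m - y l‖ :=
        mul_le_mul_of_nonneg_left h5 (Nat.cast_nonneg _)
      refine lt_of_lt_of_le ?_ h6
      have e1 : (n : ℝ) * (b / Real.sqrt n) = b * Real.sqrt n := by
        rw [mul_div_assoc', div_eq_iff hsn0.ne', mul_assoc, Real.mul_self_sqrt (by linarith)]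
        ring
      rw [e1, hb]
      have h7 : (w : ℝ) ≤ Real.sqrt n := by
        apply Real.le_sqrt_of_sq_le
        have h8 : (w : ℝ) ^ 2 ≤ N' := by exact_mod_cast hNw
        linarith
      have hR0 : (0 : ℝ) ≤ R' := Nat.cast_nonneg R'
      nlinarith [mul_nonneg hR0 hsn0.le])
    hGG
  have := M66.prob_rb hHB
  have h1 : ((law d ρ).prod ((Measure.pi fun _ : Fin q => law d (rb ρ b')).prod
      (Measure.pi fun _ : Fin q => law d (rb ρ b')))).real
      {w | |X β (g l) (mxJ b' T w.1 w.2.1) n - X β (g l) (mxJ b' T w.1 w.2.2) n| ≤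
        (4 * C * K) * (4 * K) + 2 * (4 * C * K) * R' - 5 * Real.log θ} ≤
      ((law d ρ).prod ((Measure.pi fun _ : Fin q => law d (rb ρ b')).prod
      (Measure.pi fun _ : Fin q => law d (rb ρ b')))).real
      {w | |X β (g l) (mxJ b' T w.1 w.2.1) n - X β (g l) (mxJ b' T w.1 w.2.2) n| ≤ (M : ℝ)} :=
    measureReal_mono fun w hw => le_trans hw hM
  have h2 : 1 / ((i : ℝ) + 1) < (θ ^ 2 / 2) ^ 3 / 32 := hi.trans_le (min_le_right _ _)
  linarith

end Pool.Agent.W_7d29a1_SDP
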