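import Pool.Agent.W_7d29a1_SDP.DefsM51
import Pool.Agent.W_7d29a1_SDP.MainE50

/-!
Theorem SDM, leaf CORE: separated velocities whose end points are all confined are not all good for
the anticoncentration.
-/

namespace Pool.Agent.W_7d29a1_SDP

open MeasureTheory ProbabilityTheory Filter Topology Pool.Agent.W_MP_7d29a1_pr
  Pool.Agent.W_7d29a1_h46 Pool.Agent.W_7d29a1_h46u Pool.Agent.W_7d29a1_D2.B35
  Pool.Agent.W_7d29a1_Q29 Pool.Agent.W_7d29a1_NV Pool.Agent.W_7d29a1_P89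
  Pool.Agent.W_7d29a1_SD

/-- Leaf CORE. -/
theorem coreE50 {d : ℕ} {ρ : Measure ℝ} [IsProbabilityMeasure ρ] {β : ℝ} (hP : PairE d ρ β) :
    CoreE d ρ β := by
  classical
  intro R θ hR hθ hθ1
  -- the number of tilts
  obtain ⟨k, hk⟩ := exists_nat_ge (8 / θ ^ 3)
  have hk8 : 8 ≤ (k : ℝ) * θ ^ 3 := by rwa [div_le_iff₀ (by positivity)] at hk
  have hk0 : 0 < k := by
    rcases Nat.eq_zero_or_pos k with h0 | h0
    · rw [h0] at hk8
      norm_num at hk8
    · exact h0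
  have hkr : (0 : ℝ) < k := by exact_mod_cast hk0
  obtain ⟨b, hb⟩ : ∃ b : ℝ, b = 100 * (R + 1) := ⟨_, rfl⟩
  have hb0 : 0 < b := by rw [hb]; positivity
  refine ⟨k, b, hb0, fun K C hK hC => ?_⟩
  obtain ⟨M, hM⟩ : ∃ M : ℝ, M = (2 * C) * (2 * K) + 2 * (2 * C) * R - 5 * Real.log θ := ⟨_, rfl⟩
  obtain ⟨η', hη'⟩ : ∃ η' : ℝ, η' = min (θ / (4 * k)) ((θ ^ 2 / 2) ^ 3 / 64) := ⟨_, rfl⟩
  have hη0 : 0 < η' := by rw [hη']; positivity
  have hη1 : η' ≤ θ / (4 * k) := by rw [hη']; exact min_le_left _ _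
  have hη2 : η' ≤ (θ ^ 2 / 2) ^ 3 / 64 := by rw [hη']; exact min_le_right _ _
  refine ⟨M, η', hη0, fun w => ⟨max 1 (w ^ 2), fun N hN g y hyy hgg hsep hcnt hbad => ?_⟩⟩
  have hN1 : 1 ≤ N := (le_max_left _ _).trans hN
  have hNw : w ^ 2 ≤ N := (le_max_right _ _).trans hN
  have hNr : (1 : ℝ) ≤ N := by exact_mod_cast hN1
  have hs0 : 0 < Real.sqrt N := Real.sqrt_pos.2 (by linarith)
  -- the length
  have hki : 2 * ((k : ℝ) * η') < θ := by
    have h2 : (2 * (k : ℝ)) * η' ≤ (2 * k) * (θ / (4 * k)) :=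
      mul_le_mul_of_nonneg_left hη1 (by positivity)
    have h3 : (2 * (k : ℝ)) * (θ / (4 * k)) = θ / 2 := by
      field_simp
      ring
    linarith
  obtain ⟨n, hn1, hn2, hn3, hn4⟩ := M50.good_len2 (k := k) (N := N) (by omega) hk0 hki
    (fun l n => θ ≤ (law d ρ).real {η | EndE β (g l) (y l) R θ n η})
    (fun l n => ¬ ACe ρ β (g l) n w M η')
    (fun l => by
      have h7 := hcnt l
      convert h7)
    (fun l => by
      have h7 := hbad l
      convert h7)
  obtain ⟨l, m, hlm, hGG⟩ := M50.pair_evF (law d ρ)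
    (fun l => {η | EndE β (g l) (y l) R θ n η})
    (fun l => measurableSet_le measurable_const (measurable_PolT β (g l) _))
    (Finset.univ.filter fun l => θ ≤ (law d ρ).real {η | EndE β (g l) (y l) R θ n η}) hθ
    (by
      have h7 : (k : ℝ) * θ / 2 * θ ^ 2 ≤ ((Finset.univ.filter fun l =>
          θ ≤ (law d ρ).real {η | EndE β (g l) (y l) R θ n η}).card : ℝ) * θ ^ 2 :=
        mul_le_mul_of_nonneg_right hn4 (by positivity)
      have h8 : (k : ℝ) * θ / 2 * θ ^ 2 = k * θ ^ 3 / 2 := by ring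
      rw [h8] at h7
      linarith)
    (fun l hl => (Finset.mem_filter.1 hl).2)
  obtain ⟨b', q, T, hHB, hinj, hT, hprob⟩ := not_not.1 (hn3 l)
  have hnr : (N : ℝ) ≤ n := by exact_mod_cast hn1
  have hnr2 : (n : ℝ) ≤ 4 * N := by
    have : (n : ℝ) < 2 * N := by exact_mod_cast hn2
    linarith
  have hsn : Real.sqrt n ≤ 2 * Real.sqrt N := by
    rw [Real.sqrt_le_left (by positivity), mul_pow, Real.sq_sqrt (by linarith)]
    linarith
  have hsn' : Real.sqrt N ≤ Real.sqrt n := Real.sqrt_le_sqrt hnr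
  have hsn0 : 0 < Real.sqrt n := hs0.trans_le hsn'
  have hscale : ∀ x B : ℝ, 0 ≤ x → x * Real.sqrt N ≤ B → x * Real.sqrt n ≤ 2 * B := by
    intro x B hx hB
    have h1 := mul_le_mul_of_nonneg_left hsn hx
    linarith
  have hmain := hP b' hHB (g l) (g m) (y l) (y m) n w q T R (2 * K) (2 * C) θ
    (θ ^ 2 / 2) hinj hT hR (by positivity) (by positivity) hθ hθ1
    (by positivity)
    (hscale _ _ (norm_nonneg _) (hyy m l))
    (hscale _ _ (norm_nonneg _) (hgg m l))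
    (by
      have h5 : b ≤ ‖y m - y l‖ * Real.sqrt n :=
        (hsep m l (Ne.symm hlm)).trans (mul_le_mul_of_nonneg_left hsn' (norm_nonneg _))
      have h6 : b * Real.sqrt n ≤ (n : ℝ) * ‖y m - y l‖ := by
        calc b * Real.sqrt n ≤ ‖y m - y l‖ * Real.sqrt n * Real.sqrt n :=
              mul_le_mul_of_nonneg_right h5 hsn0.le
          _ = (n : ℝ) * ‖y m - y l‖ := by
              rw [mul_assoc, Real.mul_self_sqrt (by linarith)]
              ring
      refine lt_of_lt_of_le ?_ h6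
      rw [hb]
      have h7 : (w : ℝ) ≤ Real.sqrt n := by
        apply Real.le_sqrt_of_sq_le
        have h8 : (w : ℝ) ^ 2 ≤ N := by exact_mod_cast hNw
        linarith
      nlinarith [mul_nonneg hR hsn0.le])
    hGG
  rw [← hM] at hmain
  have h2 : (θ ^ 2 / 2) ^ 3 / 64 < (θ ^ 2 / 2) ^ 3 / 32 := by
    have : 0 < (θ ^ 2 / 2) ^ 3 := by positivity
    linarith
  have h3 := hmain.trans hprob
  linarith

end Pool.Agent.W_7d29a1_SDP
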