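import Pool.Agent.W_7d29a1_SDP.DefsE51

/-!
Theorem SDM: the end point at ALL scales, for most velocities and most lengths: the volume of the
set of the velocities of very strong disorder whose end point is confined to the ball of radius
`R √n` at a positive fraction of the lengths of `[N, 2 N)` tends to zero as `N → ∞`.
-/

namespace Pool.Agent.W_7d29a1_SDP

open MeasureTheory ProbabilityTheory Filter Topology Pool.Agent.W_MP_7d29a1_pr
  Pool.Agent.W_7d29a1_h46 Pool.Agent.W_7d29a1_h46u Pool.Agent.W_7d29a1_D2.B35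
  Pool.Agent.W_7d29a1_Q29 Pool.Agent.W_7d29a1_NV Pool.Agent.W_7d29a1_P89
  Pool.Agent.W_7d29a1_SD

open Classical in
/-- The velocities of very strong disorder whose end point is confined at a positive fraction of
the lengths of the block `[N, 2 N)`. -/
def BadE {d : ℕ} (ρ : Measure ℝ) (β R ε : ℝ) (N : ℕ) : Set (Vec d) :=
  {v | ∃ h : Vec d, VSD ρ β h ∧ (∀ k : Vec d, lam ρ β h + inner ℝ v k ≤ lam ρ β (h + k)) ∧
    ε * N ≤ (((Finset.Ico N (2 * N)).filter fun n => Te ρ β h v R n ≤ 1 - ε).card : ℝ)}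

/-- Leaf COV (pure): a set of volume at least `κ` in a ball has `k` points in a ball of radius
`K s` which are separated at the scale `b s`. -/
def CovE (d : ℕ) : Prop := ∀ (L κ b : ℝ) (k : ℕ), 0 < L → 0 < κ → 0 < b →
  ∃ K s₀ : ℝ, 0 < K ∧ 0 < s₀ ∧ ∀ s : ℝ, 0 < s → s ≤ s₀ → ∀ B : Set (Vec d),
    B ⊆ Metric.closedBall 0 L → ENNReal.ofReal κ ≤ volume B →
      ∃ y : Fin k → Vec d, (∀ l, y l ∈ B) ∧ (∀ l m, ‖y l - y m‖ ≤ K * s) ∧
        ∀ l m, l ≠ m → b * s ≤ ‖y l - y m‖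

section Leaves

variable (d : ℕ) (ρ : Measure ℝ) (β : ℝ)

/-- Leaf MEAS: the set of the bad velocities is measurable. -/
def MeasE : Prop := ∀ (R ε : ℝ) (N : ℕ), MeasurableSet (BadE (d := d) ρ β R ε N)

open Classical in
/-- Leaf CORE (from `PairE`): `k` velocities at the scale `1 / √N`, separated at the scale
`b / √N`, with tilts at the scale `1 / √N`, whose end points are all confined at a positive
fraction of the lengths of `[N, 2 N)`, are not all good for the anticoncentration. -/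
def CoreE : Prop := ∀ R θ : ℝ, 0 ≤ R → 0 < θ → θ ≤ 1 → ∃ (k : ℕ) (b : ℝ), 0 < b ∧
  ∀ K C : ℝ, 0 < K → 0 < C → ∃ M η' : ℝ, 0 < η' ∧ ∀ m : ℕ, ∃ N₁ : ℕ, ∀ N : ℕ, N₁ ≤ N →
    ∀ g y : Fin k → Vec d,
      (∀ l l', ‖y l - y l'‖ * Real.sqrt N ≤ K) → (∀ l l', ‖g l - g l'‖ * Real.sqrt N ≤ C) →
      (∀ l l', l ≠ l' → b ≤ ‖y l - y l'‖ * Real.sqrt N) →
      (∀ l, θ * N ≤ (((Finset.Ico N (2 * N)).filter fun n =>
        θ ≤ (law d ρ).real {η | EndE β (g l) (y l) R θ n η}).card : ℝ)) →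
      ¬ ∀ l, (((Finset.Ico N (2 * N)).filter fun n => ¬ ACe ρ β (g l) n m M η').card : ℝ) ≤
        η' * N

/-- The theorem (from `ACu`, `CoreE`, `AeLP`, `CovE`, `MeasE`). -/
def MainSDM : Prop := ∀ R ε : ℝ, 0 < ε →
  Tendsto (fun N : ℕ => volume (BadE (d := d) ρ β R ε N)) atTop (𝓝 0)

end Leaves

end Pool.Agent.W_7d29a1_SDP
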