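import Pool.Agent.W_7d29a1_SDP.CoreE50
import Pool.Agent.W_7d29a1_SDP.AeLP96
import Pool.Agent.W_7d29a1_SDP.LuckU21

/-!
Theorem SDM from its leaves.
-/

namespace Pool.Agent.W_7d29a1_SDP

open MeasureTheory ProbabilityTheory Filter Topology Pool.Agent.W_MP_7d29a1_pr
  Pool.Agent.W_7d29a1_h46 Pool.Agent.W_7d29a1_h46u Pool.Agent.W_7d29a1_D2.B35
  Pool.Agent.W_7d29a1_Q29 Pool.Agent.W_7d29a1_NV Pool.Agent.W_7d29a1_P89
  Pool.Agent.W_7d29a1_SD

namespace M50

/-- Outer measures of increasing sets. -/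
lemma outer {α : Type*} [MeasurableSpace α] {μ : Measure α} {K : Set α} (hK : μ K ≠ ⊤)
    {S : ℕ → Set α} (hm : Monotone S) (hSK : ∀ n, S n ⊆ K) (hU : μ (K \ ⋃ n, S n) = 0) {κ : ℝ}
    (hκ : 0 < κ) : ∃ n, μ.real K - κ < μ.real (S n) := by
  have h1 : μ K ≤ μ (⋃ n, S n) := by
    calc μ K ≤ μ ((⋃ n, S n) ∪ (K \ ⋃ n, S n)) := measure_mono fun x hx => by
          by_cases h : x ∈ ⋃ n, S n
          · exact Or.inl h
          · exact Or.inr ⟨hx, h⟩
      _ ≤ μ (⋃ n, S n) + μ (K \ ⋃ n, S n) := measure_union_le _ _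
      _ = _ := by rw [hU, add_zero]
  have h2 : μ (⋃ n, S n) = μ K := le_antisymm (measure_mono (Set.iUnion_subset hSK)) h1
  have h3 := tendsto_measure_iUnion_atTop (μ := μ) hm
  rw [h2] at h3
  have h4 : Tendsto (fun n => μ.real (S n)) atTop (𝓝 (μ.real K)) :=
    (ENNReal.tendsto_toReal hK).comp h3
  obtain ⟨n, hn⟩ := (h4.eventually (lt_mem_nhds (show μ.real K - κ < μ.real K by linarith))).exists
  exact ⟨n, hn⟩

/-- The part of an arbitrary set in a measurable set. -/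
lemma inter {α : Type*} [MeasurableSpace α] {μ : Measure α} {K F B : Set α} (hK : μ K ≠ ⊤)
    (hF : F ⊆ K) (hB : B ⊆ K) (hBm : MeasurableSet B) :
    μ.real F ≤ μ.real (F ∩ B) + (μ.real K - μ.real B) := by
  have h1 : μ.real (K \ B) = μ.real K - μ.real B :=
    measureReal_sdiff hB hBm hK
  have h2 : μ.real F ≤ μ.real ((F ∩ B) ∪ (K \ B)) := by
    refine measureReal_mono (fun x hx => ?_) ?_
    · by_cases h : x ∈ B
      · exact Or.inl ⟨hx, h⟩
      · exact Or.inr ⟨hF hx, h⟩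
    · exact measure_ne_top_of_subset
        (Set.union_subset (Set.inter_subset_left.trans hF) Set.sdiff_subset) hK
  have h3 := measureReal_union_le (μ := μ) (F ∩ B) (K \ B)
  linarith

end M50

variable {d : ℕ} {ρ : Measure ℝ}

lemma ACe_mono50 {β : ℝ} {h : Vec d} {n m m' : ℕ} {M η' : ℝ} (hm : m ≤ m')
    (H : ACe ρ β h n m M η') : ACe ρ β h n m' M η' := by
  obtain ⟨b, q, T, h1, h2, h3, h4⟩ := H
  exact ⟨b, q, T, h1, h2, fun i => ⟨(h3 i).1.trans_le (by omega), (h3 i).2⟩, h4⟩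

/-- **Theorem SDM from its leaves.** -/
theorem mainSDM50 [IsProbabilityMeasure ρ] (hd : 0 < d) (hρ : EM ρ) (β : ℝ) (hL : AeLP d ρ β)
    (hA : ACu d ρ β) (hC : CoreE d ρ β) (hV : CovE d) (hMs : MeasE d ρ β) : MainSDM d ρ β := by
  classical
  intro R ε hε
  obtain ⟨Sl, hSl⟩ : ∃ Sl : Vec d → Vec d → Prop,
      Sl = fun h v => ∀ k : Vec d, lam ρ β h + inner ℝ v k ≤ lam ρ β (h + k) := ⟨_, rfl⟩
  obtain ⟨Kb, hKb⟩ : ∃ Kb : Set (Vec d), Kb = Metric.closedBall 0 1 := ⟨_, rfl⟩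
  have hKf : volume Kb ≠ ⊤ := by
    rw [hKb]
    exact measure_closedBall_lt_top.ne
  have hslK : ∀ h v : Vec d, Sl h v → v ∈ Kb := by
    intro h v hv
    rw [hSl] at hv
    rw [hKb, mem_closedBall_zero_iff]
    exact (norm_le_sum21 v).trans (L96.slope_le hd hρ β h v hv)
  have hBK : ∀ N, BadE (d := d) ρ β R ε N ⊆ Kb := by
    rintro N v ⟨h, _, hs, _⟩
    refine hslK h v ?_
    rw [hSl]
    exact hs
  rw [ENNReal.tendsto_atTop_zero]
  by_contra hcon
  push Not at hcon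
  obtain ⟨κ', hκ', hinf⟩ := hcon
  obtain ⟨N₀, -, hN₀⟩ := hinf 0
  have hκf : κ' ≠ ⊤ := (hN₀.trans_le (le_top)).ne
  obtain ⟨κ, hκd⟩ : ∃ κ : ℝ, κ = κ'.toReal := ⟨_, rfl⟩
  have hκ : 0 < κ := by
    rw [hκd]
    exact ENNReal.toReal_pos hκ'.ne' hκf
  -- the velocities with a Lipschitz inverse gradient
  obtain ⟨D, hD⟩ : ∃ D : ℕ → Set (Vec d), D = fun (c : ℕ) => {v | v ∈ Kb ∧
      (∀ h, Sl h v → LP ρ β h v) ∧ ∀ h, Sl h v → ∀ g y, Sl g y → ‖y - v‖ ≤ 1 / ((c : ℝ) + 1) →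
        ‖g - h‖ ≤ (c : ℝ) * ‖y - v‖} := ⟨_, rfl⟩
  have hDm : Monotone D := by
    intro c c' hcc v hv
    rw [hD] at hv ⊢
    refine ⟨hv.1, hv.2.1, fun h hh g y hgy hy => ?_⟩
    have hccr : (c : ℝ) ≤ c' := by exact_mod_cast hcc
    have h1 : 1 / ((c' : ℝ) + 1) ≤ 1 / ((c : ℝ) + 1) :=
      one_div_le_one_div_of_le (by positivity) (by linarith)
    exact (hv.2.2 h hh g y hgy (hy.trans h1)).trans
      (mul_le_mul_of_nonneg_right hccr (norm_nonneg _))
  have hDK : ∀ c, D c ⊆ Kb := by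
    intro c v hv
    rw [hD] at hv
    exact hv.1
  have hDU : volume (Kb \ ⋃ c, D c) = 0 := by
    rw [measure_eq_zero_iff_ae_notMem]
    filter_upwards [hL, Sel70.ae_lip (lam_convex hd hρ β)] with v hv2 hv3
    rintro ⟨hvK, hvU⟩
    apply hvU
    rw [Set.mem_iUnion]
    by_cases hex : ∃ h, Sl h v
    · obtain ⟨h₀, hh₀⟩ := hex
      have hh₀' := hh₀
      rw [hSl] at hh₀'
      obtain ⟨C, δ, hC0, hδ, hLip⟩ := hv3 h₀ hh₀'
      obtain ⟨c, hc⟩ := exists_nat_ge (max C (1 / δ))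
      refine ⟨c, ?_⟩
      rw [hD]
      refine ⟨hvK, fun h hh => ?_, fun h hh g y hgy hy => ?_⟩
      · rw [hSl] at hh
        exact hv2 h hh
      · rw [hSl] at hh hgy
        have h1 := hLip h v hh (by rw [sub_self, norm_zero]; exact hδ.le)
        rw [sub_self, norm_zero, mul_zero] at h1
        have h2 : h = h₀ := sub_eq_zero.1 (norm_le_zero_iff.1 h1)
        have h3 : 1 / ((c : ℝ) + 1) ≤ δ := by
          rw [one_div_le (by positivity) hδ]
          have := (le_max_right C (1 / δ)).trans hc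
          linarith
        have h4 := hLip g y hgy (hy.trans h3)
        rw [h2]
        exact h4.trans (mul_le_mul_of_nonneg_right ((le_max_left C (1 / δ)).trans hc)
          (norm_nonneg _))
    · refine ⟨0, ?_⟩
      rw [hD]
      exact ⟨hvK, fun h hh => absurd ⟨h, hh⟩ hex, fun h hh => absurd ⟨h, hh⟩ hex⟩
  obtain ⟨c, hc⟩ := M50.outer hKf hDm hDK hDU (show 0 < κ / 4 by positivity)
  have hDf : volume (D c) ≠ ⊤ := measure_ne_top_of_subset (hDK c) hKf
  -- the events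
  obtain ⟨θ, hθd⟩ : ∃ θ : ℝ, θ = min (ε / 2) 1 := ⟨_, rfl⟩
  have hθ : 0 < θ := by rw [hθd]; positivity
  have hθ1 : θ ≤ 1 := by rw [hθd]; exact min_le_right _ _
  have hθε : 2 * θ ≤ ε := by
    have : θ ≤ ε / 2 := by rw [hθd]; exact min_le_left _ _
    linarith
  have htub : ∀ (h v : Vec d) (n : ℕ), Te ρ β h v R n ≤ 1 - ε →
      θ ≤ (law d ρ).real {η | EndE β h v (max R 0) θ n η} := by
    intro h v n hn
    have h1 := M50.mean_ev (law d ρ)
      (measurable_PolT β h (endB d n v (R * Real.sqrt n))) (fun η => PolT_nonneg β h η _)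
      (fun η => PolT_le_one β h η _) hθ (ε := ε) hθε hn
    refine h1.trans (measureReal_mono fun η hη => ?_)
    exact le_trans hη (PolT_mono β h η
      (endB_mono50 v (mul_le_mul_of_nonneg_right (le_max_left _ _) (Real.sqrt_nonneg _))))
  have hcnt : ∀ (h v : Vec d) (N : ℕ), ε * N ≤
      (((Finset.Ico N (2 * N)).filter fun n => Te ρ β h v R n ≤ 1 - ε).card : ℝ) →
      θ * N ≤ (((Finset.Ico N (2 * N)).filter fun n =>
        θ ≤ (law d ρ).real {η | EndE β h v (max R 0) θ n η}).card : ℝ) := by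
    intro h v N h1
    have h2 : θ * N ≤ ε * N := mul_le_mul_of_nonneg_right (by linarith) (Nat.cast_nonneg N)
    refine h2.trans (h1.trans ?_)
    have h3 : ((Finset.Ico N (2 * N)).filter fun n => Te ρ β h v R n ≤ 1 - ε).card ≤
        ((Finset.Ico N (2 * N)).filter fun n =>
          θ ≤ (law d ρ).real {η | EndE β h v (max R 0) θ n η}).card :=
      Finset.card_le_card fun n hn => by
        rw [Finset.mem_filter] at hn ⊢
        exact ⟨hn.1, htub h v n hn.2⟩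
    exact_mod_cast h3
  obtain ⟨k, b, hb, hC2⟩ := hC (max R 0) θ (le_max_right _ _) hθ hθ1
  obtain ⟨K, s₀, hK, hs₀, hV2⟩ := hV 1 (κ / 2) b k one_pos (by positivity) hb
  have hc0 : (0 : ℝ) ≤ c := Nat.cast_nonneg c
  obtain ⟨M, η', hη', hC3⟩ := hC2 K (((c : ℝ) + 1) * K) hK (by positivity)
  -- the velocities which are good for the anticoncentration from the length `m` on
  obtain ⟨F, hF⟩ : ∃ F : ℕ → Set (Vec d), F = fun (m : ℕ) => {v | v ∈ D c ∧
      ∀ h, VSD ρ β h → Sl h v → ∀ N : ℕ, m ≤ N →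
        (((Finset.Ico N (2 * N)).filter fun n => ¬ ACe ρ β h n m M η').card : ℝ) ≤ η' * N} :=
    ⟨_, rfl⟩
  have hFm : Monotone F := by
    intro m m' hmm v hv
    rw [hF] at hv ⊢
    refine ⟨hv.1, fun h hVh hh N hN => le_trans ?_ (hv.2 h hVh hh N (hmm.trans hN))⟩
    have h3 : ((Finset.Ico N (2 * N)).filter fun n => ¬ ACe ρ β h n m' M η').card ≤
        ((Finset.Ico N (2 * N)).filter fun n => ¬ ACe ρ β h n m M η').card :=
      Finset.card_le_card fun n hn => by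
        rw [Finset.mem_filter] at hn ⊢
        exact ⟨hn.1, fun h4 => hn.2 (ACe_mono50 hmm h4)⟩
    exact_mod_cast h3
  have hFD : ∀ m, F m ⊆ D c := by
    intro m v hv
    rw [hF] at hv
    exact hv.1
  have hFU : volume (D c \ ⋃ m, F m) = 0 := by
    have h1 : D c \ ⋃ m, F m = ∅ := by
      rw [Set.sdiff_eq_empty]
      intro v hv
      rw [Set.mem_iUnion]
      have hv' := hv
      rw [hD] at hv'
      by_cases hex : ∃ h, VSD ρ β h ∧ Sl h v
      · obtain ⟨h₀, hV₀, hh₀⟩ := hex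
        obtain ⟨m₁, N₁, hN₁⟩ := hA h₀ v hV₀ (hv'.2.1 h₀ hh₀) M η' hη'
        refine ⟨max m₁ N₁, ?_⟩
        rw [hF]
        refine ⟨hv, fun h hVh hh N hN => ?_⟩
        have h2 := hv'.2.2 h₀ hh₀ h v hh (by rw [sub_self, norm_zero]; positivity)
        rw [sub_self, norm_zero, mul_zero] at h2
        have h3 : h = h₀ := sub_eq_zero.1 (norm_le_zero_iff.1 h2)
        rw [h3]
        refine le_trans ?_ (hN₁ N ((le_max_right _ _).trans hN))
        have h4 : ((Finset.Ico N (2 * N)).filter fun n => ¬ ACe ρ β h₀ n (max m₁ N₁) M η').card ≤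
            ((Finset.Ico N (2 * N)).filter fun n => ¬ ACe ρ β h₀ n m₁ M η').card :=
          Finset.card_le_card fun n hn => by
            rw [Finset.mem_filter] at hn ⊢
            exact ⟨hn.1, fun h4 => hn.2 (ACe_mono50 (le_max_left _ _) h4)⟩
        have h5 : (((Finset.Ico N (2 * N)).filter fun n =>
            ¬ ACe ρ β h₀ n (max m₁ N₁) M η').card : ℝ) ≤
            (((Finset.Ico N (2 * N)).filter fun n => ¬ ACe ρ β h₀ n m₁ M η').card : ℝ) := by
          exact_mod_cast h4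
        convert h5
      · refine ⟨0, ?_⟩
        rw [hF]
        exact ⟨hv, fun h hVh hh => absurd ⟨h, hVh, hh⟩ hex⟩
    rw [h1, measure_empty]
  obtain ⟨m, hm⟩ := M50.outer hDf hFm hFD hFU (show 0 < κ / 4 by positivity)
  obtain ⟨N₁, hN₁⟩ := hC3 m
  -- a large length
  obtain ⟨N₂, hN₂⟩ := exists_nat_ge (max ((1 / s₀) ^ 2) ((K * ((c : ℝ) + 1)) ^ 2))
  obtain ⟨N, hN, hbad⟩ := hinf (max (max m N₁) (max N₂ 1))
  have hNm : m ≤ N := ((le_max_left _ _).trans (le_max_left _ _)).trans hN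
  have hNN1 : N₁ ≤ N := ((le_max_right _ _).trans (le_max_left _ _)).trans hN
  have hNN2 : N₂ ≤ N := ((le_max_left _ _).trans (le_max_right _ _)).trans hN
  have hN1 : 1 ≤ N := ((le_max_right _ _).trans (le_max_right _ _)).trans hN
  have hNr : (1 : ℝ) ≤ N := by exact_mod_cast hN1
  have hN2r : (N₂ : ℝ) ≤ N := by exact_mod_cast hNN2
  have hs0 : 0 < Real.sqrt N := Real.sqrt_pos.2 (by linarith)
  have hsq1 : 1 / Real.sqrt N ≤ s₀ := by
    rw [one_div_le hs0 hs₀]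
    exact Real.le_sqrt_of_sq_le (((le_max_left _ _).trans hN₂).trans hN2r)
  have hsq2 : K * (1 / Real.sqrt N) ≤ 1 / ((c : ℝ) + 1) := by
    rw [mul_one_div, div_le_div_iff₀ hs0 (by positivity), one_mul]
    exact Real.le_sqrt_of_sq_le (((le_max_right _ _).trans hN₂).trans hN2r)
  have hFK : F m ⊆ Kb := (hFD m).trans (hDK c)
  have hBf : volume (BadE (d := d) ρ β R ε N) ≠ ⊤ := measure_ne_top_of_subset (hBK N) hKf
  have hbadr : κ < volume.real (BadE (d := d) ρ β R ε N) := by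
    rw [hκd]
    exact (ENNReal.toReal_lt_toReal hκf hBf).2 hbad
  have hint := M50.inter (μ := volume) hKf hFK (hBK N) (hMs R ε N)
  have hlow : κ / 2 ≤ volume.real (F m ∩ BadE (d := d) ρ β R ε N) := by linarith
  have hIf : volume (F m ∩ BadE (d := d) ρ β R ε N) ≠ ⊤ :=
    measure_ne_top_of_subset (Set.inter_subset_left.trans hFK) hKf
  obtain ⟨y, hy1, hy2, hy3⟩ := hV2 (1 / Real.sqrt N) (by positivity) hsq1
    (F m ∩ BadE (d := d) ρ β R ε N) (by rw [← hKb]; exact Set.inter_subset_left.trans hFK)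
    ((ENNReal.ofReal_le_iff_le_toReal hIf).2 hlow)
  have hg : ∀ l, ∃ g : Vec d, VSD ρ β g ∧ Sl g (y l) ∧ ε * N ≤
      (((Finset.Ico N (2 * N)).filter fun n => Te ρ β g (y l) R n ≤ 1 - ε).card : ℝ) := by
    intro l
    obtain ⟨g, hg1, hg2, hg3⟩ := (hy1 l).2
    refine ⟨g, hg1, ?_, ?_⟩
    · rw [hSl]
      exact hg2
    · convert hg3
  choose g hg1 hg2 hg3 using hg
  have hyD : ∀ l, y l ∈ D c := fun l => hFD m (hy1 l).1
  have hgg : ∀ l l', ‖g l - g l'‖ ≤ (c : ℝ) * ‖y l - y l'‖ := by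
    intro l l'
    have h1 := hyD l'
    rw [hD] at h1
    exact h1.2.2 (g l') (hg2 l') (g l) (y l) (hg2 l) ((hy2 l l').trans hsq2)
  have hyK : ∀ l l', ‖y l - y l'‖ * Real.sqrt N ≤ K := by
    intro l l'
    have h1 := mul_le_mul_of_nonneg_right (hy2 l l') hs0.le
    have h2 : K * (1 / Real.sqrt N) * Real.sqrt N = K := by
      field_simp
    linarith
  refine hN₁ N hNN1 g y hyK (fun l l' => ?_) (fun l l' hll => ?_) (fun l => ?_) (fun l => ?_)
  · calc ‖g l - g l'‖ * Real.sqrt N ≤ (c : ℝ) * ‖y l - y l'‖ * Real.sqrt N :=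
          mul_le_mul_of_nonneg_right (hgg l l') hs0.le
      _ = (c : ℝ) * (‖y l - y l'‖ * Real.sqrt N) := by ring
      _ ≤ (c : ℝ) * K := mul_le_mul_of_nonneg_left (hyK l l') hc0
      _ ≤ ((c : ℝ) + 1) * K := by nlinarith
  · have h1 := mul_le_mul_of_nonneg_right (hy3 l l' hll) hs0.le
    have h2 : b * (1 / Real.sqrt N) * Real.sqrt N = b := by
      field_simp
    linarith
  · have h1 := hcnt (g l) (y l) N (hg3 l)
    convert h1
  · have h1 := (hy1 l).1
    rw [hF] at h1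
    have h2 := h1.2 (g l) (hg1 l) (hg2 l) N hNm
    convert h2

end Pool.Agent.W_7d29a1_SDP
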