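import Mathlib

/-!
Three edges of a bipartite graph: a lower bound for the probability of a path.
-/

namespace Pool.Agent.W_7d29a1_SDP.Tri80

open MeasureTheory

lemma intb80 {α : Type*} [MeasurableSpace α] {μ : Measure α} [IsProbabilityMeasure μ] {f : α → ℝ}
    (hf : Measurable f) (h0 : ∀ x, 0 ≤ f x) (h1 : ∀ x, f x ≤ 1) : Integrable f μ :=
  Integrable.mono' (integrable_const (1 : ℝ)) hf.aestronglyMeasurable
    (Filter.Eventually.of_forall fun x => by
      rw [Real.norm_eq_abs, abs_of_nonneg (h0 x)]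
      exact h1 x)

lemma int01_80 {α : Type*} [MeasurableSpace α] {μ : Measure α} [IsProbabilityMeasure μ]
    {f : α → ℝ} (hf : Measurable f) (h0 : ∀ x, 0 ≤ f x) (h1 : ∀ x, f x ≤ 1) :
    0 ≤ ∫ x, f x ∂μ ∧ ∫ x, f x ∂μ ≤ 1 := by
  refine ⟨integral_nonneg h0, ?_⟩
  have := integral_mono (intb80 (μ := μ) hf h0 h1) (integrable_const (1 : ℝ)) h1
  simpa using this

/-- The measure of a set in a product, as an integral. -/
lemma real_prod80 {α β : Type*} [MeasurableSpace α] [MeasurableSpace β] (μ : Measure α)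
    (ν : Measure β) [IsProbabilityMeasure μ] [IsProbabilityMeasure ν] {E : Set (α × β)}
    (hE : MeasurableSet E) :
    (μ.prod ν).real E = ∫ x, ν.real (Prod.mk x ⁻¹' E) ∂μ := by
  rw [measureReal_def, Measure.prod_apply hE]
  exact (integral_toReal (measurable_measure_prodMk_left hE).aemeasurable
    (Filter.Eventually.of_forall fun x => measure_lt_top _ _)).symm

lemma pt80 {g a b : ℝ} (hg : 0 ≤ g) (ha : 0 ≤ a) (hb : 0 ≤ b) :
    g ^ 2 / 16 * (1 - (if a < g / 4 then 1 else 0) - (if b < g / 4 then 1 else 0)) ≤ a * b := by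
  have hab : 0 ≤ a * b := mul_nonneg ha hb
  have hg2 : 0 ≤ g ^ 2 / 16 := by positivity
  split_ifs with h1 h2 h2
  · nlinarith
  · nlinarith
  · nlinarith
  · have h3 : g / 4 * (g / 4) ≤ a * b := mul_le_mul (not_lt.1 h1) (not_lt.1 h2) (by positivity) ha
    nlinarith

/-- Three edges of a bipartite graph. -/
theorem three80 {Ξ : Type*} [MeasurableSpace Ξ] (Q : Measure Ξ) [IsProbabilityMeasure Q]
    (m : Ξ → Ξ → Ξ)
    (hm : MeasurePreserving (fun w : Ξ × Ξ => m w.1 w.2) (Q.prod Q) Q)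
    (hmm : ∀ x x' z z' : Ξ, m (m x' z') (m z x) = m x' x) {G : Set Ξ} (hG : MeasurableSet G) :
    Q.real G ^ 3 / 32 ≤ (Q.prod Q).real {w | w.1 ∈ G ∧ m w.2 w.1 ∈ G ∧ w.2 ∈ G} := by
  classical
  set g := Q.real G with hg
  have hg0 : 0 ≤ g := measureReal_nonneg
  set F : Ξ → ℝ := G.indicator fun _ => (1 : ℝ) with hF
  have hFm : Measurable F := measurable_const.indicator hG
  have hF0 : ∀ x, 0 ≤ F x := fun x => Set.indicator_nonneg (fun _ _ => zero_le_one) x
  have hF1 : ∀ x, F x ≤ 1 := fun x => by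
    rw [hF]
    by_cases hx : x ∈ G
    · rw [Set.indicator_of_mem hx]
    · rw [Set.indicator_of_notMem hx]
      exact zero_le_one
  set K : Ξ × Ξ → ℝ := fun w => F (m w.1 w.2) with hK
  have hKm : Measurable K := hFm.comp hm.measurable
  have hK0 : ∀ w, 0 ≤ K w := fun w => hF0 _
  have hK1 : ∀ w, K w ≤ 1 := fun w => hF1 _
  have hKi : Integrable K (Q.prod Q) := intb80 hKm hK0 hK1
  set a : Ξ → ℝ := fun x => ∫ z, K (z, x) ∂Q with ha
  set b : Ξ → ℝ := fun x' => ∫ z, K (x', z) ∂Q with hb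
  have ham : Measurable a := hKm.stronglyMeasurable.integral_prod_left'.measurable
  have hbm : Measurable b := hKm.stronglyMeasurable.integral_prod_right'.measurable
  have hKl : ∀ x, Measurable fun z => K (z, x) := fun x =>
    hKm.comp (measurable_id.prodMk measurable_const)
  have hKr : ∀ x, Measurable fun z => K (x, z) := fun x =>
    hKm.comp (measurable_const.prodMk measurable_id)
  have ha01 : ∀ x, 0 ≤ a x ∧ a x ≤ 1 := fun x => int01_80 (hKl x) (fun _ => hK0 _) fun _ => hK1 _
  have hb01 : ∀ x, 0 ≤ b x ∧ b x ≤ 1 := fun x => int01_80 (hKr x) (fun _ => hK0 _) fun _ => hK1 _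
  -- the mean of `K`
  have hFg : ∫ x, F x ∂Q = g := by
    rw [hF, integral_indicator_const (1 : ℝ) hG, smul_eq_mul, mul_one]
  have hKg : ∫ w, K w ∂(Q.prod Q) = g := by
    rw [← hFg]
    have h1 := integral_map (μ := Q.prod Q) (φ := fun w : Ξ × Ξ => m w.1 w.2)
      hm.measurable.aemeasurable (f := F) hFm.aestronglyMeasurable
    rw [hm.map_eq] at h1
    exact h1.symm
  have hag : ∫ x, a x ∂Q = g := by
    rw [← hKg, integral_prod_symm K hKi]
  have hbg : ∫ x, b x ∂Q = g := by
    rw [← hKg, integral_prod K hKi]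
  -- the event
  set E : Set (Ξ × Ξ) := {w | w.1 ∈ G ∧ m w.2 w.1 ∈ G ∧ w.2 ∈ G} with hE
  have hsw : Measurable fun w : Ξ × Ξ => m w.2 w.1 :=
    hm.measurable.comp (measurable_snd.prodMk measurable_fst)
  have hEm : MeasurableSet E :=
    (measurable_fst hG).inter ((hsw hG).inter (measurable_snd hG))
  have hE1 : (Q.prod Q).real E = ∫ w, F w.1 * (F (m w.2 w.1) * F w.2) ∂(Q.prod Q) := by
    have h1 : (fun w : Ξ × Ξ => F w.1 * (F (m w.2 w.1) * F w.2)) =
        E.indicator fun _ => (1 : ℝ) := by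
      funext w
      by_cases h1 : w.1 ∈ G
      · by_cases h2 : m w.2 w.1 ∈ G
        · by_cases h3 : w.2 ∈ G
          · rw [Set.indicator_of_mem (s := E) ⟨h1, h2, h3⟩]
            simp [hF, h1, h2, h3]
          · rw [Set.indicator_of_notMem (s := E) fun h => h3 h.2.2]
            simp [hF, h3]
        · rw [Set.indicator_of_notMem (s := E) fun h => h2 h.2.1]
          simp [hF, h2]
      · rw [Set.indicator_of_notMem (s := E) fun h => h1 h.1]
        simp [hF, h1]
    rw [h1, integral_indicator_const (1 : ℝ) hEm, smul_eq_mul, mul_one]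
  -- four independent copies
  have h4 : ∫ w, F w.1 * (F (m w.2 w.1) * F w.2) ∂(Q.prod Q) =
      ∫ w : (Ξ × Ξ) × (Ξ × Ξ), K w.1 * (K (w.2.1, w.1.2) * K w.2)
        ∂((Q.prod Q).prod (Q.prod Q)) := by
    have hmp := hm.prod hm
    have hGm : Measurable fun w : Ξ × Ξ => F w.1 * (F (m w.2 w.1) * F w.2) :=
      (hFm.comp measurable_fst).mul ((hFm.comp hsw).mul (hFm.comp measurable_snd))
    have h1 := integral_map (μ := (Q.prod Q).prod (Q.prod Q))
      (φ := Prod.map (fun w : Ξ × Ξ => m w.1 w.2) (fun w : Ξ × Ξ => m w.1 w.2))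
      hmp.measurable.aemeasurable (f := fun w : Ξ × Ξ => F w.1 * (F (m w.2 w.1) * F w.2))
      hGm.aestronglyMeasurable
    rw [hmp.map_eq] at h1
    rw [h1]
    refine integral_congr_ae (Filter.Eventually.of_forall fun w => ?_)
    simp only [hK, Prod.map_fst, Prod.map_snd]
    rw [hmm]
  -- integrate
  set c : Ξ → ℝ := fun x => ∫ x', K (x', x) * b x' ∂Q with hc
  have hJm : ∀ x : Ξ, Measurable fun v : Ξ × Ξ => K (v.1, x) * K v := fun x =>
    (hKm.comp (measurable_fst.prodMk measurable_const)).mul hKm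
  have hJ : ∀ x : Ξ, ∫ v : Ξ × Ξ, K (v.1, x) * K v ∂(Q.prod Q) = c x := by
    intro x
    rw [integral_prod _ (intb80 (hJm x) (fun v => mul_nonneg (hK0 _) (hK0 _))
      fun v => mul_le_one₀ (hK1 _) (hK0 _) (hK1 _))]
    simp only [hc, hb]
    refine integral_congr_ae (Filter.Eventually.of_forall fun x' => ?_)
    simp only
    rw [integral_const_mul]
  have hLm : Measurable fun w : (Ξ × Ξ) × (Ξ × Ξ) => K w.1 * (K (w.2.1, w.1.2) * K w.2) := by
    refine (hKm.comp measurable_fst).mul ((hKm.comp ?_).mul (hKm.comp measurable_snd))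
    exact (measurable_fst.comp measurable_snd).prodMk (measurable_snd.comp measurable_fst)
  have h5 : ∫ w : (Ξ × Ξ) × (Ξ × Ξ), K w.1 * (K (w.2.1, w.1.2) * K w.2)
      ∂((Q.prod Q).prod (Q.prod Q)) = ∫ u : Ξ × Ξ, K u * c u.2 ∂(Q.prod Q) := by
    rw [integral_prod _ (intb80 hLm (fun w => mul_nonneg (hK0 _) (mul_nonneg (hK0 _) (hK0 _)))
      fun w => mul_le_one₀ (hK1 _) (mul_nonneg (hK0 _) (hK0 _))
        (mul_le_one₀ (hK1 _) (hK0 _) (hK1 _)))]
    refine integral_congr_ae (Filter.Eventually.of_forall fun u => ?_)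
    simp only
    rw [integral_const_mul, hJ]
  have hKbm : Measurable fun w : Ξ × Ξ => K w * b w.1 := hKm.mul (hbm.comp measurable_fst)
  have hcm : Measurable c := hKbm.stronglyMeasurable.integral_prod_left'.measurable
  have hKb : ∀ x : Ξ, Measurable fun x' => K (x', x) * b x' := fun x => (hKl x).mul hbm
  have hc01 : ∀ x, 0 ≤ c x ∧ c x ≤ 1 := fun x =>
    int01_80 (hKb x) (fun x' => mul_nonneg (hK0 _) (hb01 _).1)
      fun x' => mul_le_one₀ (hK1 _) (hb01 _).1 (hb01 _).2
  have h6 : ∫ u : Ξ × Ξ, K u * c u.2 ∂(Q.prod Q) = ∫ x, a x * c x ∂Q := by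
    have hi : Integrable (fun u : Ξ × Ξ => K u * c u.2) (Q.prod Q) :=
      intb80 (hKm.mul (hcm.comp measurable_snd))
        (fun u => mul_nonneg (hK0 _) (hc01 _).1)
        fun u => mul_le_one₀ (hK1 _) (hc01 _).1 (hc01 _).2
    rw [integral_prod_symm _ hi]
    simp only [ha]
    refine integral_congr_ae (Filter.Eventually.of_forall fun x => ?_)
    simp only
    rw [integral_mul_const]
  rw [hE1, h4, h5, h6]
  -- the thresholds
  set α : Ξ → ℝ := fun x => if a x < g / 4 then 1 else 0 with hα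
  set β : Ξ → ℝ := fun x => if b x < g / 4 then 1 else 0 with hβ
  have hαm : Measurable α := Measurable.ite (measurableSet_lt ham measurable_const)
    measurable_const measurable_const
  have hβm : Measurable β := Measurable.ite (measurableSet_lt hbm measurable_const)
    measurable_const measurable_const
  have hα01 : ∀ x, 0 ≤ α x ∧ α x ≤ 1 := fun x => by
    simp only [hα]
    split_ifs <;> norm_num
  have hβ01 : ∀ x, 0 ≤ β x ∧ β x ≤ 1 := fun x => by
    simp only [hβ]
    split_ifs <;> norm_num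
  set e : Ξ → ℝ := fun x => ∫ x', K (x', x) * β x' ∂Q with he
  have hKβm : Measurable fun w : Ξ × Ξ => K w * β w.1 := hKm.mul (hβm.comp measurable_fst)
  have hem : Measurable e := hKβm.stronglyMeasurable.integral_prod_left'.measurable
  have hKβ : ∀ x : Ξ, Measurable fun x' => K (x', x) * β x' := fun x => (hKl x).mul hβm
  have he01 : ∀ x, 0 ≤ e x ∧ e x ≤ 1 := fun x =>
    int01_80 (hKβ x) (fun x' => mul_nonneg (hK0 _) (hβ01 _).1)
      fun x' => mul_le_one₀ (hK1 _) (hβ01 _).1 (hβ01 _).2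
  have hpt : ∀ x, g ^ 2 / 16 * (a x - a x * α x - e x) ≤ a x * c x := by
    intro x
    have i1 : Integrable (fun x' => K (x', x)) Q := intb80 (hKl x) (fun _ => hK0 _) fun _ => hK1 _
    have i2 : Integrable (fun x' => K (x', x) * β x') Q :=
      intb80 (hKβ x) (fun x' => mul_nonneg (hK0 _) (hβ01 _).1)
        fun x' => mul_le_one₀ (hK1 _) (hβ01 _).1 (hβ01 _).2
    have i3 : Integrable (fun x' => K (x', x) * b x') Q :=
      intb80 (hKb x) (fun x' => mul_nonneg (hK0 _) (hb01 _).1)
        fun x' => mul_le_one₀ (hK1 _) (hb01 _).1 (hb01 _).2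
    have e1 : g ^ 2 / 16 * (a x - a x * α x - e x) =
        ∫ x', g ^ 2 / 16 * (K (x', x) - K (x', x) * α x - K (x', x) * β x') ∂Q := by
      have i0 : Integrable (fun x' => K (x', x) * α x) Q := i1.mul_const _
      have s1 : ∫ x', (K (x', x) - K (x', x) * α x - K (x', x) * β x') ∂Q =
          (∫ x', (K (x', x) - K (x', x) * α x) ∂Q) - ∫ x', K (x', x) * β x' ∂Q :=
        integral_sub (i1.sub i0) i2
      have s2 : ∫ x', (K (x', x) - K (x', x) * α x) ∂Q =
          (∫ x', K (x', x) ∂Q) - ∫ x', K (x', x) * α x ∂Q := integral_sub i1 i0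
      rw [integral_const_mul, s1, s2, integral_mul_const]
    have e2 : a x * c x = ∫ x', a x * (K (x', x) * b x') ∂Q := by
      rw [integral_const_mul]
    rw [e1, e2]
    refine integral_mono (((i1.sub (i1.mul_const _)).sub i2).const_mul _) (i3.const_mul _)
      fun x' => ?_
    simp only
    have h7 := pt80 hg0 (ha01 x).1 (hb01 x').1
    have h8 := mul_le_mul_of_nonneg_left h7 (hK0 (x', x))
    calc g ^ 2 / 16 * (K (x', x) - K (x', x) * α x - K (x', x) * β x') =
        K (x', x) * (g ^ 2 / 16 * (1 - α x - β x')) := by ring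
      _ ≤ K (x', x) * (a x * b x') := h8
      _ = a x * (K (x', x) * b x') := by ring
  have iA : Integrable a Q := intb80 ham (fun x => (ha01 x).1) fun x => (ha01 x).2
  have iAα : Integrable (fun x => a x * α x) Q :=
    intb80 (ham.mul hαm) (fun x => mul_nonneg (ha01 x).1 (hα01 x).1)
      fun x => mul_le_one₀ (ha01 x).2 (hα01 x).1 (hα01 x).2
  have iE : Integrable e Q := intb80 hem (fun x => (he01 x).1) fun x => (he01 x).2
  have iAc : Integrable (fun x => a x * c x) Q :=
    intb80 (ham.mul hcm) (fun x => mul_nonneg (ha01 x).1 (hc01 x).1)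
      fun x => mul_le_one₀ (ha01 x).2 (hc01 x).1 (hc01 x).2
  have iS : Integrable (fun x => a x - a x * α x - e x) Q := (iA.sub iAα).sub iE
  have h9 : ∫ x, g ^ 2 / 16 * (a x - a x * α x - e x) ∂Q ≤ ∫ x, a x * c x ∂Q :=
    integral_mono (iS.const_mul _) iAc hpt
  have h10 : ∫ x, g ^ 2 / 16 * (a x - a x * α x - e x) ∂Q =
      g ^ 2 / 16 * (g - (∫ x, a x * α x ∂Q) - ∫ x, e x ∂Q) := by
    have s1 : ∫ x, (a x - a x * α x - e x) ∂Q =
        (∫ x, (a x - a x * α x) ∂Q) - ∫ x, e x ∂Q := integral_sub (iA.sub iAα) iE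
    have s2 : ∫ x, (a x - a x * α x) ∂Q = (∫ x, a x ∂Q) - ∫ x, a x * α x ∂Q :=
      integral_sub iA iAα
    rw [integral_const_mul, s1, s2, hag]
  have h11 : ∫ x, a x * α x ∂Q ≤ g / 4 := by
    have h12 : ∀ x, a x * α x ≤ g / 4 := by
      intro x
      simp only [hα]
      split_ifs with h
      · rw [mul_one]
        exact h.le
      · rw [mul_zero]
        positivity
    have := integral_mono iAα (integrable_const (g / 4)) h12
    simpa using this
  have h13 : ∫ x, e x ∂Q ≤ g / 4 := by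
    have h14 : ∫ x, e x ∂Q = ∫ x, b x * β x ∂Q := by
      have hi : Integrable (fun w : Ξ × Ξ => K w * β w.1) (Q.prod Q) :=
        intb80 hKβm (fun w => mul_nonneg (hK0 _) (hβ01 _).1)
          fun w => mul_le_one₀ (hK1 _) (hβ01 _).1 (hβ01 _).2
      have h15 := integral_prod_symm _ hi
      have h16 := integral_prod _ hi
      simp only at h15 h16
      simp only [he]
      rw [← h15, h16]
      refine integral_congr_ae (Filter.Eventually.of_forall fun x => ?_)
      simp only [hb]
      rw [integral_mul_const]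
    rw [h14]
    have h12 : ∀ x, b x * β x ≤ g / 4 := by
      intro x
      simp only [hβ]
      split_ifs with h
      · rw [mul_one]
        exact h.le
      · rw [mul_zero]
        positivity
    have iBβ : Integrable (fun x => b x * β x) Q :=
      intb80 (hbm.mul hβm) (fun x => mul_nonneg (hb01 x).1 (hβ01 x).1)
        fun x => mul_le_one₀ (hb01 x).2 (hβ01 x).1 (hβ01 x).2
    have := integral_mono iBβ (integrable_const (g / 4)) h12
    simpa using this
  have h17 : g ^ 3 / 32 ≤ g ^ 2 / 16 * (g - (∫ x, a x * α x ∂Q) - ∫ x, e x ∂Q) := by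
    have : g / 2 ≤ g - (∫ x, a x * α x ∂Q) - ∫ x, e x ∂Q := by linarith
    have h18 := mul_le_mul_of_nonneg_left this (show 0 ≤ g ^ 2 / 16 by positivity)
    calc g ^ 3 / 32 = g ^ 2 / 16 * (g / 2) := by ring
      _ ≤ _ := h18
  rw [← h10] at h17
  exact h17.trans h9

end Pool.Agent.W_7d29a1_SDP.Tri80
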