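import Pool.Agent.W_7d29a1_SDP.DefsP51
import Pool.Agent.W_7d29a1_SDP.Tri80
import Pool.Agent.W_7d29a1_SD.Pair80
import Pool.Agent.W_7d29a1_NV.Mix96
import Pool.Agent.W_7d29a1_NV.MeasNV72

/-!
Leaf Q of theorem SDP: two disjoint tubes which have mass at the same time.
-/

namespace Pool.Agent.W_7d29a1_SDP.PairP80

open MeasureTheory ProbabilityTheory Filter Topology Pool.Agent.W_MP_7d29a1_pr
  Pool.Agent.W_7d29a1_h46 Pool.Agent.W_7d29a1_h46u Pool.Agent.W_7d29a1_D2.B35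
  Pool.Agent.W_7d29a1_Q29 Pool.Agent.W_7d29a1_NV Pool.Agent.W_7d29a1_SD
  Pool.Agent.W_7d29a1_SDP.Tri80

variable {d : ℕ}

/-- A set of walks of mass at least `θ`. -/
lemma nearT80 {n : ℕ} (hd : 0 < d) {β θ : ℝ} (hθ : 0 < θ) {h : Vec d} {η : Env d}
    {T : Set (Fin n → Step d)} (hP : θ ≤ PolT β h η T) :
    X β h η n + Real.log θ ≤ Real.log (ZT β h η T) ∧ Real.log (ZT β h η T) ≤ X β h η n := by
  have hZ : 0 < ZT β h η (Set.univ : Set (Fin n → Step d)) := ZT_univ_pos hd β h η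
  have h1 := le_ZT_of_PolT hd hP
  have h2 : ZT β h η T ≤ ZT β h η (Set.univ : Set (Fin n → Step d)) :=
    ZT_mono β h η (Set.subset_univ T)
  have h3 : 0 < ZT β h η T := lt_of_lt_of_le (by positivity) h1
  refine ⟨?_, Real.log_le_log h3 h2⟩
  have h4 := Real.log_le_log (by positivity) h1
  rw [Real.log_mul hθ.ne' hZ.ne'] at h4
  unfold X Z
  linarith

/-- Changing the tilt, seen through a set of mass at least `θ`. -/
lemma oneT80 {n : ℕ} (hd : 0 < d) {β θ : ℝ} (hθ : 0 < θ) {h h' : Vec d} {η : Env d}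
    {T : Set (Fin n → Step d)} {A₀ : ℝ} (hP : θ ≤ PolT β h η T)
    (hA : ∀ s ∈ T, A₀ ≤ inner ℝ (h' - h) (emb (pos s n))) :
    A₀ + X β h η n + Real.log θ ≤ X β h' η n := by
  have hpos : 0 < PolT β h η T := lt_of_lt_of_le hθ hP
  have h3 : 0 < ZT β h η T := ZT_pos β h η (nonempty_of_PolT hpos)
  have t1 : Real.exp A₀ * ZT β h η T ≤ ZT β h' η T := ZT_tilt_ge β h h' η hA
  have m1 : ZT β h' η T ≤ ZT β h' η (Set.univ : Set (Fin n → Step d)) :=
    ZT_mono _ _ _ (Set.subset_univ _)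
  have l1 := Real.log_le_log (by positivity) (t1.trans m1)
  rw [Real.log_mul (Real.exp_pos _).ne' h3.ne', Real.log_exp] at l1
  have l2 := (nearT80 hd hθ hP).1
  have l3 : X β h' η n = Real.log (ZT β h' η (Set.univ : Set (Fin n → Step d))) := rfl
  rw [l3]
  linarith

/-- The difference of the two free energies is in a nonrandom interval. -/
lemma detT80 {n : ℕ} (hd : 0 < d) {β θ : ℝ} (hθ : 0 < θ) {h₁ h₂ v₁ v₂ : Vec d} {η : Env d}
    {r : ℝ} (h1 : θ ≤ PolT β h₁ η (tube d n v₁ r)) (h2 : θ ≤ PolT β h₂ η (tube d n v₂ r)) :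
    n * inner ℝ (h₂ - h₁) v₁ - ‖h₂ - h₁‖ * r + Real.log θ ≤ X β h₂ η n - X β h₁ η n ∧
      X β h₂ η n - X β h₁ η n ≤ n * inner ℝ (h₂ - h₁) v₂ + ‖h₂ - h₁‖ * r - Real.log θ := by
  constructor
  · have := oneT80 (h' := h₂) (A₀ := n * inner ℝ (h₂ - h₁) v₁ - ‖h₂ - h₁‖ * r) hd hθ h1
      (fun s hs => by
        have := abs_le.1 (tube_end hs (h₂ - h₁))
        linarith [this.1])
    linarith
  · have := oneT80 (h' := h₁) (A₀ := -(n * inner ℝ (h₂ - h₁) v₂ + ‖h₂ - h₁‖ * r)) hd hθ h2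
      (fun s hs => by
        have h3 := abs_le.1 (tube_end hs (h₂ - h₁))
        have h4 : inner ℝ (h₁ - h₂) (emb (pos s n)) = - inner ℝ (h₂ - h₁) (emb (pos s n)) := by
          rw [← inner_neg_left, neg_sub]
        rw [h4]
        linarith [h3.2])
    linarith

lemma mxJ_congr80 {b : ℝ} {q : ℕ} {T : Fin q → ℕ} {η : Env d} {ξ ξ' : Fin q → Env d}
    {z : ℕ × Site d} (h : ∀ i, T i = z.1 → ξ i z = ξ' i z) : mxJ b T η ξ z = mxJ b T η ξ' z := by
  classical
  unfold mxJ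
  by_cases h1 : (∃ i, T i = z.1) ∧ |η z| ≤ b
  · rw [dif_pos h1, dif_pos h1, h _ h1.1.choose_spec]
  · rw [dif_neg h1, dif_neg h1]

/-- The sites of the first tube. -/
def S1 (v : Vec d) (r : ℝ) : Set (ℕ × Site d) := {z | ‖emb z.2 - (z.1 : ℝ) • v‖ ≤ r}

/-- The values of `ξ` in the first tube, the values of `ξ'` outside. -/
noncomputable def mm (v : Vec d) (r : ℝ) {q : ℕ} (ξ ξ' : Fin q → Env d) : Fin q → Env d :=
  fun i => spl (S1 v r) (ξ i) (ξ' i)

lemma mm_mm80 (v : Vec d) (r : ℝ) {q : ℕ} (x x' z z' : Fin q → Env d) :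
    mm v r (mm v r x' z') (mm v r z x) = mm v r x' x := by
  funext i s
  unfold mm
  by_cases hs : s ∈ S1 v r
  · rw [spl_mem _ _ hs, spl_mem _ _ hs, spl_mem _ _ hs]
  · rw [spl_not_mem _ _ hs, spl_not_mem _ _ hs, spl_not_mem _ _ hs]

lemma zt_a80 {n q : ℕ} (β : ℝ) (h v : Vec d) (r b : ℝ) (T : Fin q → ℕ) (η : Env d)
    (ξ ξ' : Fin q → Env d) :
    ZT β h (mxJ b T η (mm v r ξ' ξ)) (tube d n v r) = ZT β h (mxJ b T η ξ') (tube d n v r) := by
  refine ZT_congr fun s hs z hz => mxJ_congr80 fun i _ => ?_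
  have h1 : z ∈ S1 v r := Pair80.site80 hs hz
  unfold mm
  rw [spl_mem _ _ h1]

lemma zt_b80 {n q : ℕ} (β : ℝ) (h v w : Vec d) (r b : ℝ) (p : ℕ) (T : Fin q → ℕ)
    (hT : ∀ i, p < T i) (hr : 2 * r < p * ‖w - v‖) (η : Env d) (ξ ξ' : Fin q → Env d) :
    ZT β h (mxJ b T η ξ) (tube d n w r) = ZT β h (mxJ b T η (mm v r ξ' ξ)) (tube d n w r) := by
  refine ZT_congr fun s hs z hz => mxJ_congr80 fun i hi => ?_
  have h1 := Pair80.site80 hs hz
  have h3 : z ∉ S1 v r := fun h4 => by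
    have h4' : ‖emb z.2 - (z.1 : ℝ) • v‖ ≤ r := h4
    have h5 : ((z.1 : ℝ) • w - (z.1 : ℝ) • v) =
        (emb z.2 - (z.1 : ℝ) • v) - (emb z.2 - (z.1 : ℝ) • w) := by abel
    have h6 : ‖(z.1 : ℝ) • w - (z.1 : ℝ) • v‖ ≤ 2 * r := by
      rw [h5]
      refine (norm_sub_le _ _).trans ?_
      linarith
    rw [← smul_sub, norm_smul, Real.norm_eq_abs, abs_of_nonneg (Nat.cast_nonneg z.1)] at h6
    have h7 : (p : ℝ) ≤ z.1 := by
      rw [← hi]
      exact_mod_cast (hT i).le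
    have h8 := mul_le_mul_of_nonneg_right h7 (norm_nonneg (w - v))
    linarith
  unfold mm
  rw [spl_not_mem _ _ h3]

/-- The mixture of two independent families preserves the law. -/
lemma mp_mm80 {ν : Measure ℝ} [IsProbabilityMeasure ν] (v : Vec d) (r : ℝ) (q : ℕ) :
    MeasurePreserving (fun w : (Fin q → Env d) × (Fin q → Env d) => mm v r w.1 w.2)
      ((Measure.pi fun _ : Fin q => law d ν).prod (Measure.pi fun _ : Fin q => law d ν))
      (Measure.pi fun _ : Fin q => law d ν) := by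
  have h1 := (measurePreserving_arrowProdEquivProdArrow (Env d) (Env d) (Fin q)
    (fun _ => law d ν) (fun _ => law d ν)).symm
  have h2 : MeasurePreserving (fun (u : Fin q → Env d × Env d) i => spl (S1 v r) (u i).1 (u i).2)
      (Measure.pi fun _ : Fin q => (law d ν).prod (law d ν))
      (Measure.pi fun _ : Fin q => law d ν) :=
    measurePreserving_pi _ _ fun _ => mp_spl (ρ := ν) (S1 v r)
  exact h2.comp h1

lemma cube80 {g α : ℝ} (hg : 0 ≤ g) (hα : 0 ≤ α) : 3 * α ^ 2 * g - 2 * α ^ 3 ≤ g ^ 3 := by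
  nlinarith [mul_nonneg (sq_nonneg (g - α)) (show 0 ≤ g + 2 * α by linarith)]

/-- Leaf Q. -/
theorem pairP80 {ρ : Measure ℝ} [IsProbabilityMeasure ρ] (hd : 0 < d) (β : ℝ) :
    PairP d ρ β := by
  intro b hb h₁ h₂ v₁ v₂ n p q T R a C θ α hinj hTp hR ha hC hθ hθ1 hα hv hh hp hG
  have hrb : IsProbabilityMeasure (rb ρ b) := rb_prob hb
  set r : ℝ := R * Real.sqrt n with hr
  have hp' : 2 * r < p * ‖v₂ - v₁‖ := by
    rw [hr]
    linarith
  have hlog : Real.log θ ≤ 0 := Real.log_nonpos hθ.le hθ1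
  set Q : Measure (Fin q → Env d) := Measure.pi fun _ : Fin q => law d (rb ρ b) with hQ
  set G₀ : Set (Env d) := {η | TubE β h₁ v₁ R θ n η ∧ TubE β h₂ v₂ R θ n η} with hG₀
  have hG₀m : MeasurableSet G₀ := by
    refine MeasurableSet.inter ?_ ?_
    · exact measurableSet_le measurable_const (measurable_PolT β h₁ _)
    · exact measurableSet_le measurable_const (measurable_PolT β h₂ _)
  have hmx := measurable_mxJ72 (d := d) b T
  have hmp := mix96 (d := d) hb q T hinj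
  set GG : Set (Env d × (Fin q → Env d)) := {w | mxJ b T w.1 w.2 ∈ G₀} with hGG
  have hGGm : MeasurableSet GG := hmx hG₀m
  set M : ℝ := C * a + 2 * C * R - 5 * Real.log θ with hM
  set E : Set (Env d × ((Fin q → Env d) × (Fin q → Env d))) :=
    {w | |X β h₁ (mxJ b T w.1 w.2.1) n - X β h₁ (mxJ b T w.1 w.2.2) n| ≤ M} with hE
  have hEm : MeasurableSet E := by
    have m1 : Measurable fun w : Env d × ((Fin q → Env d) × (Fin q → Env d)) =>
        mxJ b T w.1 w.2.1 :=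
      hmx.comp (measurable_fst.prodMk (measurable_fst.comp measurable_snd))
    have m2 : Measurable fun w : Env d × ((Fin q → Env d) × (Fin q → Env d)) =>
        mxJ b T w.1 w.2.2 :=
      hmx.comp (measurable_fst.prodMk (measurable_snd.comp measurable_snd))
    exact measurableSet_le (((measurable_X β h₁ n).comp m1).sub
      ((measurable_X β h₁ n).comp m2)).abs measurable_const
  -- the probability given `η`
  set g : Env d → ℝ := fun η => Q.real (Prod.mk η ⁻¹' GG) with hg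
  have hgm : Measurable g := (measurable_measure_prodMk_left hGGm).ennreal_toReal
  have hg0 : ∀ η, 0 ≤ g η := fun η => measureReal_nonneg
  have hg1 : ∀ η, g η ≤ 1 := fun η => measureReal_le_one
  have hgi : ∫ η, g η ∂(law d ρ) = (law d ρ).real G₀ := by
    rw [hg, ← real_prod80 (law d ρ) Q hGGm]
    exact hmp.measureReal_preimage hG₀m.nullMeasurableSet
  set k : Env d → ℝ := fun η => (Q.prod Q).real (Prod.mk η ⁻¹' E) with hk
  have hkm : Measurable k := (measurable_measure_prodMk_left hEm).ennreal_toReal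
  have hk0 : ∀ η, 0 ≤ k η := fun η => measureReal_nonneg
  have hk1 : ∀ η, k η ≤ 1 := fun η => measureReal_le_one
  have hgk : ∀ η, g η ^ 3 / 32 ≤ k η := by
    intro η
    have h1 := three80 Q (mm v₁ r) (mp_mm80 v₁ r q)
      (fun x x' z z' => mm_mm80 v₁ r x x' z z') (G := Prod.mk η ⁻¹' GG)
      (measurable_prodMk_left hGGm)
    refine h1.trans (measureReal_mono ?_)
    rintro ⟨ξ, ξ'⟩ ⟨c1, c2, c3⟩
    have g1 : mxJ b T η ξ ∈ G₀ := c1
    have g2 : mxJ b T η (mm v₁ r ξ' ξ) ∈ G₀ := c2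
    have g3 : mxJ b T η ξ' ∈ G₀ := c3
    obtain ⟨g11, g12⟩ := g1
    obtain ⟨g21, g22⟩ := g2
    obtain ⟨g31, -⟩ := g3
    unfold TubE at g11 g12 g21 g22 g31
    rw [← hr] at g11 g12 g21 g22 g31
    have d1 := detT80 hd hθ g11 g12
    have d2 := detT80 hd hθ g21 g22
    have n2 := nearT80 hd hθ g12
    have n3 := nearT80 hd hθ g21
    have n4 := nearT80 hd hθ g22
    have n5 := nearT80 hd hθ g31
    rw [zt_a80] at n3
    rw [zt_b80 β h₂ v₁ v₂ r b p T hTp hp' η ξ ξ'] at n2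
    have e1 : ‖h₂ - h₁‖ * r ≤ C * R := by
      calc ‖h₂ - h₁‖ * r = (‖h₂ - h₁‖ * Real.sqrt n) * R := by rw [hr]; ring
        _ ≤ C * R := mul_le_mul_of_nonneg_right hh hR
    have e2 : (n : ℝ) * inner ℝ (h₂ - h₁) v₂ - n * inner ℝ (h₂ - h₁) v₁ ≤ C * a := by
      rw [← mul_sub, ← inner_sub_right]
      have h0 : (0 : ℝ) ≤ n := Nat.cast_nonneg n
      calc (n : ℝ) * inner ℝ (h₂ - h₁) (v₂ - v₁) ≤ n * (‖h₂ - h₁‖ * ‖v₂ - v₁‖) :=
            mul_le_mul_of_nonneg_left (real_inner_le_norm _ _) h0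
        _ = (‖h₂ - h₁‖ * Real.sqrt n) * (‖v₂ - v₁‖ * Real.sqrt n) := by
            have := Real.mul_self_sqrt h0
            calc (n : ℝ) * (‖h₂ - h₁‖ * ‖v₂ - v₁‖) =
                (Real.sqrt n * Real.sqrt n) * (‖h₂ - h₁‖ * ‖v₂ - v₁‖) := by rw [this]
              _ = _ := by ring
        _ ≤ C * a := mul_le_mul hh hv (by positivity) hC
    change |X β h₁ (mxJ b T η ξ) n - X β h₁ (mxJ b T η ξ') n| ≤ M
    rw [abs_le]
    constructor
    · linarith [d1.1, d1.2, d2.1, d2.2, n2.1, n2.2, n3.1, n3.2, n4.1, n4.2, n5.1, n5.2]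
    · linarith [d1.1, d1.2, d2.1, d2.2, n2.1, n2.2, n3.1, n3.2, n4.1, n4.2, n5.1, n5.2]
  rw [real_prod80 (law d ρ) (Q.prod Q) hEm]
  have hgint : Integrable g (law d ρ) := intb80 hgm hg0 hg1
  have hkint : Integrable k (law d ρ) := intb80 hkm hk0 hk1
  have hlin : Integrable (fun η => 3 * α ^ 2 * g η - 2 * α ^ 3) (law d ρ) :=
    (hgint.const_mul _).sub (integrable_const _)
  have h5 : ∫ η, (3 * α ^ 2 * g η - 2 * α ^ 3) / 32 ∂(law d ρ) ≤ ∫ η, k η ∂(law d ρ) := by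
    refine integral_mono (hlin.div_const _) hkint fun η => ?_
    have := cube80 (hg0 η) hα
    have := hgk η
    change (3 * α ^ 2 * g η - 2 * α ^ 3) / 32 ≤ k η
    linarith
  have h6 : ∫ η, (3 * α ^ 2 * g η - 2 * α ^ 3) / 32 ∂(law d ρ) =
      (3 * α ^ 2 * (law d ρ).real G₀ - 2 * α ^ 3) / 32 := by
    rw [integral_div, integral_sub (hgint.const_mul _) (integrable_const _), integral_const_mul,
      hgi, integral_const]
    simp
  rw [h6] at h5
  have h7 : 3 * α ^ 2 * α ≤ 3 * α ^ 2 * (law d ρ).real G₀ :=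
    mul_le_mul_of_nonneg_left hG (by positivity)
  calc α ^ 3 / 32 ≤ (3 * α ^ 2 * (law d ρ).real G₀ - 2 * α ^ 3) / 32 := by
        have : 3 * α ^ 2 * α = 3 * α ^ 3 := by ring
        linarith
    _ ≤ _ := h5

end Pool.Agent.W_7d29a1_SDP.PairP80
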