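import Pool.Agent.W_7d29a1_SDP.DefsE51
import Pool.Agent.W_7d29a1_SDP.PairP80

/-!
Leaf Q of theorem SDE: two disjoint end balls which have mass at the same time.
-/

namespace Pool.Agent.W_7d29a1_SDP.PairE80

open MeasureTheory ProbabilityTheory Filter Topology Pool.Agent.W_MP_7d29a1_pr
  Pool.Agent.W_7d29a1_h46 Pool.Agent.W_7d29a1_h46u Pool.Agent.W_7d29a1_D2.B35
  Pool.Agent.W_7d29a1_Q29 Pool.Agent.W_7d29a1_NV Pool.Agent.W_7d29a1_SD
  Pool.Agent.W_7d29a1_SDP.Tri80 Pool.Agent.W_7d29a1_SDP.PairP80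

variable {d : ℕ}

lemma succ80 {n : ℕ} (s : Fin n → Step d) {i : ℕ} (hi : i < n) :
    pos s (i + 1) = pos s i + vec (s ⟨i, hi⟩) := by
  unfold pos
  have h1 : ∀ j : Fin n, (if (j : ℕ) < i + 1 then vec (s j) else 0) =
      (if (j : ℕ) < i then vec (s j) else 0) + (if j = ⟨i, hi⟩ then vec (s j) else 0) := by
    intro j
    by_cases h2 : j = ⟨i, hi⟩
    · subst h2
      simp
    · have h3 : (j : ℕ) ≠ i := fun h => h2 (Fin.ext h)
      rw [if_neg h2, add_zero]
      by_cases h4 : (j : ℕ) < i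
      · rw [if_pos h4, if_pos (by omega)]
      · rw [if_neg h4, if_neg (by omega)]
  rw [Finset.sum_congr rfl fun j _ => h1 j, Finset.sum_add_distrib, Finset.sum_ite_eq' Finset.univ]
  simp

/-- One step. -/
lemma step80 {n : ℕ} (s : Fin n → Step d) {i : ℕ} (hi : i < n) :
    ‖emb (pos s (i + 1)) - emb (pos s i)‖ ≤ 1 := by
  rw [succ80 s hi]
  have h2 : emb (pos s i + vec (s ⟨i, hi⟩)) - emb (pos s i) = emb (vec (s ⟨i, hi⟩)) := by
    ext j
    simp [emb]
  rw [h2, norm_emb, nrm_vec]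

/-- Several steps. -/
lemma walk80 {n : ℕ} (s : Fin n → Step d) {a k : ℕ} (hk : a + k ≤ n) :
    ‖emb (pos s (a + k)) - emb (pos s a)‖ ≤ k := by
  induction k with
  | zero => simp
  | succ k ih =>
    have h1 := ih (by omega)
    have h2 := step80 s (i := a + k) (by omega)
    have h3 : emb (pos s (a + (k + 1))) - emb (pos s a) =
        (emb (pos s (a + k + 1)) - emb (pos s (a + k))) + (emb (pos s (a + k)) - emb (pos s a)) := by
      rw [show a + (k + 1) = a + k + 1 by omega]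
      abel
    rw [h3]
    refine (norm_add_le _ _).trans ?_
    push_cast
    linarith

/-- The end point of a walk in an end ball. -/
lemma end80 {n : ℕ} {v : Vec d} {r : ℝ} {s : Fin n → Step d} (hs : s ∈ endB d n v r)
    (g : Vec d) : |inner ℝ g (emb (pos s n)) - n * inner ℝ g v| ≤ ‖g‖ * r := by
  have h1 : ‖emb (pos s n) - (n : ℝ) • v‖ ≤ r := hs
  have h2 : inner ℝ g (emb (pos s n)) - n * inner ℝ g v =
      inner ℝ g (emb (pos s n) - (n : ℝ) • v) := by
    rw [inner_sub_right, inner_smul_right]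
  rw [h2]
  exact (abs_real_inner_le_norm _ _).trans (mul_le_mul_of_nonneg_left h1 (norm_nonneg g))

/-- The difference of the two free energies is in a nonrandom interval. -/
lemma detE80 {n : ℕ} (hd : 0 < d) {β θ : ℝ} (hθ : 0 < θ) {h₁ h₂ v₁ v₂ : Vec d} {η : Env d}
    {r : ℝ} (h1 : θ ≤ PolT β h₁ η (endB d n v₁ r)) (h2 : θ ≤ PolT β h₂ η (endB d n v₂ r)) :
    n * inner ℝ (h₂ - h₁) v₁ - ‖h₂ - h₁‖ * r + Real.log θ ≤ X β h₂ η n - X β h₁ η n ∧
      X β h₂ η n - X β h₁ η n ≤ n * inner ℝ (h₂ - h₁) v₂ + ‖h₂ - h₁‖ * r - Real.log θ := by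
  constructor
  · have := oneT80 (h' := h₂) (A₀ := n * inner ℝ (h₂ - h₁) v₁ - ‖h₂ - h₁‖ * r) hd hθ h1
      (fun s hs => by
        have := abs_le.1 (end80 hs (h₂ - h₁))
        linarith [this.1])
    linarith
  · have := oneT80 (h' := h₁) (A₀ := -(n * inner ℝ (h₂ - h₁) v₂ + ‖h₂ - h₁‖ * r)) hd hθ h2
      (fun s hs => by
        have h3 := abs_le.1 (end80 hs (h₂ - h₁))
        have h4 : inner ℝ (h₁ - h₂) (emb (pos s n)) = - inner ℝ (h₂ - h₁) (emb (pos s n)) := by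
          rw [← inner_neg_left, neg_sub]
        rw [h4]
        linarith [h3.2])
    linarith

/-- The sites of the first ball. -/
def SE (n : ℕ) (v : Vec d) (r : ℝ) : Set (ℕ × Site d) := {z | ‖emb z.2 - (n : ℝ) • v‖ ≤ r}

/-- The values of `ξ` in the first ball, the values of `ξ'` outside. -/
noncomputable def mE (n : ℕ) (v : Vec d) (r : ℝ) {q : ℕ} (ξ ξ' : Fin q → Env d) : Fin q → Env d :=
  fun i => spl (SE n v r) (ξ i) (ξ' i)

lemma mE_mE80 (n : ℕ) (v : Vec d) (r : ℝ) {q : ℕ} (x x' z z' : Fin q → Env d) :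
    mE n v r (mE n v r x' z') (mE n v r z x) = mE n v r x' x := by
  funext i s
  unfold mE
  by_cases hs : s ∈ SE n v r
  · rw [spl_mem _ _ hs, spl_mem _ _ hs, spl_mem _ _ hs]
  · rw [spl_not_mem _ _ hs, spl_not_mem _ _ hs, spl_not_mem _ _ hs]

/-- A site of a walk in one of the last `m` rows is close to the end point. -/
lemma siteE80 {n m : ℕ} {v : Vec d} {r : ℝ} {s : Fin n → Step d} (hs : s ∈ endB d n v r)
    {z : ℕ × Site d} (hz : z ∈ sites s) (hm : n < z.1 + m) :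
    ‖emb z.2 - (n : ℝ) • v‖ ≤ r + m := by
  obtain ⟨i, _, rfl⟩ := Finset.mem_image.1 hz
  have h1 : ‖emb (pos s n) - (n : ℝ) • v‖ ≤ r := hs
  have hi : (i : ℕ) + 1 ≤ n := i.2
  have hm' : n < (i : ℕ) + 1 + m := hm
  have h2 := walk80 s (a := (i : ℕ) + 1) (k := n - ((i : ℕ) + 1)) (by omega)
  rw [show (i : ℕ) + 1 + (n - ((i : ℕ) + 1)) = n by omega] at h2
  have h3 : ((n - ((i : ℕ) + 1) : ℕ) : ℝ) ≤ m := by
    exact_mod_cast (show n - ((i : ℕ) + 1) ≤ m by omega)
  change ‖emb (pos s ((i : ℕ) + 1)) - (n : ℝ) • v‖ ≤ r + m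
  have h4 : emb (pos s ((i : ℕ) + 1)) - (n : ℝ) • v =
      (emb (pos s n) - (n : ℝ) • v) - (emb (pos s n) - emb (pos s ((i : ℕ) + 1))) := by abel
  rw [h4]
  refine (norm_sub_le _ _).trans ?_
  linarith

lemma zt_aE80 {n q m : ℕ} (β : ℝ) (h v : Vec d) (r b : ℝ) (T : Fin q → ℕ)
    (hT : ∀ i, n < T i + m ∧ T i ≤ n) (η : Env d) (ξ ξ' : Fin q → Env d) :
    ZT β h (mxJ b T η (mE n v (r + m) ξ' ξ)) (endB d n v r) =
      ZT β h (mxJ b T η ξ') (endB d n v r) := by
  refine ZT_congr fun s hs z hz => mxJ_congr80 fun i hi => ?_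
  have h1 : z ∈ SE n v (r + m) := siteE80 hs hz (by rw [← hi]; exact (hT i).1)
  unfold mE
  rw [spl_mem _ _ h1]

lemma zt_bE80 {n q m : ℕ} (β : ℝ) (h v w : Vec d) (r b : ℝ) (T : Fin q → ℕ)
    (hT : ∀ i, n < T i + m ∧ T i ≤ n) (hr : 2 * r + 2 * m < n * ‖w - v‖) (η : Env d)
    (ξ ξ' : Fin q → Env d) :
    ZT β h (mxJ b T η ξ) (endB d n w r) =
      ZT β h (mxJ b T η (mE n v (r + m) ξ' ξ)) (endB d n w r) := by
  refine ZT_congr fun s hs z hz => mxJ_congr80 fun i hi => ?_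
  have h1 := siteE80 hs hz (by rw [← hi]; exact (hT i).1)
  have h3 : z ∉ SE n v (r + m) := fun h4 => by
    have h4' : ‖emb z.2 - (n : ℝ) • v‖ ≤ r + m := h4
    have h5 : ((n : ℝ) • w - (n : ℝ) • v) =
        (emb z.2 - (n : ℝ) • v) - (emb z.2 - (n : ℝ) • w) := by abel
    have h6 : ‖(n : ℝ) • w - (n : ℝ) • v‖ ≤ 2 * r + 2 * m := by
      rw [h5]
      refine (norm_sub_le _ _).trans ?_
      linarith
    rw [← smul_sub, norm_smul, Real.norm_eq_abs, abs_of_nonneg (Nat.cast_nonneg n)] at h6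
    linarith
  unfold mE
  rw [spl_not_mem _ _ h3]

/-- The mixture of two independent families preserves the law. -/
lemma mp_mE80 {ν : Measure ℝ} [IsProbabilityMeasure ν] (n : ℕ) (v : Vec d) (r : ℝ) (q : ℕ) :
    MeasurePreserving (fun w : (Fin q → Env d) × (Fin q → Env d) => mE n v r w.1 w.2)
      ((Measure.pi fun _ : Fin q => law d ν).prod (Measure.pi fun _ : Fin q => law d ν))
      (Measure.pi fun _ : Fin q => law d ν) := by
  have h1 := (measurePreserving_arrowProdEquivProdArrow (Env d) (Env d) (Fin q)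
    (fun _ => law d ν) (fun _ => law d ν)).symm
  have h2 : MeasurePreserving (fun (u : Fin q → Env d × Env d) i =>
      spl (SE n v r) (u i).1 (u i).2)
      (Measure.pi fun _ : Fin q => (law d ν).prod (law d ν))
      (Measure.pi fun _ : Fin q => law d ν) :=
    measurePreserving_pi _ _ fun _ => mp_spl (ρ := ν) (SE n v r)
  exact h2.comp h1

/-- Leaf Q. -/
theorem pairE80 {ρ : Measure ℝ} [IsProbabilityMeasure ρ] (hd : 0 < d) (β : ℝ) :
    PairE d ρ β := by
  intro b hb h₁ h₂ v₁ v₂ n m q T R a C θ α hinj hTp hR ha hC hθ hθ1 hα hv hh hp hG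
  have hrb : IsProbabilityMeasure (rb ρ b) := rb_prob hb
  set r : ℝ := R * Real.sqrt n with hr
  have hp' : 2 * r + 2 * m < n * ‖v₂ - v₁‖ := by
    rw [hr]
    linarith
  have hlog : Real.log θ ≤ 0 := Real.log_nonpos hθ.le hθ1
  set Q : Measure (Fin q → Env d) := Measure.pi fun _ : Fin q => law d (rb ρ b) with hQ
  set G₀ : Set (Env d) := {η | EndE β h₁ v₁ R θ n η ∧ EndE β h₂ v₂ R θ n η} with hG₀
  have hG₀m : MeasurableSet G₀ := by
    refine MeasurableSet.inter ?_ ?_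
    · exact measurableSet_le measurable_const (measurable_PolT β h₁ _)
    · exact measurableSet_le measurable_const (measurable_PolT β h₂ _)
  have hmx := measurable_mxJ72 (d := d) b T
  have hmp := mix96 (d := d) hb q T hinj
  set GG : Set (Env d × (Fin q → Env d)) := {w | mxJ b T w.1 w.2 ∈ G₀} with hGG
  have hGGm : MeasurableSet GG := hmx hG₀m
  set M : ℝ := C * a + 2 * C * R - 5 * Real.log θ with hM
  set E : Set (Env d × ((Fin q → Env d) × (Fin q → Env d))) :=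
    {w | |X β h₁ (mxJ b T w.1 w.2.1) n - X β h₁ (mxJ b T w.1 w.2.2) n| ≤ M} with hE
  have hEm : MeasurableSet E := by
    have m1 : Measurable fun w : Env d × ((Fin q → Env d) × (Fin q → Env d)) =>
        mxJ b T w.1 w.2.1 :=
      hmx.comp (measurable_fst.prodMk (measurable_fst.comp measurable_snd))
    have m2 : Measurable fun w : Env d × ((Fin q → Env d) × (Fin q → Env d)) =>
        mxJ b T w.1 w.2.2 :=
      hmx.comp (measurable_fst.prodMk (measurable_snd.comp measurable_snd))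
    exact measurableSet_le (((measurable_X β h₁ n).comp m1).sub
      ((measurable_X β h₁ n).comp m2)).abs measurable_const
  -- the probability given `η`
  set g : Env d → ℝ := fun η => Q.real (Prod.mk η ⁻¹' GG) with hg
  have hgm : Measurable g := (measurable_measure_prodMk_left hGGm).ennreal_toReal
  have hg0 : ∀ η, 0 ≤ g η := fun η => measureReal_nonneg
  have hg1 : ∀ η, g η ≤ 1 := fun η => measureReal_le_one
  have hgi : ∫ η, g η ∂(law d ρ) = (law d ρ).real G₀ := by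
    rw [hg, ← real_prod80 (law d ρ) Q hGGm]
    exact hmp.measureReal_preimage hG₀m.nullMeasurableSet
  set k : Env d → ℝ := fun η => (Q.prod Q).real (Prod.mk η ⁻¹' E) with hk
  have hkm : Measurable k := (measurable_measure_prodMk_left hEm).ennreal_toReal
  have hk0 : ∀ η, 0 ≤ k η := fun η => measureReal_nonneg
  have hk1 : ∀ η, k η ≤ 1 := fun η => measureReal_le_one
  have hgk : ∀ η, g η ^ 3 / 32 ≤ k η := by
    intro η
    have h1 := three80 Q (mE n v₁ (r + m)) (mp_mE80 n v₁ (r + m) q)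
      (fun x x' z z' => mE_mE80 n v₁ (r + m) x x' z z') (G := Prod.mk η ⁻¹' GG)
      (measurable_prodMk_left hGGm)
    refine h1.trans (measureReal_mono ?_)
    rintro ⟨ξ, ξ'⟩ ⟨c1, c2, c3⟩
    have g1 : mxJ b T η ξ ∈ G₀ := c1
    have g2 : mxJ b T η (mE n v₁ (r + m) ξ' ξ) ∈ G₀ := c2
    have g3 : mxJ b T η ξ' ∈ G₀ := c3
    obtain ⟨g11, g12⟩ := g1
    obtain ⟨g21, g22⟩ := g2
    obtain ⟨g31, -⟩ := g3
    unfold EndE at g11 g12 g21 g22 g31
    rw [← hr] at g11 g12 g21 g22 g31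
    have d1 := detE80 hd hθ g11 g12
    have d2 := detE80 hd hθ g21 g22
    have n2 := nearT80 hd hθ g12
    have n3 := nearT80 hd hθ g21
    have n4 := nearT80 hd hθ g22
    have n5 := nearT80 hd hθ g31
    rw [zt_aE80 β h₁ v₁ r b T hTp η ξ ξ'] at n3
    rw [zt_bE80 β h₂ v₁ v₂ r b T hTp hp' η ξ ξ'] at n2
    have e1 : ‖h₂ - h₁‖ * r ≤ C * R := by
      calc ‖h₂ - h₁‖ * r = (‖h₂ - h₁‖ * Real.sqrt n) * R := by rw [hr]; ring
        _ ≤ C * R := mul_le_mul_of_nonneg_right hh hR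
    have e2 : (n : ℝ) * inner ℝ (h₂ - h₁) v₂ - n * inner ℝ (h₂ - h₁) v₁ ≤ C * a := by
      rw [← mul_sub, ← inner_sub_right]
      have h0 : (0 : ℝ) ≤ n := Nat.cast_nonneg n
      calc (n : ℝ) * inner ℝ (h₂ - h₁) (v₂ - v₁) ≤ n * (‖h₂ - h₁‖ * ‖v₂ - v₁‖) :=
            mul_le_mul_of_nonneg_left (real_inner_le_norm _ _) h0
        _ = (‖h₂ - h₁‖ * Real.sqrt n) * (‖v₂ - v₁‖ * Real.sqrt n) := by
            have := Real.mul_self_sqrt h0
            calc (n : ℝ) * (‖h₂ - h₁‖ * ‖v₂ - v₁‖) =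
                (Real.sqrt n * Real.sqrt n) * (‖h₂ - h₁‖ * ‖v₂ - v₁‖) := by rw [this]
              _ = _ := by ring
        _ ≤ C * a := mul_le_mul hh hv (by positivity) hC
    change |X β h₁ (mxJ b T η ξ) n - X β h₁ (mxJ b T η ξ') n| ≤ M
    rw [abs_le]
    constructor
    · linarith [d1.1, d1.2, d2.1, d2.2, n2.1, n2.2, n3.1, n3.2, n4.1, n4.2, n5.1, n5.2]
    · linarith [d1.1, d1.2, d2.1, d2.2, n2.1, n2.2, n3.1, n3.2, n4.1, n4.2, n5.1, n5.2]
  rw [real_prod80 (law d ρ) (Q.prod Q) hEm]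
  have hgint : Integrable g (law d ρ) := intb80 hgm hg0 hg1
  have hkint : Integrable k (law d ρ) := intb80 hkm hk0 hk1
  have hlin : Integrable (fun η => 3 * α ^ 2 * g η - 2 * α ^ 3) (law d ρ) :=
    (hgint.const_mul _).sub (integrable_const _)
  have h5 : ∫ η, (3 * α ^ 2 * g η - 2 * α ^ 3) / 32 ∂(law d ρ) ≤ ∫ η, k η ∂(law d ρ) := by
    refine integral_mono (hlin.div_const _) hkint fun η => ?_
    have := cube80 (hg0 η) hα
    have := hgk η
    change (3 * α ^ 2 * g η - 2 * α ^ 3) / 32 ≤ k η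
    linarith
  have h6 : ∫ η, (3 * α ^ 2 * g η - 2 * α ^ 3) / 32 ∂(law d ρ) =
      (3 * α ^ 2 * (law d ρ).real G₀ - 2 * α ^ 3) / 32 := by
    rw [integral_div, integral_sub (hgint.const_mul _) (integrable_const _), integral_const_mul,
      hgi, integral_const]
    simp
  rw [h6] at h5
  have h7 : 3 * α ^ 2 * α ≤ 3 * α ^ 2 * (law d ρ).real G₀ :=
    mul_le_mul_of_nonneg_left hG (by positivity)
  calc α ^ 3 / 32 ≤ (3 * α ^ 2 * (law d ρ).real G₀ - 2 * α ^ 3) / 32 := by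
        have : 3 * α ^ 2 * α = 3 * α ^ 3 := by ring
        linarith
    _ ≤ _ := h5

end Pool.Agent.W_7d29a1_SDP.PairE80
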