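import Pool.Agent.W_7d29a1_SDP.FinSDQ50
import Pool.Agent.W_7d29a1_SDP.MainM50
import Pool.Agent.W_7d29a1_SDP.ACu51
import Pool.Agent.W_7d29a1_SDP.PairE80
import Pool.Agent.W_7d29a1_SDP.SubE20
import Pool.Agent.W_7d29a1_SDP.TrE51

/-!
Theorems SDE and SDM: the assembly.
-/

namespace Pool.Agent.W_7d29a1_SDP

open MeasureTheory ProbabilityTheory Filter Topology Pool.Agent.W_MP_7d29a1_pr
  Pool.Agent.W_7d29a1_h46 Pool.Agent.W_7d29a1_h46u Pool.Agent.W_7d29a1_D2.B35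
  Pool.Agent.W_7d29a1_Q29 Pool.Agent.W_7d29a1_NV Pool.Agent.W_7d29a1_P89
  Pool.Agent.W_7d29a1_SD

variable {d : ℕ} {ρ : Measure ℝ} [IsProbabilityMeasure ρ] {β : ℝ}

/-- The anticoncentration from the last rows. -/
theorem acUF50 (hd : 0 < d) (hρ : EM ρ) (hnc : ∀ c : ℝ, ρ {c} ≠ 1) (hβ : 0 < β) : ACu d ρ β :=
  acU51 hd hnc hβ absAC6 (atom50 hd hρ hβ)
    (mulU89 hd hρ β (luckU21 hd hρ (p2p67 hd hρ β)) (gainU94 hd β))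

/-- **Theorem SDE.** -/
theorem mainSDEF50 (hd : 0 < d) (hρ : EM ρ) (hnc : ∀ c : ℝ, ρ {c} ≠ 1) (hβ : 0 < β) :
    MainSDE d ρ β :=
  mainSDE50 hd hρ β (aeLP96 hd hρ β) (acUF50 hd hρ hnc hβ) (PairE80.pairE80 hd β) (subE20 hd hρ)

/-- **Theorem SDM**, from the covering and the measurability. -/
theorem mainSDMp50 (hd : 0 < d) (hρ : EM ρ) (hnc : ∀ c : ℝ, ρ {c} ≠ 1) (hβ : 0 < β)
    (hV : CovE d) (hM : MeasE d ρ β) : MainSDM d ρ β :=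
  mainSDM50 hd hρ β (aeLP96 hd hρ β) (acUF50 hd hρ hnc hβ) (coreE50 (PairE80.pairE80 hd β)) hV hM

open Classical in
/-- **Theorem SDE** for an arbitrary i.i.d. environment. -/
theorem clauseSDE50 {Ω : Type*} [MeasurableSpace Ω] {μ : Measure Ω} [IsProbabilityMeasure μ]
    {ω : ℕ × Site d → Ω → ℝ} (hd : 0 < d) (hω : IID μ ρ ω) (hρ : EM ρ)
    (hnc : ∀ c : ℝ, ρ {c} ≠ 1) (hβ : 0 < β) :
    ∀ᵐ v : Vec d, ∀ h : Vec d, VSD ρ β h → ∀ R ε : ℝ, 0 < ε → ∃ᶠ N : ℕ in atTop,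
      (((Finset.Ico N (2 * N)).filter fun n => ∫ x, PolT β h (fun p => ω p x)
        {s : Fin n → Step d | R * Real.sqrt n < ‖emb (pos s n) - (n : ℝ) • v‖} ∂μ ≤
          1 - ε).card : ℝ) ≤ ε * N :=
  trSDE51 hd hω (mainSDEF50 hd hρ hnc hβ)

/-- **Theorem SDE** for an arbitrary i.i.d. environment, at infinitely many lengths. -/
theorem clauseSDEi50 {Ω : Type*} [MeasurableSpace Ω] {μ : Measure Ω} [IsProbabilityMeasure μ]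
    {ω : ℕ × Site d → Ω → ℝ} (hd : 0 < d) (hω : IID μ ρ ω) (hρ : EM ρ)
    (hnc : ∀ c : ℝ, ρ {c} ≠ 1) (hβ : 0 < β) :
    ∀ᵐ v : Vec d, ∀ h : Vec d, VSD ρ β h → ∀ R ε : ℝ, 0 < ε → ∃ᶠ n : ℕ in atTop,
      1 - ε < ∫ x, PolT β h (fun p => ω p x)
        {s : Fin n → Step d | R * Real.sqrt n < ‖emb (pos s n) - (n : ℝ) • v‖} ∂μ :=
  trSDEi51 hd hω (mainSDEF50 hd hρ hnc hβ)

end Pool.Agent.W_7d29a1_SDP
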