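import Pool.Agent.W_7d29a1_SDP.DefsP51
import Pool.Agent.W_7d29a1_SD.SubG20

/-!
Theorem SDP, leaf D: a velocity whose tube keeps mass is a slope of the free energy.
-/

namespace Pool.Agent.W_7d29a1_SDP

open MeasureTheory ProbabilityTheory Filter Topology Pool.Agent.W_MP_7d29a1_pr
  Pool.Agent.W_7d29a1_h46 Pool.Agent.W_7d29a1_h46u Pool.Agent.W_7d29a1_SD

variable {d : ℕ} {ρ : Measure ℝ} [IsProbabilityMeasure ρ] {β : ℝ}

/-- Leaf D. -/
theorem subP20 (hd : 0 < d) (hρ : EM ρ) : SubP d ρ β := by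
  intro h v R θ α n₀ hθ hα hT k
  have hr : Tendsto (fun n : ℕ => (R * Real.sqrt n) / (n : ℝ)) atTop (𝓝 0) := by
    have hsq : Tendsto (fun n : ℕ => Real.sqrt n) atTop atTop :=
      Real.tendsto_sqrt_atTop.comp tendsto_natCast_atTop_atTop
    have t1 : Tendsto (fun n : ℕ => R / Real.sqrt n) atTop (𝓝 0) := hsq.const_div_atTop _
    refine t1.congr' ((eventually_ge_atTop 1).mono fun n hn => ?_)
    have hn' : (0 : ℝ) < n := by exact_mod_cast hn
    have hs : 0 < Real.sqrt n := Real.sqrt_pos.2 hn'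
    rw [div_eq_div_iff hs.ne' hn'.ne', mul_assoc, Real.mul_self_sqrt hn'.le]
  exact coreG20 hd hρ h v k hθ hα _ hr ((eventually_ge_atTop n₀).mono fun n hn => hT n hn)

end Pool.Agent.W_7d29a1_SDP
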