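import Pool.Agent.W_7d29a1_SDP.ACt51
import Pool.Agent.W_7d29a1_SDP.Atom89
import Pool.Agent.W_7d29a1_SDP.LuckU21
import Pool.Agent.W_7d29a1_SDP.GainU94
import Pool.Agent.W_7d29a1_SDP.MulU89
import Pool.Agent.W_7d29a1_SDP.AbsAC6
import Pool.Agent.W_7d29a1_SDP.SubP20
import Pool.Agent.W_7d29a1_SDP.AeLP96
import Pool.Agent.W_7d29a1_SDP.TrP51

/-!
Theorem SDP: the leaves together.
-/

namespace Pool.Agent.W_7d29a1_SDP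

open MeasureTheory ProbabilityTheory Filter Topology Pool.Agent.W_MP_7d29a1_pr
  Pool.Agent.W_7d29a1_h46 Pool.Agent.W_7d29a1_h46u Pool.Agent.W_7d29a1_D2.B35
  Pool.Agent.W_7d29a1_Q29 Pool.Agent.W_7d29a1_NV

variable {d : ℕ} {ρ : Measure ℝ} [IsProbabilityMeasure ρ] {β : ℝ}

/-- The atoms. -/
theorem atomE51 (hd : 0 < d) (hρ : EM ρ) (hβ : 0 < β) : Atom51 d ρ β := by
  obtain ⟨C, hC0, hC⟩ := atom89 (d := d) (ρ := ρ) hd hρ hβ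
  refine ⟨C, hC0, fun h n τ b₀ ε δ b h1 h2 h3 h4 h5 => ?_⟩
  exact ⟨Atm β h n τ b (Real.exp (-(ε * b₀)) / 2), meas_atm89 β h n τ b _,
    fun η ⟨z, _, hz1, hz2⟩ => ⟨z, hz1, hz2⟩, hC h n τ b₀ ε δ b h1 h2 h3 h4 h5⟩

/-- Anticoncentration of the free energy at most lengths. -/
theorem acE51 (hd : 0 < d) (hρ : EM ρ) (hnc : ∀ c : ℝ, ρ {c} ≠ 1) (hβ : 0 < β)
    (hP : P2P d ρ β) : ACt d ρ β :=
  acT51 hd hnc hβ absAC6 (atomE51 hd hρ hβ)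
    (mulU89 hd hρ β (luckU21 hd hρ hP) (gainU94 hd β))

end Pool.Agent.W_7d29a1_SDP
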