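import Pool.Agent.W_7d29a1_SDP.DefsP51
import Pool.Agent.W_7d29a1_SD.TrSD80

/-!
Theorem SDP for an arbitrary i.i.d. environment.
-/

namespace Pool.Agent.W_7d29a1_SDP

open MeasureTheory ProbabilityTheory Filter Topology Pool.Agent.W_MP_7d29a1_pr
  Pool.Agent.W_7d29a1_h46 Pool.Agent.W_7d29a1_h46u Pool.Agent.W_7d29a1_D2.B35
  Pool.Agent.W_7d29a1_Q29 Pool.Agent.W_7d29a1_NV Pool.Agent.W_7d29a1_P89
  Pool.Agent.W_7d29a1_SD

/-- **Theorem SDP** for an arbitrary i.i.d. environment: at almost every velocity, for every tilt in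
very strong disorder, every tube of radius `R √n` is missed with mean probability arbitrarily close
to one, at infinitely many lengths. -/
theorem trSDP50 {d : ℕ} {ρ : Measure ℝ} [IsProbabilityMeasure ρ] {β : ℝ} {Ω : Type*}
    [MeasurableSpace Ω] {μ : Measure Ω} [IsProbabilityMeasure μ] {ω : ℕ × Site d → Ω → ℝ}
    (hd : 0 < d) (hω : IID μ ρ ω) (hM : MainSDP d ρ β) :
    ∀ᵐ v : Vec d, ∀ h : Vec d, VSD ρ β h → ∀ R ε : ℝ, 0 < ε → ∃ᶠ n : ℕ in atTop,
      1 - ε < ∫ x, PolT β h (fun p => ω p x) {s : Fin n → Step d | ∃ i ≤ n,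
        R * Real.sqrt n < ‖emb (pos s i) - (i : ℝ) • v‖} ∂μ := by
  filter_upwards [hM] with v hv h hV R ε hε
  rw [frequently_atTop]
  intro N
  obtain ⟨n, hn, h1⟩ := hv h hV R ε hε N
  refine ⟨n, hn, ?_⟩
  rw [TrSD80.tb_int80 hd hω h v R n]
  exact h1

end Pool.Agent.W_7d29a1_SDP
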