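import Pool.Agent.W_7d29a1_SDP.MainS50
import Pool.Agent.W_7d29a1_SDP.TrSDP50
import Pool.Agent.W_7d29a1_SDP.AeLP96
import Pool.Agent.W_7d29a1_SDP.PairP80
import Pool.Agent.W_7d29a1_SDP.SubP20
import Pool.Agent.W_7d29a1_SDP.ACt51
import Pool.Agent.W_7d29a1_SDP.Atom89
import Pool.Agent.W_7d29a1_SDP.AbsAC6
import Pool.Agent.W_7d29a1_SDP.MulU89
import Pool.Agent.W_7d29a1_SDP.LuckU21
import Pool.Agent.W_7d29a1_SDP.GainU94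

/-!
Theorem SDP: the assembly.
-/

namespace Pool.Agent.W_7d29a1_SDP

open MeasureTheory ProbabilityTheory Filter Topology Pool.Agent.W_MP_7d29a1_pr
  Pool.Agent.W_7d29a1_h46 Pool.Agent.W_7d29a1_h46u Pool.Agent.W_7d29a1_D2.B35
  Pool.Agent.W_7d29a1_Q29 Pool.Agent.W_7d29a1_NV Pool.Agent.W_7d29a1_P89
  Pool.Agent.W_7d29a1_SD

/-- The atoms. -/
theorem atom50 {d : ℕ} {ρ : Measure ℝ} [IsProbabilityMeasure ρ] {β : ℝ} (hd : 0 < d) (hρ : EM ρ)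
    (hβ : 0 < β) : Atom51 d ρ β := by
  obtain ⟨C, hC, H⟩ := atom89 (d := d) (ρ := ρ) hd hρ hβ
  refine ⟨C, hC, fun h n τ b₀ ε δ b h1 h2 h3 h4 h5 => ⟨_, meas_atm89 β h n τ b _, fun η hη => ?_,
    H h n τ b₀ ε δ b h1 h2 h3 h4 h5⟩⟩
  obtain ⟨z, -, hz1, hz2⟩ := hη
  exact ⟨z, hz1, hz2⟩

/-- **Theorem SDP**, from the point to point leaf. -/
theorem mainSDPp50 {d : ℕ} {ρ : Measure ℝ} [IsProbabilityMeasure ρ] {β : ℝ} (hd : 0 < d)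
    (hρ : EM ρ) (hnc : ∀ c : ℝ, ρ {c} ≠ 1) (hβ : 0 < β) (hP : P2P d ρ β) : MainSDP d ρ β :=
  mainSDP50 hd hρ β (aeLP96 hd hρ β)
    (acT51 hd hnc hβ absAC6 (atom50 hd hρ hβ) (mulU89 hd hρ β (luckU21 hd hρ hP) (gainU94 hd β)))
    (PairP80.pairP80 hd β) (subP20 hd hρ)

end Pool.Agent.W_7d29a1_SDP
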