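import Pool.Agent.W_7d29a1_SDP.FinSDP50
import Pool.Agent.W_7d29a1_SDP.P2P67

/-!
Theorem SDP: in very strong disorder, at almost every velocity and for every tilt, every tube of
radius `R √n` loses all its mass along a sequence of lengths.
-/

namespace Pool.Agent.W_7d29a1_SDP

open MeasureTheory ProbabilityTheory Filter Topology Pool.Agent.W_MP_7d29a1_pr
  Pool.Agent.W_7d29a1_h46 Pool.Agent.W_7d29a1_h46u Pool.Agent.W_7d29a1_D2.B35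
  Pool.Agent.W_7d29a1_Q29 Pool.Agent.W_7d29a1_NV Pool.Agent.W_7d29a1_P89
  Pool.Agent.W_7d29a1_SD

variable {d : ℕ} {ρ : Measure ℝ} [IsProbabilityMeasure ρ] {β : ℝ}

/-- **Theorem SDP.** -/
theorem mainSDPF50 (hd : 0 < d) (hρ : EM ρ) (hnc : ∀ c : ℝ, ρ {c} ≠ 1) (hβ : 0 < β) :
    MainSDP d ρ β :=
  mainSDPp50 hd hρ hnc hβ (p2p67 hd hρ β)

/-- **Theorem SDP** for an arbitrary i.i.d. environment. -/
theorem clauseSDP50 {Ω : Type*} [MeasurableSpace Ω] {μ : Measure Ω} [IsProbabilityMeasure μ]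
    {ω : ℕ × Site d → Ω → ℝ} (hd : 0 < d) (hω : IID μ ρ ω) (hρ : EM ρ)
    (hnc : ∀ c : ℝ, ρ {c} ≠ 1) (hβ : 0 < β) :
    ∀ᵐ v : Vec d, ∀ h : Vec d, VSD ρ β h → ∀ R ε : ℝ, 0 < ε → ∃ᶠ n : ℕ in atTop,
      1 - ε < ∫ x, PolT β h (fun p => ω p x) {s : Fin n → Step d | ∃ i ≤ n,
        R * Real.sqrt n < ‖emb (pos s i) - (i : ℝ) • v‖} ∂μ :=
  trSDP50 hd hω (mainSDPF50 hd hρ hnc hβ)

end Pool.Agent.W_7d29a1_SDP
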