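import Pool.Agent.W_7d29a1_SDP.DefsP51

/-!
Theorem SDP, leaf Hull: the upper hull of finitely many points (helper35).
-/

set_option autoImplicit false

namespace Pool.Agent.W_7d29a1_SDP

open MeasureTheory ProbabilityTheory Filter Topology Pool.Agent.W_MP_7d29a1_pr
  Pool.Agent.W_7d29a1_h46 Pool.Agent.W_7d29a1_h46u

theorem hull35 : Hull := by
  classical
  intro d S a w s h1 h2
  obtain ⟨F, hF⟩ : ∃ F : Finset (Vec d × ℝ), F = S.image fun z => (z, a z) := ⟨_, rfl⟩
  have key : ∃ y : ℝ, s ≤ y ∧ (w, y) ∈ convexHull ℝ (F : Set (Vec d × ℝ)) := by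
    by_contra hcon
    push Not at hcon
    have hK : IsCompact (convexHull ℝ (F : Set (Vec d × ℝ))) :=
      (F.finite_toSet).isCompact_convexHull ℝ
    have hT1 : Convex ℝ {q : Vec d × ℝ | q.1 = w ∧ s ≤ q.2} := by
      intro q hq q' hq' x y hx hy hxy
      refine ⟨?_, ?_⟩
      · show x • q.1 + y • q'.1 = w
        rw [hq.1, hq'.1, ← add_smul, hxy, one_smul]
      · show s ≤ x * q.2 + y * q'.2
        have e1 := mul_le_mul_of_nonneg_left hq.2 hx
        have e2 := mul_le_mul_of_nonneg_left hq'.2 hy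
        calc s = x * s + y * s := by rw [← add_mul, hxy, one_mul]
          _ ≤ _ := add_le_add e1 e2
    have hT2 : IsClosed {q : Vec d × ℝ | q.1 = w ∧ s ≤ q.2} :=
      (isClosed_eq continuous_fst continuous_const).inter
        (isClosed_le continuous_const continuous_snd)
    have hdisj : Disjoint (convexHull ℝ (F : Set (Vec d × ℝ)))
        {q : Vec d × ℝ | q.1 = w ∧ s ≤ q.2} := by
      rw [Set.disjoint_left]
      rintro ⟨q1, q2⟩ hq ⟨e1, e2⟩
      simp only at e1 e2
      subst e1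
      exact hcon q2 e2 hq
    obtain ⟨f, u, v, f1, f2, f3⟩ := geometric_hahn_banach_compact_closed
      (convex_convexHull ℝ _) hK hT1 hT2 hdisj
    obtain ⟨c, hc⟩ : ∃ c : ℝ, c = f ((0 : Vec d), (1 : ℝ)) := ⟨_, rfl⟩
    obtain ⟨g, hg⟩ : ∃ g : Vec d, g = (InnerProductSpace.toDual ℝ (Vec d)).symm
      (f.comp (ContinuousLinearMap.inl ℝ (Vec d) ℝ)) := ⟨_, rfl⟩
    have hf : ∀ (z : Vec d) (y : ℝ), f (z, y) = inner ℝ g z + c * y := by
      intro z y
      have e1 : ((z, y) : Vec d × ℝ) = (z, (0 : ℝ)) + y • ((0 : Vec d), (1 : ℝ)) := by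
        ext <;> simp
      have e2 : inner ℝ g z = f (z, (0 : ℝ)) := by
        rw [hg, InnerProductSpace.toDual_symm_apply]
        rfl
      rw [e1, map_add, map_smul, ← e2, ← hc, smul_eq_mul]
      ring
    have hS : ∀ z ∈ S, inner ℝ g z + c * a z < u := by
      intro z hz
      rw [← hf]
      refine f1 _ (subset_convexHull ℝ _ ?_)
      rw [hF, Finset.coe_image]
      exact ⟨z, hz, rfl⟩
    have hW : ∀ y : ℝ, s ≤ y → v < inner ℝ g w + c * y := by
      intro y hy
      rw [← hf]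
      exact f3 _ ⟨rfl, hy⟩
    have hc0 : 0 ≤ c := by
      by_contra hneg
      rw [not_le] at hneg
      have e1 := hW (max s ((v - inner ℝ g w) / c)) (le_max_left _ _)
      have e2 : c * max s ((v - inner ℝ g w) / c) ≤ c * ((v - inner ℝ g w) / c) :=
        mul_le_mul_of_nonpos_left (le_max_right _ _) hneg.le
      rw [mul_div_cancel₀ _ hneg.ne] at e2
      linarith
    rcases hc0.eq_or_lt with hc1 | hc1
    · obtain ⟨z, hz, e1⟩ := h1 g
      have e2 := hS z hz
      have e3 := hW s le_rfl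
      rw [← hc1] at e2 e3
      linarith
    · obtain ⟨z, hz, e1⟩ := h2 (c⁻¹ • g)
      rw [real_inner_smul_left, real_inner_smul_left] at e1
      have e2 := hS z hz
      have e3 := hW s le_rfl
      have e4 := mul_le_mul_of_nonneg_left e1 hc1.le
      have e5 : c * (s + c⁻¹ * inner ℝ g w) = c * s + inner ℝ g w := by
        field_simp
      have e6 : c * (a z + c⁻¹ * inner ℝ g z) = c * a z + inner ℝ g z := by
        field_simp
      rw [e5, e6] at e4
      linarith
  obtain ⟨y, hy, hmem⟩ := key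
  rw [Finset.mem_convexHull'] at hmem
  obtain ⟨W, w1, w2, w3⟩ := hmem
  have hinj : ∀ z ∈ S, ∀ z' ∈ S, (z, a z) = (z', a z') → z = z' := fun z _ z' _ h =>
    (Prod.mk.inj h).1
  rw [hF, Finset.sum_image hinj] at w2 w3
  refine ⟨fun z => W (z, a z), fun z hz => w1 _ ?_, w2, ?_, ?_⟩
  · rw [hF]
    exact Finset.mem_image_of_mem _ hz
  · have e1 := congrArg Prod.fst w3
    rw [Prod.fst_sum] at e1
    exact e1
  · have e1 := congrArg Prod.snd w3
    rw [Prod.snd_sum] at e1
    simp only [Prod.smul_mk, smul_eq_mul] at e1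
    rw [e1]
    exact hy

end Pool.Agent.W_7d29a1_SDP
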