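import Pool.Agent.W_7d29a1_SDP.DefsM51
import Pool.Agent.W_7d29a1_SDP.MainS50
import Pool.Agent.W_7d29a1_V.DimF33

/-!
Theorem SDM from its leaves: the end point at all scales.
-/

set_option autoImplicit false

namespace Pool.Agent.W_7d29a1_SDP

open MeasureTheory ProbabilityTheory Filter Topology Pool.Agent.W_MP_7d29a1_pr
  Pool.Agent.W_7d29a1_h46 Pool.Agent.W_7d29a1_h46u Pool.Agent.W_7d29a1_D2.B35
  Pool.Agent.W_7d29a1_Q29 Pool.Agent.W_7d29a1_NV Pool.Agent.W_7d29a1_P89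
  Pool.Agent.W_7d29a1_SD

namespace M78

variable {d : ℕ} {ρ : Measure ℝ}

/-- The measure of an increasing sequence of sets (not necessarily measurable). -/
lemma ex_of_mono {α : Type*} [MeasurableSpace α] (μ : Measure α) {s : ℕ → Set α}
    (hs : Monotone s) (hfin : μ (⋃ i, s i) ≠ ⊤) {δ : ENNReal} (hδ : δ ≠ 0) :
    ∃ i, μ (⋃ i, s i) ≤ μ (s i) + δ := by
  by_cases h0 : μ (⋃ i, s i) = 0
  · exact ⟨0, by rw [h0]; exact bot_le⟩
  · have h1 : μ (⋃ i, s i) - δ < μ (⋃ i, s i) := ENNReal.sub_lt_self hfin h0 hδ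
    conv_rhs at h1 => rw [hs.measure_iUnion]
    obtain ⟨i, hi⟩ := lt_iSup_iff.1 h1
    exact ⟨i, tsub_le_iff_right.1 hi.le⟩

/-- A slope of the free energy is in the unit ball. -/
lemma slope_ball [IsProbabilityMeasure ρ] (hd : 0 < d) (hρ : EM ρ) (β : ℝ) {h v : Vec d}
    (hv : ∀ k : Vec d, lam ρ β h + inner ℝ v k ≤ lam ρ β (h + k)) : ‖v‖ ≤ 1 := by
  have h1 := hv v
  have h2 := (abs_le.1 (W_7d29a1_V.lam_lip33 hd hρ β (h + v) h)).2
  rw [add_sub_cancel_left, one_mul] at h2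
  rw [real_inner_self_eq_norm_sq] at h1
  have h3 : ‖v‖ ^ 2 ≤ ‖v‖ := by linarith
  by_contra hcon
  rw [not_le] at hcon
  nlinarith

lemma endB_mono78 {n : ℕ} (v : Vec d) {r r' : ℝ} (h : r ≤ r') : endB d n v r ⊆ endB d n v r' :=
  fun _ hs => le_trans hs h

/-- Resampling more rows is easier. -/
lemma ACe_mono {β : ℝ} {h : Vec d} {n m m' : ℕ} {M η' : ℝ} (hm : m ≤ m')
    (hA : ACe ρ β h n m M η') : ACe ρ β h n m' M η' := by
  obtain ⟨b, q, T, h1, h2, h3, h4⟩ := hA
  exact ⟨b, q, T, h1, h2, fun i => ⟨(h3 i).1.trans_le (by omega), (h3 i).2⟩, h4⟩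

end M78

/-- **Theorem SDM from its leaves.** -/
theorem mainSDM78 {d : ℕ} {ρ : Measure ℝ} [IsProbabilityMeasure ρ] (hd : 0 < d) (hρ : EM ρ)
    (β : ℝ) (hL : AeLP d ρ β) (hA : ACu d ρ β) (hC : CoreE d ρ β) (hCov : CovE d)
    (hMs : MeasE d ρ β) : MainSDM d ρ β := by
  classical
  intro R ε hε
  rw [ENNReal.tendsto_atTop_zero]
  by_contra hcon
  push Not at hcon
  obtain ⟨κ', hκ', hbig⟩ := hcon
  -- a real lower bound
  obtain ⟨κ, hκ, hκκ⟩ : ∃ κ : ℝ, 0 < κ ∧ ENNReal.ofReal κ ≤ κ' := by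
    rcases eq_or_ne κ' ⊤ with h0 | h0
    · exact ⟨1, one_pos, by rw [h0]; exact le_top⟩
    · exact ⟨κ'.toReal, ENNReal.toReal_pos hκ'.ne' h0, ENNReal.ofReal_toReal_le⟩
  -- the event at one tilt
  obtain ⟨R', hR'⟩ := exists_nat_ge R
  obtain ⟨θ, hθd⟩ : ∃ θ : ℝ, θ = min (ε / 2) 1 := ⟨_, rfl⟩
  have hθ : 0 < θ := by
    rw [hθd]
    exact lt_min (half_pos hε) one_pos
  have hθ1 : θ ≤ 1 := by
    rw [hθd]
    exact min_le_right _ _
  have hθε : 2 * θ ≤ ε := by
    have : θ ≤ ε / 2 := by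
      rw [hθd]
      exact min_le_left _ _
    linarith
  have htub : ∀ (h v : Vec d) (n : ℕ), Te ρ β h v R n ≤ 1 - ε →
      θ ≤ (law d ρ).real {η | EndE β h v (R' : ℝ) θ n η} := by
    intro h v n hn
    have h1 := M50.mean_ev (law d ρ)
      (measurable_PolT β h (endB d n v (R * Real.sqrt n))) (fun η => PolT_nonneg β h η _)
      (fun η => PolT_le_one β h η _) hθ hθε hn
    refine h1.trans (measureReal_mono fun η hη => ?_)
    exact le_trans hη (PolT_mono β h η
      (M78.endB_mono78 v (mul_le_mul_of_nonneg_right hR' (Real.sqrt_nonneg _))))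
  -- the constants
  obtain ⟨k, b, hb, hCore⟩ := hC (R' : ℝ) θ (Nat.cast_nonneg _) hθ hθ1
  obtain ⟨K, s₀, hK, hs₀, hcov⟩ := hCov 1 (κ / 2) b k one_pos (half_pos hκ) hb
  -- the good velocities
  obtain ⟨Kb, hKb⟩ : ∃ Kb : Set (Vec d), Kb = Metric.closedBall 0 1 := ⟨_, rfl⟩
  have hKbf : volume Kb ≠ ⊤ := by
    rw [hKb]
    exact measure_closedBall_lt_top.ne
  obtain ⟨Sl, hSl⟩ : ∃ Sl : Vec d → Vec d → Prop,
      Sl = fun h v => ∀ k : Vec d, lam ρ β h + inner ℝ v k ≤ lam ρ β (h + k) := ⟨_, rfl⟩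
  obtain ⟨S, hS⟩ : ∃ S : Set (Vec d), S = {v | v ∈ Kb ∧ (∀ h, Sl h v → LP ρ β h v) ∧
      ∀ h, Sl h v → ∃ C δ : ℝ, 0 < C ∧ 0 < δ ∧ ∀ h' v' : Vec d, Sl h' v' → ‖v' - v‖ ≤ δ →
        ‖h' - h‖ ≤ C * ‖v' - v‖} := ⟨_, rfl⟩
  have hSK : volume Kb ≤ volume S := by
    have hae : ∀ᵐ v : Vec d, v ∈ Kb → v ∈ S := by
      filter_upwards [hL, Sel70.ae_lip (lam_convex hd hρ β)] with v h1 h2 hv
      rw [hS]
      refine ⟨hv, ?_, ?_⟩
      · rw [hSl]
        exact h1
      · rw [hSl]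
        exact h2
    exact measure_mono_ae hae
  have hSKb : S ⊆ Kb := by
    intro v hv
    rw [hS] at hv
    exact hv.1
  -- uniqueness of the tilt
  have huniq : ∀ v ∈ S, ∀ h g, Sl h v → Sl g v → g = h := by
    intro v hv h g hh hg
    rw [hS] at hv
    obtain ⟨C, δ, hC0, hδ0, hlip⟩ := hv.2.2 h hh
    have h1 := hlip g v hg (by rw [sub_self, norm_zero]; exact hδ0.le)
    rw [sub_self, norm_zero, mul_zero] at h1
    exact sub_eq_zero.1 (norm_le_zero_iff.1 h1)
  -- the first sequence of sets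
  obtain ⟨D, hD⟩ : ∃ D : ℕ → Set (Vec d), D = fun (c : ℕ) => {v | v ∈ S ∧ ∀ h, VSD ρ β h → Sl h v →
      ∀ h' v' : Vec d, Sl h' v' → ‖v' - v‖ ≤ 1 / ((c : ℝ) + 1) →
        ‖h' - h‖ ≤ ((c : ℝ) + 1) * ‖v' - v‖} := ⟨_, rfl⟩
  have hDm : Monotone D := by
    intro c c' hcc v hv
    rw [hD] at hv ⊢
    refine ⟨hv.1, fun h hV hh h' v' hh' hvv => ?_⟩
    have hcr : (c : ℝ) ≤ c' := by exact_mod_cast hcc
    have h1 : 1 / ((c' : ℝ) + 1) ≤ 1 / ((c : ℝ) + 1) :=
      one_div_le_one_div_of_le (by positivity) (by linarith)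
    exact (hv.2 h hV hh h' v' hh' (hvv.trans h1)).trans
      (mul_le_mul_of_nonneg_right (by linarith) (norm_nonneg _))
  have hDu : (⋃ c, D c) = S := by
    refine Set.Subset.antisymm (Set.iUnion_subset fun c v hv => ?_) fun v hv => ?_
    · rw [hD] at hv
      exact hv.1
    · by_cases hex : ∃ h, VSD ρ β h ∧ Sl h v
      · obtain ⟨h, hV, hh⟩ := hex
        have hv' := hv
        rw [hS] at hv'
        obtain ⟨C, δ, hC0, hδ0, hlip⟩ := hv'.2.2 h hh
        obtain ⟨c1, hc1⟩ := exists_nat_ge C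
        obtain ⟨c2, hc2⟩ := exists_nat_one_div_lt hδ0
        refine Set.mem_iUnion.2 ⟨max c1 c2, ?_⟩
        rw [hD]
        refine ⟨hv, fun g _ hg h' v' hh' hvv => ?_⟩
        have e := huniq v hv h g hh hg
        rw [e]
        have hr1 : (c1 : ℝ) ≤ ((max c1 c2 : ℕ) : ℝ) := by exact_mod_cast le_max_left _ _
        have hr2 : (c2 : ℝ) ≤ ((max c1 c2 : ℕ) : ℝ) := by exact_mod_cast le_max_right _ _
        have h1 : 1 / (((max c1 c2 : ℕ) : ℝ) + 1) ≤ 1 / ((c2 : ℝ) + 1) :=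
          one_div_le_one_div_of_le (by positivity) (by linarith)
        refine (hlip h' v' hh' ((hvv.trans h1).trans hc2.le)).trans
          (mul_le_mul_of_nonneg_right (by linarith) (norm_nonneg _))
      · refine Set.mem_iUnion.2 ⟨0, ?_⟩
        rw [hD]
        exact ⟨hv, fun h hV hh => absurd ⟨h, hV, hh⟩ hex⟩
  have hκ4 : ENNReal.ofReal (κ / 4) ≠ 0 := by
    rw [Ne, ENNReal.ofReal_eq_zero, not_le]
    positivity
  obtain ⟨c, hc⟩ := M78.ex_of_mono volume hDm (δ := ENNReal.ofReal (κ / 4)) (by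
    rw [hDu]
    exact ne_top_of_le_ne_top hKbf (measure_mono hSKb)) hκ4
  rw [hDu] at hc
  have hDS : D c ⊆ S := by
    rw [← hDu]
    exact Set.subset_iUnion D c
  -- the second sequence of sets
  obtain ⟨M, η', hη', hCore2⟩ := hCore K (((c : ℝ) + 1) * K) hK (by positivity)
  obtain ⟨F, hF⟩ : ∃ F : ℕ → Set (Vec d), F = fun (m : ℕ) => {v | v ∈ D c ∧ ∀ h, VSD ρ β h → Sl h v →
      ∀ N : ℕ, m ≤ N → (((Finset.Ico N (2 * N)).filter fun n =>
        ¬ ACe ρ β h n m M η').card : ℝ) ≤ η' * N} := ⟨_, rfl⟩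
  have hcardm : ∀ (h : Vec d) (m m' N : ℕ), m ≤ m' →
      (((Finset.Ico N (2 * N)).filter fun n => ¬ ACe ρ β h n m' M η').card : ℝ) ≤
        (((Finset.Ico N (2 * N)).filter fun n => ¬ ACe ρ β h n m M η').card : ℝ) := by
    intro h m m' N hm
    have h3 : ((Finset.Ico N (2 * N)).filter fun n => ¬ ACe ρ β h n m' M η').card ≤
        ((Finset.Ico N (2 * N)).filter fun n => ¬ ACe ρ β h n m M η').card :=
      Finset.card_le_card fun n hn => by
        rw [Finset.mem_filter] at hn ⊢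
        exact ⟨hn.1, fun hA => hn.2 (M78.ACe_mono hm hA)⟩
    exact_mod_cast h3
  have hFm : Monotone F := by
    intro m m' hmm v hv
    rw [hF] at hv ⊢
    exact ⟨hv.1, fun h hV hh N hN => (hcardm h m m' N hmm).trans (hv.2 h hV hh N (hmm.trans hN))⟩
  have hFu : (⋃ m, F m) = D c := by
    refine Set.Subset.antisymm (Set.iUnion_subset fun m v hv => ?_) fun v hv => ?_
    · rw [hF] at hv
      exact hv.1
    · by_cases hex : ∃ h, VSD ρ β h ∧ Sl h v
      · obtain ⟨h, hV, hh⟩ := hex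
        have hvS := hDS hv
        have hv' := hvS
        rw [hS] at hv'
        obtain ⟨m, N₀, hm⟩ := hA h v hV (hv'.2.1 h hh) M η' hη'
        refine Set.mem_iUnion.2 ⟨max m N₀, ?_⟩
        rw [hF]
        refine ⟨hv, fun g _ hg N hN => ?_⟩
        have e := huniq v hvS h g hh hg
        rw [e]
        refine (hcardm h m (max m N₀) N (le_max_left _ _)).trans ?_
        have h7 := hm N ((le_max_right _ _).trans hN)
        convert h7
      · refine Set.mem_iUnion.2 ⟨0, ?_⟩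
        rw [hF]
        exact ⟨hv, fun h hV hh => absurd ⟨h, hV, hh⟩ hex⟩
  obtain ⟨m, hm⟩ := M78.ex_of_mono volume hFm (δ := ENNReal.ofReal (κ / 4)) (by
    rw [hFu]
    exact ne_top_of_le_ne_top hKbf (measure_mono (hDS.trans hSKb))) hκ4
  rw [hFu] at hm
  have hFD : F m ⊆ D c := by
    rw [← hFu]
    exact Set.subset_iUnion F m
  -- the scale
  obtain ⟨N₁, hN₁⟩ := hCore2 m
  obtain ⟨N₂, hN₂⟩ := exists_nat_ge ((1 / s₀) ^ 2)
  obtain ⟨N₃, hN₃⟩ := exists_nat_ge ((K * ((c : ℝ) + 1)) ^ 2)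
  obtain ⟨N, hN, hNbad⟩ := hbig (max (max N₁ m) (max (max N₂ N₃) 1))
  have hNN1 : N₁ ≤ N := ((le_max_left _ _).trans (le_max_left _ _)).trans hN
  have hNm : m ≤ N := ((le_max_right _ _).trans (le_max_left _ _)).trans hN
  have hNN2 : N₂ ≤ N :=
    (((le_max_left _ _).trans (le_max_left _ _)).trans (le_max_right _ _)).trans hN
  have hNN3 : N₃ ≤ N :=
    (((le_max_right _ _).trans (le_max_left _ _)).trans (le_max_right _ _)).trans hN
  have hN1 : 1 ≤ N := ((le_max_right _ _).trans (le_max_right _ _)).trans hN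
  have hNr : (1 : ℝ) ≤ N := by exact_mod_cast hN1
  have hsq : 0 < Real.sqrt N := Real.sqrt_pos.2 (by linarith)
  have hsmall : 1 / Real.sqrt N ≤ s₀ := by
    rw [div_le_iff₀ hsq, ← div_le_iff₀' hs₀]
    apply Real.le_sqrt_of_sq_le
    refine hN₂.trans ?_
    exact_mod_cast hNN2
  have hsmall2 : K * (1 / Real.sqrt N) ≤ 1 / ((c : ℝ) + 1) := by
    have h1 : K * ((c : ℝ) + 1) ≤ Real.sqrt N := by
      apply Real.le_sqrt_of_sq_le
      refine hN₃.trans ?_
      exact_mod_cast hNN3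
    rw [mul_one_div, div_le_div_iff₀ hsq (by positivity), one_mul]
    exact h1
  -- the measure of the intersection
  have hBadK : BadE (d := d) ρ β R ε N ⊆ Kb := by
    intro v hv
    obtain ⟨h, _, hh, _⟩ := hv
    rw [hKb, Metric.mem_closedBall, dist_zero_right]
    exact M78.slope_ball hd hρ β hh
  have hBm := hMs R ε N
  have hvol : ENNReal.ofReal (κ / 2) ≤ volume (F m ∩ BadE (d := d) ρ β R ε N) := by
    have e1 : volume Kb ≤ volume (F m) + (ENNReal.ofReal (κ / 4) + ENNReal.ofReal (κ / 4)) := by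
      calc volume Kb ≤ volume S := hSK
        _ ≤ volume (D c) + ENNReal.ofReal (κ / 4) := hc
        _ ≤ volume (F m) + ENNReal.ofReal (κ / 4) + ENNReal.ofReal (κ / 4) :=
          add_le_add_left hm _
        _ = _ := add_assoc _ _ _
    have e2 : ENNReal.ofReal (κ / 4) + ENNReal.ofReal (κ / 4) = ENNReal.ofReal (κ / 2) := by
      rw [← ENNReal.ofReal_add (by positivity) (by positivity)]
      congr 1
      ring
    rw [e2] at e1
    have e3 := measure_inter_add_sdiff (μ := volume) (F m) hBm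
    have e4 := measure_inter_add_sdiff (μ := volume) Kb hBm
    rw [Set.inter_eq_self_of_subset_right hBadK] at e4
    have e5 : volume (F m \ BadE (d := d) ρ β R ε N) ≤ volume (Kb \ BadE (d := d) ρ β R ε N) :=
      measure_mono (Set.sdiff_subset_sdiff_left ((hFD.trans hDS).trans hSKb))
    have e6 : volume (Kb \ BadE (d := d) ρ β R ε N) ≠ ⊤ :=
      ne_top_of_le_ne_top hKbf (measure_mono Set.sdiff_subset)
    have e7 : volume (BadE (d := d) ρ β R ε N) + volume (Kb \ BadE (d := d) ρ β R ε N) ≤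
        (volume (F m ∩ BadE (d := d) ρ β R ε N) + ENNReal.ofReal (κ / 2)) +
          volume (Kb \ BadE (d := d) ρ β R ε N) := by
      calc volume (BadE (d := d) ρ β R ε N) + volume (Kb \ BadE (d := d) ρ β R ε N)
          = volume Kb := e4
        _ ≤ volume (F m) + ENNReal.ofReal (κ / 2) := e1
        _ = volume (F m ∩ BadE (d := d) ρ β R ε N) +
            volume (F m \ BadE (d := d) ρ β R ε N) + ENNReal.ofReal (κ / 2) := by rw [e3]
        _ ≤ volume (F m ∩ BadE (d := d) ρ β R ε N) +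
            volume (Kb \ BadE (d := d) ρ β R ε N) + ENNReal.ofReal (κ / 2) := by
          gcongr
        _ = _ := by
          rw [add_right_comm]
    have e8 := (ENNReal.add_le_add_iff_right e6).1 e7
    have e9 : ENNReal.ofReal (κ / 2) + ENNReal.ofReal (κ / 2) ≤
        volume (F m ∩ BadE (d := d) ρ β R ε N) + ENNReal.ofReal (κ / 2) := by
      have e10 : ENNReal.ofReal (κ / 2) + ENNReal.ofReal (κ / 2) = ENNReal.ofReal κ := by
        rw [← ENNReal.ofReal_add (by positivity) (by positivity)]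
        congr 1
        ring
      rw [e10]
      exact (hκκ.trans hNbad.le).trans e8
    exact (ENNReal.add_le_add_iff_right ENNReal.ofReal_ne_top).1 e9
  -- the points
  obtain ⟨y, hy, hyK, hysep⟩ := hcov (1 / Real.sqrt N) (by positivity) hsmall
    (F m ∩ BadE (d := d) ρ β R ε N) (by
      refine Set.inter_subset_right.trans ?_
      rw [← hKb]
      exact hBadK) hvol
  have hch : ∀ l : Fin k, ∃ g : Vec d, VSD ρ β g ∧ Sl g (y l) ∧
      ε * N ≤ (((Finset.Ico N (2 * N)).filter fun n => Te ρ β g (y l) R n ≤ 1 - ε).card : ℝ) := by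
    intro l
    obtain ⟨g, h1, h2, h3⟩ := (hy l).2
    refine ⟨g, h1, ?_, ?_⟩
    · rw [hSl]
      exact h2
    · convert h3
  choose g hgV hgS hgc using hch
  have hyy : ∀ l l', ‖y l - y l'‖ ≤ 1 / ((c : ℝ) + 1) := fun l l' =>
    (hyK l l').trans hsmall2
  have hyD : ∀ l, y l ∈ D c := fun l => hFD (hy l).1
  have hyF : ∀ l, y l ∈ F m := fun l => (hy l).1
  rw [hD] at hyD
  rw [hF] at hyF
  refine hN₁ N hNN1 g y (fun l l' => ?_) (fun l l' => ?_) (fun l l' hll => ?_) (fun l => ?_)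
    (fun l => ?_)
  · have h1 := mul_le_mul_of_nonneg_right (hyK l l') hsq.le
    refine h1.trans (le_of_eq ?_)
    field_simp
  · have h1 := (hyD l').2 (g l') (hgV l') (hgS l') (g l) (y l) (hgS l) (hyy l l')
    have h2 : ‖g l - g l'‖ ≤ ((c : ℝ) + 1) * (K * (1 / Real.sqrt N)) :=
      h1.trans (mul_le_mul_of_nonneg_left (hyK l l') (by positivity))
    have h3 := mul_le_mul_of_nonneg_right h2 hsq.le
    refine h3.trans (le_of_eq ?_)
    field_simp
  · have h1 := mul_le_mul_of_nonneg_right (hysep l l' hll) hsq.le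
    refine le_trans (le_of_eq ?_) h1
    field_simp
  · have h1 : θ * N ≤ ε * N := mul_le_mul_of_nonneg_right (by linarith) (Nat.cast_nonneg N)
    refine h1.trans ((hgc l).trans ?_)
    have h3 : ((Finset.Ico N (2 * N)).filter fun n => Te ρ β (g l) (y l) R n ≤ 1 - ε).card ≤
        ((Finset.Ico N (2 * N)).filter fun n =>
          θ ≤ (law d ρ).real {η | EndE β (g l) (y l) (R' : ℝ) θ n η}).card :=
      Finset.card_le_card fun n hn => by
        rw [Finset.mem_filter] at hn ⊢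
        exact ⟨hn.1, htub _ _ n hn.2⟩
    have h4 : (((Finset.Ico N (2 * N)).filter fun n => Te ρ β (g l) (y l) R n ≤ 1 - ε).card : ℝ) ≤
        (((Finset.Ico N (2 * N)).filter fun n =>
          θ ≤ (law d ρ).real {η | EndE β (g l) (y l) (R' : ℝ) θ n η}).card : ℝ) := by
      exact_mod_cast h3
    convert h4
  · have h7 := (hyF l).2 (g l) (hgV l) (hgS l) N hNm
    convert h7

end Pool.Agent.W_7d29a1_SDP
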