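import Pool.Agent.W_7d29a1_SDP.DefsM51
import Pool.Agent.W_7d29a1_Q29.Half72
import Pool.Agent.W_7d29a1_h46u.LamU

/-!
Theorem SDM, leaf MEAS (helper6): the set of the bad velocities is measurable.
-/

set_option autoImplicit false

namespace Pool.Agent.W_7d29a1_SDP

open MeasureTheory ProbabilityTheory Filter Topology Pool.Agent.W_MP_7d29a1_pr
  Pool.Agent.W_7d29a1_h46 Pool.Agent.W_7d29a1_h46u Pool.Agent.W_7d29a1_D2.B35
  Pool.Agent.W_7d29a1_Q29 Pool.Agent.W_7d29a1_NV Pool.Agent.W_7d29a1_P89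
  Pool.Agent.W_7d29a1_SD

namespace M6

variable {d : ℕ} {ρ : Measure ℝ} [IsProbabilityMeasure ρ]

lemma cont_ZT (β : ℝ) {n : ℕ} (η : ℕ × Site d → ℝ) (E : Set (Fin n → Step d)) :
    Continuous fun h : Vec d => ZT β h η E := by
  classical
  unfold ZT
  refine continuous_finsetSum _ fun s _ => ?_
  split_ifs
  · unfold wgt
    exact Real.continuous_exp.comp ((continuous_id.inner continuous_const).add continuous_const)
  · exact continuous_const

lemma cont_PolT (hd : 0 < d) (β : ℝ) {n : ℕ} (η : ℕ × Site d → ℝ) (E : Set (Fin n → Step d)) :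
    Continuous fun h : Vec d => PolT β h η E := by
  unfold PolT
  refine (cont_ZT β η E).div (cont_ZT β η Set.univ) fun h => ?_
  exact (ZT_pos β h η ⟨fun _ => (⟨0, hd⟩, true), Set.mem_univ _⟩).ne'

/-- The mean mass outside a set of paths. -/
noncomputable def TG (ρ : Measure ℝ) (β : ℝ) (n : ℕ) (G : Set (Fin n → Step d)) (h : Vec d) : ℝ :=
  ∫ η, (1 - PolT β h η G) ∂(law d ρ)

lemma cont_TG (hd : 0 < d) (β : ℝ) (n : ℕ) (G : Set (Fin n → Step d)) :
    Continuous (TG (d := d) ρ β n G) := by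
  unfold TG
  refine continuous_of_dominated (bound := fun _ => (1 : ℝ)) (fun h => ?_) (fun h => ?_)
    (integrable_const _) ?_
  · exact ((measurable_PolT β h G).const_sub 1).aestronglyMeasurable
  · refine ae_of_all _ fun η => ?_
    have h1 := PolT_nonneg β h η G
    have h2 := PolT_le_one β h η G
    rw [Real.norm_eq_abs, abs_le]
    constructor <;> linarith
  · exact ae_of_all _ fun η => continuous_const.sub (cont_PolT hd β η G)

lemma TG_anti (β : ℝ) (n : ℕ) {G G' : Set (Fin n → Step d)} (h : G ⊆ G') (k : Vec d) :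
    TG ρ β n G' k ≤ TG ρ β n G k := by
  unfold TG
  have hint : ∀ G : Set (Fin n → Step d), Integrable (fun η => 1 - PolT β k η G) (law d ρ) := by
    intro G
    refine Integrable.mono' (integrable_const (1 : ℝ))
      ((measurable_PolT β k G).const_sub 1).aestronglyMeasurable (ae_of_all _ fun η => ?_)
    have h1 := PolT_nonneg β k η G
    have h2 := PolT_le_one β k η G
    rw [Real.norm_eq_abs, abs_le]
    constructor <;> linarith
  refine integral_mono (hint G') (hint G) fun η => ?_
  have := PolT_mono β k η h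
  simp only
  linarith

/-- The set of the pairs with the end ball heavy is closed. -/
lemma closed_Te (hd : 0 < d) (β R c : ℝ) (n : ℕ) :
    IsClosed {p : Vec d × Vec d | Te ρ β p.1 p.2 R n ≤ c} := by
  have heq : {p : Vec d × Vec d | Te ρ β p.1 p.2 R n ≤ c} =
      ⋃ G : Set (Fin n → Step d), ((⋂ s ∈ G,
        {p : Vec d × Vec d | ‖emb (pos s n) - (n : ℝ) • p.2‖ ≤ R * Real.sqrt n}) ∩
          {p : Vec d × Vec d | TG ρ β n G p.1 ≤ c}) := by
    ext p
    simp only [Set.mem_ofPred_eq, Set.mem_iUnion, Set.mem_inter_iff, Set.mem_iInter]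
    constructor
    · intro h
      exact ⟨endB d n p.2 (R * Real.sqrt n), fun s hs => hs, h⟩
    · rintro ⟨G, h1, h2⟩
      have hG : G ⊆ endB d n p.2 (R * Real.sqrt n) := fun s hs => h1 s hs
      exact (TG_anti β n hG p.1).trans h2
  rw [heq]
  refine isClosed_iUnion_of_finite fun G => ?_
  refine IsClosed.inter ?_ ?_
  · refine isClosed_iInter fun s => isClosed_iInter fun _ => ?_
    have hc : Continuous fun p : Vec d × Vec d => ‖emb (pos s n) - (n : ℝ) • p.2‖ :=
      (continuous_const.sub (continuous_snd.const_smul (n : ℝ))).norm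
    exact isClosed_le hc continuous_const
  · have hc : Continuous fun p : Vec d × Vec d => TG ρ β n G p.1 :=
      (cont_TG hd β n G).comp continuous_fst
    exact isClosed_le hc continuous_const

lemma cont_lam (hd : 0 < d) (hρ : EM ρ) (β : ℝ) : Continuous fun h : Vec d => lam ρ β h :=
  (lam_convex hd hρ β).locallyLipschitz.continuous

/-- The closed pieces. -/
def CC (ρ : Measure ℝ) (β R ε : ℝ) (F : Finset ℕ) (j : ℕ) : Set (Vec d × Vec d) :=
  {p | lam ρ β p.1 + 1 / ((j : ℝ) + 1) ≤
      Real.log (Phi p.1) + Real.log (∫ t, Real.exp (β * t) ∂ρ)} ∩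
    ({p | ∀ k : Vec d, lam ρ β p.1 + inner ℝ p.2 k ≤ lam ρ β (p.1 + k)} ∩
      {p | ∀ n ∈ F, Te ρ β p.1 p.2 R n ≤ 1 - ε})

lemma closed_CC (hd : 0 < d) (hρ : EM ρ) (β R ε : ℝ) (F : Finset ℕ) (j : ℕ) :
    IsClosed (CC (d := d) ρ β R ε F j) := by
  have hl := cont_lam (d := d) hd hρ β
  unfold CC
  refine IsClosed.inter ?_ (IsClosed.inter ?_ ?_)
  · refine isClosed_le ((hl.comp continuous_fst).add continuous_const) ?_
    refine Continuous.add ?_ continuous_const
    exact (continuous_Phi72.comp continuous_fst).log fun p => (Phi_pos61 hd _).ne'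
  · rw [Set.ofPred_forall]
    refine isClosed_iInter fun k => ?_
    exact isClosed_le ((hl.comp continuous_fst).add (continuous_snd.inner continuous_const))
      (hl.comp (continuous_fst.add continuous_const))
  · have : {p : Vec d × Vec d | ∀ n ∈ F, Te ρ β p.1 p.2 R n ≤ 1 - ε} =
        ⋂ n ∈ F, {p | Te ρ β p.1 p.2 R n ≤ 1 - ε} := by
      ext p
      simp
    rw [this]
    exact isClosed_biInter fun n _ => closed_Te hd β R (1 - ε) n

/-- The projection of a closed set is measurable. -/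
lemma meas_snd {C : Set (Vec d × Vec d)} (hC : IsClosed C) : MeasurableSet (Prod.snd '' C) := by
  have h1 : Prod.snd '' C = ⋃ i : ℕ, Prod.snd ''
      (C ∩ Metric.closedBall (0 : Vec d × Vec d) i) := by
    rw [← Set.image_iUnion, ← Set.inter_iUnion, Metric.iUnion_closedBall_nat, Set.inter_univ]
  rw [h1]
  refine MeasurableSet.iUnion fun i => ?_
  exact (((isCompact_closedBall (0 : Vec d × Vec d) (i : ℝ)).inter_left hC).image
    continuous_snd).measurableSet

end M6

open M6 in
/-- **Leaf MEAS.** -/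
theorem measE6 {d : ℕ} {ρ : Measure ℝ} [IsProbabilityMeasure ρ] (hd : 0 < d) (hρ : EM ρ) (β : ℝ) :
    MeasE d ρ β := by
  classical
  intro R ε N
  have heq : BadE (d := d) ρ β R ε N =
      ⋃ F : Finset ℕ, ⋃ (_ : F ⊆ Finset.Ico N (2 * N) ∧ ε * N ≤ (F.card : ℝ)), ⋃ j : ℕ,
        Prod.snd '' CC (d := d) ρ β R ε F j := by
    ext v
    simp only [Set.mem_iUnion, Set.mem_image]
    constructor
    · rintro ⟨h, h1, h2, h3⟩
      have h4 : 0 < Real.log (Phi h) + Real.log (∫ t, Real.exp (β * t) ∂ρ) - lam ρ β h :=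
        sub_pos.2 h1
      obtain ⟨j, hj⟩ := exists_nat_one_div_lt h4
      refine ⟨(Finset.Ico N (2 * N)).filter fun n => Te ρ β h v R n ≤ 1 - ε,
        ⟨Finset.filter_subset _ _, ?_⟩, j, (h, v), ⟨?_, h2, fun n hn => ?_⟩, rfl⟩
      · convert h3
      · simp only [Set.mem_ofPred_eq]
        linarith
      · exact (Finset.mem_filter.1 hn).2
    · rintro ⟨F, ⟨hF1, hF2⟩, j, ⟨h, w⟩, ⟨h1, h2, h3⟩, hw⟩
      simp only at hw
      subst hw
      simp only [Set.mem_ofPred_eq] at h1 h2 h3
      have hj : (0 : ℝ) < 1 / ((j : ℝ) + 1) := by positivity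
      refine ⟨h, ?_, h2, hF2.trans ?_⟩
      · unfold VSD
        linarith
      · have : F ⊆ (Finset.Ico N (2 * N)).filter fun n => Te ρ β h w R n ≤ 1 - ε :=
          fun n hn => Finset.mem_filter.2 ⟨hF1 hn, h3 n hn⟩
        have h5 := Finset.card_le_card this
        have h6 : ((F.card : ℕ) : ℝ) ≤
            (((Finset.Ico N (2 * N)).filter fun n => Te ρ β h w R n ≤ 1 - ε).card : ℝ) := by
          exact_mod_cast h5
        convert h6
  rw [heq]
  exact MeasurableSet.iUnion fun F => MeasurableSet.iUnion fun _ => MeasurableSet.iUnion fun j =>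
    meas_snd (closed_CC hd hρ β R ε F j)

end Pool.Agent.W_7d29a1_SDP
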