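import Pool.Agent.W_7d29a1_Q29.Half72
import Pool.Agent.W_7d29a1_KL.SlEx46
import Pool.Agent.W_7d29a1_v.Slope
import Pool.Agent.W_7d29a1_SDP.LuckU21

/-!
The slopes of the tilts in very strong disorder contain a nonempty open set: there is a nonempty
open set of vectors `v` which are slopes of the free energy, and every tilt with such a slope is in
very strong disorder. Every dimension, every law, every `β > 0`.
-/

namespace Pool.Agent.W_7d29a1_SDP

open MeasureTheory ProbabilityTheory Filter Topology Pool.Agent.W_MP_7d29a1_pr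
  Pool.Agent.W_7d29a1_h46 Pool.Agent.W_7d29a1_h46u Pool.Agent.W_7d29a1_Q29

variable {d : ℕ} {ρ : Measure ℝ} [IsProbabilityMeasure ρ] {β : ℝ}

namespace O50

/-- The fractional moment bound of the free energy. -/
lemma lam_half (hd : 0 < d) (hρ : EM ρ) (β : ℝ) (h : Vec d) :
    lam ρ β h ≤ 2 * Real.log (Phi ((1 / 2 : ℝ) • h)) +
      2 * Real.log (∫ t, Real.exp (1 / 2 * β * t) ∂ρ) := by
  have h1 := lam_frac61 hd hρ β h (θ := 1 / 2) (by norm_num) (by norm_num)
  have h2 := lam_le_ann61 hd hρ (1 / 2 * β) ((1 / 2 : ℝ) • h)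
  linarith

/-- `Phi` at a tilt whose largest coordinate is the first. -/
lemma phi_up (hd : 0 < d) (h : Vec d) (j : Fin d) {H t : ℝ} (ht : 0 < t)
    (hj : h j = H + t) (hH : ∀ i, i ≠ j → |h i| ≤ H) (hH0 : 0 ≤ H) :
    2 * Real.log (Phi ((1 / 2 : ℝ) • h)) ≤ H + t + 4 * d * Real.exp (-(t / 2)) := by
  have h1 : Phi ((1 / 2 : ℝ) • h) ≤ Real.exp ((H + t) / 2) + 2 * d * Real.exp (H / 2) := by
    unfold Phi
    have h2 : ∀ e : Step d, Real.exp (inner ℝ ((1 / 2 : ℝ) • h) (emb (vec e))) ≤
        (if e = (j, true) then Real.exp ((H + t) / 2) else 0) + Real.exp (H / 2) := by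
      intro e
      rw [real_inner_smul_left, W_7d29a1_v.Slope_inner]
      by_cases he : e = (j, true)
      · rw [if_pos he]
        subst he
        have e1 : (1 / 2 : ℝ) * (if (true : Bool) = true then h j else -h j) = (H + t) / 2 := by
          rw [if_pos rfl, hj]
          ring
        have e2 : ((1 / 2 : ℝ) * if ((j, true) : Step d).2 = true then h ((j, true) : Step d).1
            else -h ((j, true) : Step d).1) = (H + t) / 2 := e1
        rw [e2]
        have := Real.exp_pos (H / 2)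
        linarith
      · rw [if_neg he, zero_add]
        refine Real.exp_le_exp.2 ?_
        have h3 : (if e.2 then h e.1 else -h e.1) ≤ H := by
          rcases eq_or_ne e.1 j with h4 | h4
          · have hb : e.2 = false := by
              by_contra hb
              apply he
              have : e.2 = true := by simpa using hb
              exact Prod.ext h4 this
            rw [hb, h4, hj]
            simp only [Bool.false_eq_true, if_false]
            linarith
          · have h5 := hH e.1 h4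
            have h6 := le_abs_self (h e.1)
            have h7 := neg_abs_le (h e.1)
            split_ifs <;> linarith
        linarith
    refine (Finset.sum_le_sum fun e _ => h2 e).trans (le_of_eq ?_)
    rw [Finset.sum_add_distrib, Finset.sum_ite_eq' Finset.univ ((j, true) : Step d)
      (fun _ => Real.exp ((H + t) / 2)), if_pos (Finset.mem_univ _), Finset.sum_const,
      Finset.card_univ]
    simp only [Fintype.card_prod, Fintype.card_fin, Fintype.card_bool, nsmul_eq_mul]
    push_cast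
    ring
  have h3 : Real.exp ((H + t) / 2) + 2 * d * Real.exp (H / 2) =
      Real.exp ((H + t) / 2) * (1 + 2 * d * Real.exp (-(t / 2))) := by
    have : Real.exp ((H + t) / 2) * Real.exp (-(t / 2)) = Real.exp (H / 2) := by
      rw [← Real.exp_add]
      congr 1
      ring
    rw [mul_add, mul_one]
    rw [show Real.exp ((H + t) / 2) * (2 * d * Real.exp (-(t / 2))) =
      2 * d * (Real.exp ((H + t) / 2) * Real.exp (-(t / 2))) by ring, this]
  have hpos : 0 < 1 + 2 * (d : ℝ) * Real.exp (-(t / 2)) := by positivity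
  have h4 : Real.log (Phi ((1 / 2 : ℝ) • h)) ≤ (H + t) / 2 + 2 * d * Real.exp (-(t / 2)) := by
    refine (Real.log_le_log (Phi_pos61 hd _) h1).trans ?_
    rw [h3, Real.log_mul (Real.exp_pos _).ne' hpos.ne', Real.log_exp]
    have := Real.log_le_sub_one_of_pos hpos
    linarith
  linarith

/-- `Phi` is at least the weight of a step. -/
lemma phi_low (hd : 0 < d) (h : Vec d) (j : Fin d) : h j ≤ Real.log (Phi h) := by
  rw [Real.le_log_iff_exp_le (Phi_pos61 hd _)]
  unfold Phi
  have h1 := Finset.single_le_sum (f := fun e : Step d =>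
    Real.exp (inner ℝ h (emb (vec e))))
    (fun e _ => (Real.exp_pos _).le) (Finset.mem_univ ((j, true) : Step d))
  refine le_trans (le_of_eq ?_) h1
  simp only [W_7d29a1_v.Slope_inner]
  simp

/-- Every vector in the open cone is a slope. -/
lemma slope_ex (hd : 0 < d) (hρ : EM ρ) (β : ℝ) (v : Vec d) (hv : ∑ i, |v i| < 1) :
    ∃ h : Vec d, ∀ k : Vec d, lam ρ β h + inner ℝ v k ≤ lam ρ β (h + k) := by
  have hL := lam_convex (ρ := ρ) hd hρ β
  have hc : Continuous (lam ρ β : Vec d → ℝ) := hL.locallyLipschitz.continuous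
  have hf : Continuous fun h : Vec d => lam ρ β h - inner ℝ v h :=
    hc.sub (continuous_const.inner continuous_id)
  have hd' : (0 : ℝ) < d := by exact_mod_cast hd
  have : Nonempty (Fin d) := ⟨⟨0, hd⟩⟩
  have hT : Tendsto (fun h : Vec d => lam ρ β h - inner ℝ v h) (cocompact (Vec d)) atTop := by
    have h1 : Tendsto (fun h : Vec d => ((1 - ∑ i, |v i|) / d) * ‖h‖ + β * ∫ x, x ∂ρ)
        (cocompact (Vec d)) atTop :=
      tendsto_atTop_add_const_right _ _
        ((tendsto_norm_cocompact_atTop (E := Vec d)).const_mul_atTop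
          (div_pos (by linarith) hd'))
    refine tendsto_atTop_mono (fun h => ?_) h1
    obtain ⟨k, -, hk⟩ := Finset.exists_max_image (Finset.univ : Finset (Fin d))
      (fun i => |h i|) Finset.univ_nonempty
    have h2 := W_7d29a1_KL.SlEx46.lam_grow46 hρ β h k
    have h3 : ‖h‖ ≤ d * |h k| := by
      refine (norm_le_sum21 h).trans ?_
      refine (Finset.sum_le_sum fun i _ => hk i (Finset.mem_univ i)).trans (le_of_eq ?_)
      rw [Finset.sum_const, Finset.card_univ, Fintype.card_fin, nsmul_eq_mul]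
    have h4 : inner ℝ v h ≤ (∑ i, |v i|) * |h k| := by
      rw [PiLp.inner_apply, Finset.sum_mul]
      refine Finset.sum_le_sum fun i _ => ?_
      have h5 : inner ℝ (v i) (h i) = h i * v i := rfl
      rw [h5]
      calc h i * v i ≤ |h i * v i| := le_abs_self _
        _ = |v i| * |h i| := by rw [abs_mul, mul_comm]
        _ ≤ |v i| * |h k| := mul_le_mul_of_nonneg_left (hk i (Finset.mem_univ i)) (abs_nonneg _)
    have h6 : (1 - ∑ i, |v i|) / d * ‖h‖ ≤ (1 - ∑ i, |v i|) * |h k| := by
      rw [div_mul_eq_mul_div, div_le_iff₀ hd']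
      have := mul_le_mul_of_nonneg_left h3 (by linarith : (0 : ℝ) ≤ 1 - ∑ i, |v i|)
      linarith
    linarith
  obtain ⟨h, hh⟩ := hf.exists_forall_le hT
  refine ⟨h, fun k => ?_⟩
  have h1 := hh (h + k)
  rw [inner_add_right] at h1
  linarith

end O50

open O50 in
/-- **A nonempty open set of slopes, all of whose tilts are in very strong disorder.** -/
theorem opnV50 (hd : 0 < d) (hρ : EM ρ) (hnc : ∀ c : ℝ, ρ {c} ≠ 1) (hβ : 0 < β) :
    ∃ V : Set (Vec d), IsOpen V ∧ V.Nonempty ∧ ∀ v ∈ V,
      (∃ h : Vec d, ∀ k : Vec d, lam ρ β h + inner ℝ v k ≤ lam ρ β (h + k)) ∧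
      ∀ h : Vec d, (∀ k : Vec d, lam ρ β h + inner ℝ v k ≤ lam ρ β (h + k)) → VSD ρ β h := by
  set m1 := ∫ t, Real.exp (1 / 2 * β * t) ∂ρ with hm1
  set m2 := ∫ t, Real.exp (β * t) ∂ρ with hm2
  have hm1p : 0 < m1 := integral_exp_pos (hρ (1 / 2 * β))
  have hm2p : 0 < m2 := integral_exp_pos (hρ β)
  have hlt : m1 ^ 2 < m2 := half_lt72 hρ hnc hβ
  have hk : 0 < Real.log m2 - 2 * Real.log m1 := by
    have := Real.log_lt_log (pow_pos hm1p 2) hlt
    rw [Real.log_pow] at this
    push_cast at this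
    linarith
  obtain ⟨κ, hκ⟩ : ∃ κ : ℝ, κ = Real.log m2 - 2 * Real.log m1 := ⟨_, rfl⟩
  rw [← hκ] at hk
  obtain ⟨F, hF⟩ : ∃ F : ℝ, F = 2 * Real.log m1 := ⟨_, rfl⟩
  obtain ⟨b, hb⟩ : ∃ b : ℝ, b = β * ∫ x, x ∂ρ := ⟨_, rfl⟩
  have hd' : (0 : ℝ) < d := by exact_mod_cast hd
  set j : Fin d := ⟨0, hd⟩ with hj
  obtain ⟨t, ht0, ht⟩ : ∃ t : ℝ, 0 < t ∧ 4 * d * Real.exp (-(t / 2)) < κ / 4 := by
    have h1 : Tendsto (fun t : ℝ => 4 * (d : ℝ) * Real.exp (-(t / 2))) atTop (𝓝 (4 * d * 0)) := by
      refine Tendsto.const_mul _ (Real.tendsto_exp_neg_atTop_nhds_zero.comp ?_)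
      exact tendsto_id.atTop_div_const (by norm_num)
    rw [mul_zero] at h1
    have h2 := (h1.eventually (gt_mem_nhds (by linarith : 0 < κ / 4))).and
      (eventually_gt_atTop 0)
    obtain ⟨t, h3, h4⟩ := h2.exists
    exact ⟨t, h4, h3⟩
  obtain ⟨B, hB⟩ : ∃ B : ℝ, B = κ / 2 + 2 * |F - b| + t := ⟨_, rfl⟩
  have hB0 : 0 < B := by
    have := abs_nonneg (F - b)
    linarith
  obtain ⟨δ, hδ0, hδ1, hδ2⟩ : ∃ δ : ℝ, 0 < δ ∧ δ ≤ 1 / 2 ∧ δ * (t + B) ≤ κ / 4 := by
    refine ⟨min (1 / 2) (κ / 4 / (t + B)), lt_min (by norm_num) (by positivity), min_le_left _ _, ?_⟩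
    have h1 : min (1 / 2) (κ / 4 / (t + B)) ≤ κ / 4 / (t + B) := min_le_right _ _
    have h2 : 0 < t + B := by linarith
    rwa [le_div_iff₀ h2] at h1
  refine ⟨{v : Vec d | 1 - δ < v j ∧ ∑ i, |v i| < 1}, ?_, ?_, ?_⟩
  · have hci : ∀ i : Fin d, Continuous fun v : Vec d => v i := fun i =>
      (EuclideanSpace.proj (𝕜 := ℝ) i).continuous
    exact (isOpen_lt continuous_const (hci j)).inter
      (isOpen_lt (continuous_finsetSum _ fun i _ => (hci i).abs) continuous_const)
  · refine ⟨EuclideanSpace.single j (1 - δ / 2), ?_, ?_⟩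
    · have h1 : (EuclideanSpace.single j (1 - δ / 2) : Vec d) j = 1 - δ / 2 := by simp
      rw [h1]
      linarith
    · rw [Finset.sum_eq_single j]
      · have h1 : (EuclideanSpace.single j (1 - δ / 2) : Vec d) j = 1 - δ / 2 := by simp
        rw [h1, abs_of_pos (by linarith)]
        linarith
      · intro i _ hi
        simp [hi]
      · intro h
        exact absurd (Finset.mem_univ _) h
  · rintro v ⟨hv1, hv2⟩
    refine ⟨slope_ex hd hρ β v hv2, fun h hs => ?_⟩
    have : Nonempty (Fin d) := ⟨j⟩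
    obtain ⟨k, -, hk'⟩ := Finset.exists_max_image (Finset.univ : Finset (Fin d))
      (fun i => |h i|) Finset.univ_nonempty
    obtain ⟨H, hH⟩ : ∃ H : ℝ, H = |h k| := ⟨_, rfl⟩
    have hH0 : 0 ≤ H := by rw [hH]; exact abs_nonneg _
    have hHi : ∀ i, |h i| ≤ H := fun i => by rw [hH]; exact hk' i (Finset.mem_univ i)
    have hlow : H + b ≤ lam ρ β h := by
      rw [hH, hb]
      exact W_7d29a1_KL.SlEx46.lam_grow46 hρ β h k
    have hjH : h j ≤ H := (le_abs_self _).trans (hHi j)
    obtain ⟨T, hT⟩ : ∃ T : ℝ, T = t + (H - h j) := ⟨_, rfl⟩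
    obtain ⟨w, hw⟩ : ∃ w : Vec d, w = EuclideanSpace.single j T := ⟨_, rfl⟩
    have h1 := hs w
    have h2 : inner ℝ v w = T * v j := by
      rw [hw, EuclideanSpace.inner_single_right]
      simp
    have h3 := lam_half hd hρ β (h + w)
    have h4 := phi_up hd (h + w) j (H := H) (t := t) ht0
      (by rw [PiLp.add_apply, hw, PiLp.single_apply, if_pos rfl]; linarith)
      (fun i hi => by
        rw [PiLp.add_apply, hw, PiLp.single_apply, if_neg hi, add_zero]
        exact hHi i) hH0
    have h5 := phi_low hd h j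
    rw [h2] at h1
    rw [← hm1, ← hF] at h3
    have hT0 : 0 < T := by linarith
    have h6 : T * (1 - δ) ≤ T * v j := mul_le_mul_of_nonneg_left hv1.le hT0.le
    -- the gap
    have h7 : lam ρ β h ≤ h j + κ / 4 + F + δ * T := by nlinarith
    have h8 : H - h j ≤ B := by
      have h9 : δ * T ≤ 1 / 2 * T := mul_le_mul_of_nonneg_right hδ1 hT0.le
      have h10 := le_abs_self (F - b)
      linarith
    have h11 : δ * T ≤ κ / 4 := by
      refine le_trans ?_ hδ2
      refine mul_le_mul_of_nonneg_left ?_ hδ0.le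
      linarith
    have h12 : lam ρ β h < Real.log (Phi h) + Real.log m2 := by linarith
    exact h12

end Pool.Agent.W_7d29a1_SDP
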