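import Pool.Agent.W_7d29a1_SDP.DefsP51

/-!
Theorem SDP: the point to point leaf, with a radius at most one.
-/

namespace Pool.Agent.W_7d29a1_SDP

open MeasureTheory ProbabilityTheory Filter Topology Pool.Agent.W_MP_7d29a1_pr
  Pool.Agent.W_7d29a1_h46 Pool.Agent.W_7d29a1_h46u Pool.Agent.W_7d29a1_D2.B35
  Pool.Agent.W_7d29a1_Q29 Pool.Agent.W_7d29a1_NV Pool.Agent.W_7d29a1_P89
  Pool.Agent.W_7d29a1_SD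

/-- Leaf P, with `r₁ ≤ 1`. -/
def P2P1 (d : ℕ) (ρ : Measure ℝ) (β : ℝ) : Prop :=
  ∀ h v : Vec d, LP ρ β h v → ∀ κ : ℝ, 0 < κ → ∃ r₁ : ℝ, 0 < r₁ ∧ r₁ ≤ 1 ∧ ∃ t₀ : ℕ,
  ∀ (t : ℕ) (z : Site d), t₀ ≤ t → W_7d29a1_V.Rch t z → ‖emb z - (t : ℝ) • v‖ ≤ r₁ * t →
    (lam ρ β h - κ * r₁) * t ≤ W_7d29a1_V.aM ρ β h t z

end Pool.Agent.W_7d29a1_SDP
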